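import Pool.Agent.Lib.MP_6e2ba5_an.Cx.WDefs

/-! # The trilinear pairing `A3 W f g = ∫ W f g`

`W`, `g` are in `L²` and `f` is essentially bounded, so everything is Cauchy-Schwarz
(`integrable_mul`, `norm_integral_mul_le`: use the element `mulL f W` of `L²`, `f` is `BM`),
a.e. equalities for sums in `Lp` and linearity of the integral. -/

set_option autoImplicit false

open MeasureTheory Filter Topology Set
open scoped FourierTransform SchwartzMap InnerProductSpace ENNReal BoundedContinuousFunction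

noncomputable section

namespace FracScatC

open FracScat

theorem Bd.mono {C C' : ℝ} {f : HS} (h : Bd C f) (hC : C ≤ C') : Bd C' f := by
  unfold Bd at *
  filter_upwards [h] with x hx using hx.trans hC

theorem Bd.add {C C' : ℝ} {f g : HS} (hf : Bd C f) (hg : Bd C' g) : Bd (C + C') (f + g) := by
  unfold Bd at *
  filter_upwards [hf, hg, Lp.coeFn_add f g] with x h1 h2 h3
  rw [h3, Pi.add_apply]
  exact (norm_add_le _ _).trans (add_le_add h1 h2)

theorem Bd.sub {C C' : ℝ} {f g : HS} (hf : Bd C f) (hg : Bd C' g) : Bd (C + C') (f - g) := by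
  unfold Bd at *
  filter_upwards [hf, hg, Lp.coeFn_sub f g] with x h1 h2 h3
  rw [h3, Pi.sub_apply]
  exact (norm_sub_le _ _).trans (add_le_add h1 h2)

private theorem A3Api_BM {C : ℝ} {f : HS} (hf : Bd C f) : BM (f : E3 → ℂ) :=
  ⟨(Lp.memLp f).1, C, hf⟩

theorem A3_integrable {C : ℝ} {W f g : HS} (hf : Bd C f) :
    Integrable (fun x => (W : E3 → ℂ) x * ((f : E3 → ℂ) x * (g : E3 → ℂ) x)) := by
  exact (Lp.memLp W).integrable_mul ((A3Api_BM hf).memLp_mul g)

theorem A3_comm (W f g : HS) : A3 W f g = A3 W g f := by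
  unfold A3
  refine integral_congr_ae (Eventually.of_forall fun x => ?_)
  simp only
  rw [mul_comm ((f : E3 → ℂ) x)]

theorem A3_norm {C : ℝ} (hC : 0 ≤ C) {W f g : HS} (hf : Bd C f) :
    ‖A3 W f g‖ ≤ C * ‖W‖ * ‖g‖ := by
  have h1 : A3 W f g = ∫ x, (W : E3 → ℂ) x * (mulL (f : E3 → ℂ) g : E3 → ℂ) x := by
    unfold A3
    refine integral_congr_ae ?_
    filter_upwards [mulL_coe (A3Api_BM hf) g] with x hx
    rw [hx]
  rw [h1]
  refine (norm_integral_mul_le W (mulL (f : E3 → ℂ) g)).trans ?_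
  have h2 : ‖mulL (f : E3 → ℂ) g‖ ≤ C * ‖g‖ :=
    ((mulL (f : E3 → ℂ)).le_opNorm g).trans
      (mul_le_mul_of_nonneg_right (norm_mulL_le (A3Api_BM hf) hC hf) (norm_nonneg _))
  calc ‖W‖ * ‖mulL (f : E3 → ℂ) g‖ ≤ ‖W‖ * (C * ‖g‖) :=
        mul_le_mul_of_nonneg_left h2 (norm_nonneg _)
    _ = C * ‖W‖ * ‖g‖ := by ring

theorem A3_add_right {C : ℝ} {W f g g' : HS} (hf : Bd C f) :
    A3 W f (g + g') = A3 W f g + A3 W f g' := by
  unfold A3
  rw [← integral_add (A3_integrable hf) (A3_integrable hf)]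
  refine integral_congr_ae ?_
  filter_upwards [Lp.coeFn_add g g'] with x hx
  rw [hx, Pi.add_apply]
  ring

theorem A3_add_left {C C' : ℝ} {W f f' g : HS} (hf : Bd C f) (hf' : Bd C' f') :
    A3 W (f + f') g = A3 W f g + A3 W f' g := by
  unfold A3
  rw [← integral_add (A3_integrable hf) (A3_integrable hf')]
  refine integral_congr_ae ?_
  filter_upwards [Lp.coeFn_add f f'] with x hx
  rw [hx, Pi.add_apply]
  ring

end FracScatC

end
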