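import Pool.Agent.Lib.MP_6e2ba5_an.Cx.KopRep
import Pool.Agent.Lib.MP_6e2ba5_an.Cx.A3Api

/-! # The pairing in terms of Fourier densities

`F = ftX W`, `F η = 𝓕 W η = ∫ exp(-2πi η·x) W x dx` (`ftX_apply`, `HB_integrable`), `W` is
integrable and vanishes outside the ball (`mem_HB`: `W = indB · W` a.e.).
`A3_ee`: `∫ W e e = ∫ W(x) exp(2πi 2ξ·x) dx`.
`A3_eK`: insert `Kop_rep`, `W · indB = W` a.e., Fubini for
`W(x) exp(2πi ξ·x) exp(2πi ζ·x) P(ζ)`, `W` and `P` integrable: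
`∫ P(ζ) (∫ W(x) exp(2πi (ζ+ξ)·x) dx) dζ = ∫ P(ζ) F(-ζ-ξ) dζ`.
`A3_KK`: the same with two densities; the triple function
`W(x) P₁(ζ₁) P₂(ζ₂) exp(2πi (ζ₁+ζ₂)·x)` is integrable (do it in two steps: for fixed `ζ₁`
write `∫ W(x) exp(2πi ζ₁·x) h₂(x) dx` as in `A3_eK`, with `h₂ = ∫ efun ζ₂ x P₂(ζ₂) dζ₂` bounded). -/

set_option autoImplicit false

open MeasureTheory Filter Topology Set
open scoped FourierTransform SchwartzMap InnerProductSpace ENNReal BoundedContinuousFunction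

noncomputable section

namespace FracScatC

open FracScat

private theorem A3F_add (ξ ζ x : E3) : efun ξ x * efun ζ x = efun (ξ + ζ) x := by
  unfold efun
  rw [← Complex.exp_add, inner_add_left]
  congr 1
  push_cast
  ring

private theorem A3F_ft (W : E3 → ℂ) (η : E3) : 𝓕 W η = ∫ x, efun (-η) x * W x := by
  rw [Real.fourier_eq']
  refine integral_congr_ae (Eventually.of_forall fun x => ?_)
  beta_reduce
  unfold efun
  rw [smul_eq_mul, inner_neg_left, real_inner_comm]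
  congr 3
  push_cast
  ring

private theorem A3F_cont : Continuous fun p : E3 × E3 => efun p.2 p.1 := by
  unfold efun
  fun_prop

private theorem A3F_int {W P : E3 → ℂ} (hW : Integrable W) (hP : Integrable P) :
    Integrable (fun p : E3 × E3 => efun p.2 p.1 * (W p.1 * P p.2))
      ((volume : Measure E3).prod (volume : Measure E3)) :=
  (hW.mul_prod hP).bdd_mul (c := 1) A3F_cont.aestronglyMeasurable
    (Eventually.of_forall fun p => (norm_efun p.2 p.1).le)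

private theorem A3F_swap {W P : E3 → ℂ} (hW : Integrable W) (hP : Integrable P) :
    ∫ x, W x * ∫ ζ, efun ζ x * P ζ = ∫ ζ, P ζ * ∫ x, efun ζ x * W x := by
  have h := integral_integral_swap (f := fun x ζ => efun ζ x * (W x * P ζ)) (A3F_int hW hP)
  have h1 : ∀ x : E3, W x * ∫ ζ, efun ζ x * P ζ = ∫ ζ, efun ζ x * (W x * P ζ) := by
    intro x
    rw [← integral_const_mul]
    refine integral_congr_ae (Eventually.of_forall fun ζ => ?_)
    beta_reduce
    ring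
  have h2 : ∀ ζ : E3, P ζ * ∫ x, efun ζ x * W x = ∫ x, efun ζ x * (W x * P ζ) := by
    intro ζ
    rw [← integral_const_mul]
    refine integral_congr_ae (Eventually.of_forall fun x => ?_)
    beta_reduce
    ring
  simp only [h1, h2]
  exact h

private theorem A3F_mod {W : E3 → ℂ} (hW : Integrable W) (ξ : E3) :
    Integrable fun x => efun ξ x * W x :=
  hW.bdd_mul (c := 1) (efun_cont ξ).aestronglyMeasurable
    (Eventually.of_forall fun x => (norm_efun ξ x).le)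

private theorem A3F_mod_ft (W : E3 → ℂ) (ξ ζ : E3) :
    ∫ x, efun ζ x * (efun ξ x * W x) = 𝓕 W (-ζ - ξ) := by
  rw [A3F_ft]
  refine integral_congr_ae (Eventually.of_forall fun x => ?_)
  beta_reduce
  rw [← mul_assoc, A3F_add]
  congr 2
  abel

private theorem A3F_prod {W P : E3 → ℂ} (hW : Integrable W) (hP : Integrable P) :
    Integrable fun x => W x * ∫ ζ, efun ζ x * P ζ := by
  refine (A3F_int hW hP).integral_prod_left.congr (Eventually.of_forall fun x => ?_)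
  beta_reduce
  rw [← integral_const_mul]
  refine integral_congr_ae (Eventually.of_forall fun ζ => ?_)
  beta_reduce
  ring

private theorem A3F_W {r : ℝ} {W : HS} (hW : W ∈ HB r) :
    ∀ᵐ x ∂(volume : Measure E3), indB r x * (W : E3 → ℂ) x = (W : E3 → ℂ) x := by
  have h := mulL_coe (indB_BM r) W
  rw [mem_HB.1 hW] at h
  filter_upwards [h] with x hx
  exact hx.symm

theorem A3_ee {r : ℝ} {W : HS} (hW : W ∈ HB r) (ξ : E3) :
    A3 W (eH r ξ) (eH r ξ) = ftX W (-(2 : ℝ) • ξ) := by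
  rw [ftX_apply (HB_integrable hW), A3F_ft]
  unfold A3
  refine integral_congr_ae ?_
  filter_upwards [A3F_W hW, eH_coe r ξ] with x h1 h2
  rw [h2]
  have h3 : -(-(2 : ℝ) • ξ) = ξ + ξ := by
    rw [neg_smul, neg_neg, two_smul]
  rw [h3, ← A3F_add]
  have h4 : (W : E3 → ℂ) x * (efun ξ x * indB r x * (efun ξ x * indB r x)) =
      efun ξ x * efun ξ x * (indB r x * (indB r x * (W : E3 → ℂ) x)) := by ring
  rw [h4, h1, h1]

theorem A3_eK {s : ℝ} (h0 : 3 / 4 < s) (h2 : s < 2) {r : ℝ} (hr : 0 ≤ r) {ξ : E3}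
    (hξ : 1 ≤ 2 * Real.pi * ‖ξ‖) {W : HS} (hW : W ∈ HB r) {g : HS} (hg : mulL (indB r) g = g) :
    A3 W (eH r ξ) (Kop s r (kx ξ) g) = lam ξ (PL s r ξ g) (ftX W) := by
  have hWi := HB_integrable hW
  have hP : Integrable (PL s r ξ g : E3 → ℂ) := L1.integrable_coeFn _
  have e1 : A3 W (eH r ξ) (Kop s r (kx ξ) g) =
      ∫ x, (efun ξ x * (W : E3 → ℂ) x) * ∫ ζ, efun ζ x * (PL s r ξ g : E3 → ℂ) ζ := by
    unfold A3
    refine integral_congr_ae ?_
    filter_upwards [A3F_W hW, eH_coe r ξ, Kop_rep h0 h2 hr hξ hg] with x a1 a2 a3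
    rw [a2, a3]
    have a4 : (W : E3 → ℂ) x * (efun ξ x * indB r x *
        (indB r x * ∫ ζ, efun ζ x * (PL s r ξ g : E3 → ℂ) ζ)) =
        efun ξ x * (indB r x * (indB r x * (W : E3 → ℂ) x)) *
          ∫ ζ, efun ζ x * (PL s r ξ g : E3 → ℂ) ζ := by ring
    rw [a4, a1, a1]
  rw [e1, A3F_swap (A3F_mod hWi ξ) hP]
  unfold lam
  refine integral_congr_ae (Eventually.of_forall fun ζ => ?_)
  beta_reduce
  rw [A3F_mod_ft, ftX_apply hWi]

theorem A3_KK {s : ℝ} (h0 : 3 / 4 < s) (h2 : s < 2) {r : ℝ} (hr : 0 ≤ r) {ξ : E3}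
    (hξ : 1 ≤ 2 * Real.pi * ‖ξ‖) {W : HS} (hW : W ∈ HB r) {g₁ g₂ : HS}
    (hg₁ : mulL (indB r) g₁ = g₁) (hg₂ : mulL (indB r) g₂ = g₂) :
    A3 W (Kop s r (kx ξ) g₁) (Kop s r (kx ξ) g₂) =
      bet (PL s r ξ g₁) (PL s r ξ g₂) (ftX W) := by
  have hWi := HB_integrable hW
  have hP1 : Integrable (PL s r ξ g₁ : E3 → ℂ) := L1.integrable_coeFn _
  have hP2 : Integrable (PL s r ξ g₂ : E3 → ℂ) := L1.integrable_coeFn _
  have e1 : A3 W (Kop s r (kx ξ) g₁) (Kop s r (kx ξ) g₂) =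
      ∫ x, ((W : E3 → ℂ) x * ∫ ζ, efun ζ x * (PL s r ξ g₂ : E3 → ℂ) ζ) *
        ∫ ζ, efun ζ x * (PL s r ξ g₁ : E3 → ℂ) ζ := by
    unfold A3
    refine integral_congr_ae ?_
    filter_upwards [A3F_W hW, Kop_rep h0 h2 hr hξ hg₁, Kop_rep h0 h2 hr hξ hg₂] with x a1 a2 a3
    rw [a2, a3]
    have a4 : (W : E3 → ℂ) x * (indB r x * (∫ ζ, efun ζ x * (PL s r ξ g₁ : E3 → ℂ) ζ) *
        (indB r x * ∫ ζ, efun ζ x * (PL s r ξ g₂ : E3 → ℂ) ζ)) =
        ((indB r x * (indB r x * (W : E3 → ℂ) x)) *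
          ∫ ζ, efun ζ x * (PL s r ξ g₂ : E3 → ℂ) ζ) *
          ∫ ζ, efun ζ x * (PL s r ξ g₁ : E3 → ℂ) ζ := by ring
    rw [a4, a1, a1]
  rw [e1, A3F_swap (A3F_prod hWi hP2) hP1]
  unfold bet
  refine integral_congr_ae (Eventually.of_forall fun ζ₁ => ?_)
  beta_reduce
  congr 1
  have e2 : (∫ x, efun ζ₁ x * ((W : E3 → ℂ) x * ∫ ζ, efun ζ x * (PL s r ξ g₂ : E3 → ℂ) ζ)) =
      ∫ x, (efun ζ₁ x * (W : E3 → ℂ) x) * ∫ ζ, efun ζ x * (PL s r ξ g₂ : E3 → ℂ) ζ :=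
    integral_congr_ae (Eventually.of_forall fun x => (mul_assoc _ _ _).symm)
  rw [e2, A3F_swap (A3F_mod hWi ζ₁) hP2]
  refine integral_congr_ae (Eventually.of_forall fun ζ₂ => ?_)
  beta_reduce
  have e3 : -ζ₁ - ζ₂ = -ζ₂ - ζ₁ := by abel
  rw [A3F_mod_ft, ftX_apply hWi, e3]

end FracScatC

end
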