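import Pool.Agent.Lib.MP_6e2ba5_an.Stmt

/-! # An integral of a radial function against `(1+|ζ-ξ|)^(-2σ)`

Let `κ = ‖ξ‖ > 0`. Region `‖ζ‖ > 2κ`: `‖ζ-ξ‖ ≥ ‖ζ‖-κ ≥ κ`, so the weight is `≤ κ^(-2σ)`; then polar
coordinates (`∫⁻ G(‖ζ‖) dζ = 4π ∫⁻_{ρ>0} G(ρ) ρ² dρ`, through the polar coordinate measure
`Measure.toSphere`/`measurePreserving_homeomorphUnitSphereProd`, see the proof of
`integral_fun_norm_addHaar`).
Region `‖ζ‖ ≤ 2κ`: rotate so that `ξ = κ e₀` (a linear isometry equivalence taking the unit vector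
`ξ/κ` to `e₀`; it preserves the volume), split `ζ = (t, w)`, `w ∈ ℝ²`, `t = ζ 0`:
`‖ζ‖² = t²+|w|²`, `‖ζ-ξ‖² = ‖ζ‖² - 2κt + κ²`. With `u = |w|²` (polar coordinates in the plane) and
`ρ² = t²+u`:
`∫⁻ G(t,‖ζ‖) dζ = ∫⁻_t ∫⁻_{ρ>|t|} 2πρ G(t,ρ) dρ dt = ∫⁻_{ρ>0} 2πρ ∫⁻_{|t|<ρ} G(t,ρ) dt dρ`,
`G(t,ρ) = F(ρ) (1+√(ρ²+κ²-2κt))^(-2σ) ≤ F(ρ) (ρ²+κ²-2κt)^(-σ)`, and
`∫_{-ρ}^{ρ} (ρ²+κ²-2κt)^(-σ) dt = ((ρ+κ)^(2-2σ) - |ρ-κ|^(2-2σ))/(2κ(1-σ)) ≤ (3κ)^(2-2σ)/(2κ(1-σ))`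
for `ρ ≤ 2κ`. So the integral over this region is `≤ C κ^(1-2σ) ∫⁻_{(0,2κ]} F(ρ) ρ dρ`.
(The private lemmas `rad_slice`, `rad_plane` of `Radial.lean` are Bochner versions of the slicing.) -/

set_option autoImplicit false

open MeasureTheory Filter Topology Set
open scoped FourierTransform SchwartzMap InnerProductSpace ENNReal BoundedContinuousFunction

noncomputable section

namespace FracScatC

open FracScat

private theorem bip_norm (t : ℝ) (p : ℝ × ℝ) :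
    ‖(WithLp.toLp 2 ((MeasurableEquiv.piFinSuccAbove (fun _ : Fin 3 => ℝ) 0).symm
      (t, (MeasurableEquiv.finTwoArrow (α := ℝ)).symm p)) : E3)‖ =
      √(t ^ 2 + (p.1 ^ 2 + p.2 ^ 2)) := by
  rw [EuclideanSpace.norm_eq]
  congr 1
  rw [Fin.sum_univ_succ, Fin.sum_univ_two]
  simp [MeasurableEquiv.piFinSuccAbove, Fin.insertNthEquiv, MeasurableEquiv.finTwoArrow]

private theorem bip_slice (G : ℝ → ℝ → ℝ≥0∞) (hG : Measurable (Function.uncurry G)) :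
    ∫⁻ x : E3, G (x 0) ‖x‖ = ∫⁻ t : ℝ, ∫⁻ p : ℝ × ℝ, G t (√(t ^ 2 + (p.1 ^ 2 + p.2 ^ 2))) := by
  have mp1 := PiLp.volume_preserving_toLp (Fin 3)
  have mp2 := (volume_preserving_piFinSuccAbove (fun _ : Fin 3 => ℝ) 0).symm
  have mp3 := (volume_preserving_finTwoArrow ℝ).symm
  have hg : Measurable (fun x : E3 => G (x 0) ‖x‖) :=
    hG.comp ((by fun_prop : Measurable fun x : E3 => (x 0, ‖x‖)))
  have hg1 : Measurable (fun y : Fin 3 → ℝ => G ((WithLp.toLp 2 y : E3) 0)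
      ‖(WithLp.toLp 2 y : E3)‖) := hg.comp mp1.measurable
  have e1 := mp1.lintegral_comp hg
  have e2 := mp2.lintegral_comp hg1
  rw [← e1]
  refine e2.symm.trans ?_
  rw [Measure.volume_eq_prod]
  have hg2 : Measurable (fun z : ℝ × (Fin 2 → ℝ) => G ((WithLp.toLp 2
      ((MeasurableEquiv.piFinSuccAbove (fun _ : Fin 3 => ℝ) 0).symm z) : E3) 0)
      ‖(WithLp.toLp 2 ((MeasurableEquiv.piFinSuccAbove (fun _ : Fin 3 => ℝ) 0).symm z) : E3)‖) :=
    hg1.comp mp2.measurable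
  refine (lintegral_prod _ hg2.aemeasurable).trans ?_
  refine lintegral_congr fun t => ?_
  have hg3 : Measurable (fun w : Fin 2 → ℝ => G ((WithLp.toLp 2
      ((MeasurableEquiv.piFinSuccAbove (fun _ : Fin 3 => ℝ) 0).symm (t, w)) : E3) 0)
      ‖(WithLp.toLp 2 ((MeasurableEquiv.piFinSuccAbove (fun _ : Fin 3 => ℝ) 0).symm
        (t, w)) : E3)‖) := hg2.comp measurable_prodMk_left
  have e3 := mp3.lintegral_comp hg3
  refine e3.symm.trans ?_
  refine lintegral_congr fun p => ?_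
  rw [bip_norm]
  rfl

private theorem bip_polar (h : ℝ → ℝ≥0∞) (hh : Measurable h) :
    ∫⁻ p : ℝ × ℝ, h (√(p.1 ^ 2 + p.2 ^ 2)) =
      ENNReal.ofReal (2 * Real.pi) * ∫⁻ r in Ioi (0 : ℝ), ENNReal.ofReal r * h r := by
  rw [← lintegral_comp_polarCoord_symm]
  have h1 : ∀ p ∈ polarCoord.target, ENNReal.ofReal p.1 •
      h (√((polarCoord.symm p).1 ^ 2 + (polarCoord.symm p).2 ^ 2)) =
      ENNReal.ofReal p.1 * h p.1 := by
    rintro ⟨r, θ⟩ hp
    rw [polarCoord_target] at hp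
    have hr : 0 < r := hp.1
    have h2 : (polarCoord.symm (r, θ)).1 ^ 2 + (polarCoord.symm (r, θ)).2 ^ 2 = r ^ 2 := by
      rw [polarCoord_symm_apply]
      have := Real.sin_sq_add_cos_sq θ
      calc (r * Real.cos θ) ^ 2 + (r * Real.sin θ) ^ 2 =
          r ^ 2 * (Real.sin θ ^ 2 + Real.cos θ ^ 2) := by ring
        _ = r ^ 2 := by rw [this, mul_one]
    rw [h2, Real.sqrt_sq hr.le, smul_eq_mul]
  rw [setLIntegral_congr_fun polarCoord.open_target.measurableSet h1, polarCoord_target,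
    Measure.volume_eq_prod, ← Measure.prod_restrict]
  have hm : Measurable (fun p : ℝ × ℝ => ENNReal.ofReal p.1 * h p.1) := by
    refine Measurable.mul ?_ (hh.comp measurable_fst)
    fun_prop
  rw [lintegral_prod _ hm.aemeasurable]
  have h3 : ∀ r : ℝ, ∫⁻ _ : ℝ in Ioo (-Real.pi) Real.pi, ENNReal.ofReal r * h r =
      ENNReal.ofReal (2 * Real.pi) * (ENNReal.ofReal r * h r) := by
    intro r
    rw [setLIntegral_const, Real.volume_Ioo, mul_comm]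
    congr 2
    ring
  simp only [h3]
  rw [lintegral_const_mul]
  exact (by fun_prop : Measurable fun r : ℝ => ENNReal.ofReal r).mul hh

private theorem bip_sub (t : ℝ) (h : ℝ → ℝ≥0∞) :
    ∫⁻ r in Ioi (0 : ℝ), ENNReal.ofReal r * h (√(t ^ 2 + r ^ 2)) =
      ∫⁻ ρ in Ioi |t|, ENNReal.ofReal ρ * h ρ := by
  have hpos : ∀ r ∈ Ioi (0 : ℝ), 0 < t ^ 2 + r ^ 2 := fun r hr => by
    have : (0 : ℝ) < r := hr
    positivity
  have himg : (fun r : ℝ => √(t ^ 2 + r ^ 2)) '' Ioi (0 : ℝ) = Ioi |t| := by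
    ext ρ
    constructor
    · rintro ⟨r, hr, rfl⟩
      have hr0 : (0 : ℝ) < r := hr
      change |t| < √(t ^ 2 + r ^ 2)
      rw [Real.lt_sqrt (abs_nonneg t), sq_abs]
      have : 0 < r ^ 2 := by positivity
      linarith
    · intro hρ
      have hρ' : |t| < ρ := hρ
      have hρ0 : 0 < ρ := (abs_nonneg t).trans_lt hρ'
      have h1 : t ^ 2 < ρ ^ 2 := by
        rw [← sq_abs t]
        exact pow_lt_pow_left₀ hρ' (abs_nonneg t) two_ne_zero
      refine ⟨√(ρ ^ 2 - t ^ 2), ?_, ?_⟩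
      · exact Real.sqrt_pos.2 (by linarith)
      · change √(t ^ 2 + √(ρ ^ 2 - t ^ 2) ^ 2) = ρ
        rw [Real.sq_sqrt (by linarith)]
        have : t ^ 2 + (ρ ^ 2 - t ^ 2) = ρ ^ 2 := by ring
        rw [this, Real.sqrt_sq hρ0.le]
  have hd : ∀ r ∈ Ioi (0 : ℝ), HasDerivWithinAt (fun r : ℝ => √(t ^ 2 + r ^ 2))
      (r / √(t ^ 2 + r ^ 2)) (Ioi 0) r := by
    intro r hr
    have h1 : HasDerivAt (fun r : ℝ => t ^ 2 + r ^ 2) (2 * r) r := by
      simpa using (hasDerivAt_pow 2 r).const_add (t ^ 2)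
    have h2 := h1.sqrt (hpos r hr).ne'
    refine (h2.congr_deriv ?_).hasDerivWithinAt
    have h3 : 0 < √(t ^ 2 + r ^ 2) := Real.sqrt_pos.2 (hpos r hr)
    field_simp
  have hinj : InjOn (fun r : ℝ => √(t ^ 2 + r ^ 2)) (Ioi 0) := by
    intro r hr r' hr' hrr
    have hr0 : (0 : ℝ) < r := hr
    have hr0' : (0 : ℝ) < r' := hr'
    have h1 : √(t ^ 2 + r ^ 2) = √(t ^ 2 + r' ^ 2) := hrr
    rw [Real.sqrt_inj (hpos r hr).le (hpos r' hr').le] at h1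
    have h2 : r ^ 2 = r' ^ 2 := by linarith
    exact (pow_left_inj₀ hr0.le hr0'.le two_ne_zero).1 h2
  rw [← himg, lintegral_image_eq_lintegral_abs_deriv_mul measurableSet_Ioi hd hinj]
  refine setLIntegral_congr_fun measurableSet_Ioi fun r hr => ?_
  have hr0 : (0 : ℝ) < r := hr
  have h3 : 0 < √(t ^ 2 + r ^ 2) := Real.sqrt_pos.2 (hpos r hr)
  change _ = ENNReal.ofReal |r / √(t ^ 2 + r ^ 2)| *
    (ENNReal.ofReal (√(t ^ 2 + r ^ 2)) * h (√(t ^ 2 + r ^ 2)))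
  rw [← mul_assoc, ← ENNReal.ofReal_mul (abs_nonneg _), abs_of_pos (by positivity),
    div_mul_cancel₀ _ h3.ne']

private theorem bip_radial (G : ℝ → ℝ → ℝ≥0∞) (hG : Measurable (Function.uncurry G)) :
    ∫⁻ x : E3, G (x 0) ‖x‖ = ENNReal.ofReal (2 * Real.pi) *
      ∫⁻ ρ in Ioi (0 : ℝ), ENNReal.ofReal ρ * ∫⁻ t in Ioo (-ρ) ρ, G t ρ := by
  have hGt : ∀ t, Measurable (G t) := fun t => hG.comp measurable_prodMk_left
  rw [bip_slice G hG]
  have h1 : ∀ t : ℝ, ∫⁻ p : ℝ × ℝ, G t (√(t ^ 2 + (p.1 ^ 2 + p.2 ^ 2))) =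
      ENNReal.ofReal (2 * Real.pi) * ∫⁻ ρ : ℝ, (if |t| < ρ then ENNReal.ofReal ρ * G t ρ else 0) := by
    intro t
    have h2 := bip_polar (fun r => G t (√(t ^ 2 + r ^ 2))) ((hGt t).comp (by fun_prop))
    have h3 : ∀ p : ℝ × ℝ, √(p.1 ^ 2 + p.2 ^ 2) ^ 2 = p.1 ^ 2 + p.2 ^ 2 := fun p =>
      Real.sq_sqrt (by positivity)
    simp only [h3] at h2
    rw [h2, bip_sub t (G t), ← lintegral_indicator measurableSet_Ioi]
    congr 1
  simp only [h1]
  have hm : Measurable (Function.uncurry fun t ρ : ℝ =>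
      (if |t| < ρ then ENNReal.ofReal ρ * G t ρ else 0)) := by
    refine Measurable.ite (measurableSet_lt (by fun_prop) (by fun_prop)) ?_ measurable_const
    exact (by fun_prop : Measurable fun p : ℝ × ℝ => ENNReal.ofReal p.2).mul hG
  have hm2 : Measurable (fun t : ℝ => ∫⁻ ρ : ℝ,
      (if |t| < ρ then ENNReal.ofReal ρ * G t ρ else 0)) := hm.lintegral_prod_right'
  rw [lintegral_const_mul _ hm2, lintegral_lintegral_swap hm.aemeasurable]
  congr 1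
  rw [← lintegral_indicator measurableSet_Ioi]
  refine lintegral_congr fun ρ => ?_
  by_cases hρ : 0 < ρ
  · rw [indicator_of_mem (show ρ ∈ Ioi (0 : ℝ) from hρ)]
    have h4 : ∀ t : ℝ, (if |t| < ρ then ENNReal.ofReal ρ * G t ρ else 0) =
        (Ioo (-ρ) ρ).indicator (fun t => ENNReal.ofReal ρ * G t ρ) t := by
      intro t
      by_cases ht : |t| < ρ
      · have hm3 : t ∈ Ioo (-ρ) ρ := abs_lt.1 ht
        rw [if_pos ht, indicator_of_mem hm3]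
      · have hm3 : t ∉ Ioo (-ρ) ρ := fun h => ht (abs_lt.2 h)
        rw [if_neg ht, indicator_of_notMem hm3]
    simp only [h4]
    rw [lintegral_indicator measurableSet_Ioo, lintegral_const_mul]
    exact hG.comp measurable_prodMk_right
  · rw [indicator_of_notMem (show ρ ∉ Ioi (0 : ℝ) from hρ)]
    have h4 : ∀ t : ℝ, (if |t| < ρ then ENNReal.ofReal ρ * G t ρ else 0) = 0 := by
      intro t
      rw [if_neg]
      intro ht
      exact hρ ((abs_nonneg t).trans_lt ht)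
    simp only [h4]
    exact lintegral_zero

private theorem bip_t {σ κ ρ : ℝ} (h0 : 0 ≤ σ) (h1 : σ < 1) (hκ : 0 < κ) (hρ : 0 < ρ)
    (hρκ : ρ ≤ 2 * κ) :
    ∫⁻ t in Ioo (-ρ) ρ, ENNReal.ofReal ((ρ ^ 2 + κ ^ 2 - 2 * κ * t) ^ (-σ)) ≤
      ENNReal.ofReal ((3 * κ) ^ (2 - 2 * σ) / (2 * κ * (1 - σ))) := by
  set D : ℝ := ρ ^ 2 + κ ^ 2 with hD
  set c : ℝ := 2 * κ with hc
  have hc0 : 0 < c := by positivity
  have hint : IntervalIntegrable (fun t : ℝ => (D - c * t) ^ (-σ)) volume (-ρ) ρ := by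
    have h2 : IntervalIntegrable (fun x : ℝ => x ^ (-σ)) volume (D + c * ρ) (D - c * ρ) :=
      intervalIntegral.intervalIntegrable_rpow' (by linarith)
    have h3 := (h2.comp_sub_left D).comp_mul_left (c := c)
    have e1 : (D - (D + c * ρ)) / c = -ρ := by field_simp; ring
    have e2 : (D - (D - c * ρ)) / c = ρ := by field_simp; ring
    rwa [e1, e2] at h3
  have hA : 0 ≤ D - c * ρ := by
    have : D - c * ρ = (ρ - κ) ^ 2 := by rw [hD, hc]; ring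
    rw [this]; positivity
  have hnn : ∀ t ∈ Ioc (-ρ) ρ, 0 ≤ (D - c * t) ^ (-σ) := by
    intro t ht
    apply Real.rpow_nonneg
    have : c * t ≤ c * ρ := mul_le_mul_of_nonneg_left ht.2 hc0.le
    linarith
  have hval : ∫ t in (-ρ)..ρ, (D - c * t) ^ (-σ) ≤ (3 * κ) ^ (2 - 2 * σ) / (2 * κ * (1 - σ)) := by
    rw [intervalIntegral.integral_comp_sub_mul (fun x : ℝ => x ^ (-σ)) hc0.ne' D,
      integral_rpow (Or.inl (by linarith))]
    have e1 : -σ + 1 = 1 - σ := by ring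
    rw [e1, smul_eq_mul]
    have h2 : 0 ≤ (D - c * ρ) ^ (1 - σ) := Real.rpow_nonneg hA _
    have h3 : (D - c * -ρ) ^ (1 - σ) ≤ (3 * κ) ^ (2 - 2 * σ) := by
      have e2 : D - c * -ρ = (ρ + κ) ^ 2 := by rw [hD, hc]; ring
      have e3 : (3 * κ) ^ (2 - 2 * σ) = ((3 * κ) ^ 2) ^ (1 - σ) := by
        rw [← Real.rpow_natCast, ← Real.rpow_mul (by positivity)]
        congr 1
        push_cast
        ring
      rw [e2, e3]
      refine Real.rpow_le_rpow (by positivity) ?_ (by linarith)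
      exact pow_le_pow_left₀ (by positivity) (by linarith) 2
    have h4 : 0 < 1 - σ := by linarith
    rw [inv_mul_eq_div, div_div, mul_comm (1 - σ) c]
    refine div_le_div_of_nonneg_right (by linarith) (by positivity)
  calc ∫⁻ t in Ioo (-ρ) ρ, ENNReal.ofReal ((D - c * t) ^ (-σ)) ≤
      ∫⁻ t in Ioc (-ρ) ρ, ENNReal.ofReal ((D - c * t) ^ (-σ)) :=
        lintegral_mono_set Ioo_subset_Ioc_self
    _ = ENNReal.ofReal (∫ t in Ioc (-ρ) ρ, (D - c * t) ^ (-σ)) := by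
        rw [ofReal_integral_eq_lintegral_ofReal]
        · exact (intervalIntegrable_iff_integrableOn_Ioc_of_le (by linarith)).1 hint
        · exact (ae_restrict_iff' measurableSet_Ioc).2 (Eventually.of_forall hnn)
    _ = ENNReal.ofReal (∫ t in (-ρ)..ρ, (D - c * t) ^ (-σ)) := by
        rw [intervalIntegral.integral_of_le (by linarith)]
    _ ≤ _ := ENNReal.ofReal_le_ofReal hval

theorem bipolar {σ : ℝ} (h0 : 0 ≤ σ) (h1 : σ < 1) : ∃ C : ℝ, 0 ≤ C ∧ ∀ ξ : E3, ξ ≠ 0 →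
    ∀ F : ℝ → ℝ≥0∞, Measurable F →
    ∫⁻ ζ : E3, F ‖ζ‖ * ENNReal.ofReal ((1 + ‖ζ - ξ‖) ^ (-(2 * σ))) ≤
      ENNReal.ofReal (C * ‖ξ‖ ^ (-(2 * σ))) *
        (ENNReal.ofReal ‖ξ‖ * (∫⁻ ρ in Ioc 0 (2 * ‖ξ‖), F ρ * ENNReal.ofReal ρ) +
          ∫⁻ ρ in Ioi (2 * ‖ξ‖), F ρ * ENNReal.ofReal (ρ ^ 2)) := by
  have hσ : 0 < 1 - σ := by linarith
  have hpi := Real.pi_pos
  refine ⟨9 * Real.pi / (1 - σ), by positivity, fun ξ hξ F hF => ?_⟩
  obtain ⟨κ, hκe⟩ : ∃ κ : ℝ, κ = ‖ξ‖ := ⟨_, rfl⟩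
  have hκ : 0 < κ := by rw [hκe]; exact norm_pos_iff.2 hξ
  rw [← hκe]
  obtain ⟨η, hη⟩ : ∃ η : E3, η = EuclideanSpace.single 0 κ := ⟨_, rfl⟩
  have hηn : ‖η‖ = κ := by
    rw [hη, PiLp.norm_single, Real.norm_of_nonneg hκ.le]
  set L := (ℝ ∙ (ξ - η))ᗮ.reflection with hL
  have hA : L ξ = η := Submodule.reflection_sub (by rw [hηn, hκe])
  -- rotate
  have hHm : Measurable (fun ζ : E3 => F ‖ζ‖ * ENNReal.ofReal ((1 + ‖ζ - η‖) ^ (-(2 * σ)))) := by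
    refine (hF.comp measurable_norm).mul ?_
    refine ENNReal.measurable_ofReal.comp ?_
    have : Measurable fun ζ : E3 => 1 + ‖ζ - η‖ := by fun_prop
    exact this.pow_const _
  have hrot : ∫⁻ ζ : E3, F ‖ζ‖ * ENNReal.ofReal ((1 + ‖ζ - ξ‖) ^ (-(2 * σ))) =
      ∫⁻ ζ : E3, F ‖ζ‖ * ENNReal.ofReal ((1 + ‖ζ - η‖) ^ (-(2 * σ))) := by
    rw [← L.measurePreserving.lintegral_comp hHm]
    refine lintegral_congr fun ζ => ?_
    rw [LinearIsometryEquiv.norm_map, ← hA, ← map_sub, LinearIsometryEquiv.norm_map]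
  rw [hrot]
  -- the majorant
  obtain ⟨W, hW⟩ : ∃ W : ℝ → ℝ → ℝ, W = fun t ρ =>
    if ρ ≤ 2 * κ then (ρ ^ 2 + κ ^ 2 - 2 * κ * t) ^ (-σ) else κ ^ (-(2 * σ)) := ⟨_, rfl⟩
  have hWm : Measurable (Function.uncurry W) := by
    rw [hW]
    refine Measurable.ite (measurableSet_le (by fun_prop) (by fun_prop)) ?_ measurable_const
    have : Measurable fun p : ℝ × ℝ => p.2 ^ 2 + κ ^ 2 - 2 * κ * p.1 := by fun_prop
    exact this.pow_const _
  obtain ⟨G, hG⟩ : ∃ G : ℝ → ℝ → ℝ≥0∞, G = fun t ρ => F ρ * ENNReal.ofReal (W t ρ) := ⟨_, rfl⟩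
  have hGm : Measurable (Function.uncurry G) := by
    rw [hG]
    exact (hF.comp measurable_snd).mul (ENNReal.measurable_ofReal.comp hWm)
  have hle : ∫⁻ ζ : E3, F ‖ζ‖ * ENNReal.ofReal ((1 + ‖ζ - η‖) ^ (-(2 * σ))) ≤
      ∫⁻ ζ : E3, G (ζ 0) ‖ζ‖ := by
    have hne : ∀ᵐ ζ ∂(volume : Measure E3), ζ ∉ ({η} : Set E3) :=
      measure_eq_zero_iff_ae_notMem.1 (measure_singleton η)
    refine lintegral_mono_ae ?_
    filter_upwards [hne] with ζ hζ
    have hζ' : 0 < ‖ζ - η‖ := by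
      rw [norm_pos_iff, sub_ne_zero]
      exact hζ
    rw [hG]
    refine mul_le_mul_right (ENNReal.ofReal_le_ofReal ?_) _
    rw [hW]
    dsimp only
    split_ifs with hc
    · have h2 : ‖ζ‖ ^ 2 + κ ^ 2 - 2 * κ * ζ 0 = ‖ζ - η‖ ^ 2 := by
        rw [norm_sub_sq_real, hηn, hη, EuclideanSpace.inner_single_right]
        simp only [conj_trivial]
        ring
      rw [h2]
      have h3 : (‖ζ - η‖ ^ 2) ^ (-σ) = ‖ζ - η‖ ^ (-(2 * σ)) := by
        rw [← Real.rpow_natCast, ← Real.rpow_mul hζ'.le]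
        congr 1
        push_cast
        ring
      rw [h3]
      exact Real.rpow_le_rpow_of_nonpos hζ' (by linarith) (by linarith)
    · have h2 : κ ≤ ‖ζ - η‖ := by
        have := norm_sub_norm_le ζ η
        rw [hηn] at this
        push Not at hc
        linarith
      exact Real.rpow_le_rpow_of_nonpos hκ (by linarith) (by linarith)
  refine hle.trans ?_
  rw [bip_radial G hGm]
  have hsplit : Ioi (0 : ℝ) = Ioc 0 (2 * κ) ∪ Ioi (2 * κ) :=
    (Ioc_union_Ioi_eq_Ioi (by positivity)).symm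
  have hdisj : Disjoint (Ioc 0 (2 * κ)) (Ioi (2 * κ)) := by
    rw [Set.disjoint_left]
    intro x hx hx'
    exact absurd hx.2 (not_le.2 hx')
  rw [hsplit, lintegral_union measurableSet_Ioi hdisj]
  obtain ⟨B, hB⟩ : ∃ B : ℝ, B = (3 * κ) ^ (2 - 2 * σ) / (2 * κ * (1 - σ)) := ⟨_, rfl⟩
  have hB0 : 0 ≤ B := by rw [hB]; positivity
  have r1 : ∫⁻ ρ in Ioc 0 (2 * κ), ENNReal.ofReal ρ * ∫⁻ t in Ioo (-ρ) ρ, G t ρ ≤
      ENNReal.ofReal B * ∫⁻ ρ in Ioc 0 (2 * κ), F ρ * ENNReal.ofReal ρ := by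
    have hFm : Measurable (fun ρ : ℝ => F ρ * ENNReal.ofReal ρ) :=
      hF.mul ENNReal.measurable_ofReal
    rw [← lintegral_const_mul _ hFm]
    refine setLIntegral_mono' measurableSet_Ioc fun ρ hρ => ?_
    have h2 : ∫⁻ t in Ioo (-ρ) ρ, G t ρ = F ρ * ∫⁻ t in Ioo (-ρ) ρ,
        ENNReal.ofReal ((ρ ^ 2 + κ ^ 2 - 2 * κ * t) ^ (-σ)) := by
      rw [← lintegral_const_mul]
      · refine lintegral_congr fun t => ?_
        rw [hG, hW]
        simp only [if_pos hρ.2]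
      · refine ENNReal.measurable_ofReal.comp ?_
        have : Measurable fun t : ℝ => ρ ^ 2 + κ ^ 2 - 2 * κ * t := by fun_prop
        exact this.pow_const _
    have h3 := bip_t h0 h1 hκ hρ.1 hρ.2
    rw [← hB] at h3
    calc ENNReal.ofReal ρ * ∫⁻ t in Ioo (-ρ) ρ, G t ρ ≤
        ENNReal.ofReal ρ * (F ρ * ENNReal.ofReal B) := by
          rw [h2]
          gcongr
      _ = ENNReal.ofReal B * (F ρ * ENNReal.ofReal ρ) := by ring
  have r2 : ∫⁻ ρ in Ioi (2 * κ), ENNReal.ofReal ρ * ∫⁻ t in Ioo (-ρ) ρ, G t ρ =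
      ENNReal.ofReal (2 * κ ^ (-(2 * σ))) * ∫⁻ ρ in Ioi (2 * κ), F ρ * ENNReal.ofReal (ρ ^ 2) := by
    have hFm : Measurable (fun ρ : ℝ => F ρ * ENNReal.ofReal (ρ ^ 2)) :=
      hF.mul (by fun_prop)
    rw [← lintegral_const_mul _ hFm]
    refine setLIntegral_congr_fun measurableSet_Ioi fun ρ hρ => ?_
    have hρ' : 2 * κ < ρ := hρ
    have hρ0 : 0 < ρ := by linarith
    have h2 : ∫⁻ t in Ioo (-ρ) ρ, G t ρ = F ρ * ENNReal.ofReal (κ ^ (-(2 * σ))) *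
        ENNReal.ofReal (2 * ρ) := by
      have h3 : ∀ t : ℝ, G t ρ = F ρ * ENNReal.ofReal (κ ^ (-(2 * σ))) := by
        intro t
        rw [hG, hW]
        simp only [if_neg (not_le.2 hρ')]
      simp only [h3]
      rw [setLIntegral_const, Real.volume_Ioo]
      congr 2
      ring
    rw [h2]
    have h4 : ENNReal.ofReal (2 * κ ^ (-(2 * σ))) =
        ENNReal.ofReal 2 * ENNReal.ofReal (κ ^ (-(2 * σ))) := ENNReal.ofReal_mul (by norm_num)
    have h5 : ENNReal.ofReal (2 * ρ) = ENNReal.ofReal 2 * ENNReal.ofReal ρ :=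
      ENNReal.ofReal_mul (by norm_num)
    have h6 : ENNReal.ofReal (ρ ^ 2) = ENNReal.ofReal ρ * ENNReal.ofReal ρ := by
      rw [← ENNReal.ofReal_mul hρ0.le, sq]
    rw [h4, h5, h6]
    ring
  rw [mul_add, mul_add, r2]
  refine add_le_add ?_ ?_
  · refine (mul_le_mul_right r1 _).trans ?_
    rw [← mul_assoc, ← mul_assoc, ← ENNReal.ofReal_mul (by positivity),
      ← ENNReal.ofReal_mul (by positivity)]
    refine mul_le_mul_left (ENNReal.ofReal_le_ofReal ?_) _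
    rw [hB]
    have e1 : (3 * κ) ^ (2 - 2 * σ) = 3 ^ (2 - 2 * σ) * (κ ^ (-(2 * σ)) * κ ^ 2) := by
      rw [Real.mul_rpow (by norm_num) hκ.le]
      congr 1
      rw [← Real.rpow_natCast κ 2, ← Real.rpow_add hκ]
      congr 1
      push_cast
      ring
    have e2 : (3 : ℝ) ^ (2 - 2 * σ) ≤ 9 := by
      calc (3 : ℝ) ^ (2 - 2 * σ) ≤ 3 ^ (2 : ℝ) :=
            Real.rpow_le_rpow_of_exponent_le (by norm_num) (by linarith)
        _ = 9 := by norm_num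
    have e3 : 0 ≤ κ ^ (-(2 * σ)) := by positivity
    rw [e1]
    have e4 : 2 * Real.pi * (3 ^ (2 - 2 * σ) * (κ ^ (-(2 * σ)) * κ ^ 2) / (2 * κ * (1 - σ))) =
        3 ^ (2 - 2 * σ) * (Real.pi / (1 - σ) * κ ^ (-(2 * σ)) * κ) := by
      field_simp
    have e5 : 9 * Real.pi / (1 - σ) * κ ^ (-(2 * σ)) * κ =
        9 * (Real.pi / (1 - σ) * κ ^ (-(2 * σ)) * κ) := by ring
    rw [e4, e5]
    exact mul_le_mul_of_nonneg_right e2 (by positivity)
  · rw [← mul_assoc, ← ENNReal.ofReal_mul (by positivity)]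
    refine mul_le_mul_left (ENNReal.ofReal_le_ofReal ?_) _
    have e3 : 0 ≤ κ ^ (-(2 * σ)) := by positivity
    have e6 : 2 * Real.pi * (2 * κ ^ (-(2 * σ))) = 4 * Real.pi * κ ^ (-(2 * σ)) := by ring
    rw [e6]
    refine mul_le_mul_of_nonneg_right ?_ e3
    rw [le_div_iff₀ hσ]
    nlinarith

end FracScatC

end
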