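import Pool.Agent.Lib.MP_6e2ba5_an.Cx.XDefs

/-! # The Wiener norm framework: definitions

For a field `h = 1_B R(k) g` with `g ∈ L²` supported in the ball, `h` is on the ball the inverse
Fourier integral of `gs_k · FT g ∈ L¹`. -/

set_option autoImplicit false

open MeasureTheory Filter Topology Set
open scoped FourierTransform SchwartzMap InnerProductSpace ENNReal BoundedContinuousFunction

noncomputable section

namespace FracScatC

open FracScat

/-- `L¹(ℝ³; ℂ)`. -/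
abbrev L1 := Lp ℂ 1 (volume : Measure E3)

/-- The bounded continuous functions. -/
abbrev XB := E3 →ᵇ ℂ

/-- The density `D` on the ball as an element of `L²`. -/
def dH (r : ℝ) (D : E3 → ℂ) : HS := mulL D (oneB r)

/-- The elements of `L²` which vanish outside the ball. -/
def HB (r : ℝ) : Submodule ℂ HS :=
  LinearMap.ker ((1 - mulL (indB r) : HS →L[ℂ] HS) : HS →ₗ[ℂ] HS)

instance (r : ℝ) : CompleteSpace (HB r) :=
  ContinuousLinearMap.completeSpace_ker (1 - mulL (indB r) : HS →L[ℂ] HS)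

theorem mem_HB {r : ℝ} {W : HS} : W ∈ HB r ↔ mulL (indB r) W = W := by
  unfold HB
  rw [LinearMap.mem_ker]
  constructor
  · intro h
    have h' : W - mulL (indB r) W = 0 := h
    exact (sub_eq_zero.1 h').symm
  · intro h
    have h' : W - mulL (indB r) W = 0 := sub_eq_zero.2 h.symm
    exact h'

theorem IsPot.mono {r M M' : ℝ} {V : E3 → ℂ} (h : IsPot r M V) (hM : M ≤ M') : IsPot r M' V :=
  ⟨h.measurable, fun x => (h.bounded x).trans hM, h.vanish⟩

theorem IsPot.zero {r M : ℝ} (hM : 0 ≤ M) : IsPot r M (fun _ => 0) :=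
  ⟨measurable_const, fun x => by simpa using hM, fun x _ => rfl⟩

theorem IsPot.smul {r M : ℝ} {V : E3 → ℂ} (h : IsPot r M V) (z : ℂ) :
    IsPot r (‖z‖ * M) (fun x => z * V x) :=
  ⟨h.measurable.const_mul z, fun x => by
    rw [norm_mul]
    exact mul_le_mul_of_nonneg_left (h.bounded x) (norm_nonneg z), fun x hx => by
    rw [h.vanish x hx, mul_zero]⟩

theorem IsPot.sub {r M M' : ℝ} {V V' : E3 → ℂ} (h : IsPot r M V) (h' : IsPot r M' V') :
    IsPot r (M + M') (fun x => V x - V' x) :=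
  ⟨h.measurable.sub h'.measurable, fun x =>
    (norm_sub_le _ _).trans (add_le_add (h.bounded x) (h'.bounded x)), fun x hx => by
    rw [h.vanish x hx, h'.vanish x hx, sub_zero]⟩

theorem IsPot.nonneg {r M : ℝ} {V : E3 → ℂ} (h : IsPot r M V) : 0 ≤ M :=
  (norm_nonneg _).trans (h.bounded 0)

theorem dH_coe {r M : ℝ} {D : E3 → ℂ} (hD : IsPot r M D) : (dH r D : E3 → ℂ) =ᵐ[volume] D := by
  filter_upwards [mulL_coe hD.BM (oneB r), oneB_coe r] with x a b
  rw [dH, a, b, indB]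
  split_ifs with h
  · rw [mul_one]
  · rw [mul_zero, hD.vanish x (not_lt.1 h)]

theorem norm_dH_le {r M : ℝ} {D : E3 → ℂ} (hD : IsPot r M D) : ‖dH r D‖ ≤ M * ‖oneB r‖ :=
  ((mulL D).le_opNorm _).trans
    (mul_le_mul_of_nonneg_right (hD.norm_mulL hD.nonneg) (norm_nonneg _))

theorem mulL_indB_of_pot {r M : ℝ} {D : E3 → ℂ} (hD : IsPot r M D) (f : HS) :
    mulL (indB r) (mulL D f) = mulL D f := by
  rw [mulL_mulL (indB_BM r) hD.BM]
  congr 2
  funext x
  rw [indB]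
  split_ifs with h
  · rw [one_mul]
  · rw [zero_mul, hD.vanish x (not_lt.1 h)]

theorem dH_mem {r M : ℝ} {D : E3 → ℂ} (hD : IsPot r M D) : dH r D ∈ HB r :=
  mem_HB.2 (mulL_indB_of_pot hD _)

/-- `D e_ξ` as a modulation of `D`. -/
theorem mulL_eH {r M : ℝ} {D : E3 → ℂ} (hD : IsPot r M D) (ξ : E3) :
    mulL D (eH r ξ) = mulL (efun ξ) (dH r D) := by
  rw [eH, dH, mulL_mulL hD.BM (efun_BM ξ), mulL_mulL (efun_BM ξ) hD.BM]
  congr 2
  funext x
  ring

theorem memLp_prod (f g : HS) : MemLp (fun x => (f : E3 → ℂ) x * (g : E3 → ℂ) x) 1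
    (volume : Measure E3) := memLp_one_iff_integrable.2 (integrable_mul f g)

theorem eLpNorm_prod_le (f g : HS) : eLpNorm (fun x => (f : E3 → ℂ) x * (g : E3 → ℂ) x) 1
    (volume : Measure E3) ≤ eLpNorm (f : E3 → ℂ) 2 volume * eLpNorm (g : E3 → ℂ) 2 volume := by
  have h := eLpNorm_smul_le_mul_eLpNorm (p := 2) (q := 2) (r := 1) (μ := (volume : Measure E3))
    (f := (g : E3 → ℂ)) (φ := (f : E3 → ℂ)) (Lp.memLp g).1 (Lp.memLp f).1
  exact h

/-- The product `L² × L² → L¹`. -/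
def prodL : HS →L[ℂ] HS →L[ℂ] L1 :=
  LinearMap.mkContinuous₂
    (LinearMap.mk₂ ℂ (fun f g : HS => ((memLp_prod f g).toLp _ : L1))
      (fun f f' g => by
        rw [← MemLp.toLp_add]
        apply MemLp.toLp_congr
        filter_upwards [Lp.coeFn_add f f'] with x hx
        simp only [hx, Pi.add_apply]
        ring)
      (fun c f g => by
        rw [← MemLp.toLp_const_smul]
        apply MemLp.toLp_congr
        filter_upwards [Lp.coeFn_smul c f] with x hx
        simp only [hx, Pi.smul_apply, smul_eq_mul]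
        ring)
      (fun f g g' => by
        rw [← MemLp.toLp_add]
        apply MemLp.toLp_congr
        filter_upwards [Lp.coeFn_add g g'] with x hx
        simp only [hx, Pi.add_apply]
        ring)
      (fun c f g => by
        rw [← MemLp.toLp_const_smul]
        apply MemLp.toLp_congr
        filter_upwards [Lp.coeFn_smul c g] with x hx
        simp only [hx, Pi.smul_apply, smul_eq_mul]
        ring))
    1 (fun f g => by
      rw [one_mul, LinearMap.mk₂_apply, Lp.norm_toLp, Lp.norm_def, Lp.norm_def,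
        ← ENNReal.toReal_mul]
      exact ENNReal.toReal_mono (ENNReal.mul_ne_top (Lp.memLp f).2.ne (Lp.memLp g).2.ne)
        (eLpNorm_prod_le f g))

theorem prodL_coe (f g : HS) :
    (prodL f g : E3 → ℂ) =ᵐ[volume] fun x => (f : E3 → ℂ) x * (g : E3 → ℂ) x :=
  (memLp_prod f g).coeFn_toLp

theorem norm_prodL_le (f g : HS) : ‖prodL f g‖ ≤ ‖f‖ * ‖g‖ := by
  have h : ‖prodL‖ ≤ 1 := LinearMap.mkContinuous₂_norm_le _ zero_le_one _
  refine (prodL.le_opNorm₂ f g).trans ?_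
  have h1 : ‖prodL‖ * ‖f‖ ≤ 1 * ‖f‖ := mul_le_mul_of_nonneg_right h (norm_nonneg _)
  rw [one_mul] at h1
  exact mul_le_mul_of_nonneg_right h1 (norm_nonneg _)

open Classical in
/-- The symbol of the cut off resolvent as an element of `L²`. -/
def gsH (s r k : ℝ) : HS :=
  if h : MemLp (gs s (2 * r) (k : ℂ)) 2 (volume : Measure E3) then h.toLp _ else 0

theorem gsH_coe {s r k : ℝ} (h : MemLp (gs s (2 * r) (k : ℂ)) 2 (volume : Measure E3)) :
    (gsH s r k : E3 → ℂ) =ᵐ[volume] gs s (2 * r) (k : ℂ) := by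
  rw [gsH, dif_pos h]
  exact h.coeFn_toLp

/-- The density `gs_k · FT f ∈ L¹`, where `k = 2π‖ξ‖`. -/
def PL (s r : ℝ) (ξ : E3) : HS →L[ℂ] L1 :=
  (prodL (gsH s r (2 * Real.pi * ‖ξ‖))) ∘L (FT.toContinuousLinearEquiv : HS →L[ℂ] HS)

theorem PL_apply (s r : ℝ) (ξ : E3) (f : HS) :
    PL s r ξ f = prodL (gsH s r (2 * Real.pi * ‖ξ‖)) (FT f) := rfl

theorem norm_PL_le (s r : ℝ) (ξ : E3) (f : HS) :
    ‖PL s r ξ f‖ ≤ ‖gsH s r (2 * Real.pi * ‖ξ‖)‖ * ‖f‖ := by
  rw [PL_apply]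
  refine (norm_prodL_le _ _).trans ?_
  rw [LinearIsometryEquiv.norm_map]

/-- `∫ P(ζ) F(-ζ-ξ) dζ`. -/
def lam (ξ : E3) (P : L1) (F : XB) : ℂ := ∫ ζ, (P : E3 → ℂ) ζ * F (-ζ - ξ)

/-- `∫∫ P₁(ζ₁) P₂(ζ₂) F(-ζ₁-ζ₂) dζ₂ dζ₁`. -/
def bet (P₁ P₂ : L1) (F : XB) : ℂ :=
  ∫ ζ₁, (P₁ : E3 → ℂ) ζ₁ * ∫ ζ₂, (P₂ : E3 → ℂ) ζ₂ * F (-ζ₁ - ζ₂)

/-- The Fourier density of the scattered field on the ball. -/
def Hf (s r : ℝ) (V : E3 → ℂ) (ξ : E3) : L1 := PL s r ξ (mulL V (UX s r V ξ))

open Classical in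
/-- The Fourier transform of an integrable element of `L²` as a bounded continuous function. -/
def ftX (W : HS) : XB :=
  if h : Integrable (W : E3 → ℂ) then
    BoundedContinuousFunction.ofNormedAddCommGroup (𝓕 (W : E3 → ℂ))
      (VectorFourier.fourierIntegral_continuous Real.continuous_fourierChar
        (by exact continuous_inner) h)
      (∫ v, ‖(W : E3 → ℂ) v‖)
      (fun ξ => VectorFourier.norm_fourierIntegral_le_integral_norm _ _ _ (W : E3 → ℂ) ξ)
  else 0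

theorem ftX_apply {W : HS} (h : Integrable (W : E3 → ℂ)) (η : E3) :
    ftX W η = 𝓕 (W : E3 → ℂ) η := by
  rw [ftX, dif_pos h]
  rfl

theorem HB_integrable {r : ℝ} {W : HS} (h : W ∈ HB r) : Integrable (W : E3 → ℂ) :=
  integrable_of_indB (mem_HB.1 h)

/-- The cut off function at high frequencies: `0` for `‖η‖ ≤ 2N`, `1` for `‖η‖ ≥ 2N + 1`. -/
def psi (N : ℝ) (η : E3) : ℂ := ((min 1 (max 0 (‖η‖ - 2 * N)) : ℝ) : ℂ)

/-- The exterior region. -/
abbrev Om (N : ℝ) := {ξ : E3 // N ≤ ‖ξ‖}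

end FracScatC

end
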