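import Pool.Agent.Lib.MP_6e2ba5_an.FTfacts
import Pool.Agent.Lib.MP_6e2ba5_an.Cx.WDefs

/-! # Modulation and the Fourier transform

`mulL (efun ξ) g` is a.e. `exp(2πi ξ·x) g x`, integrable; `FT_coe_of_integrable` on both sides:
`𝓕 (efun ξ · g) ζ = ∫ exp(-2πi x·ζ) exp(2πi ξ·x) g x dx = 𝓕 g (ζ-ξ)`, and
`(FT g)(ζ-ξ) = 𝓕 g (ζ-ξ)` for a.e. `ζ` by translation invariance (quasi measure preserving map).
`norm_ftX_eq`: `ftX W = 0` gives `𝓕 W = 0`, so `FT W = 0` a.e. and `W = 0`. -/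

set_option autoImplicit false

open MeasureTheory Filter Topology Set
open scoped FourierTransform SchwartzMap InnerProductSpace ENNReal BoundedContinuousFunction

noncomputable section

namespace FracScatC

open FracScat

private theorem fourier_congr {f g : E3 → ℂ} (h : f =ᵐ[volume] g) (ζ : E3) : 𝓕 f ζ = 𝓕 g ζ := by
  rw [Real.fourier_eq', Real.fourier_eq']
  apply integral_congr_ae
  filter_upwards [h] with x hx
  rw [hx]

private theorem fourier_efun (ξ : E3) (g : E3 → ℂ) (ζ : E3) :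
    𝓕 (fun x => efun ξ x * g x) ζ = 𝓕 g (ζ - ξ) := by
  rw [Real.fourier_eq', Real.fourier_eq']
  congr 1
  funext x
  rw [smul_eq_mul, smul_eq_mul, efun, ← mul_assoc, ← Complex.exp_add]
  congr 2
  rw [inner_sub_right, real_inner_comm ξ x]
  push_cast
  ring

theorem FT_efun (ξ : E3) {g : HS} (hg : Integrable (g : E3 → ℂ)) :
    (FT (mulL (efun ξ) g) : E3 → ℂ) =ᵐ[volume] fun ζ => (FT g : E3 → ℂ) (ζ - ξ) := by
  have h1 : (mulL (efun ξ) g : E3 → ℂ) =ᵐ[volume] fun x => efun ξ x * (g : E3 → ℂ) x :=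
    mulL_coe (efun_BM ξ) g
  have hint : Integrable (mulL (efun ξ) g : E3 → ℂ) := by
    refine Integrable.congr ?_ h1.symm
    exact hg.bdd_mul (efun_cont ξ).aestronglyMeasurable
      (Eventually.of_forall fun x => (norm_efun ξ x).le)
  have h2 := FT_coe_of_integrable _ hint
  have h3 := FT_coe_of_integrable _ hg
  have hmp : MeasurePreserving (fun ζ : E3 => ζ - ξ) volume volume :=
    measurePreserving_sub_right volume ξ
  have h4 : ∀ᵐ ζ ∂(volume : Measure E3), (FT g : E3 → ℂ) (ζ - ξ) = 𝓕 (g : E3 → ℂ) (ζ - ξ) :=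
    hmp.quasiMeasurePreserving.ae h3
  filter_upwards [h2, h4] with ζ a b
  rw [a, b, fourier_congr h1, fourier_efun]

theorem FT_eq_ftX {g : HS} (hg : Integrable (g : E3 → ℂ)) :
    (FT g : E3 → ℂ) =ᵐ[volume] fun ζ => ftX g ζ := by
  filter_upwards [FT_coe_of_integrable _ hg] with ζ a
  rw [a, ftX_apply hg]

theorem eq_zero_of_ftX {r : ℝ} {W : HS} (hW : W ∈ HB r) (h : ftX W = 0) : W = 0 := by
  have h1 := FT_eq_ftX (HB_integrable hW)
  have h2 : FT W = 0 := by
    apply Lp.ext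
    filter_upwards [h1, Lp.coeFn_zero ℂ 2 (volume : Measure E3)] with ζ a b
    rw [a, b, h]
    rfl
  exact (LinearIsometryEquiv.map_eq_zero_iff FT).1 h2

theorem ftX_dH {r M : ℝ} {D : E3 → ℂ} (hD : IsPot r M D) (η : E3) : ftX (dH r D) η = 𝓕 D η := by
  rw [ftX_apply (HB_integrable (dH_mem hD))]
  exact fourier_congr (dH_coe hD) η

end FracScatC

end
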