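import Pool.Agent.Lib.MP_6e2ba5_an.Cx.Chi
import Pool.Agent.Lib.MP_6e2ba5_an.Cx.Modul

/-! # Convolution with the Fourier transform of a cut off function

`exists_conv`: `A F η = ∫ g ζ F (η-ζ) dζ`. Bounded by `‖g‖_{L¹} ‖F‖`, continuous in `η` (dominated
convergence), linear in `F`: build it with `BoundedContinuousFunction.ofNormedAddCommGroup` and
`LinearMap.mkContinuous`. Lipschitz bound: substitute `ζ → η-ζ`: `A F η = ∫ g(η-y) F y dy`, so
`|A F η - A F η'| ≤ ‖F‖ ∫ |g(η-y) - g(η'-y)| dy ≤ ‖F‖ L ‖η-η'‖` by `schwartz_lip`.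
`conv_ftX`: with `g = 𝓕 χ` (Schwartz), `W ∈ HB r`, `F = ftX W = 𝓕 W`: Fubini,
`∫ 𝓕χ(ζ) ∫ e^(-2πi(η-ζ)·x) W(x) dx dζ = ∫ W(x) e^(-2πiη·x) (∫ 𝓕χ(ζ) e^(2πiζ·x) dζ) dx
= ∫ W(x) e^(-2πiη·x) χ(x) dx = 𝓕 W η` (Fourier inversion for Schwartz functions, `χ = 1` on the
ball and `W = indB W` a.e.).
`bernstein`: combine for some `χ` from `exists_chi`. -/

set_option autoImplicit false

open MeasureTheory Filter Topology Set
open scoped FourierTransform SchwartzMap InnerProductSpace ENNReal BoundedContinuousFunction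

noncomputable section

namespace FracScatC

open FracScat

theorem exists_conv (g : 𝓢(E3, ℂ)) : ∃ (A : XB →L[ℂ] XB) (L : ℝ), 0 ≤ L ∧
    (∀ (F : XB) (η : E3), A F η = ∫ ζ, g ζ * F (η - ζ)) ∧
    ∀ (F : XB) (η η' : E3), ‖A F η - A F η'‖ ≤ L * ‖η - η'‖ * ‖F‖ := by
  obtain ⟨L, hL0, hL⟩ := schwartz_lip g
  have hgi : Integrable (g : E3 → ℂ) := g.integrable
  have hint : ∀ (F : XB) (η : E3), Integrable (fun ζ => g ζ * F (η - ζ)) := by
    intro F η
    refine hgi.mul_bdd (c := ‖F‖) ?_ (Eventually.of_forall fun ζ => F.norm_coe_le_norm _)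
    exact (F.continuous.comp (continuous_const.sub continuous_id)).aestronglyMeasurable
  have hbd : ∀ (F : XB) (η : E3), ‖∫ ζ, g ζ * F (η - ζ)‖ ≤ (∫ ζ, ‖g ζ‖) * ‖F‖ := by
    intro F η
    rw [← integral_mul_const]
    refine norm_integral_le_of_norm_le (hgi.norm.mul_const _) (Eventually.of_forall fun ζ => ?_)
    rw [norm_mul]
    exact mul_le_mul_of_nonneg_left (F.norm_coe_le_norm _) (norm_nonneg _)
  have hlip : ∀ (F : XB) (η η' : E3),
      ‖(∫ ζ, g ζ * F (η - ζ)) - ∫ ζ, g ζ * F (η' - ζ)‖ ≤ L * ‖η - η'‖ * ‖F‖ := by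
    intro F η η'
    have hs : ∀ η : E3, ∫ ζ, g ζ * F (η - ζ) = ∫ y, g (η - y) * F y := by
      intro η
      have := integral_sub_left_eq_self (fun y => g (η - y) * F y) volume η
      simpa using this
    have hi : ∀ η : E3, Integrable (fun y => g (η - y)) := fun η => hgi.comp_sub_left η
    have hi2 : ∀ η : E3, Integrable (fun y => g (η - y) * F y) := by
      intro η
      exact (hi η).mul_bdd (c := ‖F‖) F.continuous.aestronglyMeasurable
        (Eventually.of_forall fun ζ => F.norm_coe_le_norm _)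
    rw [hs, hs, ← integral_sub (hi2 η) (hi2 η')]
    have h1 : ∫ y, ‖g (η - y) - g (η' - y)‖ ≤ L * ‖η - η'‖ := by
      have h2 := integral_sub_left_eq_self (fun u => ‖g (u + (η - η')) - g u‖) volume η'
      have h3 : ∀ y : E3, η' - y + (η - η') = η - y := fun y => by abel
      simp only [h3] at h2
      rw [h2]
      exact hL _
    refine (norm_integral_le_of_norm_le (g := fun y => ‖g (η - y) - g (η' - y)‖ * ‖F‖)
      (((hi η).sub (hi η')).norm.mul_const _) (Eventually.of_forall fun y => ?_)).trans ?_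
    · rw [← sub_mul, norm_mul]
      exact mul_le_mul_of_nonneg_left (F.norm_coe_le_norm _) (norm_nonneg _)
    · rw [integral_mul_const]
      exact mul_le_mul_of_nonneg_right h1 (norm_nonneg _)
  have hcont : ∀ F : XB, Continuous (fun η : E3 => ∫ ζ, g ζ * F (η - ζ)) := by
    intro F
    refine (LipschitzWith.of_dist_le_mul (K := ⟨L * ‖F‖, by positivity⟩) fun η η' => ?_).continuous
    rw [dist_eq_norm, dist_eq_norm]
    refine (hlip F η η').trans (le_of_eq ?_)
    change L * ‖η - η'‖ * ‖F‖ = L * ‖F‖ * ‖η - η'‖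
    ring
  refine ⟨LinearMap.mkContinuous
    { toFun := fun F => BoundedContinuousFunction.ofNormedAddCommGroup
        (fun η => ∫ ζ, g ζ * F (η - ζ)) (hcont F) ((∫ ζ, ‖g ζ‖) * ‖F‖) (hbd F)
      map_add' := ?_
      map_smul' := ?_ } (∫ ζ, ‖g ζ‖) ?_, L, hL0, ?_, ?_⟩
  · intro F F'
    ext η
    simp only [BoundedContinuousFunction.coe_ofNormedAddCommGroup,
      BoundedContinuousFunction.coe_add, Pi.add_apply]
    rw [← integral_add (hint F η) (hint F' η)]
    simp only [mul_add]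
  · intro c F
    ext η
    simp only [BoundedContinuousFunction.coe_ofNormedAddCommGroup,
      BoundedContinuousFunction.coe_smul, RingHom.id_apply, smul_eq_mul]
    rw [← integral_const_mul]
    congr 1
    funext ζ
    ring
  · intro F
    exact BoundedContinuousFunction.norm_ofNormedAddCommGroup_le _ (by positivity) (hbd F)
  · intro F η
    rfl
  · intro F η η'
    exact hlip F η η'

private theorem CChi_fub {r : ℝ} {χ : 𝓢(E3, ℂ)} {W : HS} (hW : W ∈ HB r) (η : E3) :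
    ∫ ζ, (𝓕 (χ : E3 → ℂ)) ζ * ftX W (η - ζ) =
      ∫ x, (Real.fourierChar (-⟪x, η⟫_ℝ) • (W : E3 → ℂ) x) * χ x := by
  have hWi := HB_integrable hW
  have hg : Integrable (𝓕 (χ : E3 → ℂ)) := by
    have := (𝓕 χ : 𝓢(E3, ℂ)).integrable (μ := volume)
    rwa [SchwartzMap.fourier_coe] at this
  have e1 : ∀ ζ : E3, (𝓕 (χ : E3 → ℂ)) ζ * ftX W (η - ζ) =
      ∫ x, (𝓕 (χ : E3 → ℂ)) ζ * (Real.fourierChar (-⟪x, η - ζ⟫_ℝ) • (W : E3 → ℂ) x) := by
    intro ζ
    rw [ftX_apply hWi, integral_const_mul, ← Real.fourier_eq]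
  simp only [e1]
  rw [integral_integral_swap]
  · congr 1
    funext x
    have e2 : ∀ ζ : E3, (𝓕 (χ : E3 → ℂ)) ζ * (Real.fourierChar (-⟪x, η - ζ⟫_ℝ) • (W : E3 → ℂ) x) =
        (Real.fourierChar (-⟪x, η⟫_ℝ) • (W : E3 → ℂ) x) *
          (Real.fourierChar (⟪ζ, x⟫_ℝ) • (𝓕 (χ : E3 → ℂ)) ζ) := by
      intro ζ
      have : -⟪x, η - ζ⟫_ℝ = -⟪x, η⟫_ℝ + ⟪ζ, x⟫_ℝ := by
        rw [inner_sub_right, real_inner_comm x ζ]
        ring
      rw [this, AddChar.map_add_eq_mul]
      simp only [Circle.smul_def, Circle.coe_mul, smul_eq_mul]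
      ring
    simp only [e2]
    rw [integral_const_mul]
    congr 1
    have h3 : 𝓕⁻ (𝓕 (χ : E3 → ℂ)) x = χ x := by
      have := congrFun (χ.continuous.fourierInv_fourier_eq χ.integrable hg) x
      exact this
    rw [← h3, Real.fourierInv_eq]
  · have h1 : Integrable (fun z : E3 × E3 => (𝓕 (χ : E3 → ℂ)) z.1 * (W : E3 → ℂ) z.2)
        (volume.prod volume) := hg.mul_prod hWi
    have h2 : AEStronglyMeasurable
        (fun z : E3 × E3 => ((Real.fourierChar (-⟪z.2, η - z.1⟫_ℝ) : Circle) : ℂ))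
        ((volume : Measure E3).prod volume) := by
      have : Continuous (fun z : E3 × E3 => ((Real.fourierChar (-⟪z.2, η - z.1⟫_ℝ) : Circle) : ℂ)) := by
        refine continuous_subtype_val.comp (Real.continuous_fourierChar.comp ?_)
        fun_prop
      exact this.aestronglyMeasurable
    have h3 := h1.bdd_mul (c := 1) h2 (Eventually.of_forall fun z => by rw [Circle.norm_coe])
    refine h3.congr (Eventually.of_forall fun z => ?_)
    simp only [Function.uncurry, Circle.smul_def, smul_eq_mul]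
    ring

theorem conv_ftX {r : ℝ} {χ : 𝓢(E3, ℂ)} (hχ : ∀ x, ‖x‖ ≤ r → χ x = 1) {W : HS} (hW : W ∈ HB r)
    (η : E3) : ∫ ζ, (𝓕 (χ : E3 → ℂ)) ζ * ftX W (η - ζ) = ftX W η := by
  rw [CChi_fub hW, ftX_apply (HB_integrable hW), Real.fourier_eq]
  have h1 : (W : E3 → ℂ) =ᵐ[volume] fun x => indB r x * (W : E3 → ℂ) x := by
    have h2 := mulL_coe (indB_BM r) W
    rw [mem_HB.1 hW] at h2
    exact h2
  refine integral_congr_ae ?_
  filter_upwards [h1] with x hx
  by_cases hxr : ‖x‖ < r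
  · rw [hχ x hxr.le, mul_one]
  · have : (W : E3 → ℂ) x = 0 := by
      rw [hx, indB, if_neg hxr, zero_mul]
    rw [this, smul_zero, zero_mul]

theorem bernstein {r : ℝ} (hr : 0 < r) : ∃ L : ℝ, 0 ≤ L ∧ ∀ W : HS, W ∈ HB r → ∀ η η' : E3,
    ‖ftX W η - ftX W η'‖ ≤ L * ‖η - η'‖ * ‖ftX W‖ := by
  obtain ⟨χ, h1, -, -⟩ := exists_chi hr
  obtain ⟨A, L, hL, hA, hlip⟩ := exists_conv (𝓕 χ)
  refine ⟨L, hL, fun W hW η η' => ?_⟩
  have h2 : ∀ η : E3, A (ftX W) η = ftX W η := by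
    intro η
    rw [hA]
    have := conv_ftX h1 hW η
    rw [← SchwartzMap.fourier_coe] at this
    exact this
  have := hlip (ftX W) η η'
  rwa [h2, h2] at this

end FracScatC

end
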