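import Pool.Agent.Lib.MP_6e2ba5_an.Stmt

/-! # A smooth cut off function; `L¹` Lipschitz bound for Schwartz functions

`exists_chi`: `ContDiffBump (0 : E3)` with radii `r`, `r + 1/2`; compact support, so it is a Schwartz
function (`HasCompactSupport.toSchwartzMap` or `ContDiff`+compact support), composed with the
embedding `ℝ → ℂ`; values in `[0,1]`.
`schwartz_lip`: `g(x+h) - g(x) = ∫_0^1 (fderiv ℝ g (x+th)) h dt`, so the norm is at most
`‖h‖ ∫_0^1 ‖fderiv ℝ g (x+th)‖ dt`; integrate in `x`, Tonelli and translation invariance: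
`≤ ‖h‖ ∫ ‖fderiv ℝ g‖`, finite (the derivative of a Schwartz function is Schwartz, hence
integrable). -/

set_option autoImplicit false

open MeasureTheory Filter Topology Set
open scoped FourierTransform SchwartzMap InnerProductSpace ENNReal BoundedContinuousFunction

noncomputable section

namespace FracScatC

open FracScat

theorem exists_chi {r : ℝ} (hr : 0 < r) : ∃ χ : 𝓢(E3, ℂ), (∀ x, ‖x‖ ≤ r → χ x = 1) ∧
    (∀ x, ‖χ x‖ ≤ 1) ∧ (∀ x, r + 1 ≤ ‖x‖ → χ x = 0) := by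
  let f : ContDiffBump (0 : E3) := ⟨r, r + 1 / 2, hr, by linarith⟩
  have h1 : HasCompactSupport (fun x : E3 => ((f x : ℝ) : ℂ)) :=
    f.hasCompactSupport.comp_left (g := fun y : ℝ => (y : ℂ)) Complex.ofReal_zero
  have h2 : ContDiff ℝ ((⊤ : ℕ∞) : WithTop ℕ∞) (fun x : E3 => ((f x : ℝ) : ℂ)) :=
    Complex.ofRealCLM.contDiff.comp f.contDiff
  refine ⟨h1.toSchwartzMap h2, fun x hx => ?_, fun x => ?_, fun x hx => ?_⟩
  · have : f x = 1 := f.one_of_mem_closedBall (by simpa using hx)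
    simp [HasCompactSupport.toSchwartzMap_toFun, this]
  · have h0 : 0 ≤ f x := f.nonneg
    have h1 : f x ≤ 1 := f.le_one
    simp only [HasCompactSupport.toSchwartzMap_toFun, Complex.norm_real, Real.norm_eq_abs]
    rw [abs_of_nonneg h0]
    exact h1
  · have : f x = 0 := f.zero_of_le_dist (by
      simp only [dist_zero_right]
      show r + 1 / 2 ≤ ‖x‖
      linarith)
    simp [HasCompactSupport.toSchwartzMap_toFun, this]

private theorem pointwise_bound (g : 𝓢(E3, ℂ)) (h x : E3) :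
    ‖g (x + h) - g x‖ₑ ≤
      ‖h‖ₑ * ∫⁻ t in Ioc (0 : ℝ) 1, ‖SchwartzMap.fderivCLM ℝ E3 ℂ g (x + t • h)‖ₑ := by
  have hder : ∀ t : ℝ, HasDerivAt (fun t : ℝ => g (x + t • h))
      ((SchwartzMap.fderivCLM ℝ E3 ℂ g (x + t • h)) h) t := by
    intro t
    rw [SchwartzMap.fderivCLM_apply]
    have h1 : HasDerivAt (fun t : ℝ => x + t • h) h t := by
      simpa using ((hasDerivAt_id t).smul_const h).const_add x
    exact (g.differentiableAt (x := x + t • h)).hasFDerivAt.comp_hasDerivAt t h1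
  have hcont : Continuous fun t : ℝ => (SchwartzMap.fderivCLM ℝ E3 ℂ g (x + t • h)) h := by
    have h1 : Continuous fun t : ℝ => SchwartzMap.fderivCLM ℝ E3 ℂ g (x + t • h) :=
      (SchwartzMap.fderivCLM ℝ E3 ℂ g).continuous.comp (by fun_prop)
    exact h1.clm_apply continuous_const
  have hint := intervalIntegral.integral_eq_sub_of_hasDerivAt (a := 0) (b := 1)
    (fun t _ => hder t) (hcont.intervalIntegrable 0 1)
  have heq : g (x + h) - g x =
      ∫ t in (0 : ℝ)..1, (SchwartzMap.fderivCLM ℝ E3 ℂ g (x + t • h)) h := by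
    rw [hint]; simp
  rw [heq, intervalIntegral.integral_of_le zero_le_one]
  refine (enorm_integral_le_lintegral_enorm _).trans ?_
  rw [← lintegral_const_mul' _ _ enorm_ne_top]
  refine lintegral_mono fun t => ?_
  rw [mul_comm]
  exact ContinuousLinearMap.le_opENorm _ _

theorem schwartz_lip (g : 𝓢(E3, ℂ)) : ∃ L : ℝ, 0 ≤ L ∧ ∀ h : E3,
    ∫ x, ‖g (x + h) - g x‖ ≤ L * ‖h‖ := by
  refine ⟨∫ x, ‖SchwartzMap.fderivCLM ℝ E3 ℂ g x‖, integral_nonneg fun x => norm_nonneg _,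
    fun h => ?_⟩
  have hG : Integrable (fun x => SchwartzMap.fderivCLM ℝ E3 ℂ g x) (volume : Measure E3) :=
    (SchwartzMap.fderivCLM ℝ E3 ℂ g).integrable
  have key : ∫⁻ x, ‖g (x + h) - g x‖ₑ ≤
      ‖h‖ₑ * ∫⁻ x, ‖SchwartzMap.fderivCLM ℝ E3 ℂ g x‖ₑ := by
    calc ∫⁻ x, ‖g (x + h) - g x‖ₑ
        ≤ ∫⁻ x, ‖h‖ₑ * ∫⁻ t in Ioc (0 : ℝ) 1, ‖SchwartzMap.fderivCLM ℝ E3 ℂ g (x + t • h)‖ₑ :=
          lintegral_mono fun x => pointwise_bound g h x
      _ = ‖h‖ₑ * ∫⁻ x, ∫⁻ t in Ioc (0 : ℝ) 1,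
            ‖SchwartzMap.fderivCLM ℝ E3 ℂ g (x + t • h)‖ₑ :=
          lintegral_const_mul' _ _ enorm_ne_top
      _ = ‖h‖ₑ * ∫⁻ t in Ioc (0 : ℝ) 1, ∫⁻ x,
            ‖SchwartzMap.fderivCLM ℝ E3 ℂ g (x + t • h)‖ₑ := by
          congr 1
          refine lintegral_lintegral_swap ?_
          have hc : Continuous fun p : E3 × ℝ =>
              SchwartzMap.fderivCLM ℝ E3 ℂ g (p.1 + p.2 • h) :=
            (SchwartzMap.fderivCLM ℝ E3 ℂ g).continuous.comp (by fun_prop)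
          exact hc.enorm.measurable.aemeasurable
      _ = ‖h‖ₑ * ∫⁻ t in Ioc (0 : ℝ) 1, ∫⁻ x, ‖SchwartzMap.fderivCLM ℝ E3 ℂ g x‖ₑ := by
          congr 1
          refine lintegral_congr fun t => ?_
          exact lintegral_add_right_eq_self
            (fun x => ‖SchwartzMap.fderivCLM ℝ E3 ℂ g x‖ₑ) (t • h)
      _ = ‖h‖ₑ * ∫⁻ x, ‖SchwartzMap.fderivCLM ℝ E3 ℂ g x‖ₑ := by
          simp
  have hmeas : AEStronglyMeasurable (fun x => g (x + h) - g x) (volume : Measure E3) :=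
    ((g.continuous.comp (continuous_id.add continuous_const)).sub
      g.continuous).aestronglyMeasurable
  rw [integral_norm_eq_lintegral_enorm hmeas, integral_norm_eq_lintegral_enorm hG.1]
  have hfin : ∫⁻ x, ‖SchwartzMap.fderivCLM ℝ E3 ℂ g x‖ₑ ≠ ⊤ := hG.2.ne
  have := ENNReal.toReal_mono (ENNReal.mul_ne_top enorm_ne_top hfin) key
  rw [ENNReal.toReal_mul, toReal_enorm] at this
  rw [mul_comm]
  exact this

end FracScatC

end
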