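import Pool.Agent.Lib.MP_6e2ba5_an.Cx.LamApi

/-! # The operators on bounded continuous functions

For `η` with `‖η‖ ≥ 2N` put `ξ = -(1/2) • η ∈ Om N`. `𝓛 h F η = psi N η * lam ξ (h ξ) F` for
`‖η‖ ≥ 2N` and `0` otherwise. It is continuous: on `‖η‖ ≥ 2N` (closed) the map
`ξ ↦ lam ξ (h ξ) F` is continuous (`|lam ξ' P' F - lam ξ P F| ≤ ‖P'-P‖‖F‖ + |lam ξ' P F - lam ξ P F|`,
`lam_cont`) and bounded by `‖h‖‖F‖`, and `psi N` is continuous, bounded by `1`, and `0` on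
`‖η‖ ≤ 2N`. Linear in `h` and in `F`, norm `≤ 1`: `LinearMap.mkContinuous₂`.
For `bet (h₁ ξ) (h₂ ξ) F` define `𝓑 h₁ h₂` directly as a bounded operator (a continuous linear map
for fixed `h₁`, `h₂`); `IsBoundedBilinearMap` follows from `bet_add_left`, `bet_smul_left`,
`bet_add_mid`, `bet_smul_mid` and the bound (the instance search for a triple `→L` fails, so do not
curry). -/

set_option autoImplicit false

open MeasureTheory Filter Topology Set
open scoped FourierTransform SchwartzMap InnerProductSpace ENNReal BoundedContinuousFunction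

noncomputable section

namespace FracScatC

open FracScat

theorem psi_cont (N : ℝ) : Continuous (psi N) := by
  unfold psi
  exact Complex.continuous_ofReal.comp
    (continuous_const.min (continuous_const.max (continuous_norm.sub continuous_const)))

theorem norm_psi_le (N : ℝ) (η : E3) : ‖psi N η‖ ≤ 1 := by
  unfold psi
  rw [Complex.norm_real, Real.norm_of_nonneg (le_min zero_le_one (le_max_left _ _))]
  exact min_le_left _ _

theorem psi_eq_zero {N : ℝ} {η : E3} (h : ‖η‖ ≤ 2 * N) : psi N η = 0 := by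
  unfold psi
  rw [max_eq_left (by linarith), min_eq_right zero_le_one, Complex.ofReal_zero]

private theorem half_mem {N : ℝ} {η : E3} (h : 2 * N ≤ ‖η‖) : N ≤ ‖(-(1 / 2 : ℝ)) • η‖ := by
  rw [norm_smul, Real.norm_eq_abs, abs_neg, abs_of_pos (by norm_num : (0 : ℝ) < 1 / 2)]
  linarith

/-- extension of a function on the exterior region -/
private def gext (N : ℝ) (g : Om N → ℂ) (η : E3) : ℂ :=
  if h : 2 * N ≤ ‖η‖ then psi N η * g ⟨(-(1 / 2 : ℝ)) • η, half_mem h⟩ else 0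

private theorem gext_add (N : ℝ) (g g' : Om N → ℂ) (η : E3) :
    gext N (fun ξ => g ξ + g' ξ) η = gext N g η + gext N g' η := by
  unfold gext
  split_ifs
  · ring
  · ring

private theorem gext_smul (N : ℝ) (c : ℂ) (g : Om N → ℂ) (η : E3) :
    gext N (fun ξ => c * g ξ) η = c * gext N g η := by
  unfold gext
  split_ifs
  · ring
  · ring

private theorem gext_norm_le' {N C : ℝ} {g : Om N → ℂ} (hC : 0 ≤ C) (hg : ∀ ξ, ‖g ξ‖ ≤ C) (η : E3) :
    ‖gext N g η‖ ≤ ‖psi N η‖ * C := by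
  unfold gext
  split_ifs
  · rw [norm_mul]
    exact mul_le_mul_of_nonneg_left (hg _) (norm_nonneg _)
  · rw [norm_zero]
    positivity

private theorem gext_norm_le {N C : ℝ} {g : Om N → ℂ} (hC : 0 ≤ C) (hg : ∀ ξ, ‖g ξ‖ ≤ C) (η : E3) :
    ‖gext N g η‖ ≤ C :=
  (gext_norm_le' hC hg η).trans (mul_le_of_le_one_left hC (norm_psi_le N η))

private theorem gext_zero {N : ℝ} (g : Om N → ℂ) {η : E3} (h : ‖η‖ ≤ 2 * N) : gext N g η = 0 := by
  unfold gext
  split_ifs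
  · rw [psi_eq_zero h, zero_mul]
  · rfl

private theorem gext_apply {N : ℝ} (g : Om N → ℂ) (ξ : Om N) :
    gext N g (-(2 : ℝ) • (ξ : E3)) = psi N (-(2 : ℝ) • (ξ : E3)) * g ξ := by
  have h : 2 * N ≤ ‖-(2 : ℝ) • (ξ : E3)‖ := by
    rw [norm_smul, Real.norm_eq_abs, abs_neg, abs_of_pos (by norm_num : (0 : ℝ) < 2)]
    have := ξ.2
    linarith
  unfold gext
  rw [dif_pos h]
  congr 2
  apply Subtype.ext
  change (-(1 / 2 : ℝ)) • (-(2 : ℝ) • (ξ : E3)) = (ξ : E3)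
  rw [smul_smul]
  norm_num

private theorem gext_cont {N C : ℝ} {g : Om N → ℂ} (hC : 0 ≤ C) (hg : ∀ ξ, ‖g ξ‖ ≤ C)
    (hc : Continuous g) : Continuous (gext N g) := by
  rw [continuous_iff_continuousAt]
  intro η
  rcases le_or_gt ‖η‖ (2 * N) with h | h
  · rw [ContinuousAt, gext_zero g h]
    have h1 : Tendsto (fun η' => ‖psi N η'‖ * C) (𝓝 η) (𝓝 0) := by
      have h2 : Tendsto (fun η' => ‖psi N η'‖ * C) (𝓝 η) (𝓝 (‖psi N η‖ * C)) :=
        ((psi_cont N).norm.mul continuous_const).continuousAt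
      rwa [psi_eq_zero h, norm_zero, zero_mul] at h2
    exact squeeze_zero_norm (gext_norm_le' hC hg) h1
  · have hopen : IsOpen {η : E3 | 2 * N < ‖η‖} := isOpen_lt continuous_const continuous_norm
    have hco : ContinuousOn (gext N g) {η : E3 | 2 * N < ‖η‖} := by
      rw [continuousOn_iff_continuous_restrict]
      have e : Set.domRestrict {η : E3 | 2 * N < ‖η‖} (gext N g) = fun η : {η : E3 | 2 * N < ‖η‖} =>
          psi N (η : E3) * g ⟨(-(1 / 2 : ℝ)) • (η : E3), half_mem (le_of_lt η.2)⟩ := by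
        funext η
        rw [Set.domRestrict_apply, gext, dif_pos (le_of_lt η.2)]
      rw [e]
      refine ((psi_cont N).comp continuous_subtype_val).mul (hc.comp ?_)
      have hv : Continuous fun η : {η : E3 | 2 * N < ‖η‖} => (η : E3) := continuous_subtype_val
      exact (hv.const_smul (-(1 / 2 : ℝ))).subtype_mk _
    exact hco.continuousAt (hopen.mem_nhds h)

private theorem lamO_cont {N : ℝ} (h : Om N →ᵇ L1) (F : XB) :
    Continuous (fun ξ : Om N => lam (ξ : E3) (h ξ) F) := by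
  rw [continuous_iff_continuousAt]
  intro ξ
  have e : (fun ξ' : Om N => lam (ξ' : E3) (h ξ') F) = fun ξ' : Om N =>
      lam (ξ' : E3) (h ξ' - h ξ) F + lam (ξ' : E3) (h ξ) F := by
    funext ξ'
    rw [← lam_add_left, sub_add_cancel]
  have h1 : Tendsto (fun ξ' : Om N => lam (ξ' : E3) (h ξ' - h ξ) F) (𝓝 ξ) (𝓝 0) := by
    have h2 : Tendsto (fun ξ' : Om N => ‖h ξ' - h ξ‖ * ‖F‖) (𝓝 ξ) (𝓝 0) := by
      have h3 : Tendsto (fun ξ' : Om N => ‖h ξ' - h ξ‖ * ‖F‖) (𝓝 ξ) (𝓝 (‖h ξ - h ξ‖ * ‖F‖)) :=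
        (((h.continuous.sub continuous_const).norm).mul continuous_const).continuousAt
      rwa [sub_self, norm_zero, zero_mul] at h3
    exact squeeze_zero_norm (fun ξ' => norm_lam_le _ _ _) h2
  have h4 : Tendsto (fun ξ' : Om N => lam (ξ' : E3) (h ξ) F) (𝓝 ξ) (𝓝 (lam (ξ : E3) (h ξ) F)) :=
    ((lam_cont (h ξ) F).comp continuous_subtype_val).continuousAt
  rw [ContinuousAt, e]
  have h5 := h1.add h4
  simpa only [sub_self, zero_add, ← lam_add_left] using h5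

private theorem lamO_le {N : ℝ} (h : Om N →ᵇ L1) (F : XB) (ξ : Om N) :
    ‖lam (ξ : E3) (h ξ) F‖ ≤ ‖h‖ * ‖F‖ :=
  (norm_lam_le _ _ _).trans (mul_le_mul_of_nonneg_right (h.norm_coe_le_norm ξ) (norm_nonneg _))

/-- the operator for `lam` -/
private def opLF {N : ℝ} (h : Om N →ᵇ L1) (F : XB) : XB :=
  BoundedContinuousFunction.ofNormedAddCommGroup (gext N fun ξ => lam (ξ : E3) (h ξ) F)
    (gext_cont (by positivity) (lamO_le h F) (lamO_cont h F)) (‖h‖ * ‖F‖)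
    (gext_norm_le (by positivity) (lamO_le h F))

private theorem opLF_apply {N : ℝ} (h : Om N →ᵇ L1) (F : XB) (η : E3) :
    opLF h F η = gext N (fun ξ => lam (ξ : E3) (h ξ) F) η := rfl

theorem exists_opL {N : ℝ} (hN : 0 ≤ N) : ∃ 𝓛 : (Om N →ᵇ L1) →L[ℂ] (XB →L[ℂ] XB),
    ‖𝓛‖ ≤ 1 ∧ (∀ (h : Om N →ᵇ L1) (F : XB) (ξ : Om N), 𝓛 h F (-(2 : ℝ) • (ξ : E3)) =
      psi N (-(2 : ℝ) • (ξ : E3)) * lam (ξ : E3) (h ξ) F) ∧
    ∀ (h : Om N →ᵇ L1) (F : XB) (η : E3), ‖η‖ ≤ 2 * N → 𝓛 h F η = 0 := by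
  have _ := hN
  let B : (Om N →ᵇ L1) →ₗ[ℂ] XB →ₗ[ℂ] XB := LinearMap.mk₂ ℂ (fun h F => opLF h F)
    (fun h h' F => by
      ext η
      rw [BoundedContinuousFunction.add_apply, opLF_apply, opLF_apply, opLF_apply, ← gext_add]
      congr 1
      funext ξ
      rw [BoundedContinuousFunction.add_apply, lam_add_left])
    (fun c h F => by
      ext η
      rw [BoundedContinuousFunction.smul_apply, opLF_apply, opLF_apply, smul_eq_mul, ← gext_smul]
      congr 1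
      funext ξ
      rw [BoundedContinuousFunction.smul_apply, lam_smul_left])
    (fun h F F' => by
      ext η
      rw [BoundedContinuousFunction.add_apply, opLF_apply, opLF_apply, opLF_apply, ← gext_add]
      congr 1
      funext ξ
      rw [lam_add_right])
    (fun c h F => by
      ext η
      rw [BoundedContinuousFunction.smul_apply, opLF_apply, opLF_apply, smul_eq_mul, ← gext_smul]
      congr 1
      funext ξ
      rw [lam_smul_right])
  have hB : ∀ (h : Om N →ᵇ L1) (F : XB), ‖B h F‖ ≤ 1 * ‖h‖ * ‖F‖ := by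
    intro h F
    rw [one_mul]
    exact BoundedContinuousFunction.norm_ofNormedAddCommGroup_le _ (by positivity)
      (gext_norm_le (by positivity) (lamO_le h F))
  refine ⟨B.mkContinuous₂ 1 hB, LinearMap.mkContinuous₂_norm_le _ zero_le_one _, ?_, ?_⟩
  · intro h F ξ
    rw [LinearMap.mkContinuous₂_apply]
    exact gext_apply (fun ξ => lam (ξ : E3) (h ξ) F) ξ
  · intro h F η hη
    rw [LinearMap.mkContinuous₂_apply]
    exact gext_zero (fun ξ => lam (ξ : E3) (h ξ) F) hη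

private theorem betO_cont {N : ℝ} (h₁ h₂ : Om N →ᵇ L1) (F : XB) :
    Continuous (fun ξ : Om N => bet (h₁ ξ) (h₂ ξ) F) := by
  rw [continuous_iff_continuousAt]
  intro ξ
  have e : (fun ξ' : Om N => bet (h₁ ξ') (h₂ ξ') F) = fun ξ' : Om N =>
      bet (h₁ ξ' - h₁ ξ) (h₂ ξ') F + (bet (h₁ ξ) (h₂ ξ' - h₂ ξ) F + bet (h₁ ξ) (h₂ ξ) F) := by
    funext ξ'
    rw [← bet_add_mid, sub_add_cancel, ← bet_add_left, sub_add_cancel]
  have h1 : Tendsto (fun ξ' : Om N => bet (h₁ ξ' - h₁ ξ) (h₂ ξ') F) (𝓝 ξ) (𝓝 0) := by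
    have h2 : Tendsto (fun ξ' : Om N => ‖h₁ ξ' - h₁ ξ‖ * ‖h₂ ξ'‖ * ‖F‖) (𝓝 ξ) (𝓝 0) := by
      have h3 : Tendsto (fun ξ' : Om N => ‖h₁ ξ' - h₁ ξ‖ * ‖h₂ ξ'‖ * ‖F‖) (𝓝 ξ)
          (𝓝 (‖h₁ ξ - h₁ ξ‖ * ‖h₂ ξ‖ * ‖F‖)) :=
        ((((h₁.continuous.sub continuous_const).norm).mul h₂.continuous.norm).mul
          continuous_const).continuousAt
      rwa [sub_self, norm_zero, zero_mul, zero_mul] at h3
    exact squeeze_zero_norm (fun ξ' => norm_bet_le _ _ _) h2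
  have h4 : Tendsto (fun ξ' : Om N => bet (h₁ ξ) (h₂ ξ' - h₂ ξ) F) (𝓝 ξ) (𝓝 0) := by
    have h2 : Tendsto (fun ξ' : Om N => ‖h₁ ξ‖ * ‖h₂ ξ' - h₂ ξ‖ * ‖F‖) (𝓝 ξ) (𝓝 0) := by
      have h3 : Tendsto (fun ξ' : Om N => ‖h₁ ξ‖ * ‖h₂ ξ' - h₂ ξ‖ * ‖F‖) (𝓝 ξ)
          (𝓝 (‖h₁ ξ‖ * ‖h₂ ξ - h₂ ξ‖ * ‖F‖)) :=
        ((continuous_const.mul ((h₂.continuous.sub continuous_const).norm)).mul
          continuous_const).continuousAt
      rwa [sub_self, norm_zero, mul_zero, zero_mul] at h3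
    exact squeeze_zero_norm (fun ξ' => norm_bet_le _ _ _) h2
  have h5 : Tendsto (fun _ : Om N => bet (h₁ ξ) (h₂ ξ) F) (𝓝 ξ) (𝓝 (bet (h₁ ξ) (h₂ ξ) F)) :=
    tendsto_const_nhds
  have h6 := h1.add (h4.add h5)
  rw [zero_add, zero_add] at h6
  rw [ContinuousAt, e]
  exact h6

private theorem betO_le {N : ℝ} (h₁ h₂ : Om N →ᵇ L1) (F : XB) (ξ : Om N) :
    ‖bet (h₁ ξ) (h₂ ξ) F‖ ≤ ‖h₁‖ * ‖h₂‖ * ‖F‖ := by
  refine (norm_bet_le _ _ _).trans ?_
  have a := h₁.norm_coe_le_norm ξ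
  have b := h₂.norm_coe_le_norm ξ
  gcongr

/-- the operator for `bet` -/
private def opBF {N : ℝ} (h₁ h₂ : Om N →ᵇ L1) (F : XB) : XB :=
  BoundedContinuousFunction.ofNormedAddCommGroup (gext N fun ξ => bet (h₁ ξ) (h₂ ξ) F)
    (gext_cont (by positivity) (betO_le h₁ h₂ F) (betO_cont h₁ h₂ F)) (‖h₁‖ * ‖h₂‖ * ‖F‖)
    (gext_norm_le (by positivity) (betO_le h₁ h₂ F))

private theorem opBF_apply {N : ℝ} (h₁ h₂ : Om N →ᵇ L1) (F : XB) (η : E3) :
    opBF h₁ h₂ F η = gext N (fun ξ => bet (h₁ ξ) (h₂ ξ) F) η := rfl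

private def opB {N : ℝ} (h₁ h₂ : Om N →ᵇ L1) : XB →L[ℂ] XB :=
  LinearMap.mkContinuous
    { toFun := opBF h₁ h₂
      map_add' := fun F F' => by
        ext η
        rw [BoundedContinuousFunction.add_apply, opBF_apply, opBF_apply, opBF_apply, ← gext_add]
        congr 1
        funext ξ
        rw [bet_add_right]
      map_smul' := fun c F => by
        ext η
        rw [RingHom.id_apply, BoundedContinuousFunction.smul_apply, opBF_apply, opBF_apply,
          smul_eq_mul, ← gext_smul]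
        congr 1
        funext ξ
        rw [bet_smul_right] }
    (‖h₁‖ * ‖h₂‖) (fun F => BoundedContinuousFunction.norm_ofNormedAddCommGroup_le _
      (by positivity) (gext_norm_le (by positivity) (betO_le h₁ h₂ F)))

private theorem opB_apply {N : ℝ} (h₁ h₂ : Om N →ᵇ L1) (F : XB) (η : E3) :
    opB h₁ h₂ F η = gext N (fun ξ => bet (h₁ ξ) (h₂ ξ) F) η := rfl

private theorem norm_opB_le {N : ℝ} (h₁ h₂ : Om N →ᵇ L1) : ‖opB h₁ h₂‖ ≤ ‖h₁‖ * ‖h₂‖ :=
  LinearMap.mkContinuous_norm_le _ (by positivity) _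

theorem exists_opB {N : ℝ} (hN : 0 ≤ N) :
    ∃ 𝓑 : (Om N →ᵇ L1) → (Om N →ᵇ L1) → (XB →L[ℂ] XB),
    IsBoundedBilinearMap ℂ (fun p : (Om N →ᵇ L1) × (Om N →ᵇ L1) => 𝓑 p.1 p.2) ∧
    (∀ h₁ h₂ : Om N →ᵇ L1, ‖𝓑 h₁ h₂‖ ≤ ‖h₁‖ * ‖h₂‖) ∧
    (∀ (h₁ h₂ : Om N →ᵇ L1) (F : XB) (ξ : Om N), 𝓑 h₁ h₂ F (-(2 : ℝ) • (ξ : E3)) =
      psi N (-(2 : ℝ) • (ξ : E3)) * bet (h₁ ξ) (h₂ ξ) F) ∧
    ∀ (h₁ h₂ : Om N →ᵇ L1) (F : XB) (η : E3), ‖η‖ ≤ 2 * N → 𝓑 h₁ h₂ F η = 0 := by
  have _ := hN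
  refine ⟨opB, ⟨?_, ?_, ?_, ?_, ⟨1, one_pos, ?_⟩⟩, norm_opB_le, ?_, ?_⟩
  · intro h h' k
    ext F η
    change opB (h + h') k F η = (opB h k F + opB h' k F) η
    rw [BoundedContinuousFunction.add_apply, opB_apply, opB_apply, opB_apply, ← gext_add]
    congr 1
    funext ξ
    rw [BoundedContinuousFunction.add_apply, bet_add_left]
  · intro c h k
    ext F η
    change opB (c • h) k F η = (c • opB h k F) η
    rw [BoundedContinuousFunction.smul_apply, opB_apply, opB_apply, smul_eq_mul, ← gext_smul]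
    congr 1
    funext ξ
    rw [BoundedContinuousFunction.smul_apply, bet_smul_left]
  · intro h k k'
    ext F η
    change opB h (k + k') F η = (opB h k F + opB h k' F) η
    rw [BoundedContinuousFunction.add_apply, opB_apply, opB_apply, opB_apply, ← gext_add]
    congr 1
    funext ξ
    rw [BoundedContinuousFunction.add_apply, bet_add_mid]
  · intro c h k
    ext F η
    change opB h (c • k) F η = (c • opB h k F) η
    rw [BoundedContinuousFunction.smul_apply, opB_apply, opB_apply, smul_eq_mul, ← gext_smul]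
    congr 1
    funext ξ
    rw [BoundedContinuousFunction.smul_apply, bet_smul_mid]
  · intro h k
    rw [one_mul]
    exact norm_opB_le h k
  · intro h₁ h₂ F ξ
    exact gext_apply (fun ξ => bet (h₁ ξ) (h₂ ξ) F) ξ
  · intro h₁ h₂ F η hη
    exact gext_zero (fun ξ => bet (h₁ ξ) (h₂ ξ) F) hη

end FracScatC

end
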