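import Pool.Agent.Lib.MP_6e2ba5_an.Cx.CChi
import Pool.Agent.Lib.MP_6e2ba5_an.Cx.OpR

/-! # The low frequency operator

`𝒦 F η = (1 - psi N η) (A F η)`, `A` from `exists_conv (𝓕 χ)` (Schwartz). It is a bounded operator
(multiplication by a bounded continuous function). `𝒦 F` is Lipschitz:
`|𝒦 F η - 𝒦 F η'| ≤ L' ‖η-η'‖ ‖F‖` (`psi N` is 1-Lipschitz, `A F` is bounded by `‖A‖‖F‖` and Lipschitz),
and vanishes for `‖η‖ ≥ 2N+1`. Let `δ > 0` with `L' δ ≤ ε`, `Z` a finite `δ`-net of the compact ball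
`B = closedBall 0 (2N+1)` and `(φ_ζ)` a partition of unity on `B` subordinate to the balls
`ball ζ δ` (`PartitionOfUnity.exists_isSubordinate`, finite index type): `0 ≤ φ_ζ`, `∑ φ_ζ = 1` on `B`,
`∑ φ_ζ ≤ 1`. `𝒦' F = ∑_ζ (𝒦 F ζ) φ_ζ` has finite dimensional range (contained in the span of the
`φ_ζ`) and `|𝒦 F η - 𝒦' F η| ≤ ∑ φ_ζ(η) |𝒦 F η - 𝒦 F ζ| + (1 - ∑ φ_ζ(η)) |𝒦 F η| ≤ ε ‖F‖`
(the last term is zero: either `η ∈ B` or `𝒦 F η = 0`). -/

set_option autoImplicit false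

open MeasureTheory Filter Topology Set
open scoped FourierTransform SchwartzMap InnerProductSpace ENNReal BoundedContinuousFunction

noncomputable section

namespace FracScatC

open FracScat

private theorem psi_lip (N : ℝ) (η η' : E3) : ‖psi N η - psi N η'‖ ≤ ‖η - η'‖ := by
  unfold psi
  rw [← Complex.ofReal_sub, Complex.norm_real, Real.norm_eq_abs]
  have h1 : |‖η‖ - ‖η'‖| ≤ ‖η - η'‖ := abs_norm_sub_norm_le η η'
  have h2 : |min 1 (max 0 (‖η‖ - 2 * N)) - min 1 (max 0 (‖η'‖ - 2 * N))| ≤ |‖η‖ - ‖η'‖| := by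
    have a := abs_min_sub_min_le_max (1 : ℝ) (max 0 (‖η‖ - 2 * N)) 1 (max 0 (‖η'‖ - 2 * N))
    have b := abs_max_sub_max_le_max (0 : ℝ) (‖η‖ - 2 * N) 0 (‖η'‖ - 2 * N)
    have c : ‖η‖ - 2 * N - (‖η'‖ - 2 * N) = ‖η‖ - ‖η'‖ := by ring
    rw [sub_self, abs_zero, max_eq_right (abs_nonneg (max 0 (‖η‖ - 2 * N) - max 0 (‖η'‖ - 2 * N)))] at a
    rw [sub_self, abs_zero, c, max_eq_right (abs_nonneg (‖η‖ - ‖η'‖))] at b
    exact a.trans b
  exact h2.trans h1

private theorem one_sub_psi_eq_zero {N : ℝ} {η : E3} (h : 2 * N + 1 ≤ ‖η‖) : 1 - psi N η = 0 := by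
  unfold psi
  rw [min_eq_left ((by linarith : (1 : ℝ) ≤ ‖η‖ - 2 * N).trans (le_max_right _ _))]
  simp

/-- the cut off function as a bounded continuous function -/
private def wB (N : ℝ) : XB :=
  BoundedContinuousFunction.ofNormedAddCommGroup (fun η : E3 => 1 - psi N η)
    (continuous_const.sub (psi_cont N)) 2 (fun η => by
      refine (norm_sub_le _ _).trans ?_
      have := norm_psi_le N η
      rw [norm_one]
      linarith)

private theorem norm_wB_apply_le (N : ℝ) (η : E3) : ‖(1 : ℂ) - psi N η‖ ≤ 2 := by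
  refine (norm_sub_le _ _).trans ?_
  have := norm_psi_le N η
  rw [norm_one]
  linarith

/-- finite rank approximation -/
private theorem exists_finrank (𝒦 : XB →L[ℂ] XB) {L R : ℝ} (hL : 0 ≤ L)
    (hlip : ∀ (F : XB) (η η' : E3), ‖𝒦 F η - 𝒦 F η'‖ ≤ L * ‖η - η'‖ * ‖F‖)
    (hR : ∀ (F : XB) (η : E3), R ≤ ‖η‖ → 𝒦 F η = 0) {ε : ℝ} (hε : 0 < ε) :
    ∃ 𝒦' : XB →L[ℂ] XB,
      FiniteDimensional ℂ (LinearMap.range (𝒦' : XB →ₗ[ℂ] XB)) ∧ ‖𝒦 - 𝒦'‖ ≤ ε := by
  classical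
  set δ : ℝ := ε / (L + 1) with hδ
  have hδ0 : 0 < δ := by positivity
  have hcomp : IsCompact (Metric.closedBall (0 : E3) R) := isCompact_closedBall 0 R
  obtain ⟨Z, -, hZ⟩ := hcomp.elim_nhds_subcover (fun z => Metric.ball z δ)
    (fun z _ => Metric.ball_mem_nhds z hδ0)
  have hcov : Metric.closedBall (0 : E3) R ⊆ ⋃ i : Z, Metric.ball (i : E3) δ := by
    intro x hx
    have := hZ hx
    simp only [mem_iUnion] at this ⊢
    obtain ⟨z, hz, hxz⟩ := this
    exact ⟨⟨z, hz⟩, hxz⟩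
  obtain ⟨f, hf⟩ := PartitionOfUnity.exists_isSubordinate (Metric.isClosed_closedBall)
    (fun i : Z => Metric.ball (i : E3) δ) (fun i => Metric.isOpen_ball) hcov
  have hf0 : ∀ (i : Z) (x : E3), 0 ≤ f i x := fun i x => f.nonneg i x
  have hf1 : ∀ (i : Z) (x : E3), f i x ≤ 1 := fun i x => f.le_one i x
  let φ : Z → XB := fun i =>
    BoundedContinuousFunction.ofNormedAddCommGroup (fun x : E3 => ((f i x : ℝ) : ℂ))
      (Complex.continuous_ofReal.comp (f i).continuous) 1 (fun x => by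
        rw [Complex.norm_real, Real.norm_eq_abs, abs_of_nonneg (hf0 i x)]
        exact hf1 i x)
  have hφ : ∀ i x, φ i x = ((f i x : ℝ) : ℂ) := fun i x => rfl
  let T : Z → (XB →L[ℂ] XB) := fun i =>
    ContinuousLinearMap.smulRight
      ((BoundedContinuousFunction.evalCLM ℂ (i : E3) : XB →L[ℂ] ℂ).comp 𝒦) (φ i)
  have hT : ∀ i F x, T i F x = 𝒦 F (i : E3) * ((f i x : ℝ) : ℂ) := fun i F x => rfl
  refine ⟨∑ i : Z, T i, ?_, ?_⟩
  · have hle : LinearMap.range ((∑ i : Z, T i : XB →L[ℂ] XB) : XB →ₗ[ℂ] XB) ≤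
        Submodule.span ℂ (Set.range φ) := by
      rintro _ ⟨F, rfl⟩
      have : ((∑ i : Z, T i : XB →L[ℂ] XB) : XB →ₗ[ℂ] XB) F = ∑ i : Z, (𝒦 F (i : E3)) • φ i := by
        rw [ContinuousLinearMap.coe_coe, ContinuousLinearMap.sum_apply]
        rfl
      rw [this]
      exact Submodule.sum_mem _ fun i _ => Submodule.smul_mem _ _ (Submodule.subset_span ⟨i, rfl⟩)
    have : FiniteDimensional ℂ (Submodule.span ℂ (Set.range φ)) :=
      FiniteDimensional.span_of_finite ℂ (Set.finite_range φ)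
    exact Submodule.finiteDimensional_of_le hle
  · refine ContinuousLinearMap.opNorm_le_bound _ hε.le fun F => ?_
    refine (BoundedContinuousFunction.norm_le (by positivity)).mpr fun x => ?_
    have hval : ((𝒦 - ∑ i : Z, T i) F) x = 𝒦 F x - ∑ i : Z, 𝒦 F (i : E3) * ((f i x : ℝ) : ℂ) := by
      rw [ContinuousLinearMap.sub_apply, ContinuousLinearMap.sum_apply,
        BoundedContinuousFunction.sub_apply, BoundedContinuousFunction.sum_apply]
      rfl
    have hsum : 𝒦 F x = ∑ i : Z, 𝒦 F x * ((f i x : ℝ) : ℂ) := by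
      by_cases hx : x ∈ Metric.closedBall (0 : E3) R
      · have h1 := f.sum_eq_one hx
        rw [finsum_eq_sum_of_fintype] at h1
        rw [← Finset.mul_sum, ← Complex.ofReal_sum, h1]
        simp
      · have h2 : R ≤ ‖x‖ := by
          rw [mem_closedBall_zero_iff] at hx
          linarith
        rw [hR F x h2]
        simp
    have hdiff : ((𝒦 - ∑ i : Z, T i) F) x =
        ∑ i : Z, (𝒦 F x - 𝒦 F (i : E3)) * ((f i x : ℝ) : ℂ) := by
      rw [hval]
      conv_lhs => rw [hsum]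
      rw [← Finset.sum_sub_distrib]
      exact Finset.sum_congr rfl fun i _ => by ring
    rw [hdiff]
    have hterm : ∀ i : Z, ‖(𝒦 F x - 𝒦 F (i : E3)) * ((f i x : ℝ) : ℂ)‖ ≤
        (L * δ * ‖F‖) * f i x := by
      intro i
      rw [norm_mul, Complex.norm_real, Real.norm_eq_abs, abs_of_nonneg (hf0 i x)]
      by_cases hx : f i x = 0
      · rw [hx]; simp
      · have hxs : x ∈ Metric.ball (i : E3) δ :=
          hf i (subset_tsupport _ (by simpa [Function.mem_support] using hx))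
        have hd : ‖x - (i : E3)‖ ≤ δ := by
          rw [← dist_eq_norm]
          exact (Metric.mem_ball.mp hxs).le
        refine mul_le_mul_of_nonneg_right ((hlip F x i).trans ?_) (hf0 i x)
        exact mul_le_mul_of_nonneg_right (mul_le_mul_of_nonneg_left hd hL) (norm_nonneg _)
    calc ‖∑ i : Z, (𝒦 F x - 𝒦 F (i : E3)) * ((f i x : ℝ) : ℂ)‖
        ≤ ∑ i : Z, (L * δ * ‖F‖) * f i x := norm_sum_le_of_le _ fun i _ => hterm i
      _ = (L * δ * ‖F‖) * ∑ i : Z, f i x := by rw [Finset.mul_sum]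
      _ ≤ (L * δ * ‖F‖) * 1 := by
          refine mul_le_mul_of_nonneg_left ?_ (by positivity)
          have := f.sum_le_one x
          rwa [finsum_eq_sum_of_fintype] at this
      _ ≤ ε * ‖F‖ := by
          rw [mul_one]
          refine mul_le_mul_of_nonneg_right ?_ (norm_nonneg _)
          rw [hδ, mul_div_assoc', div_le_iff₀ (by positivity)]
          nlinarith

theorem exists_lowK (N : ℝ) (χ : 𝓢(E3, ℂ)) : ∃ 𝒦 : XB →L[ℂ] XB,
    (∀ (F : XB) (η : E3), 𝒦 F η = (1 - psi N η) * ∫ ζ, (𝓕 (χ : E3 → ℂ)) ζ * F (η - ζ)) ∧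
    ∀ ε : ℝ, 0 < ε → ∃ 𝒦' : XB →L[ℂ] XB,
      FiniteDimensional ℂ (LinearMap.range (𝒦' : XB →ₗ[ℂ] XB)) ∧ ‖𝒦 - 𝒦'‖ ≤ ε := by
  obtain ⟨A, L, hL, hA, hlip⟩ := exists_conv (𝓕 χ)
  let 𝒦 : XB →L[ℂ] XB := (ContinuousLinearMap.mul ℂ XB (wB N)).comp A
  have hK : ∀ (F : XB) (η : E3), 𝒦 F η = (1 - psi N η) * A F η := fun F η => rfl
  refine ⟨𝒦, ?_, fun ε hε => ?_⟩
  · intro F η
    rw [hK, hA]
    rfl
  · refine exists_finrank 𝒦 (L := 2 * L + ‖A‖) (R := 2 * N + 1) (by positivity) ?_ ?_ hε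
    · intro F η η'
      have e : 𝒦 F η - 𝒦 F η' = (1 - psi N η) * (A F η - A F η') +
          (psi N η' - psi N η) * A F η' := by
        rw [hK, hK]; ring
      rw [e]
      refine (norm_add_le _ _).trans ?_
      rw [norm_mul, norm_mul]
      have h1 : ‖(1 : ℂ) - psi N η‖ * ‖A F η - A F η'‖ ≤ 2 * (L * ‖η - η'‖ * ‖F‖) :=
        mul_le_mul (norm_wB_apply_le N η) (hlip F η η') (norm_nonneg _) (by norm_num)
      have h2 : ‖psi N η' - psi N η‖ * ‖A F η'‖ ≤ ‖η - η'‖ * (‖A‖ * ‖F‖) := by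
        refine mul_le_mul ?_ (((A F).norm_coe_le_norm η').trans (A.le_opNorm F)) (norm_nonneg _)
          (norm_nonneg _)
        rw [norm_sub_rev η η']
        exact psi_lip N η' η
      calc _ ≤ 2 * (L * ‖η - η'‖ * ‖F‖) + ‖η - η'‖ * (‖A‖ * ‖F‖) := add_le_add h1 h2
        _ = (2 * L + ‖A‖) * ‖η - η'‖ * ‖F‖ := by ring
    · intro F η h
      rw [hK, one_sub_psi_eq_zero h, zero_mul]

end FracScatC

end
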