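import Pool.Agent.Lib.MP_6e2ba5_an.Stmt

/-!
# Scattering by the fractional Schroedinger operator: complex potentials, definitions

The definitions of `FracScat` (`Stmt.lean`) with complex valued potentials.
-/

set_option autoImplicit false

open MeasureTheory Filter Topology
open scoped FourierTransform SchwartzMap InnerProductSpace ENNReal

noncomputable section

namespace FracScatC

open FracScat

/-- A complex measurable potential bounded by `M` which vanishes outside the ball of radius `r`. -/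
structure IsPot (r M : ℝ) (V : E3 → ℂ) : Prop where
  measurable : Measurable V
  bounded : ∀ x, ‖V x‖ ≤ M
  vanish : ∀ x, r ≤ ‖x‖ → V x = 0

/-- `u = exp(i k θ·x) + v` is an outgoing solution of `((-Δ)^s - k^(2s) - V) u = 0`:
the scattered wave `v` is in the class `BStar`, the equation holds in the sense of distributions,
and `D^s v`, computed in the sense of distributions, is a vector-valued function `w` with
`R⁻¹ ∫_{1<|x|<R} |w - i k^s (x/|x|) v|² → 0` as `R → ∞`. -/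
structure IsScattering (s k : ℝ) (V : E3 → ℂ) (θ : E3) (u : E3 → ℂ) : Prop where
  bstar : BStar (fun x => u x - planeWave k θ x)
  equation : ∀ φ : 𝓢(E3, ℂ), Integrable (fun x => u x * fracLap s φ x) ∧
    ∫ x, u x * fracLap s φ x = ∫ x, (((k ^ (2 * s) : ℝ) : ℂ) + V x) * u x * φ x
  radiation : ∃ w : Fin 3 → E3 → ℂ, (∀ j, BStar (w j)) ∧
    (∀ (j : Fin 3) (φ : 𝓢(E3, ℂ)),
      Integrable (fun x => (u x - planeWave k θ x) * fracGrad s j φ x) ∧
      ∫ x, w j x * φ x = -∫ x, (u x - planeWave k θ x) * fracGrad s j φ x) ∧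
    Tendsto (fun R : ℝ => R⁻¹ * ∫ x in {x : E3 | 1 < ‖x‖ ∧ ‖x‖ < R},
      ∑ j, ‖w j x - Complex.I * ((k ^ s : ℝ) : ℂ) * ((x j / ‖x‖ : ℝ) : ℂ) *
        (u x - planeWave k θ x)‖ ^ 2) atTop (𝓝 0)

/-- The scattering amplitude `∫ exp(-i k ω·y) V(y) u(y) dy` in the direction `ω`. -/
def amplitude (k : ℝ) (V : E3 → ℂ) (u : E3 → ℂ) (ω : E3) : ℂ :=
  ∫ y, Complex.exp (-(Complex.I * k * (⟪ω, y⟫_ℝ : ℝ))) * V y * u y

/-- At the wave number `k` and for the incident direction `θ` there are outgoing solutions for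
`V₁` and `V₂` with the same back-scattering amplitude `u^∞(k, -θ, θ)`. -/
def SameBackScattering (s k : ℝ) (V₁ V₂ : E3 → ℂ) (θ : E3) : Prop :=
  ∃ u₁ u₂ : E3 → ℂ, IsScattering s k V₁ θ u₁ ∧ IsScattering s k V₂ θ u₂ ∧
    amplitude k V₁ u₁ (-θ) = amplitude k V₂ u₂ (-θ)

/-- At the wave number `k` and for the incident direction `θ` there are outgoing solutions for
`V₁` and `V₂` whose back-scattering amplitudes differ by at most `ε`. -/
def BackDist (s k : ℝ) (V₁ V₂ : E3 → ℂ) (θ : E3) (ε : ℝ) : Prop :=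
  ∃ u₁ u₂ : E3 → ℂ, IsScattering s k V₁ θ u₁ ∧ IsScattering s k V₂ θ u₂ ∧
    ‖amplitude k V₁ u₁ (-θ) - amplitude k V₂ u₂ (-θ)‖ ≤ ε

/-- The Sobolev bound `∫ (1+|η|)^(2σ) |𝓕 V η|² dη ≤ A²`. -/
def SobBd (σ A : ℝ) (V : E3 → ℂ) : Prop :=
  ∫⁻ η, ENNReal.ofReal ((1 + ‖η‖) ^ (2 * σ)) * ‖𝓕 V η‖ₑ ^ 2 ≤ ENNReal.ofReal (A ^ 2)

end FracScatC

end
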