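import Pool.Agent.Lib.MP_6e2ba5_an.Ueq
import Pool.Agent.Lib.MP_6e2ba5_an.Cx.Stmt

/-! # The Lippmann-Schwinger equation on the ball, complex potentials: definitions -/

set_option autoImplicit false

open MeasureTheory Filter Topology Set
open scoped FourierTransform SchwartzMap InnerProductSpace ENNReal

noncomputable section

namespace FracScatC

open FracScat

/-- `1_B R(k) 1_B V`. -/
def Tk (s r : ℝ) (V : E3 → ℂ) (k : ℂ) : HS →L[ℂ] HS := Kop s r k ∘L mulL V

/-- The total field on the ball. -/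
def uk (s r : ℝ) (V : E3 → ℂ) (θ : E3) (k : ℂ) : HS :=
  (Ring.inverse (1 - Tk s r V k)) (ev r θ k)

/-- `∫ e V u`. -/
def Ffun (s r : ℝ) (V : E3 → ℂ) (θ : E3) (k : ℂ) : ℂ :=
  ∫ x, (ev r θ k : E3 → ℂ) x * (mulL V (uk s r V θ k) : E3 → ℂ) x

theorem IsPot.BM {r M : ℝ} {V : E3 → ℂ} (h : IsPot r M V) : BM V :=
  ⟨h.measurable.aestronglyMeasurable, M, Filter.Eventually.of_forall h.bounded⟩

theorem IsPot.norm_mulL {r M : ℝ} {V : E3 → ℂ} (h : IsPot r M V) (hM : 0 ≤ M) : ‖mulL V‖ ≤ M :=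
  norm_mulL_le h.BM hM (Filter.Eventually.of_forall h.bounded)

end FracScatC

end
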