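import Pool.Agent.Lib.MP_6e2ba5_an.UeqA
import Pool.Agent.Lib.MP_6e2ba5_an.Cx.Ueq

/-! # Solution of the Lippmann-Schwinger equation, complex potentials -/

set_option autoImplicit false

open MeasureTheory Filter Topology Set
open scoped FourierTransform SchwartzMap InnerProductSpace ENNReal

noncomputable section

namespace FracScatC

open FracScat


private lemma UeqA_quad {K : ℝ} (hK : 1 ≤ K) {k : ℂ} (hk : k ∈ Reg K) : k ∈ Quad ∧ 1 ≤ ‖k‖ := by
  obtain ⟨h1, h2, h3⟩ := hk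
  refine ⟨⟨h1, h2, ?_⟩, hK.trans h3⟩
  intro h0
  rw [h0, norm_zero] at h3
  linarith

/-- A threshold which is uniform in the potentials bounded by `M`. -/
theorem exists_K {s : ℝ} (h0 : 1 / 2 < s) (h2 : s < 2) {r : ℝ} (hr : 0 < r) (M : ℝ) :
    ∃ K : ℝ, 1 ≤ K ∧ ∀ V : E3 → ℂ, IsPot r M V → ∀ k ∈ Reg K, ‖Tk s r V k‖ ≤ 1 / 2 := by
  obtain ⟨C, hC, hKop⟩ := Kop_norm (s := s) (by linarith) h2 hr.le
  set M' : ℝ := max M 0 with hM
  have hM0 : 0 ≤ M' := le_max_right _ _
  have ht : Tendsto (fun K : ℝ => C * K ^ (-(2 * s - 1)) * M') atTop (𝓝 (C * 0 * M')) :=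
    ((tendsto_rpow_neg_atTop (by linarith)).const_mul C).mul_const M'
  rw [mul_zero, zero_mul] at ht
  obtain ⟨K, hK1, hK2⟩ := ((ht.eventually_le_const (by norm_num : (0 : ℝ) < 1 / 2)).and
    (eventually_ge_atTop (1 : ℝ))).exists
  refine ⟨K, hK2, ?_⟩
  intro V hV k hk
  have hVM : ‖mulL V‖ ≤ M' := norm_mulL_le hV.BM hM0
    (Filter.Eventually.of_forall fun x => (hV.bounded x).trans (le_max_left _ _))
  obtain ⟨hq, hk1⟩ := UeqA_quad hK2 hk
  have hkK : K ≤ ‖k‖ := hk.2.2
  have e1 : ‖Tk s r V k‖ ≤ ‖Kop s r k‖ * M' := (ContinuousLinearMap.opNorm_comp_le _ _).trans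
    (mul_le_mul_of_nonneg_left hVM (norm_nonneg _))
  have e2 : ‖k‖ ^ (1 - 2 * s) ≤ K ^ (-(2 * s - 1)) := by
    rw [neg_sub]
    exact Real.rpow_le_rpow_of_nonpos (by linarith) hkK (by linarith)
  calc ‖Tk s r V k‖ ≤ ‖Kop s r k‖ * M' := e1
    _ ≤ (C * ‖k‖ ^ (1 - 2 * s)) * M' := mul_le_mul_of_nonneg_right (hKop k hq hk1) hM0
    _ ≤ (C * K ^ (-(2 * s - 1))) * M' :=
        mul_le_mul_of_nonneg_right (mul_le_mul_of_nonneg_left e2 hC) hM0
    _ ≤ 1 / 2 := hK1

private lemma UeqA_unit {s r : ℝ} {V : E3 → ℂ} {k : ℂ} (hT : ‖Tk s r V k‖ ≤ 1 / 2) :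
    IsUnit (1 - Tk s r V k) :=
  isUnit_one_sub_of_norm_lt_one (lt_of_le_of_lt hT (by norm_num))

theorem uk_eq {s r : ℝ} {V : E3 → ℂ} {θ : E3} {k : ℂ} (hT : ‖Tk s r V k‖ ≤ 1 / 2) :
    uk s r V θ k = ev r θ k + Kop s r k (mulL V (uk s r V θ k)) := by
  have h1 := Ring.mul_inverse_cancel _ (UeqA_unit hT)
  have h2 : (1 - Tk s r V k) (uk s r V θ k) = ev r θ k := by
    have h3 := congrArg (fun A : HS →L[ℂ] HS => A (ev r θ k)) h1
    exact h3
  have h4 : uk s r V θ k - Kop s r k (mulL V (uk s r V θ k)) = ev r θ k := h2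
  rw [← h4]
  abel

/-- The bilinear pairing. -/
private def UeqA_B : HS →L[ℂ] HS →L[ℂ] ℂ :=
  LinearMap.mkContinuous₂
    (LinearMap.mk₂ ℂ (fun f g : HS => ∫ x, (f : E3 → ℂ) x * (g : E3 → ℂ) x)
      (fun f f' g => by
        rw [← integral_add (integrable_mul f g) (integrable_mul f' g)]
        apply integral_congr_ae
        filter_upwards [Lp.coeFn_add f f'] with x hx
        rw [hx, Pi.add_apply]
        ring)
      (fun c f g => by
        rw [smul_eq_mul, ← integral_const_mul]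
        apply integral_congr_ae
        filter_upwards [Lp.coeFn_smul c f] with x hx
        rw [hx, Pi.smul_apply, smul_eq_mul]
        ring)
      (fun f g g' => by
        rw [← integral_add (integrable_mul f g) (integrable_mul f g')]
        apply integral_congr_ae
        filter_upwards [Lp.coeFn_add g g'] with x hx
        rw [hx, Pi.add_apply]
        ring)
      (fun c f g => by
        rw [smul_eq_mul, ← integral_const_mul]
        apply integral_congr_ae
        filter_upwards [Lp.coeFn_smul c g] with x hx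
        rw [hx, Pi.smul_apply, smul_eq_mul]
        ring))
    1 (fun f g => by
      rw [one_mul]
      exact norm_integral_mul_le f g)

private lemma UeqA_F (s r : ℝ) (V : E3 → ℂ) (θ : E3) (k : ℂ) : Ffun s r V θ k =
    UeqA_B (ev r θ k) (mulL V (Ring.inverse (1 - Kop s r k ∘L mulL V) (ev r θ k))) := rfl

theorem Ffun_cont {s : ℝ} (h0 : 1 / 2 < s) (h2 : s < 2) {r : ℝ} (hr : 0 < r) {V : E3 → ℂ} (θ : E3) {K : ℝ} (hK : 1 ≤ K) (hT : ∀ k ∈ Reg K, ‖Tk s r V k‖ ≤ 1 / 2) :
    ContinuousOn (Ffun s r V θ) (Reg K) := by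
  have hev : ContinuousOn (ev r θ) (Reg K) := (ev_diff r θ).continuous.continuousOn
  have hKop : ContinuousOn (Kop s r) (Reg K) :=
    (Kop_cont (s := s) (by linarith) h2 hr.le).mono fun k hk => (UeqA_quad hK hk).1
  have hinv : ContinuousOn (fun k => Ring.inverse (1 - Kop s r k ∘L mulL V)) (Reg K) := by
    intro k hk
    obtain ⟨u, hu⟩ := UeqA_unit (hT k hk)
    have h1 : ContinuousWithinAt (fun k => 1 - Kop s r k ∘L mulL V) (Reg K) k :=
      continuousWithinAt_const.sub ((hKop k hk).clm_comp continuousWithinAt_const)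
    have h3 := NormedRing.inverse_continuousAt u
    rw [hu] at h3
    exact ContinuousAt.comp_continuousWithinAt (g := Ring.inverse) h3 h1
  have h4 : ContinuousOn (fun k => UeqA_B (ev r θ k) (mulL V
      (Ring.inverse (1 - Kop s r k ∘L mulL V) (ev r θ k)))) (Reg K) := by
    refine ContinuousOn.clm_apply (UeqA_B.continuous.comp_continuousOn hev) ?_
    exact (mulL V).continuous.comp_continuousOn (hinv.clm_apply hev)
  exact h4

theorem Ffun_diff {s : ℝ} (h0 : 1 / 2 < s) (h2 : s < 2) {r : ℝ} (hr : 0 < r) {V : E3 → ℂ} (θ : E3) {K : ℝ} (hK : 1 ≤ K) (hT : ∀ k ∈ Reg K, ‖Tk s r V k‖ ≤ 1 / 2) :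
    DifferentiableOn ℂ (Ffun s r V θ) (RegO K) := by
  have hsub : RegO K ⊆ Reg K := fun k hk => ⟨hk.1.le, hk.2.1.le, hk.2.2.le⟩
  have hev : DifferentiableOn ℂ (ev r θ) (RegO K) := (ev_diff r θ).differentiableOn
  have hKop : DifferentiableOn ℂ (Kop s r) (RegO K) :=
    (Kop_diff (s := s) (by linarith) h2 hr.le).mono fun k hk => ⟨hk.1, hk.2.1⟩
  have hinv : DifferentiableOn ℂ (fun k => Ring.inverse (1 - Kop s r k ∘L mulL V)) (RegO K) := by
    intro k hk
    have h1 : DifferentiableWithinAt ℂ (fun k => 1 - Kop s r k ∘L mulL V) (RegO K) k :=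
      (differentiableWithinAt_const _).sub ((hKop k hk).clm_comp (differentiableWithinAt_const _))
    exact h1.inverse (UeqA_unit (hT k (hsub hk)))
  have h4 : DifferentiableOn ℂ (fun k => UeqA_B (ev r θ k) (mulL V
      (Ring.inverse (1 - Kop s r k ∘L mulL V) (ev r θ k)))) (RegO K) := by
    refine DifferentiableOn.clm_apply (UeqA_B.differentiable.comp_differentiableOn hev) ?_
    exact (mulL V).differentiable.comp_differentiableOn (hinv.clm_apply hev)
  exact h4

end FracScatC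

end
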