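import Pool.Agent.Lib.MP_6e2ba5_an.Exist
import Pool.Agent.Lib.MP_6e2ba5_an.Cx.UeqA

/-! # Existence of outgoing solutions, complex potentials -/

set_option autoImplicit false

open MeasureTheory Filter Topology Set
open scoped FourierTransform SchwartzMap InnerProductSpace ENNReal

noncomputable section

namespace FracScatC

open FracScat


private theorem ex_pw_norm (k : ℝ) (θ x : E3) : ‖planeWave k θ x‖ = 1 := by
  unfold planeWave
  have h : Complex.I * (k : ℂ) * ((⟪θ, x⟫_ℝ : ℝ) : ℂ) = ((k * ⟪θ, x⟫_ℝ : ℝ) : ℂ) * Complex.I := by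
    push_cast
    ring
  rw [h, Complex.norm_exp_ofReal_mul_I]

private theorem ex_pw_cont (k : ℝ) (θ : E3) : Continuous (fun x : E3 => planeWave k θ x) := by
  unfold planeWave
  fun_prop

private theorem ex_pw_int (k : ℝ) (θ : E3) (φ : 𝓢(E3, ℂ)) :
    Integrable (fun x => planeWave k θ x * φ x) := by
  refine Integrable.mono' φ.integrable.norm
    ((ex_pw_cont k θ).aestronglyMeasurable.mul φ.integrable.1) (Eventually.of_forall fun x => ?_)
  rw [norm_mul, ex_pw_norm, one_mul]

theorem exists_scattering {s : ℝ} (h0 : 1 / 2 < s) (h2 : s < 2) {r M : ℝ} (hr : 0 < r)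
    {V : E3 → ℂ} (hV : IsPot r M V) {θ : E3} (hθ : ‖θ‖ = 1) {k : ℝ} (hk : 0 < k)
    (hT : ‖Tk s r V k‖ ≤ 1 / 2) :
    ∃ u : E3 → ℂ, IsScattering s k V θ u ∧ amplitude k V u (-θ) = Ffun s r V θ k := by
  have hs0 : 0 < s := by linarith
  set f : HS := mulL V (uk s r V θ k) with hfdef
  -- the source is supported in the ball
  have hf : mulL (indB r) f = f := by
    rw [hfdef, mulL_mulL (indB_BM r) hV.BM]
    congr 2
    funext x
    unfold indB
    split_ifs with h
    · rw [one_mul]
    · rw [hV.vanish x (not_lt.1 h)]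
      simp
  have hbs : BStar (vf s k f) := vf_BStar hr hf
  set u : E3 → ℂ := fun x => planeWave k θ x + vf s k f x with hu
  have hsub : (fun x => u x - planeWave k θ x) = vf s k f := by
    funext x
    rw [hu]
    simp only [add_sub_cancel_left]
  have hsubx : ∀ x, u x - planeWave k θ x = vf s k f x := fun x => congrFun hsub x
  -- `V u = f` almost everywhere
  have hVu : ∀ᵐ x ∂(volume : Measure E3), (V x) * u x = f x := by
    have h1 := mulL_coe hV.BM (uk s r V θ k)
    have h3 := Kop_phys h0 h2 hr hk hf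
    have h4 := ev_coe r θ (k : ℂ)
    have h5 : (uk s r V θ k : E3 → ℂ) =ᵐ[volume]
        fun x => (ev r θ k : E3 → ℂ) x + (Kop s r k f : E3 → ℂ) x := by
      have h6 := Lp.coeFn_add (ev r θ (k : ℂ)) (Kop s r k f)
      have h7 : uk s r V θ k = ev r θ k + Kop s r k f := uk_eq hT
      rw [← h7] at h6
      exact h6
    filter_upwards [h1, h3, h4, h5] with x a1 a3 a4 a5
    rw [a1]
    by_cases hx : ‖x‖ < r
    · rw [a5, a4, a3 hx]
      unfold indB
      rw [if_pos hx, one_mul]
    · rw [hV.vanish x (not_lt.1 hx)]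
      simp
  refine ⟨u, ⟨?_, ?_, ?_⟩, ?_⟩
  · rw [hsub]
    exact hbs
  · intro φ
    obtain ⟨p1, p2⟩ := plane_eq h0 h2 hk hθ φ
    have q1 : Integrable (fun x => vf s k f x * fracLap s φ x) :=
      BStar_mul_WL hbs (fracLap_WL h0 h2 φ)
    have q2 : Integrable (fun x => vf s k f x * φ x) := BStar_mul_WL hbs (schwartz_WL φ)
    have q3 : Integrable (fun x => planeWave k θ x * φ x) := ex_pw_int k θ φ
    have q4 : Integrable (fun x => (f : E3 → ℂ) x * φ x) :=
      (Lp.memLp f).integrable_mul (schwartz_WL φ).memLp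
    have e1 : (fun x => u x * fracLap s φ x) =
        fun x => planeWave k θ x * fracLap s φ x + vf s k f x * fracLap s φ x := by
      funext x
      rw [hu]
      ring
    refine ⟨?_, ?_⟩
    · rw [e1]
      exact p1.add q1
    · rw [e1, integral_add p1 q1, p2]
      have h3 := vf_eq h0 h2 hk hr hf φ
      have e2 : ∫ x, (((k ^ (2 * s) : ℝ) : ℂ) + (V x)) * u x * φ x =
          ∫ x, ((((k ^ (2 * s) : ℝ) : ℂ) * (planeWave k θ x * φ x) +
            ((k ^ (2 * s) : ℝ) : ℂ) * (vf s k f x * φ x)) + (f : E3 → ℂ) x * φ x) := by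
        refine integral_congr_ae ?_
        filter_upwards [hVu] with x hx
        rw [← hx]
        simp only [hu]
        ring
      have q5 : Integrable (fun x => ((k ^ (2 * s) : ℝ) : ℂ) * (planeWave k θ x * φ x) +
          ((k ^ (2 * s) : ℝ) : ℂ) * (vf s k f x * φ x)) := (q3.const_mul _).add (q2.const_mul _)
      rw [e2, integral_add q5 q4,
        integral_add (q3.const_mul _) (q2.const_mul _), integral_const_mul, integral_const_mul]
      linear_combination h3
  · refine ⟨fun j => wf s k j f, fun j => wf_BStar hk hr hf j, ?_, ?_⟩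
    · intro j φ
      simp only [hsubx]
      exact ⟨BStar_mul_WL hbs (fracGrad_WL h0 h2 j φ), wf_eq h0 h2 hk hr hf j φ⟩
    · simp only [hsubx]
      exact vf_rad hs0 hk hr hf
  · unfold amplitude Ffun
    rw [← hfdef]
    refine integral_congr_ae ?_
    filter_upwards [hVu, ev_coe r θ (k : ℂ)] with y h1 h4
    rw [h4, ← h1]
    have h5 : Complex.exp (-(Complex.I * (k : ℂ) * ((⟪-θ, y⟫_ℝ : ℝ) : ℂ))) = planeWave k θ y := by
      unfold planeWave
      rw [inner_neg_left]
      congr 1
      push_cast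
      ring
    rw [h5]
    by_cases hy : ‖y‖ < r
    · unfold indB
      rw [if_pos hy]
      ring
    · rw [hV.vanish y (not_lt.1 hy)]
      simp

end FracScatC

end
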