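import Pool.Agent.Lib.MP_6e2ba5_an.Cx.A3Four

/-! # The expansion of the difference of the data

`UX V_j = eH + Kop (mulL V_j (UX V_j))` (`UX_fix`), `mulL V_j _` is supported in the ball
(`mulL_indB_of_pot`), `Kop_Bd`, `eH_Bd` give the boundedness needed in `A3_add_left`,
`A3_add_right`; then `A3_ee`, `A3_eK` (twice, with `A3_comm`), `A3_KK`. -/

set_option autoImplicit false

open MeasureTheory Filter Topology Set
open scoped FourierTransform SchwartzMap InnerProductSpace ENNReal BoundedContinuousFunction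

noncomputable section

namespace FracScatC

open FracScat

theorem A3_expand {s : ℝ} (h0 : 3 / 4 < s) (h2 : s < 2) {r : ℝ} (hr : 0 ≤ r) {ξ : E3}
    (hξ : 1 ≤ 2 * Real.pi * ‖ξ‖) {W : HS} (hW : W ∈ HB r) {M₁ M₂ : ℝ} {V₁ V₂ : E3 → ℂ}
    (hV₁ : IsPot r M₁ V₁) (hV₂ : IsPot r M₂ V₂) (hT₁ : ‖Tk s r V₁ (kx ξ)‖ ≤ 1 / 2)
    (hT₂ : ‖Tk s r V₂ (kx ξ)‖ ≤ 1 / 2) :
    A3 W (UX s r V₁ ξ) (UX s r V₂ ξ) = ftX W (-(2 : ℝ) • ξ) + lam ξ (Hf s r V₁ ξ) (ftX W) +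
      lam ξ (Hf s r V₂ ξ) (ftX W) + bet (Hf s r V₁ ξ) (Hf s r V₂ ξ) (ftX W) := by
  have g1 : mulL (indB r) (mulL V₁ (UX s r V₁ ξ)) = mulL V₁ (UX s r V₁ ξ) := mulL_indB_of_pot hV₁ _
  have g2 : mulL (indB r) (mulL V₂ (UX s r V₂ ξ)) = mulL V₂ (UX s r V₂ ξ) := mulL_indB_of_pot hV₂ _
  have f1 := UX_fix hT₁
  have f2 := UX_fix hT₂
  have bE := eH_Bd r ξ
  have b1 := Kop_Bd h0 h2 hr hξ g1
  have e1 : A3 W (UX s r V₁ ξ) (UX s r V₂ ξ) =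
      A3 W (eH r ξ + Kop s r (kx ξ) (mulL V₁ (UX s r V₁ ξ)))
        (eH r ξ + Kop s r (kx ξ) (mulL V₂ (UX s r V₂ ξ))) := by
    rw [← f1, ← f2]
  rw [e1, A3_add_left bE b1, A3_add_right bE, A3_add_right b1, A3_ee hW,
    A3_eK h0 h2 hr hξ hW g2, A3_comm W (Kop s r (kx ξ) (mulL V₁ (UX s r V₁ ξ))) (eH r ξ),
    A3_eK h0 h2 hr hξ hW g1, A3_KK h0 h2 hr hξ hW g1 g2]
  unfold Hf
  ring

end FracScatC

end
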