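import Pool.Agent.Lib.MP_6e2ba5_an.Unique
import Pool.Agent.Lib.MP_6e2ba5_an.Cx.UeqA

/-! # Uniqueness of outgoing solutions, complex potentials -/

set_option autoImplicit false

open MeasureTheory Filter Topology Set
open scoped FourierTransform SchwartzMap InnerProductSpace ENNReal

noncomputable section

namespace FracScatC

open FracScat


private theorem bstar_sub {v w : E3 → ℂ} (hv : BStar v) (hw : BStar w) :
    BStar (fun x => v x - w x) := by
  have h := hv.add (hw.const_mul (-1))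
  have e : (fun x => v x + -1 * w x) = fun x => v x - w x := by
    funext x
    ring
  rwa [e] at h

private theorem bstar_bmul {b v : E3 → ℂ} (hb : AEStronglyMeasurable b volume)
    (hb1 : ∀ x, ‖b x‖ ≤ 1) (hv : BStar v) : BStar (fun x => b x * v x) := by
  obtain ⟨hm, C, hC⟩ := hv
  have hbm : AEStronglyMeasurable (fun x => b x * v x) volume := hb.mul hm
  have hle : ∀ x, ‖b x * v x‖ ^ 2 ≤ ‖v x‖ ^ 2 := by
    intro x
    rw [norm_mul]
    have h1 := hb1 x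
    have h2 := norm_nonneg (b x)
    have h3 := norm_nonneg (v x)
    have h4 : ‖b x‖ * ‖v x‖ ≤ ‖v x‖ := by nlinarith
    have h5 : 0 ≤ ‖b x‖ * ‖v x‖ := mul_nonneg h2 h3
    nlinarith
  refine ⟨hbm, C, fun R hR => ?_⟩
  obtain ⟨h1, h2⟩ := hC R hR
  have hi : IntegrableOn (fun x => ‖b x * v x‖ ^ 2) (Metric.ball 0 R) := by
    refine Integrable.mono' h1 ?_ ?_
    · exact ((hbm.norm.aemeasurable.pow_const 2).aestronglyMeasurable).restrict
    · refine Eventually.of_forall fun x => ?_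
      rw [Real.norm_of_nonneg (by positivity)]
      exact hle x
  refine ⟨hi, le_trans ?_ h2⟩
  exact integral_mono hi h1 fun x => hle x

private theorem planeWave_continuous (k : ℂ) (θ : E3) : Continuous (planeWave k θ) := by
  unfold planeWave
  fun_prop

private theorem planeWave_norm (k : ℝ) (θ x : E3) : ‖planeWave k θ x‖ = 1 := by
  unfold planeWave
  have e : Complex.I * (k : ℂ) * ((⟪θ, x⟫_ℝ : ℝ) : ℂ) = ((k * ⟪θ, x⟫_ℝ : ℝ) : ℂ) * Complex.I := by
    push_cast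
    ring
  rw [e]
  exact Complex.norm_exp_ofReal_mul_I _

private theorem int_u {s k : ℝ} {V : E3 → ℂ} {θ : E3} {u : E3 → ℂ}
    (hu : IsScattering s k V θ u) (φ : 𝓢(E3, ℂ)) : Integrable (fun x => u x * φ x) := by
  have h1 := BStar_mul_WL hu.bstar (schwartz_WL φ)
  have h2 : Integrable (fun x => planeWave k θ x * φ x) := by
    refine Integrable.mono' (φ.integrable).norm ?_ ?_
    · exact ((planeWave_continuous k θ).mul φ.continuous).aestronglyMeasurable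
    · refine Eventually.of_forall fun x => ?_
      rw [norm_mul, planeWave_norm, one_mul]
  have h3 := h1.add h2
  refine h3.congr (Eventually.of_forall fun x => ?_)
  simp only [Pi.add_apply]
  ring

private theorem int_Vu {r M : ℝ} {V : E3 → ℂ} (hV : IsPot r M V) {h : E3 → ℂ} (hi : Integrable h) :
    Integrable (fun x => (V x) * h x) := by
  refine Integrable.mono' (hi.norm.const_mul M) ?_ ?_
  · exact (hV.measurable.aestronglyMeasurable).mul hi.1
  · refine Eventually.of_forall fun x => ?_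
    rw [norm_mul]
    exact mul_le_mul_of_nonneg_right (hV.bounded x) (norm_nonneg _)

private theorem bstar_memLp_ind {v : E3 → ℂ} (hv : BStar v) (r : ℝ) :
    MemLp (fun x => indB r x * v x) 2 volume := by
  obtain ⟨hm, C, hC⟩ := hv
  have h1 := (hC (max r 1) (le_max_right _ _)).1
  have hb : AEStronglyMeasurable (indB r) volume := (indB_BM r).1
  have hbv : AEStronglyMeasurable (fun x => indB r x * v x) volume := hb.mul hm
  refine (memLp_two_iff_integrable_sq_norm hbv).mpr ?_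
  have h2 : IntegrableOn (fun x => ‖v x‖ ^ 2) (Metric.ball 0 r) :=
    h1.mono_set (Metric.ball_subset_ball (le_max_left _ _))
  rw [← integrable_indicator_iff measurableSet_ball] at h2
  refine h2.congr (Eventually.of_forall fun x => ?_)
  by_cases hx : ‖x‖ < r
  · have hx' : x ∈ Metric.ball (0 : E3) r := mem_ball_zero_iff.mpr hx
    simp only [indicator_of_mem hx', indB, if_pos hx, one_mul]
  · have hx' : x ∉ Metric.ball (0 : E3) r := fun h => hx (mem_ball_zero_iff.mp h)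
    simp only [indicator_of_notMem hx', indB, if_neg hx, zero_mul, norm_zero]
    norm_num

private theorem dir_meas (j : Fin 3) :
    AEStronglyMeasurable (fun x : E3 => ((x j / ‖x‖ : ℝ) : ℂ)) volume := by
  have h : Measurable (fun x : E3 => ((x j / ‖x‖ : ℝ) : ℂ)) := by fun_prop
  exact h.aestronglyMeasurable

private theorem dir_norm (j : Fin 3) (x : E3) : ‖((x j / ‖x‖ : ℝ) : ℂ)‖ ≤ 1 := by
  rw [Complex.norm_real, norm_div, norm_norm]
  exact div_le_one_of_le₀ (PiLp.norm_apply_le x j) (norm_nonneg x)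

private theorem bstar_rad {v w : E3 → ℂ} (hv : BStar v) (hw : BStar w) (c : ℂ) (j : Fin 3) :
    BStar (fun x => w x - c * ((x j / ‖x‖ : ℝ) : ℂ) * v x) := by
  have h := bstar_sub hw ((bstar_bmul (dir_meas j) (dir_norm j) hv).const_mul c)
  have e : (fun x => w x - c * (((x j / ‖x‖ : ℝ) : ℂ) * v x)) =
      fun x => w x - c * ((x j / ‖x‖ : ℝ) : ℂ) * v x := by
    funext x
    ring
  rwa [e] at h

private theorem sq_three (a b c : ℂ) : ‖a - b - c‖ ^ 2 ≤ 3 * (‖a‖ ^ 2 + ‖b‖ ^ 2 + ‖c‖ ^ 2) := by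
  have h1 : ‖a - b - c‖ ≤ ‖a‖ + ‖b‖ + ‖c‖ :=
    (norm_sub_le _ _).trans (add_le_add (norm_sub_le _ _) le_rfl)
  have h2 : ‖a - b - c‖ ^ 2 ≤ (‖a‖ + ‖b‖ + ‖c‖) ^ 2 :=
    pow_le_pow_left₀ (norm_nonneg _) h1 2
  nlinarith [sq_nonneg (‖a‖ - ‖b‖), sq_nonneg (‖b‖ - ‖c‖), sq_nonneg (‖a‖ - ‖c‖)]

private theorem bstar_int_shell {v : E3 → ℂ} (hv : BStar v) {R : ℝ} (hR : 1 ≤ R) :
    IntegrableOn (fun x => ‖v x‖ ^ 2) {x : E3 | 1 < ‖x‖ ∧ ‖x‖ < R} := by
  obtain ⟨_, C, hC⟩ := hv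
  refine (hC R hR).1.mono_set ?_
  intro x hx
  exact mem_ball_zero_iff.mpr hx.2

private theorem rad_sub {a b c d : Fin 3 → E3 → ℂ} (ha : ∀ j, BStar (a j)) (hb : ∀ j, BStar (b j))
    (hc : ∀ j, BStar (c j)) (hd : ∀ j x, d j x = a j x - b j x - c j x)
    (la : Tendsto (fun R : ℝ => R⁻¹ * ∫ x in {x : E3 | 1 < ‖x‖ ∧ ‖x‖ < R},
      ∑ j, ‖a j x‖ ^ 2) atTop (𝓝 0))
    (lb : Tendsto (fun R : ℝ => R⁻¹ * ∫ x in {x : E3 | 1 < ‖x‖ ∧ ‖x‖ < R},
      ∑ j, ‖b j x‖ ^ 2) atTop (𝓝 0))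
    (lc : Tendsto (fun R : ℝ => R⁻¹ * ∫ x in {x : E3 | 1 < ‖x‖ ∧ ‖x‖ < R},
      ∑ j, ‖c j x‖ ^ 2) atTop (𝓝 0)) :
    Tendsto (fun R : ℝ => R⁻¹ * ∫ x in {x : E3 | 1 < ‖x‖ ∧ ‖x‖ < R},
      ∑ j, ‖d j x‖ ^ 2) atTop (𝓝 0) := by
  have hl := (((la.add lb).add lc).const_mul 3)
  rw [add_zero, add_zero, mul_zero] at hl
  refine squeeze_zero' ?_ ?_ hl
  · filter_upwards [eventually_ge_atTop (1 : ℝ)] with R hR
    have h1 : (0 : ℝ) ≤ R⁻¹ := inv_nonneg.mpr (by linarith)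
    refine mul_nonneg h1 (integral_nonneg fun x => ?_)
    exact Finset.sum_nonneg fun j _ => by positivity
  · filter_upwards [eventually_ge_atTop (1 : ℝ)] with R hR
    have h1 : (0 : ℝ) ≤ R⁻¹ := inv_nonneg.mpr (by linarith)
    have ia : IntegrableOn (fun x => ∑ j, ‖a j x‖ ^ 2) {x : E3 | 1 < ‖x‖ ∧ ‖x‖ < R} :=
      integrable_finsetSum _ fun j _ => bstar_int_shell (ha j) hR
    have ib : IntegrableOn (fun x => ∑ j, ‖b j x‖ ^ 2) {x : E3 | 1 < ‖x‖ ∧ ‖x‖ < R} :=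
      integrable_finsetSum _ fun j _ => bstar_int_shell (hb j) hR
    have ic : IntegrableOn (fun x => ∑ j, ‖c j x‖ ^ 2) {x : E3 | 1 < ‖x‖ ∧ ‖x‖ < R} :=
      integrable_finsetSum _ fun j _ => bstar_int_shell (hc j) hR
    have hdB : ∀ j, BStar (d j) := by
      intro j
      have h := bstar_sub (bstar_sub (ha j) (hb j)) (hc j)
      have e : d j = fun x => a j x - b j x - c j x := funext (hd j)
      rw [e]
      exact h
    have iD : IntegrableOn (fun x => ∑ j, ‖d j x‖ ^ 2) {x : E3 | 1 < ‖x‖ ∧ ‖x‖ < R} :=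
      integrable_finsetSum _ fun j _ => bstar_int_shell (hdB j) hR
    have iS := ((ia.add ib).add ic).const_mul 3
    have key : ∫ x in {x : E3 | 1 < ‖x‖ ∧ ‖x‖ < R}, ∑ j, ‖d j x‖ ^ 2 ≤
        3 * ((∫ x in {x : E3 | 1 < ‖x‖ ∧ ‖x‖ < R}, ∑ j, ‖a j x‖ ^ 2) +
          (∫ x in {x : E3 | 1 < ‖x‖ ∧ ‖x‖ < R}, ∑ j, ‖b j x‖ ^ 2) +
          ∫ x in {x : E3 | 1 < ‖x‖ ∧ ‖x‖ < R}, ∑ j, ‖c j x‖ ^ 2) := by
      have e : 3 * ((∫ x in {x : E3 | 1 < ‖x‖ ∧ ‖x‖ < R}, ∑ j, ‖a j x‖ ^ 2) +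
          (∫ x in {x : E3 | 1 < ‖x‖ ∧ ‖x‖ < R}, ∑ j, ‖b j x‖ ^ 2) +
          ∫ x in {x : E3 | 1 < ‖x‖ ∧ ‖x‖ < R}, ∑ j, ‖c j x‖ ^ 2) =
          ∫ x in {x : E3 | 1 < ‖x‖ ∧ ‖x‖ < R},
            3 * (∑ j, ‖a j x‖ ^ 2 + ∑ j, ‖b j x‖ ^ 2 + ∑ j, ‖c j x‖ ^ 2) := by
        rw [integral_const_mul]
        congr 1
        have e1 : ∫ x in {x : E3 | 1 < ‖x‖ ∧ ‖x‖ < R},
            (∑ j, ‖a j x‖ ^ 2 + ∑ j, ‖b j x‖ ^ 2 + ∑ j, ‖c j x‖ ^ 2) =
            (∫ x in {x : E3 | 1 < ‖x‖ ∧ ‖x‖ < R}, (∑ j, ‖a j x‖ ^ 2 + ∑ j, ‖b j x‖ ^ 2)) +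
            ∫ x in {x : E3 | 1 < ‖x‖ ∧ ‖x‖ < R}, ∑ j, ‖c j x‖ ^ 2 := integral_add (ia.add ib) ic
        have e2 : ∫ x in {x : E3 | 1 < ‖x‖ ∧ ‖x‖ < R}, (∑ j, ‖a j x‖ ^ 2 + ∑ j, ‖b j x‖ ^ 2) =
            (∫ x in {x : E3 | 1 < ‖x‖ ∧ ‖x‖ < R}, ∑ j, ‖a j x‖ ^ 2) +
            ∫ x in {x : E3 | 1 < ‖x‖ ∧ ‖x‖ < R}, ∑ j, ‖b j x‖ ^ 2 := integral_add ia ib
        rw [e1, e2]
      rw [e]
      refine integral_mono iD iS fun x => ?_
      have : ∑ j, ‖d j x‖ ^ 2 ≤ ∑ j, 3 * (‖a j x‖ ^ 2 + ‖b j x‖ ^ 2 + ‖c j x‖ ^ 2) := by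
        refine Finset.sum_le_sum fun j _ => ?_
        rw [hd j x]
        exact sq_three _ _ _
      refine this.trans (le_of_eq ?_)
      show _ = 3 * (∑ j, ‖a j x‖ ^ 2 + ∑ j, ‖b j x‖ ^ 2 + ∑ j, ‖c j x‖ ^ 2)
      rw [← Finset.mul_sum, Finset.sum_add_distrib, Finset.sum_add_distrib]
    calc R⁻¹ * ∫ x in {x : E3 | 1 < ‖x‖ ∧ ‖x‖ < R}, ∑ j, ‖d j x‖ ^ 2 ≤
        R⁻¹ * (3 * ((∫ x in {x : E3 | 1 < ‖x‖ ∧ ‖x‖ < R}, ∑ j, ‖a j x‖ ^ 2) +
          (∫ x in {x : E3 | 1 < ‖x‖ ∧ ‖x‖ < R}, ∑ j, ‖b j x‖ ^ 2) +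
          ∫ x in {x : E3 | 1 < ‖x‖ ∧ ‖x‖ < R}, ∑ j, ‖c j x‖ ^ 2)) :=
          mul_le_mul_of_nonneg_left key h1
      _ = _ := by ring

private theorem int_sub3 {a b c : E3 → ℂ} (ha : Integrable a) (hb : Integrable b)
    (hc : Integrable c) :
    ∫ x, (a x - b x - c x) = (∫ x, a x) - (∫ x, b x) - ∫ x, c x := by
  have e1 : ∫ x, (a x - b x - c x) = (∫ x, (a x - b x)) - ∫ x, c x :=
    integral_sub (ha.sub hb) hc
  have e2 : ∫ x, (a x - b x) = (∫ x, a x) - ∫ x, b x := integral_sub ha hb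
  rw [e1, e2]

theorem scattering_unique {s : ℝ} (h0 : 1 / 2 < s) (h2 : s < 2) {r M : ℝ} (hr : 0 < r)
    {V : E3 → ℂ} (hV : IsPot r M V) {θ : E3} {k : ℝ} (hk : 0 < k) (hT : ‖Tk s r V k‖ ≤ 1 / 2)
    {u u' : E3 → ℂ} (hu : IsScattering s k V θ u) (hu' : IsScattering s k V θ u') :
    u =ᵐ[volume] u' := by
  obtain ⟨w, hw, hwe, hwr⟩ := hu.radiation
  obtain ⟨w', hw', hwe', hwr'⟩ := hu'.radiation
  have hnB : BStar (fun x => u x - u' x) := by
    have h := bstar_sub hu.bstar hu'.bstar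
    have e : (fun x => u x - planeWave k θ x - (u' x - planeWave k θ x)) =
        fun x => u x - u' x := by
      funext x
      ring
    rwa [e] at h
  obtain ⟨n, hn⟩ : ∃ n : E3 → ℂ, n = fun x => u x - u' x := ⟨_, rfl⟩
  rw [← hn] at hnB
  have hgM := bstar_memLp_ind hnB r
  obtain ⟨g, hg⟩ : ∃ g : HS, g = hgM.toLp _ := ⟨_, rfl⟩
  have hgc : (g : E3 → ℂ) =ᵐ[volume] fun x => indB r x * n x := by
    rw [hg]
    exact hgM.coeFn_toLp
  obtain ⟨f, hf⟩ : ∃ f : HS, f = mulL V g := ⟨_, rfl⟩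
  have hVind : (fun x => indB r x * V x) = V := by
    funext x
    by_cases hx : ‖x‖ < r
    · simp [indB, hx]
    · simp [indB, hx, hV.vanish x (not_lt.mp hx)]
  have hfi : mulL (indB r) f = f := by
    rw [hf, mulL_mulL (indB_BM r) hV.BM, hVind]
  have hfc : (f : E3 → ℂ) =ᵐ[volume] fun x => (V x) * n x := by
    rw [hf]
    filter_upwards [mulL_coe hV.BM g, hgc] with x h1 h2
    rw [h1, h2, ← mul_assoc, mul_comm (V x), congrFun hVind x]
  -- the weak equation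
  have hvB : BStar (vf s k f) := vf_BStar hr hfi
  have hmB : BStar (fun x => n x - vf s k f x) := bstar_sub hnB hvB
  have hne : ∀ φ : 𝓢(E3, ℂ), (∫ x, n x * fracLap s φ x) =
      ((k ^ (2 * s) : ℝ) : ℂ) * (∫ x, n x * φ x) + ∫ x, f x * φ x := by
    intro φ
    obtain ⟨i1, e1⟩ := hu.equation φ
    obtain ⟨i2, e2⟩ := hu'.equation φ
    have iu := int_u hu φ
    have iu' := int_u hu' φ
    have iV := int_Vu hV iu
    have iV' := int_Vu hV iu'
    have a1 : ∫ x, (((k ^ (2 * s) : ℝ) : ℂ) + (V x)) * u x * φ x =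
        ((k ^ (2 * s) : ℝ) : ℂ) * (∫ x, u x * φ x) + ∫ x, (V x) * (u x * φ x) := by
      rw [← integral_const_mul, ← integral_add (iu.const_mul _) iV]
      refine integral_congr_ae (Eventually.of_forall fun x => ?_)
      ring
    have a2 : ∫ x, (((k ^ (2 * s) : ℝ) : ℂ) + (V x)) * u' x * φ x =
        ((k ^ (2 * s) : ℝ) : ℂ) * (∫ x, u' x * φ x) + ∫ x, (V x) * (u' x * φ x) := by
      rw [← integral_const_mul, ← integral_add (iu'.const_mul _) iV']
      refine integral_congr_ae (Eventually.of_forall fun x => ?_)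
      ring
    have b1 : ∫ x, n x * fracLap s φ x =
        (∫ x, u x * fracLap s φ x) - ∫ x, u' x * fracLap s φ x := by
      rw [← integral_sub i1 i2]
      refine integral_congr_ae (Eventually.of_forall fun x => ?_)
      simp only [hn]
      ring
    have b2 : ∫ x, n x * φ x = (∫ x, u x * φ x) - ∫ x, u' x * φ x := by
      rw [← integral_sub iu iu']
      refine integral_congr_ae (Eventually.of_forall fun x => ?_)
      simp only [hn]
      ring
    have b3 : ∫ x, f x * φ x =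
        (∫ x, (V x) * (u x * φ x)) - ∫ x, (V x) * (u' x * φ x) := by
      rw [← integral_sub iV iV']
      refine integral_congr_ae ?_
      filter_upwards [hfc] with x hx
      rw [hx]
      simp only [hn]
      ring
    rw [b1, b2, b3, e1, e2, a1, a2]
    ring
  have hme : ∀ φ : 𝓢(E3, ℂ), (∫ x, (n x - vf s k f x) * fracLap s φ x) -
      ((k ^ (2 * s) : ℝ) : ℂ) * (∫ x, (n x - vf s k f x) * φ x) = 0 := by
    intro φ
    have c1 : ∫ x, (n x - vf s k f x) * fracLap s φ x =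
        (∫ x, n x * fracLap s φ x) - ∫ x, vf s k f x * fracLap s φ x := by
      rw [← integral_sub (BStar_mul_WL hnB (fracLap_WL h0 h2 φ))
        (BStar_mul_WL hvB (fracLap_WL h0 h2 φ))]
      refine integral_congr_ae (Eventually.of_forall fun x => ?_)
      ring
    have c2 : ∫ x, (n x - vf s k f x) * φ x =
        (∫ x, n x * φ x) - ∫ x, vf s k f x * φ x := by
      rw [← integral_sub (BStar_mul_WL hnB (schwartz_WL φ)) (BStar_mul_WL hvB (schwartz_WL φ))]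
      refine integral_congr_ae (Eventually.of_forall fun x => ?_)
      ring
    have c3 := vf_eq h0 h2 hk hr hfi φ
    rw [c1, c2, hne φ]
    linear_combination -c3
  have hWB : ∀ j, BStar (fun x => w j x - w' j x - wf s k j f x) := fun j =>
    bstar_sub (bstar_sub (hw j) (hw' j)) (wf_BStar hk hr hfi j)
  have hWe : ∀ (j : Fin 3) (φ : 𝓢(E3, ℂ)), ∫ x, (w j x - w' j x - wf s k j f x) * φ x =
      -∫ x, (n x - vf s k f x) * fracGrad s j φ x := by
    intro j φ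
    obtain ⟨i1, e1⟩ := hwe j φ
    obtain ⟨i2, e2⟩ := hwe' j φ
    have c1 : ∫ x, (w j x - w' j x - wf s k j f x) * φ x =
        (∫ x, w j x * φ x) - (∫ x, w' j x * φ x) - ∫ x, wf s k j f x * φ x := by
      rw [← int_sub3 (BStar_mul_WL (hw j) (schwartz_WL φ))
        (BStar_mul_WL (hw' j) (schwartz_WL φ))
        (BStar_mul_WL (wf_BStar hk hr hfi j) (schwartz_WL φ))]
      refine integral_congr_ae (Eventually.of_forall fun x => ?_)
      ring
    have c2 : ∫ x, (n x - vf s k f x) * fracGrad s j φ x =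
        (∫ x, (u x - planeWave k θ x) * fracGrad s j φ x) -
        (∫ x, (u' x - planeWave k θ x) * fracGrad s j φ x) -
        ∫ x, vf s k f x * fracGrad s j φ x := by
      rw [← int_sub3 i1 i2 (BStar_mul_WL hvB (fracGrad_WL h0 h2 j φ))]
      refine integral_congr_ae (Eventually.of_forall fun x => ?_)
      simp only [hn]
      ring
    rw [c1, c2, e1, e2, wf_eq h0 h2 hk hr hfi j φ]
    ring
  have hWr : Tendsto (fun R : ℝ => R⁻¹ * ∫ x in {x : E3 | 1 < ‖x‖ ∧ ‖x‖ < R},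
      ∑ j, ‖(w j x - w' j x - wf s k j f x) - Complex.I * ((k ^ s : ℝ) : ℂ) *
        ((x j / ‖x‖ : ℝ) : ℂ) * (n x - vf s k f x)‖ ^ 2) atTop (𝓝 0) := by
    refine rad_sub
      (a := fun j x => w j x - Complex.I * ((k ^ s : ℝ) : ℂ) * ((x j / ‖x‖ : ℝ) : ℂ) *
        (u x - planeWave k θ x))
      (b := fun j x => w' j x - Complex.I * ((k ^ s : ℝ) : ℂ) * ((x j / ‖x‖ : ℝ) : ℂ) *
        (u' x - planeWave k θ x))
      (c := fun j x => wf s k j f x - Complex.I * ((k ^ s : ℝ) : ℂ) * ((x j / ‖x‖ : ℝ) : ℂ) *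
        vf s k f x)
      (fun j => bstar_rad hu.bstar (hw j) _ j) (fun j => bstar_rad hu'.bstar (hw' j) _ j)
      (fun j => bstar_rad hvB (wf_BStar hk hr hfi j) _ j) ?_ hwr hwr'
      (vf_rad (by linarith) hk hr hfi)
    intro j x
    simp only [hn]
    ring
  have hm0 := outgoing_zero h0 h2 hk hmB hme hWB hWe hWr
  have hnv : n =ᵐ[volume] vf s k f := by
    filter_upwards [hm0] with x hx
    have hx' : n x - vf s k f x = 0 := hx
    exact sub_eq_zero.mp hx'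
  -- the fixed point equation on the ball
  have hgT : g = Tk s r V k g := by
    apply Lp.ext
    have e1 : Tk s r V k g = Kop s r k f := by
      rw [hf]
      rfl
    have e2 : mulL (indB r) (Kop s r k f) = Kop s r k f := indB_idem r _
    have e3 := mulL_coe (indB_BM r) (Kop s r k f)
    rw [e2] at e3
    rw [e1]
    filter_upwards [hgc, hnv, Kop_phys h0 h2 hr hk hfi, e3] with x h1 h3 h4 h5
    rw [h1, h5, h3]
    by_cases hx : ‖x‖ < r
    · rw [h4 hx]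
    · simp [indB, hx]
  have hg0 : g = 0 := by
    have h1 : ‖g‖ ≤ 1 / 2 * ‖g‖ := by
      calc ‖g‖ = ‖Tk s r V k g‖ := by rw [← hgT]
        _ ≤ ‖Tk s r V k‖ * ‖g‖ := (Tk s r V k).le_opNorm g
        _ ≤ 1 / 2 * ‖g‖ := mul_le_mul_of_nonneg_right hT (norm_nonneg _)
    have h3 : ‖g‖ ≤ 0 := by
      have := norm_nonneg g
      linarith
    exact norm_le_zero_iff.mp h3
  have hf0 : f = 0 := by
    rw [hf, hg0, map_zero]
  have hv0 : vf s k f =ᵐ[volume] 0 := by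
    rw [hf0]
    have h1 : (multL (qs s k) (0 : HS) : E3 → ℂ) =ᵐ[volume] 0 := by
      rw [map_zero]
      exact Lp.coeFn_zero _ _ _
    filter_upwards [h1] with x hx
    have h3 : cv (Pk k) ((0 : HS) : E3 → ℂ) x = 0 := by
      unfold cv
      have : (fun y => ((0 : HS) : E3 → ℂ) y * Pk k (x - y)) =ᵐ[volume] fun _ => (0 : ℂ) := by
        filter_upwards [Lp.coeFn_zero ℂ 2 (volume : Measure E3)] with y hy
        rw [hy]
        simp
      rw [integral_congr_ae this, integral_zero]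
    simp only [vf, h3, mul_zero, zero_add]
    exact hx
  filter_upwards [hnv, hv0] with x h1 h3
  have h4 : u x - u' x = 0 := by
    have : n x = 0 := by
      rw [h1, h3]
      rfl
    rw [hn] at this
    exact this
  exact sub_eq_zero.mp h4

end FracScatC

end
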