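import Pool.Agent.Lib.MP_6e2ba5_an.Main
import Pool.Agent.Lib.MP_6e2ba5_an.Cx.Unique
import Pool.Agent.Lib.MP_6e2ba5_an.Cx.Exist

/-! # The data on the whole real axis, complex potentials -/

set_option autoImplicit false

open MeasureTheory Filter Topology Set
open scoped FourierTransform SchwartzMap InnerProductSpace ENNReal

noncomputable section

namespace FracScatC

open FracScat

private theorem Main_amp {k : ℝ} {V : E3 → ℂ} {u u' : E3 → ℂ} (h : u =ᵐ[volume] u') (ω : E3) :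
    amplitude k V u ω = amplitude k V u' ω := by
  unfold amplitude
  refine integral_congr_ae ?_
  filter_upwards [h] with x hx
  rw [hx]

private theorem Main_one {s : ℝ} (h0 : 1 / 2 < s) (h2 : s < 2) {r M : ℝ} (hr : 0 < r)
    {V : E3 → ℂ} (hV : IsPot r M V) {θ : E3} (hθ : ‖θ‖ = 1) {k : ℝ} (hk : 0 < k)
    (hT : ‖Tk s r V k‖ ≤ 1 / 2) {u : E3 → ℂ} (hu : IsScattering s k V θ u) :
    amplitude k V u (-θ) = Ffun s r V θ k := by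
  obtain ⟨u', hu', ha⟩ := exists_scattering h0 h2 hr hV hθ hk hT
  rw [← ha]
  exact Main_amp (scattering_unique h0 h2 hr hV hk hT hu hu') _

theorem data_Ffun {s : ℝ} (h0 : 1 / 2 < s) (h2 : s < 2) {r M : ℝ} (hr : 0 < r)
    {V₁ V₂ : E3 → ℂ} (hV₁ : IsPot r M V₁) (hV₂ : IsPot r M V₂) {θ : E3} (hθ : ‖θ‖ = 1) {k : ℝ}
    (hk : 0 < k) (hT₁ : ‖Tk s r V₁ k‖ ≤ 1 / 2) (hT₂ : ‖Tk s r V₂ k‖ ≤ 1 / 2)
    (hd : SameBackScattering s k V₁ V₂ θ) : Ffun s r V₁ θ k = Ffun s r V₂ θ k := by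
  obtain ⟨u₁, u₂, hu₁, hu₂, he⟩ := hd
  rw [← Main_one h0 h2 hr hV₁ hθ hk hT₁ hu₁, ← Main_one h0 h2 hr hV₂ hθ hk hT₂ hu₂]
  exact he

theorem real_mem {K x : ℝ} (hK : 1 ≤ K) (hx : K ≤ x) : (x : ℂ) ∈ Reg K := by
  refine ⟨?_, ?_, ?_⟩
  · rw [Complex.ofReal_re]
    linarith
  · rw [Complex.ofReal_im]
  · rw [Complex.norm_real, Real.norm_of_nonneg (by linarith)]
    exact hx

/-- Equal data on one frequency band give equal data at all `k ≥ K`. -/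
theorem data_real {s : ℝ} (h0 : 1 / 2 < s) (h2 : s < 2) {r M : ℝ} (hr : 0 < r)
    {V₁ V₂ : E3 → ℂ} (hV₁ : IsPot r M V₁) (hV₂ : IsPot r M V₂) {θ : E3} (hθ : ‖θ‖ = 1) {K : ℝ}
    (hK : 1 ≤ K) (hT₁ : ∀ k ∈ Reg K, ‖Tk s r V₁ k‖ ≤ 1 / 2)
    (hT₂ : ∀ k ∈ Reg K, ‖Tk s r V₂ k‖ ≤ 1 / 2) {a b : ℝ} (ha : K ≤ a) (hab : a < b)
    (hd : ∀ k ∈ Ioo a b, SameBackScattering s k V₁ V₂ θ) (k : ℝ) (hk : K ≤ k) :
    Ffun s r V₁ θ k = Ffun s r V₂ θ k := by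
  have hc : ContinuousOn (fun k => Ffun s r V₁ θ k - Ffun s r V₂ θ k)
      {k : ℂ | 0 ≤ k.re ∧ 0 ≤ k.im ∧ K ≤ ‖k‖} :=
    (Ffun_cont h0 h2 hr θ hK hT₁).sub (Ffun_cont h0 h2 hr θ hK hT₂)
  have hdi : DifferentiableOn ℂ (fun k => Ffun s r V₁ θ k - Ffun s r V₂ θ k)
      {k : ℂ | 0 < k.re ∧ 0 < k.im ∧ K < ‖k‖} :=
    (Ffun_diff h0 h2 hr θ hK hT₁).sub (Ffun_diff h0 h2 hr θ hK hT₂)
  have hz : ∀ x ∈ Ioo a b, Ffun s r V₁ θ (x : ℂ) - Ffun s r V₂ θ (x : ℂ) = 0 := by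
    intro x hx
    have hKx : K ≤ x := ha.trans hx.1.le
    rw [sub_eq_zero]
    exact data_Ffun h0 h2 hr hV₁ hV₂ hθ (by linarith) (hT₁ _ (real_mem hK hKx))
      (hT₂ _ (real_mem hK hKx)) (hd x hx)
  have hm := real_mem hK hk
  have := bdry_unique (by linarith) hc hdi ha hab hz (k : ℂ) hm.1 hm.2.1 hm.2.2
  exact sub_eq_zero.1 this

end FracScatC

end
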