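import Pool.Agent.Lib.MP_6e2ba5_an.Cx.KopRep
import Pool.Agent.Lib.MP_6e2ba5_an.Cx.A3Api
import Pool.Agent.Lib.MP_6e2ba5_an.Cx.Main

/-! # The difference of the data as a pairing

Write `e = eH r ξ = ev r θ k` (`eH_eq_ev`), `u_j = UX s r V_j ξ = uk ..` (`UX_eq_uk`),
`K = Kop s r (kx ξ)`. All functions are in `L²` and `V_j` is bounded.
`∫ e V₁u₁ = ∫ u₂ V₁u₁ - ∫ (K V₂u₂) V₁u₁` and `∫ e V₂u₂ = ∫ u₁ V₂u₂ - ∫ (K V₁u₁) V₂u₂` by `UX_fix`;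
the last integrals are equal by `Kop_symm`. The difference is `∫ (V₁-V₂) u₁ u₂`, which is
`A3 (dH r (V₁-V₂)) u₁ u₂` (`dH_coe`).
`data_ident`: the amplitude of an outgoing solution is `Ffun` (proof of `data_Ffun` in
`Main.lean`: `exists_scattering`, `scattering_unique`), so a pair of outgoing solutions with
amplitudes differing by at most `ε` gives the bound; `θ = ‖ξ‖⁻¹ • ξ`, `k = 2π‖ξ‖`. -/

set_option autoImplicit false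

open MeasureTheory Filter Topology Set
open scoped FourierTransform SchwartzMap InnerProductSpace ENNReal BoundedContinuousFunction

noncomputable section

namespace FracScatC

open FracScat

private theorem Ident_add (f f' g : HS) :
    ∫ x, ((f + f' : HS) : E3 → ℂ) x * (g : E3 → ℂ) x =
      (∫ x, (f : E3 → ℂ) x * (g : E3 → ℂ) x) + ∫ x, (f' : E3 → ℂ) x * (g : E3 → ℂ) x := by
  rw [← integral_add (integrable_mul f g) (integrable_mul f' g)]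
  refine integral_congr_ae ?_
  filter_upwards [Lp.coeFn_add f f'] with x hx
  rw [hx, Pi.add_apply]
  ring

private theorem Ident_comm (f g : HS) :
    ∫ x, (f : E3 → ℂ) x * (g : E3 → ℂ) x = ∫ x, (g : E3 → ℂ) x * (f : E3 → ℂ) x := by
  refine integral_congr_ae (Eventually.of_forall fun x => ?_)
  exact mul_comm _ _

private theorem Ident_amp {k : ℝ} {V : E3 → ℂ} {u u' : E3 → ℂ} (h : u =ᵐ[volume] u') (ω : E3) :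
    amplitude k V u ω = amplitude k V u' ω := by
  unfold amplitude
  refine integral_congr_ae ?_
  filter_upwards [h] with x hx
  rw [hx]

private theorem Ident_one {s : ℝ} (h0 : 1 / 2 < s) (h2 : s < 2) {r M : ℝ} (hr : 0 < r)
    {V : E3 → ℂ} (hV : IsPot r M V) {θ : E3} (hθ : ‖θ‖ = 1) {k : ℝ} (hk : 0 < k)
    (hT : ‖Tk s r V k‖ ≤ 1 / 2) {u : E3 → ℂ} (hu : IsScattering s k V θ u) :
    amplitude k V u (-θ) = Ffun s r V θ k := by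
  obtain ⟨u', hu', ha⟩ := exists_scattering h0 h2 hr hV hθ hk hT
  rw [← ha]
  exact Ident_amp (scattering_unique h0 h2 hr hV hk hT hu hu') _

theorem ident {s : ℝ} (h0 : 3 / 4 < s) (h2 : s < 2) {r M₁ M₂ : ℝ} (hr : 0 ≤ r) {ξ : E3}
    (hξ : ξ ≠ 0) {V₁ V₂ : E3 → ℂ} (hV₁ : IsPot r M₁ V₁) (hV₂ : IsPot r M₂ V₂)
    (hT₁ : ‖Tk s r V₁ (kx ξ)‖ ≤ 1 / 2) (hT₂ : ‖Tk s r V₂ (kx ξ)‖ ≤ 1 / 2) :
    A3 (dH r (fun x => V₁ x - V₂ x)) (UX s r V₁ ξ) (UX s r V₂ ξ) =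
      Ffun s r V₁ (‖ξ‖⁻¹ • ξ) (kx ξ) - Ffun s r V₂ (‖ξ‖⁻¹ • ξ) (kx ξ) := by
  have hs : 0 < s := by linarith
  have f1 : Ffun s r V₁ (‖ξ‖⁻¹ • ξ) (kx ξ) =
      ∫ x, (eH r ξ : E3 → ℂ) x * (mulL V₁ (UX s r V₁ ξ) : E3 → ℂ) x := by
    rw [Ffun, UX_eq_uk s r V₁ hξ, eH_eq_ev r hξ]
  have f2 : Ffun s r V₂ (‖ξ‖⁻¹ • ξ) (kx ξ) =
      ∫ x, (eH r ξ : E3 → ℂ) x * (mulL V₂ (UX s r V₂ ξ) : E3 → ℂ) x := by
    rw [Ffun, UX_eq_uk s r V₂ hξ, eH_eq_ev r hξ]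
  have g1 := Ident_add (eH r ξ) (Kop s r (kx ξ) (mulL V₂ (UX s r V₂ ξ)))
    (mulL V₁ (UX s r V₁ ξ))
  rw [← UX_fix hT₂] at g1
  have g2 := Ident_add (eH r ξ) (Kop s r (kx ξ) (mulL V₁ (UX s r V₁ ξ)))
    (mulL V₂ (UX s r V₂ ξ))
  rw [← UX_fix hT₁] at g2
  have g3 : (∫ x, (Kop s r (kx ξ) (mulL V₂ (UX s r V₂ ξ)) : E3 → ℂ) x *
      (mulL V₁ (UX s r V₁ ξ) : E3 → ℂ) x) =
      ∫ x, (Kop s r (kx ξ) (mulL V₁ (UX s r V₁ ξ)) : E3 → ℂ) x *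
      (mulL V₂ (UX s r V₂ ξ) : E3 → ℂ) x := by
    rw [Kop_symm hs h2 hr (kx_mem_Quad hξ), Ident_comm]
  have g4 : A3 (dH r (fun x => V₁ x - V₂ x)) (UX s r V₁ ξ) (UX s r V₂ ξ) =
      (∫ x, (UX s r V₂ ξ : E3 → ℂ) x * (mulL V₁ (UX s r V₁ ξ) : E3 → ℂ) x) -
      ∫ x, (UX s r V₁ ξ : E3 → ℂ) x * (mulL V₂ (UX s r V₂ ξ) : E3 → ℂ) x := by
    rw [← integral_sub (integrable_mul _ _) (integrable_mul _ _)]
    unfold A3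
    refine integral_congr_ae ?_
    filter_upwards [dH_coe (hV₁.sub hV₂), mulL_coe hV₁.BM (UX s r V₁ ξ),
      mulL_coe hV₂.BM (UX s r V₂ ξ)] with x a b c
    rw [a, b, c]
    ring
  rw [g4, f1, f2, g1, g2, g3]
  ring

theorem data_ident {s : ℝ} (h0 : 3 / 4 < s) (h2 : s < 2) {r M : ℝ} (hr : 0 < r) {ξ : E3}
    (hξ : ξ ≠ 0) {V₁ V₂ : E3 → ℂ} (hV₁ : IsPot r M V₁) (hV₂ : IsPot r M V₂)
    (hT₁ : ‖Tk s r V₁ (kx ξ)‖ ≤ 1 / 2) (hT₂ : ‖Tk s r V₂ (kx ξ)‖ ≤ 1 / 2) {ε : ℝ}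
    (hd : BackDist s (2 * Real.pi * ‖ξ‖) V₁ V₂ (‖ξ‖⁻¹ • ξ) ε) :
    ‖A3 (dH r (fun x => V₁ x - V₂ x)) (UX s r V₁ ξ) (UX s r V₂ ξ)‖ ≤ ε := by
  obtain ⟨u₁, u₂, hu₁, hu₂, he⟩ := hd
  have hn : 0 < ‖ξ‖ := norm_pos_iff.mpr hξ
  have hθ : ‖‖ξ‖⁻¹ • ξ‖ = 1 := by
    rw [norm_smul, norm_inv, norm_norm, inv_mul_cancel₀ hn.ne']
  have hk : 0 < 2 * Real.pi * ‖ξ‖ := by positivity
  have h1 : (1 : ℝ) / 2 < s := by linarith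
  rw [ident h0 h2 hr.le hξ hV₁ hV₂ hT₁ hT₂]
  have a1 := Ident_one h1 h2 hr hV₁ hθ hk hT₁ hu₁
  have a2 := Ident_one h1 h2 hr hV₂ hθ hk hT₂ hu₂
  rw [a1, a2] at he
  exact he

end FracScatC

end
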