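import Pool.Agent.Lib.MP_6e2ba5_an.Cx.WDefs

/-! # The functionals `lam` and `bet`

Bounds: `F` is bounded by `‖F‖` and continuous, so `ζ ↦ P ζ * F (-ζ-ξ)` is integrable and the norm of
its integral is at most `∫ ‖P‖ · ‖F‖` (`L1.norm_eq_integral_norm`). Linearity: a.e. equality for sums in
`Lp` and linearity of the integral. For `bet`, the inner integral is a bounded (by `‖P₂‖ ‖F‖`)
continuous function of `ζ₁` (`continuous_of_dominated`), so all integrals exist.
Continuity of `lam` in `ξ`: dominated convergence. -/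

set_option autoImplicit false

open MeasureTheory Filter Topology Set
open scoped FourierTransform SchwartzMap InnerProductSpace ENNReal BoundedContinuousFunction

noncomputable section

namespace FracScatC

open FracScat

private theorem LamApi_int (P : L1) (F : XB) {g : E3 → E3} (hg : Continuous g) :
    Integrable (fun ζ => (P : E3 → ℂ) ζ * F (g ζ)) := by
  refine ((L1.integrable_coeFn P).norm.mul_const ‖F‖).mono'
    ((L1.integrable_coeFn P).1.mul (F.continuous.comp hg).aestronglyMeasurable)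
    (Eventually.of_forall fun ζ => ?_)
  rw [norm_mul]
  exact mul_le_mul_of_nonneg_left (F.norm_coe_le_norm _) (norm_nonneg _)

private theorem LamApi_norm (P : L1) (F : XB) (g : E3 → E3) :
    ‖∫ ζ, (P : E3 → ℂ) ζ * F (g ζ)‖ ≤ ‖P‖ * ‖F‖ := by
  rw [L1.norm_eq_integral_norm, ← integral_mul_const]
  refine norm_integral_le_of_norm_le ((L1.integrable_coeFn P).norm.mul_const ‖F‖)
    (Eventually.of_forall fun ζ => ?_)
  rw [norm_mul]
  exact mul_le_mul_of_nonneg_left (F.norm_coe_le_norm _) (norm_nonneg _)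

private theorem LamApi_cont (Q : L1) (F : XB) (h : E3 → E3 → E3) (h1 : ∀ a, Continuous (h a))
    (h2 : ∀ ζ, Continuous fun a => h a ζ) :
    Continuous fun a => ∫ ζ, (Q : E3 → ℂ) ζ * F (h a ζ) := by
  refine continuous_of_dominated (bound := fun ζ => ‖(Q : E3 → ℂ) ζ‖ * ‖F‖)
    (fun a => (LamApi_int Q F (h1 a)).1) (fun a => Eventually.of_forall fun ζ => ?_)
    ((L1.integrable_coeFn Q).norm.mul_const ‖F‖) (Eventually.of_forall fun ζ => ?_)
  · rw [norm_mul]
    exact mul_le_mul_of_nonneg_left (F.norm_coe_le_norm _) (norm_nonneg _)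
  · exact continuous_const.mul (F.continuous.comp (h2 ζ))

private theorem LamApi_addl (P P' : L1) (F : XB) {g : E3 → E3} (hg : Continuous g) :
    ∫ ζ, ((P + P' : L1) : E3 → ℂ) ζ * F (g ζ) =
      (∫ ζ, (P : E3 → ℂ) ζ * F (g ζ)) + ∫ ζ, (P' : E3 → ℂ) ζ * F (g ζ) := by
  rw [← integral_add (LamApi_int P F hg) (LamApi_int P' F hg)]
  refine integral_congr_ae ?_
  filter_upwards [Lp.coeFn_add P P'] with ζ hζ
  rw [hζ, Pi.add_apply, add_mul]

private theorem LamApi_smull (c : ℂ) (P : L1) (F : XB) (g : E3 → E3) :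
    ∫ ζ, ((c • P : L1) : E3 → ℂ) ζ * F (g ζ) = c * ∫ ζ, (P : E3 → ℂ) ζ * F (g ζ) := by
  rw [← integral_const_mul]
  refine integral_congr_ae ?_
  filter_upwards [Lp.coeFn_smul c P] with ζ hζ
  rw [hζ, Pi.smul_apply, smul_eq_mul, mul_assoc]

private theorem LamApi_addr (P : L1) (F F' : XB) {g : E3 → E3} (hg : Continuous g) :
    ∫ ζ, (P : E3 → ℂ) ζ * (F + F') (g ζ) =
      (∫ ζ, (P : E3 → ℂ) ζ * F (g ζ)) + ∫ ζ, (P : E3 → ℂ) ζ * F' (g ζ) := by
  rw [← integral_add (LamApi_int P F hg) (LamApi_int P F' hg)]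
  refine integral_congr_ae (Eventually.of_forall fun ζ => ?_)
  simp only [BoundedContinuousFunction.coe_add, Pi.add_apply, mul_add]

private theorem LamApi_smulr (c : ℂ) (P : L1) (F : XB) (g : E3 → E3) :
    ∫ ζ, (P : E3 → ℂ) ζ * (c • F) (g ζ) = c * ∫ ζ, (P : E3 → ℂ) ζ * F (g ζ) := by
  rw [← integral_const_mul]
  refine integral_congr_ae (Eventually.of_forall fun ζ => ?_)
  simp only [BoundedContinuousFunction.coe_smul, smul_eq_mul]
  ring

private theorem LamApi_c1 (ξ : E3) : Continuous fun ζ : E3 => -ζ - ξ := by fun_prop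

private theorem LamApi_c2 (ξ : E3) : Continuous fun ζ : E3 => -ξ - ζ := by fun_prop

/-- the inner integral of `bet` as a bounded continuous function -/
private def LamApi_inn (Q : L1) (F : XB) : XB :=
  BoundedContinuousFunction.ofNormedAddCommGroup
    (fun a : E3 => ∫ ζ, (Q : E3 → ℂ) ζ * F (-a - ζ))
    (LamApi_cont Q F (fun x ζ => -x - ζ) LamApi_c2 LamApi_c1)
    (‖Q‖ * ‖F‖) (fun _ => LamApi_norm Q F _)

private theorem LamApi_inn_apply (Q : L1) (F : XB) (a : E3) :
    LamApi_inn Q F a = ∫ ζ, (Q : E3 → ℂ) ζ * F (-a - ζ) := rfl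

private theorem LamApi_bet (P Q : L1) (F : XB) :
    bet P Q F = ∫ ζ, (P : E3 → ℂ) ζ * LamApi_inn Q F (id ζ) := rfl

private theorem LamApi_inn_norm (Q : L1) (F : XB) : ‖LamApi_inn Q F‖ ≤ ‖Q‖ * ‖F‖ :=
  BoundedContinuousFunction.norm_ofNormedAddCommGroup_le _
    (mul_nonneg (norm_nonneg _) (norm_nonneg _)) _

theorem norm_lam_le (ξ : E3) (P : L1) (F : XB) : ‖lam ξ P F‖ ≤ ‖P‖ * ‖F‖ :=
  LamApi_norm P F _

theorem lam_add_left (ξ : E3) (P P' : L1) (F : XB) : lam ξ (P + P') F = lam ξ P F + lam ξ P' F :=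
  LamApi_addl P P' F (LamApi_c1 ξ)

theorem lam_smul_left (ξ : E3) (c : ℂ) (P : L1) (F : XB) : lam ξ (c • P) F = c * lam ξ P F :=
  LamApi_smull c P F _

theorem lam_add_right (ξ : E3) (P : L1) (F F' : XB) : lam ξ P (F + F') = lam ξ P F + lam ξ P F' :=
  LamApi_addr P F F' (LamApi_c1 ξ)

theorem lam_smul_right (ξ : E3) (c : ℂ) (P : L1) (F : XB) : lam ξ P (c • F) = c * lam ξ P F :=
  LamApi_smulr c P F _

theorem norm_bet_le (P₁ P₂ : L1) (F : XB) : ‖bet P₁ P₂ F‖ ≤ ‖P₁‖ * ‖P₂‖ * ‖F‖ := by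
  rw [LamApi_bet, mul_assoc]
  exact (LamApi_norm P₁ _ id).trans
    (mul_le_mul_of_nonneg_left (LamApi_inn_norm P₂ F) (norm_nonneg _))

theorem bet_add_left (P P' Q : L1) (F : XB) : bet (P + P') Q F = bet P Q F + bet P' Q F := by
  rw [LamApi_bet, LamApi_bet, LamApi_bet]
  exact LamApi_addl P P' _ continuous_id

theorem bet_smul_left (c : ℂ) (P Q : L1) (F : XB) : bet (c • P) Q F = c * bet P Q F := by
  rw [LamApi_bet, LamApi_bet]
  exact LamApi_smull c P _ id

theorem bet_add_mid (P Q Q' : L1) (F : XB) : bet P (Q + Q') F = bet P Q F + bet P Q' F := by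
  rw [LamApi_bet, LamApi_bet, LamApi_bet, ← LamApi_addr P _ _ continuous_id]
  have h : LamApi_inn (Q + Q') F = LamApi_inn Q F + LamApi_inn Q' F := by
    ext a
    rw [BoundedContinuousFunction.coe_add, Pi.add_apply, LamApi_inn_apply, LamApi_inn_apply,
      LamApi_inn_apply]
    exact LamApi_addl Q Q' F (LamApi_c2 a)
  rw [h]

theorem bet_smul_mid (c : ℂ) (P Q : L1) (F : XB) : bet P (c • Q) F = c * bet P Q F := by
  rw [LamApi_bet, LamApi_bet, ← LamApi_smulr c P _ id]
  have h : LamApi_inn (c • Q) F = c • LamApi_inn Q F := by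
    ext a
    exact LamApi_smull c Q F _
  rw [h]

theorem bet_add_right (P Q : L1) (F F' : XB) : bet P Q (F + F') = bet P Q F + bet P Q F' := by
  rw [LamApi_bet, LamApi_bet, LamApi_bet, ← LamApi_addr P _ _ continuous_id]
  have h : LamApi_inn Q (F + F') = LamApi_inn Q F + LamApi_inn Q F' := by
    ext a
    rw [BoundedContinuousFunction.coe_add, Pi.add_apply, LamApi_inn_apply, LamApi_inn_apply,
      LamApi_inn_apply]
    exact LamApi_addr Q F F' (LamApi_c2 a)
  rw [h]

theorem bet_smul_right (c : ℂ) (P Q : L1) (F : XB) : bet P Q (c • F) = c * bet P Q F := by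
  rw [LamApi_bet, LamApi_bet, ← LamApi_smulr c P _ id]
  have h : LamApi_inn Q (c • F) = c • LamApi_inn Q F := by
    ext a
    exact LamApi_smulr c Q F _
  rw [h]

theorem lam_cont (P : L1) (F : XB) : Continuous (fun ξ : E3 => lam ξ P F) :=
  LamApi_cont P F (fun ξ ζ => -ζ - ξ) (fun ξ => LamApi_c1 ξ) (fun ζ => LamApi_c2 ζ)

end FracScatC

end
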