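import Pool.Agent.Lib.MP_6e2ba5_an.Cx.Modul

/-! # The Sobolev bound

`mono_exp`: `(1+‖η‖)^(2σ') ≤ (1+‖η‖)^(2σ)`. `smul`: `𝓕 (z V) = z 𝓕 V`.
`zero`: `σ = 0`: the weight is `1`; `𝓕 V = FT (dH r V)` a.e. and Plancherel, `norm_dH_le`. -/

set_option autoImplicit false

open MeasureTheory Filter Topology Set
open scoped FourierTransform SchwartzMap InnerProductSpace ENNReal BoundedContinuousFunction

noncomputable section

namespace FracScatC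

open FracScat

theorem SobBd.mono_exp {σ σ' A : ℝ} (h : σ' ≤ σ) {V : E3 → ℂ} (hV : SobBd σ A V) :
    SobBd σ' A V := by
  unfold SobBd at hV ⊢
  refine le_trans (lintegral_mono fun η => ?_) hV
  gcongr
  · linarith [norm_nonneg η]

theorem SobBd.mono {σ A A' : ℝ} (h0 : 0 ≤ A) (h : A ≤ A') {V : E3 → ℂ} (hV : SobBd σ A V) :
    SobBd σ A' V := by
  unfold SobBd at hV ⊢
  refine hV.trans (ENNReal.ofReal_le_ofReal ?_)
  gcongr

theorem SobBd.smul {σ A : ℝ} {V : E3 → ℂ} (hV : SobBd σ A V) (z : ℂ) :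
    SobBd σ (‖z‖ * A) (fun x => z * V x) := by
  unfold SobBd at hV ⊢
  have hF : ∀ η, 𝓕 (fun x => z * V x) η = z * 𝓕 V η := by
    intro η
    rw [Real.fourier_eq, Real.fourier_eq, ← integral_const_mul]
    congr 1
    funext v
    simp only [Circle.smul_def, smul_eq_mul]
    ring
  have hA : ENNReal.ofReal ((‖z‖ * A) ^ 2) = ‖z‖ₑ ^ 2 * ENNReal.ofReal (A ^ 2) := by
    rw [mul_pow, ENNReal.ofReal_mul (by positivity), ENNReal.ofReal_pow (norm_nonneg z),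
      ofReal_norm_eq_enorm]
  rw [hA]
  calc ∫⁻ η, ENNReal.ofReal ((1 + ‖η‖) ^ (2 * σ)) * ‖𝓕 (fun x => z * V x) η‖ₑ ^ 2
      = ∫⁻ η, ‖z‖ₑ ^ 2 * (ENNReal.ofReal ((1 + ‖η‖) ^ (2 * σ)) * ‖𝓕 V η‖ₑ ^ 2) := by
        apply lintegral_congr
        intro η
        rw [hF, enorm_mul, mul_pow]
        ring
    _ = ‖z‖ₑ ^ 2 * ∫⁻ η, (ENNReal.ofReal ((1 + ‖η‖) ^ (2 * σ)) * ‖𝓕 V η‖ₑ ^ 2) :=
        lintegral_const_mul' _ _ (by finiteness)
    _ ≤ ‖z‖ₑ ^ 2 * ENNReal.ofReal (A ^ 2) := by gcongr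

theorem SobBd.zero {r M : ℝ} {V : E3 → ℂ} (hV : IsPot r M V) : SobBd 0 (M * ‖oneB r‖) V := by
  unfold SobBd
  have hint := HB_integrable (dH_mem hV)
  have h1 : ∫⁻ η, ENNReal.ofReal ((1 + ‖η‖) ^ (2 * (0 : ℝ))) * ‖𝓕 V η‖ₑ ^ 2
      = ∫⁻ η, ‖(FT (dH r V) : E3 → ℂ) η‖ₑ ^ (2 : ℝ) := by
    apply lintegral_congr_ae
    filter_upwards [FT_eq_ftX hint] with η hη
    rw [hη, ftX_dH hV, mul_zero, Real.rpow_zero, ENNReal.ofReal_one, one_mul]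
    norm_cast
  rw [h1]
  have h2 : ∫⁻ η, ‖(FT (dH r V) : E3 → ℂ) η‖ₑ ^ (2 : ℝ)
      = (eLpNorm (FT (dH r V) : E3 → ℂ) 2 volume) ^ (2 : ℝ) := by
    rw [eLpNorm_eq_lintegral_rpow_enorm_toReal two_ne_zero ENNReal.ofNat_ne_top, ← ENNReal.rpow_mul]
    simp
  have h3 : eLpNorm (FT (dH r V) : E3 → ℂ) 2 volume = ENNReal.ofReal ‖dH r V‖ := by
    rw [← LinearIsometryEquiv.norm_map FT (dH r V), Lp.norm_def,
      ENNReal.ofReal_toReal (Lp.memLp _).2.ne]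
  rw [h2, h3, ENNReal.ofReal_rpow_of_nonneg (norm_nonneg _) (by norm_num)]
  apply ENNReal.ofReal_le_ofReal
  rw [Real.rpow_two]
  have := norm_dH_le hV
  gcongr

end FracScatC

end
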