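import Pool.Agent.Lib.MP_6e2ba5_an.Cx.KeyEst
import Pool.Agent.Lib.MP_6e2ba5_an.Cx.UeqA

/-! # Bounds of the fields and of their Fourier densities

`exists_N`: `exists_K` gives `K`; take `N₀ = max 1 K`; `kx ξ ∈ Reg K` (`real_mem`-type fact:
`Reg K = {0 ≤ re, 0 ≤ im, K ≤ ‖k‖}`), `2π‖ξ‖ ≥ ‖ξ‖`.
`Kx_norm`: `Kop_norm` with `k = kx ξ`, `‖kx ξ‖ = 2π‖ξ‖`.
In the region `‖ξ‖ ≥ N₀ ≥ 1`, write `K = Kop s r (kx ξ)`, `T = Tk s r V (kx ξ) = K ∘ mulL V`,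
`U = UX s r V ξ`, `‖U‖ ≤ 2‖oneB r‖` (`norm_UX_le`), `U = e + T U` (`UX_fix`), so
`‖U - e‖ ≤ ‖K‖ M ‖U‖ ≤ C ‖ξ‖^(1-2s)`.
`Hf_bound`: `mulL V U = mulL V e + mulL V (U - e)`; the first part is estimated by `PL_sob`, the
second by `PL_norm`: `C ‖ξ‖^(2-2s) M C ‖ξ‖^(1-2s) = C' ‖ξ‖^(3-4s)`. For `‖ξ‖ ≥ 1` both powers are
at most `‖ξ‖^(-b)`, `b = min (σ-(2-2s)) (4s-3)`.
`Hf_lip`: `D = V - V'`, `mulL V U - mulL V' U' = mulL D e + mulL D (U - e) + mulL V' (U - U')`, and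
`U - U' = T U - T' U' = K (mulL D U) + T' (U - U')`, so `‖U - U'‖ ≤ 2 ‖K‖ δ ‖U‖ ≤ C δ ‖ξ‖^(1-2s)`. -/

set_option autoImplicit false

open MeasureTheory Filter Topology Set
open scoped FourierTransform SchwartzMap InnerProductSpace ENNReal BoundedContinuousFunction

noncomputable section

namespace FracScatC

open FracScat

theorem exists_N {s : ℝ} (h0 : 3 / 4 < s) (h2 : s < 2) {r : ℝ} (hr : 0 < r) (M : ℝ) :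
    ∃ N₀ : ℝ, 1 ≤ N₀ ∧ ∀ V : E3 → ℂ, IsPot r M V → ∀ k ∈ Reg N₀, ‖Tk s r V k‖ ≤ 1 / 2 := by
  exact exists_K (by linarith) h2 hr M

private lemma ub_norm_kx (ξ : E3) : ‖kx ξ‖ = 2 * Real.pi * ‖ξ‖ := by
  rw [kx, Complex.norm_real, Real.norm_of_nonneg]
  have := Real.pi_pos
  positivity

private lemma ub_le (ξ : E3) : ‖ξ‖ ≤ 2 * Real.pi * ‖ξ‖ := by
  have := Real.pi_gt_three
  nlinarith [norm_nonneg ξ]

theorem kx_mem_Reg {K : ℝ} {ξ : E3} (hξ : K ≤ ‖ξ‖) : kx ξ ∈ Reg K := by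
  refine ⟨?_, ?_, ?_⟩
  · rw [kx, Complex.ofReal_re]
    have := Real.pi_pos
    positivity
  · rw [kx, Complex.ofReal_im]
  · rw [ub_norm_kx]
    exact hξ.trans (ub_le ξ)

theorem Kx_norm {s : ℝ} (h0 : 3 / 4 < s) (h2 : s < 2) {r : ℝ} (hr : 0 ≤ r) :
    ∃ C : ℝ, 0 ≤ C ∧ ∀ ξ : E3, 1 ≤ ‖ξ‖ → ‖Kop s r (kx ξ)‖ ≤ C * ‖ξ‖ ^ (1 - 2 * s) := by
  obtain ⟨C, hC, h⟩ := Kop_norm (s := s) (by linarith) h2 hr
  refine ⟨C, hC, fun ξ hξ => ?_⟩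
  have hξ0 : ξ ≠ 0 := by
    intro h0
    rw [h0, norm_zero] at hξ
    linarith
  have h1 := h (kx ξ) (kx_mem_Quad hξ0) (by rw [ub_norm_kx]; exact hξ.trans (ub_le ξ))
  rw [ub_norm_kx] at h1
  refine h1.trans (mul_le_mul_of_nonneg_left ?_ hC)
  exact Real.rpow_le_rpow_of_nonpos (by linarith) (ub_le ξ) (by linarith)

private lemma ub_sub {s : ℝ} {r M : ℝ} {V : E3 → ℂ} {ξ : E3} (hV : IsPot r M V)
    (hT : ‖Tk s r V (kx ξ)‖ ≤ 1 / 2) :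
    ‖UX s r V ξ - eH r ξ‖ ≤ ‖Kop s r (kx ξ)‖ * (M * (2 * ‖oneB r‖)) := by
  have h1 := UX_fix hT
  have h2 : UX s r V ξ - eH r ξ = Kop s r (kx ξ) (mulL V (UX s r V ξ)) :=
    sub_eq_iff_eq_add'.2 h1
  rw [h2]
  refine ((Kop s r (kx ξ)).le_opNorm _).trans (mul_le_mul_of_nonneg_left ?_ (norm_nonneg _))
  refine ((mulL V).le_opNorm _).trans ?_
  exact mul_le_mul (hV.norm_mulL hV.nonneg) (norm_UX_le hT) (norm_nonneg _) hV.nonneg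

private lemma ub_diff {s : ℝ} {r M δ : ℝ} {V V' : E3 → ℂ} {ξ : E3} (hV : IsPot r M V)
    (hV' : IsPot r M V') (hD : IsPot r δ (fun x => V x - V' x))
    (hT : ‖Tk s r V (kx ξ)‖ ≤ 1 / 2) (hT' : ‖Tk s r V' (kx ξ)‖ ≤ 1 / 2) :
    ‖UX s r V ξ - UX s r V' ξ‖ ≤ ‖Kop s r (kx ξ)‖ * (δ * (4 * ‖oneB r‖)) := by
  have h1 := UX_fix hT
  have h1' := UX_fix hT'
  have h2 : UX s r V ξ - UX s r V' ξ = Kop s r (kx ξ) (mulL (fun x => V x - V' x) (UX s r V ξ)) +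
      Tk s r V' (kx ξ) (UX s r V ξ - UX s r V' ξ) := by
    have e1 : Tk s r V' (kx ξ) (UX s r V ξ - UX s r V' ξ) =
        Kop s r (kx ξ) (mulL V' (UX s r V ξ)) - Kop s r (kx ξ) (mulL V' (UX s r V' ξ)) := by
      rw [map_sub]
      rfl
    have e2 : mulL (fun x => V x - V' x) (UX s r V ξ) =
        mulL V (UX s r V ξ) - mulL V' (UX s r V ξ) := by
      rw [mulL_sub hV.BM hV'.BM]
      rfl
    rw [e1, e2, map_sub]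
    have e3 : UX s r V ξ - UX s r V' ξ = Kop s r (kx ξ) (mulL V (UX s r V ξ)) -
        Kop s r (kx ξ) (mulL V' (UX s r V' ξ)) := by
      conv_lhs => rw [h1, h1']
      abel
    rw [e3]
    abel
  have h3 : ‖UX s r V ξ - UX s r V' ξ‖ ≤
      ‖Kop s r (kx ξ) (mulL (fun x => V x - V' x) (UX s r V ξ))‖ +
      ‖Tk s r V' (kx ξ) (UX s r V ξ - UX s r V' ξ)‖ := by
    have := norm_add_le (Kop s r (kx ξ) (mulL (fun x => V x - V' x) (UX s r V ξ)))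
      (Tk s r V' (kx ξ) (UX s r V ξ - UX s r V' ξ))
    rwa [← h2] at this
  have h4 : ‖Tk s r V' (kx ξ) (UX s r V ξ - UX s r V' ξ)‖ ≤
      1 / 2 * ‖UX s r V ξ - UX s r V' ξ‖ :=
    ((Tk s r V' (kx ξ)).le_opNorm _).trans (mul_le_mul_of_nonneg_right hT' (norm_nonneg _))
  have h5 : ‖Kop s r (kx ξ) (mulL (fun x => V x - V' x) (UX s r V ξ))‖ ≤
      ‖Kop s r (kx ξ)‖ * (δ * (2 * ‖oneB r‖)) := by
    refine ((Kop s r (kx ξ)).le_opNorm _).trans (mul_le_mul_of_nonneg_left ?_ (norm_nonneg _))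
    refine ((mulL _).le_opNorm _).trans ?_
    exact mul_le_mul (hD.norm_mulL hD.nonneg) (norm_UX_le hT) (norm_nonneg _) hD.nonneg
  have h6 : ‖Kop s r (kx ξ)‖ * (δ * (4 * ‖oneB r‖)) =
      2 * (‖Kop s r (kx ξ)‖ * (δ * (2 * ‖oneB r‖))) := by ring
  rw [h6]
  linarith

theorem Hf_bound {s : ℝ} (h0 : 3 / 4 < s) (h2 : s < 2) {r : ℝ} (hr : 0 < r) {σ : ℝ}
    (hσ0 : 0 ≤ σ) (hσ1 : σ < 1) (M A : ℝ) {N₀ : ℝ} (hN₀ : 1 ≤ N₀)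
    (hT : ∀ V : E3 → ℂ, IsPot r M V → ∀ ξ : E3, N₀ ≤ ‖ξ‖ → ‖Tk s r V (kx ξ)‖ ≤ 1 / 2) :
    ∃ C : ℝ, 0 ≤ C ∧ ∀ V : E3 → ℂ, IsPot r M V → SobBd σ A V → ∀ ξ : E3, N₀ ≤ ‖ξ‖ →
      ‖Hf s r V ξ‖ ≤ C * ‖ξ‖ ^ (-(min (σ - (2 - 2 * s)) (4 * s - 3))) := by
  obtain ⟨C₁, hC₁, H1⟩ := PL_norm h0 h2 hr.le
  obtain ⟨C₂, hC₂, H2⟩ := PL_sob h0 h2 hr.le hσ0 hσ1
  obtain ⟨C₃, hC₃, H3⟩ := Kx_norm h0 h2 hr.le
  refine ⟨C₂ * |A| + C₁ * (M * (C₃ * (M * (2 * ‖oneB r‖)))), ?_, ?_⟩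
  · have : 0 ≤ M * M := mul_self_nonneg M
    have e : C₁ * (M * (C₃ * (M * (2 * ‖oneB r‖)))) = C₁ * C₃ * (2 * ‖oneB r‖) * (M * M) := by
      ring
    rw [e]
    positivity
  intro V hV hA ξ hξ
  have hM := hV.nonneg
  have hξ1 : 1 ≤ ‖ξ‖ := hN₀.trans hξ
  have hξ0 : 0 < ‖ξ‖ := by linarith
  have hξ2 : 1 ≤ 2 * Real.pi * ‖ξ‖ := hξ1.trans (ub_le ξ)
  have hTξ := hT V hV ξ hξ
  have hA' : SobBd σ |A| V := by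
    unfold SobBd at hA ⊢
    rw [sq_abs]
    exact hA
  have e1 : Hf s r V ξ = PL s r ξ (mulL V (eH r ξ)) +
      PL s r ξ (mulL V (UX s r V ξ - eH r ξ)) := by
    rw [Hf, ← map_add, ← map_add]
    congr 2
    abel
  have h4 := H2 |A| M V (abs_nonneg A) hV hA' ξ hξ2
  have h5 : ‖PL s r ξ (mulL V (UX s r V ξ - eH r ξ))‖ ≤
      C₁ * (M * (C₃ * (M * (2 * ‖oneB r‖)))) * ‖ξ‖ ^ (3 - 4 * s) := by
    have h6 := H1 ξ hξ2 (mulL V (UX s r V ξ - eH r ξ))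
    have h7 : ‖mulL V (UX s r V ξ - eH r ξ)‖ ≤
        M * ((C₃ * ‖ξ‖ ^ (1 - 2 * s)) * (M * (2 * ‖oneB r‖))) := by
      refine ((mulL V).le_opNorm _).trans ?_
      refine mul_le_mul (hV.norm_mulL hM) ?_ (norm_nonneg _) hM
      refine (ub_sub hV hTξ).trans ?_
      exact mul_le_mul_of_nonneg_right (H3 ξ hξ1) (by positivity)
    calc ‖PL s r ξ (mulL V (UX s r V ξ - eH r ξ))‖
        ≤ C₁ * ‖ξ‖ ^ (2 - 2 * s) * ‖mulL V (UX s r V ξ - eH r ξ)‖ := h6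
      _ ≤ C₁ * ‖ξ‖ ^ (2 - 2 * s) * (M * ((C₃ * ‖ξ‖ ^ (1 - 2 * s)) * (M * (2 * ‖oneB r‖)))) :=
          mul_le_mul_of_nonneg_left h7 (by positivity)
      _ = C₁ * (M * (C₃ * (M * (2 * ‖oneB r‖)))) *
          (‖ξ‖ ^ (2 - 2 * s) * ‖ξ‖ ^ (1 - 2 * s)) := by ring
      _ = C₁ * (M * (C₃ * (M * (2 * ‖oneB r‖)))) * ‖ξ‖ ^ (3 - 4 * s) := by
          rw [← Real.rpow_add hξ0]
          congr 2
          ring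
  have h8 : ‖ξ‖ ^ (2 - 2 * s - σ) ≤ ‖ξ‖ ^ (-(min (σ - (2 - 2 * s)) (4 * s - 3))) := by
    apply Real.rpow_le_rpow_of_exponent_le hξ1
    have := min_le_left (σ - (2 - 2 * s)) (4 * s - 3)
    linarith
  have h9 : ‖ξ‖ ^ (3 - 4 * s) ≤ ‖ξ‖ ^ (-(min (σ - (2 - 2 * s)) (4 * s - 3))) := by
    apply Real.rpow_le_rpow_of_exponent_le hξ1
    have := min_le_right (σ - (2 - 2 * s)) (4 * s - 3)
    linarith
  rw [e1]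
  calc ‖PL s r ξ (mulL V (eH r ξ)) + PL s r ξ (mulL V (UX s r V ξ - eH r ξ))‖
      ≤ ‖PL s r ξ (mulL V (eH r ξ))‖ + ‖PL s r ξ (mulL V (UX s r V ξ - eH r ξ))‖ :=
        norm_add_le _ _
    _ ≤ C₂ * ‖ξ‖ ^ (2 - 2 * s - σ) * |A| +
        C₁ * (M * (C₃ * (M * (2 * ‖oneB r‖)))) * ‖ξ‖ ^ (3 - 4 * s) := add_le_add h4 h5
    _ ≤ C₂ * ‖ξ‖ ^ (-(min (σ - (2 - 2 * s)) (4 * s - 3))) * |A| +
        C₁ * (M * (C₃ * (M * (2 * ‖oneB r‖)))) *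
          ‖ξ‖ ^ (-(min (σ - (2 - 2 * s)) (4 * s - 3))) := by
        gcongr
    _ = (C₂ * |A| + C₁ * (M * (C₃ * (M * (2 * ‖oneB r‖))))) *
        ‖ξ‖ ^ (-(min (σ - (2 - 2 * s)) (4 * s - 3))) := by ring

theorem Hf_lip {s : ℝ} (h0 : 3 / 4 < s) (h2 : s < 2) {r : ℝ} (hr : 0 < r) {σ : ℝ}
    (hσ0 : 0 ≤ σ) (hσ1 : σ < 1) (hσ : 2 - 2 * s ≤ σ) (M : ℝ) {N₀ : ℝ} (hN₀ : 1 ≤ N₀)
    (hT : ∀ V : E3 → ℂ, IsPot r M V → ∀ ξ : E3, N₀ ≤ ‖ξ‖ → ‖Tk s r V (kx ξ)‖ ≤ 1 / 2) :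
    ∃ C : ℝ, 0 ≤ C ∧ ∀ (V V' : E3 → ℂ) (δ δ' : ℝ), IsPot r M V → IsPot r M V' → 0 ≤ δ' →
      IsPot r δ (fun x => V x - V' x) → SobBd σ δ' (fun x => V x - V' x) →
      ∀ ξ : E3, N₀ ≤ ‖ξ‖ → ‖Hf s r V ξ - Hf s r V' ξ‖ ≤ C * (δ + δ') := by
  obtain ⟨C₁, hC₁, H1⟩ := PL_norm h0 h2 hr.le
  obtain ⟨C₂, hC₂, H2⟩ := PL_sob h0 h2 hr.le hσ0 hσ1
  obtain ⟨C₃, hC₃, H3⟩ := Kx_norm h0 h2 hr.le
  refine ⟨C₂ + C₁ * C₃ * (|M| * (6 * ‖oneB r‖)), by positivity, ?_⟩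
  intro V V' δ δ' hV hV' hδ' hD hDs ξ hξ
  have hM := hV.nonneg
  have hδ := hD.nonneg
  rw [abs_of_nonneg hM]
  have hξ1 : 1 ≤ ‖ξ‖ := hN₀.trans hξ
  have hξ0 : 0 < ‖ξ‖ := by linarith
  have hξ2 : 1 ≤ 2 * Real.pi * ‖ξ‖ := hξ1.trans (ub_le ξ)
  have hTξ := hT V hV ξ hξ
  have hTξ' := hT V' hV' ξ hξ
  have hpow : ‖ξ‖ ^ (2 - 2 * s) * ‖ξ‖ ^ (1 - 2 * s) ≤ 1 := by
    rw [← Real.rpow_add hξ0]
    exact Real.rpow_le_one_of_one_le_of_nonpos hξ1 (by linarith)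
  have e2 : ∀ f : HS, mulL (fun x => V x - V' x) f = mulL V f - mulL V' f := by
    intro f
    rw [mulL_sub hV.BM hV'.BM]
    rfl
  have e1 : Hf s r V ξ - Hf s r V' ξ = PL s r ξ (mulL (fun x => V x - V' x) (eH r ξ)) +
      PL s r ξ (mulL (fun x => V x - V' x) (UX s r V ξ - eH r ξ)) +
      PL s r ξ (mulL V' (UX s r V ξ - UX s r V' ξ)) := by
    rw [Hf, Hf, ← map_sub, ← map_add, ← map_add]
    congr 1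
    rw [e2, e2, map_sub, map_sub, map_sub]
    abel
  have h4 : ‖PL s r ξ (mulL (fun x => V x - V' x) (eH r ξ))‖ ≤ C₂ * δ' := by
    refine (H2 δ' δ _ hδ' hD hDs ξ hξ2).trans ?_
    have : ‖ξ‖ ^ (2 - 2 * s - σ) ≤ 1 :=
      Real.rpow_le_one_of_one_le_of_nonpos hξ1 (by linarith)
    calc C₂ * ‖ξ‖ ^ (2 - 2 * s - σ) * δ' ≤ C₂ * 1 * δ' := by gcongr
      _ = C₂ * δ' := by ring
  have h5 : ‖PL s r ξ (mulL (fun x => V x - V' x) (UX s r V ξ - eH r ξ))‖ ≤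
      C₁ * C₃ * (M * (2 * ‖oneB r‖)) * δ := by
    have h7 : ‖mulL (fun x => V x - V' x) (UX s r V ξ - eH r ξ)‖ ≤
        δ * ((C₃ * ‖ξ‖ ^ (1 - 2 * s)) * (M * (2 * ‖oneB r‖))) := by
      refine ((mulL _).le_opNorm _).trans ?_
      refine mul_le_mul (hD.norm_mulL hδ) ?_ (norm_nonneg _) hδ
      refine (ub_sub hV hTξ).trans ?_
      exact mul_le_mul_of_nonneg_right (H3 ξ hξ1) (by positivity)
    calc ‖PL s r ξ (mulL (fun x => V x - V' x) (UX s r V ξ - eH r ξ))‖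
        ≤ C₁ * ‖ξ‖ ^ (2 - 2 * s) * ‖mulL (fun x => V x - V' x) (UX s r V ξ - eH r ξ)‖ :=
          H1 ξ hξ2 _
      _ ≤ C₁ * ‖ξ‖ ^ (2 - 2 * s) * (δ * ((C₃ * ‖ξ‖ ^ (1 - 2 * s)) * (M * (2 * ‖oneB r‖)))) :=
          mul_le_mul_of_nonneg_left h7 (by positivity)
      _ = C₁ * C₃ * (M * (2 * ‖oneB r‖)) * δ *
          (‖ξ‖ ^ (2 - 2 * s) * ‖ξ‖ ^ (1 - 2 * s)) := by ring
      _ ≤ C₁ * C₃ * (M * (2 * ‖oneB r‖)) * δ * 1 :=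
          mul_le_mul_of_nonneg_left hpow (by positivity)
      _ = C₁ * C₃ * (M * (2 * ‖oneB r‖)) * δ := mul_one _
  have h6 : ‖PL s r ξ (mulL V' (UX s r V ξ - UX s r V' ξ))‖ ≤
      C₁ * C₃ * (M * (4 * ‖oneB r‖)) * δ := by
    have h7 : ‖mulL V' (UX s r V ξ - UX s r V' ξ)‖ ≤
        M * ((C₃ * ‖ξ‖ ^ (1 - 2 * s)) * (δ * (4 * ‖oneB r‖))) := by
      refine ((mulL _).le_opNorm _).trans ?_
      refine mul_le_mul (hV'.norm_mulL hM) ?_ (norm_nonneg _) hM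
      refine (ub_diff hV hV' hD hTξ hTξ').trans ?_
      exact mul_le_mul_of_nonneg_right (H3 ξ hξ1) (by positivity)
    calc ‖PL s r ξ (mulL V' (UX s r V ξ - UX s r V' ξ))‖
        ≤ C₁ * ‖ξ‖ ^ (2 - 2 * s) * ‖mulL V' (UX s r V ξ - UX s r V' ξ)‖ := H1 ξ hξ2 _
      _ ≤ C₁ * ‖ξ‖ ^ (2 - 2 * s) * (M * ((C₃ * ‖ξ‖ ^ (1 - 2 * s)) * (δ * (4 * ‖oneB r‖)))) :=
          mul_le_mul_of_nonneg_left h7 (by positivity)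
      _ = C₁ * C₃ * (M * (4 * ‖oneB r‖)) * δ *
          (‖ξ‖ ^ (2 - 2 * s) * ‖ξ‖ ^ (1 - 2 * s)) := by ring
      _ ≤ C₁ * C₃ * (M * (4 * ‖oneB r‖)) * δ * 1 :=
          mul_le_mul_of_nonneg_left hpow (by positivity)
      _ = C₁ * C₃ * (M * (4 * ‖oneB r‖)) * δ := mul_one _
  rw [e1]
  have h8 : ‖PL s r ξ (mulL (fun x => V x - V' x) (eH r ξ)) +
      PL s r ξ (mulL (fun x => V x - V' x) (UX s r V ξ - eH r ξ)) +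
      PL s r ξ (mulL V' (UX s r V ξ - UX s r V' ξ))‖ ≤
      ‖PL s r ξ (mulL (fun x => V x - V' x) (eH r ξ))‖ +
      ‖PL s r ξ (mulL (fun x => V x - V' x) (UX s r V ξ - eH r ξ))‖ +
      ‖PL s r ξ (mulL V' (UX s r V ξ - UX s r V' ξ))‖ := norm_add₃_le
  refine h8.trans ?_
  have h9 : 0 ≤ C₂ * δ := mul_nonneg hC₂ hδ
  have h10 : 0 ≤ C₁ * C₃ * (M * (6 * ‖oneB r‖)) * δ' := by positivity
  have e5 : (C₂ + C₁ * C₃ * (M * (6 * ‖oneB r‖))) * (δ + δ') =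
      C₂ * δ + C₂ * δ' + C₁ * C₃ * (M * (2 * ‖oneB r‖)) * δ +
        C₁ * C₃ * (M * (4 * ‖oneB r‖)) * δ + C₁ * C₃ * (M * (6 * ‖oneB r‖)) * δ' := by ring
  rw [e5]
  linarith

end FracScatC

end
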