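import Pool.Agent.Lib.MP_6e2ba5_an.Cx.Expand
import Pool.Agent.Lib.MP_6e2ba5_an.Cx.Ident
import Pool.Agent.Lib.MP_6e2ba5_an.Cx.UBnd
import Pool.Agent.Lib.MP_6e2ba5_an.Cx.SobApi
import Pool.Agent.Lib.MP_6e2ba5_an.Cx.CChi
import Pool.Agent.Lib.MP_6e2ba5_an.Cx.LamApi

/-! # Theorem B: finitely many Fourier coefficients and back-scattering data

Reduction: put `σ' = min σ (3/4)` if `s < 1` (then `2-2s < 1/2`), and `σ' = 0`, with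
`SobBd.zero`, if `s > 1`. `Hf_bound` gives `N ≥ 1` with `‖Hf s r V ξ‖ ≤ 1/8` for all `V` in the
class and `‖ξ‖ ≥ N`. For `W = dH r (V₁-V₂)`, `F = ftX W`, `𝒟(ξ) = A3 W u₁ u₂`: `A3_expand`,
`norm_lam_le`, `norm_bet_le` give `‖F(-2ξ)‖ ≤ ‖𝒟(ξ)‖ + (1/8+1/8+1/64)‖F‖` for `‖ξ‖ ≥ N`, so
`‖F η‖ ≤ sup ‖𝒟‖ + ‖F‖/2` for `‖η‖ ≥ 2N`. For `‖η‖ ≤ 2N` choose `ζ ∈ Z` with
`‖η-ζ‖ ≤ ρ = 1/(2L+1)`, `bernstein`: `‖F η‖ ≤ ‖F ζ‖ + L ρ ‖F‖ ≤ ‖F ζ‖ + ‖F‖/2`. Hence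
`‖F‖ ≤ 2 max(sup ‖𝒟‖, sup_Z ‖F‖)` (`BoundedContinuousFunction.norm_le`).
(ii): `‖𝒟(ξ)‖ ≤ ε` by `data_ident` (need `K ≤ 2π‖ξ‖`; take `K = N`), `F η = 𝓕 V₁ η - 𝓕 V₂ η`
(`ftX_dH` and linearity of `𝓕` on integrable functions).
(i): `data_real` gives `Ffun` equal for all real `k ≥ K`, so `𝒟 = 0` by `ident`, `F = 0`,
`eq_zero_of_ftX`, `W = 0`, and `V₁ = V₂` a.e. by `dH_coe`. -/

set_option autoImplicit false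

open MeasureTheory Filter Topology Set
open scoped FourierTransform SchwartzMap InnerProductSpace ENNReal BoundedContinuousFunction

noncomputable section

namespace FracScatC

open FracScat

lemma FB_red {s σ r : ℝ} (h0 : 3 / 4 < s) (h1 : s ≠ 1) (hσ : 2 - 2 * s < σ) :
    ∃ σ' κ : ℝ, 0 ≤ σ' ∧ σ' < 1 ∧ 2 - 2 * s < σ' ∧ 0 ≤ κ ∧ ∀ (M A : ℝ) (V : E3 → ℂ),
      IsPot r M V → (s < 1 → SobBd σ A V) → SobBd σ' (κ * (M + |A|)) V := by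
  have habs : ∀ (σ A : ℝ) (V : E3 → ℂ), SobBd σ A V → SobBd σ |A| V := by
    intro σ A V h
    unfold SobBd at h ⊢
    rwa [sq_abs]
  rcases lt_or_gt_of_ne h1 with hs | hs
  · refine ⟨min σ (3 / 4), 1, le_min (by linarith) (by norm_num), ?_, ?_, zero_le_one, ?_⟩
    · exact lt_of_le_of_lt (min_le_right _ _) (by norm_num)
    · exact lt_min hσ (by linarith)
    · intro M A V hV hA
      have hM := hV.nonneg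
      refine (SobBd.mono_exp (min_le_left _ _) (habs _ _ _ (hA hs))).mono (abs_nonneg _) ?_
      linarith
  · refine ⟨0, ‖oneB r‖, le_rfl, one_pos, by linarith, norm_nonneg _, ?_⟩
    intro M A V hV _
    have hM := hV.nonneg
    refine (SobBd.zero hV).mono (by positivity) ?_
    have := abs_nonneg A
    have := norm_nonneg (oneB r)
    nlinarith

lemma FB_small {C b : ℝ} (hb : 0 < b) {ε : ℝ} (hε : 0 < ε) (hC : 0 ≤ C) :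
    ∃ N : ℝ, 1 ≤ N ∧ ∀ x : ℝ, N ≤ x → C * x ^ (-b) ≤ ε := by
  have h := (tendsto_rpow_neg_atTop hb).const_mul C
  rw [mul_zero] at h
  obtain ⟨N, hN1, hN2⟩ := ((h.eventually_le_const hε).and (eventually_ge_atTop (1 : ℝ))).exists
  refine ⟨N, hN2, fun x hx => ?_⟩
  refine (mul_le_mul_of_nonneg_left ?_ hC).trans hN1
  exact Real.rpow_le_rpow_of_nonpos (by linarith) hx (by linarith)

lemma FB_kx {N : ℝ} (hN : 1 ≤ N) {ξ : E3} (hξ : N ≤ ‖ξ‖) : N ≤ 2 * Real.pi * ‖ξ‖ := by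
  have h3 := Real.pi_gt_three
  nlinarith [norm_nonneg ξ]

lemma FB_ne {N : ℝ} (hN : 1 ≤ N) {ξ : E3} (hξ : N ≤ ‖ξ‖) : ξ ≠ 0 := by
  intro h
  rw [h, norm_zero] at hξ
  linarith

/-- The a priori bound. -/
lemma FB_core {s : ℝ} (h0 : 3 / 4 < s) (h2 : s < 2) {r M N : ℝ} (hr : 0 < r) (hN : 1 ≤ N)
    {V₁ V₂ : E3 → ℂ} (hV₁ : IsPot r M V₁) (hV₂ : IsPot r M V₂)
    (hT₁ : ∀ ξ : E3, N ≤ ‖ξ‖ → ‖Tk s r V₁ (kx ξ)‖ ≤ 1 / 2)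
    (hT₂ : ∀ ξ : E3, N ≤ ‖ξ‖ → ‖Tk s r V₂ (kx ξ)‖ ≤ 1 / 2)
    (hH₁ : ∀ ξ : E3, N ≤ ‖ξ‖ → ‖Hf s r V₁ ξ‖ ≤ 1 / 8)
    (hH₂ : ∀ ξ : E3, N ≤ ‖ξ‖ → ‖Hf s r V₂ ξ‖ ≤ 1 / 8) {W : HS} (hW : W ∈ HB r) {L ρ : ℝ}
    (hL0 : 0 ≤ L) (hL : ∀ η η' : E3, ‖ftX W η - ftX W η'‖ ≤ L * ‖η - η'‖ * ‖ftX W‖)
    (hρ : L * ρ ≤ 1 / 2) {Z : Set E3} (hZ : ∀ η : E3, ‖η‖ ≤ 2 * N → ∃ ζ ∈ Z, ‖η - ζ‖ ≤ ρ) {ε : ℝ}
    (hD : ∀ ξ : E3, N ≤ ‖ξ‖ → ‖A3 W (UX s r V₁ ξ) (UX s r V₂ ξ)‖ ≤ ε)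
    (hZε : ∀ ζ ∈ Z, ‖ftX W ζ‖ ≤ ε) : ‖ftX W‖ ≤ 2 * ε := by
  have hε : 0 ≤ ε := by
    obtain ⟨ζ, hζ, -⟩ := hZ 0 (by rw [norm_zero]; linarith)
    exact (norm_nonneg _).trans (hZε ζ hζ)
  have hF0 := norm_nonneg (ftX W)
  have key : ‖ftX W‖ ≤ ε + 1 / 2 * ‖ftX W‖ := by
    rw [BoundedContinuousFunction.norm_le (by positivity)]
    intro η
    rcases le_or_gt (‖η‖) (2 * N) with hη | hη
    · obtain ⟨ζ, hζ, hd⟩ := hZ η hη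
      have e1 : ftX W η = ftX W ζ + (ftX W η - ftX W ζ) := by ring
      have e2 : L * ‖η - ζ‖ * ‖ftX W‖ ≤ 1 / 2 * ‖ftX W‖ := by
        refine mul_le_mul_of_nonneg_right ?_ hF0
        exact (mul_le_mul_of_nonneg_left hd hL0).trans hρ
      calc ‖ftX W η‖ ≤ ‖ftX W ζ‖ + ‖ftX W η - ftX W ζ‖ := by
            rw [e1]
            simpa using norm_add_le (ftX W ζ) (ftX W η - ftX W ζ)
        _ ≤ ε + 1 / 2 * ‖ftX W‖ := add_le_add (hZε ζ hζ) ((hL η ζ).trans e2)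
    · set ξ : E3 := -(1 / 2 : ℝ) • η with hξdef
      have hnξ : ‖ξ‖ = ‖η‖ / 2 := by
        rw [hξdef, norm_smul, norm_neg, Real.norm_of_nonneg (by norm_num : (0 : ℝ) ≤ 1 / 2)]
        ring
      have hξN : N ≤ ‖ξ‖ := by rw [hnξ]; linarith
      have hη2 : -(2 : ℝ) • ξ = η := by
        rw [hξdef, smul_smul]
        norm_num
      have hx := A3_expand h0 h2 hr.le (by linarith [FB_kx hN hξN]) hW hV₁ hV₂ (hT₁ ξ hξN)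
        (hT₂ ξ hξN)
      rw [hη2] at hx
      have b1 := (norm_lam_le ξ (Hf s r V₁ ξ) (ftX W)).trans
        (mul_le_mul_of_nonneg_right (hH₁ ξ hξN) hF0)
      have b2 := (norm_lam_le ξ (Hf s r V₂ ξ) (ftX W)).trans
        (mul_le_mul_of_nonneg_right (hH₂ ξ hξN) hF0)
      have b3 : ‖bet (Hf s r V₁ ξ) (Hf s r V₂ ξ) (ftX W)‖ ≤ 1 / 64 * ‖ftX W‖ := by
        refine (norm_bet_le _ _ _).trans (mul_le_mul_of_nonneg_right ?_ hF0)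
        calc ‖Hf s r V₁ ξ‖ * ‖Hf s r V₂ ξ‖ ≤ 1 / 8 * (1 / 8) :=
              mul_le_mul (hH₁ ξ hξN) (hH₂ ξ hξN) (norm_nonneg _) (by norm_num)
          _ = 1 / 64 := by norm_num
      have e1 : ftX W η = A3 W (UX s r V₁ ξ) (UX s r V₂ ξ) - lam ξ (Hf s r V₁ ξ) (ftX W) -
          lam ξ (Hf s r V₂ ξ) (ftX W) - bet (Hf s r V₁ ξ) (Hf s r V₂ ξ) (ftX W) := by
        rw [hx]; ring
      have e2 : ‖ftX W η‖ ≤ ‖A3 W (UX s r V₁ ξ) (UX s r V₂ ξ)‖ +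
          ‖lam ξ (Hf s r V₁ ξ) (ftX W)‖ + ‖lam ξ (Hf s r V₂ ξ) (ftX W)‖ +
          ‖bet (Hf s r V₁ ξ) (Hf s r V₂ ξ) (ftX W)‖ := by
        rw [e1]
        refine (norm_sub_le _ _).trans (add_le_add ?_ le_rfl)
        refine (norm_sub_le _ _).trans (add_le_add ?_ le_rfl)
        exact norm_sub_le _ _
      have := hD ξ hξN
      linarith
  linarith

lemma FB_int {r M : ℝ} {V : E3 → ℂ} (hV : IsPot r M V) : Integrable V :=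
  (HB_integrable (dH_mem hV)).congr (dH_coe hV)

lemma FB_ft {r M : ℝ} {V₁ V₂ : E3 → ℂ} (hV₁ : IsPot r M V₁) (hV₂ : IsPot r M V₂) (η : E3) :
    ftX (dH r (fun x => V₁ x - V₂ x)) η = 𝓕 V₁ η - 𝓕 V₂ η := by
  rw [ftX_dH (hV₁.sub hV₂), Real.fourier_eq, Real.fourier_eq, Real.fourier_eq,
    ← integral_sub ((Real.fourierIntegral_convergent_iff η).2 (FB_int hV₁))
      ((Real.fourierIntegral_convergent_iff η).2 (FB_int hV₂))]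
  refine integral_congr_ae (Eventually.of_forall fun x => ?_)
  simp only [smul_sub]

lemma FB_eq {r M : ℝ} {V₁ V₂ : E3 → ℂ} (hV₁ : IsPot r M V₁) (hV₂ : IsPot r M V₂)
    (h : ‖ftX (dH r (fun x => V₁ x - V₂ x))‖ ≤ 0) : V₁ =ᵐ[volume] V₂ := by
  have h1 : ftX (dH r (fun x => V₁ x - V₂ x)) = 0 := norm_le_zero_iff.1 h
  have h2 := eq_zero_of_ftX (dH_mem (hV₁.sub hV₂)) h1
  have h3 := dH_coe (hV₁.sub hV₂)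
  rw [h2] at h3
  filter_upwards [h3, Lp.coeFn_zero ℂ 2 (volume : Measure E3)] with x a b
  rw [b] at a
  exact sub_eq_zero.1 a.symm

theorem final_B {s σ r M A : ℝ} (h0 : 3 / 4 < s) (h2 : s < 2) (h1 : s ≠ 1)
    (hσ : 2 - 2 * s < σ) (hr : 0 < r) :
    ∃ K N ρ : ℝ, 1 ≤ K ∧ 0 < ρ ∧ ∀ V₁ V₂ : E3 → ℂ,
      IsPot r M V₁ → IsPot r M V₂ → (s < 1 → SobBd σ A V₁ ∧ SobBd σ A V₂) →
      ∀ Z : Set E3, (∀ η : E3, ‖η‖ ≤ N → ∃ ζ ∈ Z, ‖η - ζ‖ ≤ ρ) →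
      (∀ a b : ℝ, K ≤ a → a < b →
        (∀ k ∈ Ioo a b, ∀ θ : E3, ‖θ‖ = 1 → SameBackScattering s k V₁ V₂ θ) →
        (∀ ζ ∈ Z, 𝓕 V₁ ζ = 𝓕 V₂ ζ) → V₁ =ᵐ[volume] V₂) ∧
      ∀ ε : ℝ, (∀ k : ℝ, K ≤ k → ∀ θ : E3, ‖θ‖ = 1 → BackDist s k V₁ V₂ θ ε) →
        (∀ ζ ∈ Z, ‖𝓕 V₁ ζ - 𝓕 V₂ ζ‖ ≤ ε) → ∀ η : E3, ‖𝓕 V₁ η - 𝓕 V₂ η‖ ≤ 2 * ε := by
  obtain ⟨σ', κ, hσ0, hσ1, hσ2, -, hred⟩ := FB_red (r := r) h0 h1 hσ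
  obtain ⟨N₀, hN₀, hT₀⟩ := exists_N h0 h2 hr M
  have hT : ∀ V : E3 → ℂ, IsPot r M V → ∀ ξ : E3, N₀ ≤ ‖ξ‖ → ‖Tk s r V (kx ξ)‖ ≤ 1 / 2 :=
    fun V hV ξ hξ => hT₀ V hV _ (kx_mem_Reg hξ)
  obtain ⟨C, hC, hHf⟩ := Hf_bound h0 h2 hr hσ0 hσ1 M (κ * (M + |A|)) hN₀ hT
  obtain ⟨N₁, hN₁, hsm⟩ := FB_small (C := C) (b := min (σ' - (2 - 2 * s)) (4 * s - 3))
    (lt_min (by linarith) (by linarith)) (by norm_num : (0 : ℝ) < 1 / 8) hC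
  obtain ⟨L, hL0, hL⟩ := bernstein hr
  set N : ℝ := max N₀ N₁ with hNdef
  have hN : 1 ≤ N := hN₀.trans (le_max_left _ _)
  have hρ : L * (1 / (2 * (L + 1))) ≤ 1 / 2 := by
    rw [mul_one_div, div_le_iff₀ (by positivity)]
    linarith
  refine ⟨N, 2 * N, 1 / (2 * (L + 1)), hN, by positivity, ?_⟩
  intro V₁ V₂ hV₁ hV₂ hS Z hZ
  have hS₁ := hred M A V₁ hV₁ (fun h => (hS h).1)
  have hS₂ := hred M A V₂ hV₂ (fun h => (hS h).2)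
  have hTN : ∀ V : E3 → ℂ, IsPot r M V → ∀ ξ : E3, N ≤ ‖ξ‖ → ‖Tk s r V (kx ξ)‖ ≤ 1 / 2 :=
    fun V hV ξ hξ => hT V hV ξ ((le_max_left _ _).trans hξ)
  have hHN : ∀ V : E3 → ℂ, IsPot r M V → SobBd σ' (κ * (M + |A|)) V → ∀ ξ : E3, N ≤ ‖ξ‖ →
      ‖Hf s r V ξ‖ ≤ 1 / 8 :=
    fun V hV hSV ξ hξ => (hHf V hV hSV ξ ((le_max_left _ _).trans hξ)).trans
      (hsm _ ((le_max_right _ _).trans hξ))
  have hcore : ∀ ε : ℝ, (∀ ξ : E3, N ≤ ‖ξ‖ →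
      ‖A3 (dH r (fun x => V₁ x - V₂ x)) (UX s r V₁ ξ) (UX s r V₂ ξ)‖ ≤ ε) →
      (∀ ζ ∈ Z, ‖ftX (dH r (fun x => V₁ x - V₂ x)) ζ‖ ≤ ε) →
      ‖ftX (dH r (fun x => V₁ x - V₂ x))‖ ≤ 2 * ε := fun ε hD hZε =>
    FB_core h0 h2 hr hN hV₁ hV₂ (hTN V₁ hV₁) (hTN V₂ hV₂) (hHN V₁ hV₁ hS₁) (hHN V₂ hV₂ hS₂)
      (dH_mem (hV₁.sub hV₂)) hL0 (hL _ (dH_mem (hV₁.sub hV₂))) hρ hZ hD hZε
  refine ⟨?_, ?_⟩
  · intro a b ha hab hdata hZ0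
    have hR : ∀ V : E3 → ℂ, IsPot r M V → ∀ k ∈ Reg N, ‖Tk s r V k‖ ≤ 1 / 2 :=
      fun V hV k hk => hT₀ V hV k ⟨hk.1, hk.2.1, (le_max_left _ _).trans hk.2.2⟩
    have h3 : ‖ftX (dH r (fun x => V₁ x - V₂ x))‖ ≤ 2 * 0 := by
      refine hcore 0 ?_ ?_
      · intro ξ hξ
        have hne := FB_ne hN hξ
        rw [ident h0 h2 hr.le hne hV₁ hV₂ (hTN V₁ hV₁ ξ hξ) (hTN V₂ hV₂ ξ hξ)]
        have hθ : ‖(‖ξ‖⁻¹ • ξ : E3)‖ = 1 := norm_smul_inv_norm (𝕜 := ℝ) hne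
        have := data_real (by linarith) h2 hr hV₁ hV₂ hθ hN (hR V₁ hV₁) (hR V₂ hV₂) ha hab
          (fun k hk => hdata k hk _ hθ) (2 * Real.pi * ‖ξ‖) (FB_kx hN hξ)
        rw [kx, this, sub_self, norm_zero]
      · intro ζ hζ
        rw [FB_ft hV₁ hV₂, hZ0 ζ hζ, sub_self, norm_zero]
    rw [mul_zero] at h3
    exact FB_eq hV₁ hV₂ h3
  · intro ε hdata hZε η
    have h3 : ‖ftX (dH r (fun x => V₁ x - V₂ x))‖ ≤ 2 * ε := by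
      refine hcore ε ?_ ?_
      · intro ξ hξ
        have hne := FB_ne hN hξ
        have hθ : ‖(‖ξ‖⁻¹ • ξ : E3)‖ = 1 := norm_smul_inv_norm (𝕜 := ℝ) hne
        exact data_ident h0 h2 hr hne hV₁ hV₂ (hTN V₁ hV₁ ξ hξ) (hTN V₂ hV₂ ξ hξ)
          (hdata _ (FB_kx hN hξ) _ hθ)
      · intro ζ hζ
        rw [FB_ft hV₁ hV₂]
        exact hZε ζ hζ
    rw [← FB_ft hV₁ hV₂]
    exact (BoundedContinuousFunction.norm_coe_le_norm _ η).trans h3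

end FracScatC

end
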