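import Pool.Agent.Lib.MP_6e2ba5_an.Stmt

/-! # Analytic families of Fredholm operators: lower bounds for all but finitely many parameters

Let `𝒦'` be of finite rank, `E = range 𝒦'`, `‖𝒦 - 𝒦'‖ ≤ 1/4`. `G z = 1 + R z - (𝒦 - 𝒦')` is
invertible for `‖z‖ < ρ` (`‖R z - (𝒦-𝒦')‖ ≤ 3/4 < 1`, `isUnit_one_sub_of_norm_lt_one`), and
`Gi z = Ring.inverse (G z)` is differentiable on the ball. Let `B z : E →L[ℂ] E` be
`y ↦ y - 𝒦' (Gi z y)` and `d z = LinearMap.det (B z)`; `d` is differentiable on the ball (the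
determinant is a polynomial in the matrix entries, which are bounded linear functionals of
`Gi z y_j`; or `ContinuousLinearMap.det`), so analytic.
`d 0 ≠ 0`: if `y ∈ E`, `y = 𝒦' (Gi 0 y)`, put `x = Gi 0 y`; `G 0 x = y = 𝒦' x`, i.e.
`x + R 0 x - 𝒦 x = 0`, so `x = 0` by `hinj` and `y = 0`; `B 0` is injective.
`S = {z | ‖z‖ ≤ T, d z = 0}` is finite: otherwise it has an accumulation point in the compact disc
`‖z‖ ≤ T < ρ` and `d = 0` on the ball
(`AnalyticOnNhd.eqOn_zero_of_preconnected_of_frequently_eq_zero`).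
For `z` with `d z ≠ 0`: given `x`, put `w = x + R z x - 𝒦 x = G z x - 𝒦' x`, `y = G z x`; then
`y - w = 𝒦' x ∈ E` and `B z (y-w) = (y-w) - 𝒦' (Gi z (y-w)) = 𝒦' (Gi z w)`, so
`‖y-w‖ ≤ C ‖w‖` (`B z` is a bijection of a finite dimensional space, so bounded below), and
`‖x‖ = ‖Gi z y‖ ≤ C' ‖w‖`. If `T < 0` the set is empty. -/

set_option autoImplicit false

open MeasureTheory Filter Topology Set
open scoped FourierTransform SchwartzMap InnerProductSpace ENNReal BoundedContinuousFunction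

noncomputable section

namespace FracScatC

open FracScat

theorem fredholm {X : Type*} [NormedAddCommGroup X] [NormedSpace ℂ X] [CompleteSpace X] {ρ : ℝ}
    (hρ : 0 < ρ) (R : ℂ → X →L[ℂ] X) (hR : DifferentiableOn ℂ R (Metric.ball 0 ρ))
    (hR2 : ∀ z ∈ Metric.ball (0 : ℂ) ρ, ‖R z‖ ≤ 1 / 2) (𝒦 𝒦' : X →L[ℂ] X)
    (hfin : FiniteDimensional ℂ (LinearMap.range (𝒦' : X →ₗ[ℂ] X))) (hK : ‖𝒦 - 𝒦'‖ ≤ 1 / 4)
    (hinj : ∀ x : X, x + R 0 x - 𝒦 x = 0 → x = 0) {T : ℝ} (hT : T < ρ) :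
    ∃ S : Set ℂ, S.Finite ∧ (0 : ℂ) ∉ S ∧ ∀ z : ℂ, ‖z‖ ≤ T → z ∉ S →
      ∃ c : ℝ, 0 < c ∧ ∀ x : X, c * ‖x‖ ≤ ‖x + R z x - 𝒦 x‖ := by
  classical
  let G : ℂ → X →L[ℂ] X := fun z => 1 + R z - (𝒦 - 𝒦')
  have hunit : ∀ z ∈ Metric.ball (0 : ℂ) ρ, IsUnit (G z) := by
    intro z hz
    have h1 : G z = 1 - ((𝒦 - 𝒦') - R z) := by simp only [G]; abel
    rw [h1]
    apply isUnit_one_sub_of_norm_lt_one
    calc ‖(𝒦 - 𝒦') - R z‖ ≤ ‖𝒦 - 𝒦'‖ + ‖R z‖ := norm_sub_le _ _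
      _ ≤ 1 / 4 + 1 / 2 := add_le_add hK (hR2 z hz)
      _ < 1 := by norm_num
  have hGd : DifferentiableOn ℂ G (Metric.ball 0 ρ) :=
    ((differentiableOn_const (1 : X →L[ℂ] X)).add hR).sub (differentiableOn_const (𝒦 - 𝒦'))
  let Gi : ℂ → X →L[ℂ] X := fun z => Ring.inverse (G z)
  have hGid : DifferentiableOn ℂ Gi (Metric.ball 0 ρ) := hGd.inverse hunit
  have hGr : ∀ z ∈ Metric.ball (0 : ℂ) ρ, ∀ y : X, G z (Gi z y) = y := by
    intro z hz y
    have h := Ring.mul_inverse_cancel (G z) (hunit z hz)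
    have := congrArg (fun f : X →L[ℂ] X => f y) h
    simpa using this
  have hGl : ∀ z ∈ Metric.ball (0 : ℂ) ρ, ∀ y : X, Gi z (G z y) = y := by
    intro z hz y
    have h := Ring.inverse_mul_cancel (G z) (hunit z hz)
    have := congrArg (fun f : X →L[ℂ] X => f y) h
    simpa using this
  let E : Submodule ℂ X := LinearMap.range (𝒦' : X →ₗ[ℂ] X)
  haveI : FiniteDimensional ℂ E := hfin
  let KE : X →L[ℂ] E := 𝒦'.codRestrict E (fun x => LinearMap.mem_range_self (𝒦' : X →ₗ[ℂ] X) x)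
  let B : ℂ → E →L[ℂ] E := fun z => 1 - KE.comp ((Gi z).comp E.subtypeL)
  have hBd : DifferentiableOn ℂ B (Metric.ball 0 ρ) :=
    (differentiableOn_const (1 : E →L[ℂ] E)).sub
      ((differentiableOn_const KE).clm_comp (hGid.clm_comp (differentiableOn_const E.subtypeL)))
  have hBv : ∀ z (y : E), ((B z y : E) : X) = (y : X) - 𝒦' (Gi z (y : X)) := by
    intro z y
    rfl
  let b := Module.finBasis ℂ E
  let d : ℂ → ℂ := fun z => LinearMap.det ((B z : E →L[ℂ] E) : E →ₗ[ℂ] E)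
  have hdd : DifferentiableOn ℂ d (Metric.ball 0 ρ) := by
    have e : ∀ z, d z = ∑ σ : Equiv.Perm (Fin (Module.finrank ℂ E)), Equiv.Perm.sign σ •
        ∏ i, b.repr (B z (b i)) (σ i) := by
      intro z
      have h1 : d z = (LinearMap.toMatrix b b ((B z : E →L[ℂ] E) : E →ₗ[ℂ] E)).det :=
        (LinearMap.det_toMatrix b _).symm
      rw [h1, Matrix.det_apply]
      simp only [LinearMap.toMatrix_apply]
      rfl
    have e2 : d = fun z => ∑ σ : Equiv.Perm (Fin (Module.finrank ℂ E)), Equiv.Perm.sign σ •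
        ∏ i, b.repr (B z (b i)) (σ i) := funext e
    rw [e2]
    refine DifferentiableOn.fun_sum fun σ _ => ?_
    have h3 : DifferentiableOn ℂ (fun z => ∏ i, b.repr (B z (b i)) (σ i)) (Metric.ball 0 ρ) := by
      have h4 : ∀ i ∈ (Finset.univ : Finset (Fin (Module.finrank ℂ E))),
          DifferentiableOn ℂ (fun z => b.repr (B z (b i)) (σ i)) (Metric.ball 0 ρ) := by
        intro i _
        have h5 : DifferentiableOn ℂ (fun z => B z (b i)) (Metric.ball 0 ρ) :=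
          hBd.clm_apply (differentiableOn_const (b i))
        have h6 := ((LinearMap.toContinuousLinearMap (b.coord (σ i))).differentiable).comp_differentiableOn h5
        exact h6
      have h7 := DifferentiableOn.finsetProd h4
      refine h7.congr fun z _ => ?_
      simp [Finset.prod_apply]
    rcases Int.units_eq_one_or (Equiv.Perm.sign σ) with hs | hs
    · simpa [hs] using h3
    · simpa [hs] using h3.neg
  have hda : AnalyticOnNhd ℂ d (Metric.ball 0 ρ) := hdd.analyticOnNhd Metric.isOpen_ball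
  -- injectivity when the determinant does not vanish, and conversely
  have hker : ∀ z, d z ≠ 0 ↔ LinearMap.ker ((B z : E →L[ℂ] E) : E →ₗ[ℂ] E) = ⊥ := by
    intro z
    rw [← LinearMap.isUnit_iff_ker_eq_bot, LinearMap.isUnit_iff_isUnit_det, isUnit_iff_ne_zero]
  have h0ρ : (0 : ℂ) ∈ Metric.ball (0 : ℂ) ρ := Metric.mem_ball_self hρ
  have hd0 : d 0 ≠ 0 := by
    rw [hker, LinearMap.ker_eq_bot']
    intro y hy
    have h1 : ((B 0 y : E) : X) = 0 := by
      have : B 0 y = 0 := hy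
      rw [this]; rfl
    rw [hBv] at h1
    have h2 : (y : X) = 𝒦' (Gi 0 (y : X)) := sub_eq_zero.1 h1
    have h3 := hGr 0 h0ρ (y : X)
    have h4 : Gi 0 (y : X) = 0 := by
      apply hinj
      have h5 : G 0 (Gi 0 (y : X)) = 𝒦' (Gi 0 (y : X)) := h3.trans h2
      simp only [G, ContinuousLinearMap.sub_apply, ContinuousLinearMap.add_apply,
        ContinuousLinearMap.one_apply] at h5
      have h6 : Gi 0 (y : X) + R 0 (Gi 0 (y : X)) - 𝒦 (Gi 0 (y : X)) =
        (Gi 0 (y : X) + R 0 (Gi 0 (y : X)) - (𝒦 (Gi 0 (y : X)) - 𝒦' (Gi 0 (y : X)))) -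
          𝒦' (Gi 0 (y : X)) := by abel
      rw [h6, h5, sub_self]
    rw [h4, map_zero] at h2
    exact Subtype.ext h2
  let S : Set ℂ := {z | ‖z‖ ≤ T ∧ d z = 0}
  refine ⟨S, ?_, fun h => hd0 h.2, ?_⟩
  · by_contra hinf
    have hSinf : S.Infinite := hinf
    obtain ⟨x, hx, hacc⟩ := hSinf.exists_accPt_of_subset_isCompact
      (isCompact_closedBall (0 : ℂ) T) (fun z hz => by
        rw [Metric.mem_closedBall, dist_zero_right]; exact hz.1)
    have hxρ : x ∈ Metric.ball (0 : ℂ) ρ :=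
      Metric.closedBall_subset_ball hT hx
    have hfr : ∃ᶠ z in 𝓝[≠] x, d z = 0 := by
      have h1 := accPt_iff_frequently_nhdsNE.1 hacc
      exact h1.mono fun z hz => hz.2
    have h2 := hda.eqOn_zero_of_preconnected_of_frequently_eq_zero
      (convex_ball (0 : ℂ) ρ).isPreconnected hxρ hfr
    exact hd0 (h2 h0ρ)
  · intro z hz hzS
    have hzρ : z ∈ Metric.ball (0 : ℂ) ρ := by
      rw [Metric.mem_ball, dist_zero_right]; exact lt_of_le_of_lt hz hT
    have hdz : d z ≠ 0 := fun h => hzS ⟨hz, h⟩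
    obtain ⟨K, hKpos, hKa⟩ := LinearMap.exists_antilipschitzWith
      ((B z : E →L[ℂ] E) : E →ₗ[ℂ] E) ((hker z).1 hdz)
    set g := ‖Gi z‖ with hg
    have hg0 : 0 ≤ g := norm_nonneg _
    have hk0 : 0 ≤ ‖𝒦'‖ := norm_nonneg _
    have hKr : (0 : ℝ) < K := by exact_mod_cast hKpos
    set C : ℝ := g * (K * (‖𝒦'‖ * g) + 1) + 1 with hC
    have hCpos : 0 < C := by positivity
    refine ⟨C⁻¹, inv_pos.2 hCpos, fun x => ?_⟩
    rw [inv_mul_le_iff₀ hCpos]
    set w := x + R z x - 𝒦 x with hw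
    have h1 : G z x = w + 𝒦' x := by
      simp only [G, hw, ContinuousLinearMap.sub_apply, ContinuousLinearMap.add_apply,
        ContinuousLinearMap.one_apply]
      abel
    let e : E := KE x
    have he : (e : X) = 𝒦' x := rfl
    have h2 : ((B z e : E) : X) = 𝒦' (Gi z w) := by
      rw [hBv, he]
      have h3 : Gi z (G z x) = x := hGl z hzρ x
      rw [h1, map_add] at h3
      have h4 : Gi z (𝒦' x) = x - Gi z w := eq_sub_of_add_eq' h3
      rw [h4, map_sub]; abel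
    have h3 : ‖e‖ ≤ K * ‖B z e‖ := by
      have := hKa.le_mul_norm_sub e 0
      simpa using this
    have h4 : ‖B z e‖ ≤ ‖𝒦'‖ * (g * ‖w‖) := by
      have h5 : ‖B z e‖ = ‖𝒦' (Gi z w)‖ := by rw [← h2]; rfl
      rw [h5]
      exact (𝒦'.le_opNorm _).trans (mul_le_mul_of_nonneg_left ((Gi z).le_opNorm w) hk0)
    have h5 : ‖x‖ ≤ g * ‖w + 𝒦' x‖ := by
      have h6 : x = Gi z (w + 𝒦' x) := by rw [← h1]; exact (hGl z hzρ x).symm
      conv_lhs => rw [h6]
      exact (Gi z).le_opNorm _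
    have h6 : ‖w + 𝒦' x‖ ≤ ‖w‖ + K * (‖𝒦'‖ * (g * ‖w‖)) := by
      refine (norm_add_le _ _).trans (add_le_add le_rfl ?_)
      have h7 : ‖𝒦' x‖ = ‖e‖ := by rw [← he]; rfl
      rw [h7]
      exact h3.trans (mul_le_mul_of_nonneg_left h4 hKr.le)
    have hw0 : 0 ≤ ‖w‖ := norm_nonneg _
    calc ‖x‖ ≤ g * ‖w + 𝒦' x‖ := h5
      _ ≤ g * (‖w‖ + K * (‖𝒦'‖ * (g * ‖w‖))) := mul_le_mul_of_nonneg_left h6 hg0
      _ ≤ C * ‖w‖ := by rw [hC]; nlinarith

end FracScatC

end
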