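import Pool.Agent.Lib.MP_6e2ba5_an.Stmt

/-! # Multiplication operators on bounded continuous functions

`(mulB S f) x = S x (f x)`; continuity: `Continuous.clm_apply`; bound `C ‖f‖`; linear: build it with
`BoundedContinuousFunction.ofNormedAddCommGroup` and `LinearMap.mkContinuous`. -/

set_option autoImplicit false

open MeasureTheory Filter Topology Set
open scoped FourierTransform SchwartzMap InnerProductSpace ENNReal BoundedContinuousFunction

noncomputable section

namespace FracScatC

open FracScat

theorem exists_mulB {X E F : Type*} [TopologicalSpace X] [NormedAddCommGroup E] [NormedSpace ℂ E]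
    [NormedAddCommGroup F] [NormedSpace ℂ F] (S : X → E →L[ℂ] F) (hS : Continuous S) {C : ℝ}
    (hC : 0 ≤ C) (hb : ∀ x, ‖S x‖ ≤ C) :
    ∃ A : (X →ᵇ E) →L[ℂ] (X →ᵇ F), ‖A‖ ≤ C ∧ ∀ (f : X →ᵇ E) (x : X), A f x = S x (f x) := by
  have hbd : ∀ (f : X →ᵇ E) (x : X), ‖S x (f x)‖ ≤ C * ‖f‖ := fun f x =>
    ((S x).le_opNorm (f x)).trans (mul_le_mul (hb x) (f.norm_coe_le_norm x) (norm_nonneg _) hC)
  let L : (X →ᵇ E) →ₗ[ℂ] (X →ᵇ F) :=
    { toFun := fun f => BoundedContinuousFunction.ofNormedAddCommGroup (fun x => S x (f x))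
        (hS.clm_apply f.continuous) (C * ‖f‖) (hbd f)
      map_add' := by
        intro f g
        ext x
        simp
      map_smul' := by
        intro c f
        ext x
        simp }
  refine ⟨L.mkContinuous C fun f => ?_, LinearMap.mkContinuous_norm_le _ hC _, fun f x => rfl⟩
  rw [BoundedContinuousFunction.norm_le (mul_nonneg hC (norm_nonneg _))]
  exact hbd f

end FracScatC

end
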