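import Pool.Agent.Lib.MP_6e2ba5_an.Cx.UCont
import Pool.Agent.Lib.MP_6e2ba5_an.Cx.MulB
import Pool.Agent.Lib.MP_6e2ba5_an.Cx.SobApi

/-! # The family of Fourier densities of `z V`, analytic in `z`

Work in `𝓤 = Om N →ᵇ HS`, `𝓗 = Om N →ᵇ L1`, `X = Om N`. `M' = ρ M` bounds `z V` for `‖z‖ < ρ`.
Note `Tk s r (z V) = z • Tk s r V` (`mulL_const_mul`). The hypothesis `hT` for all `z`, `‖z‖ < ρ`
gives `‖Tk s r V (kx ξ)‖ ≤ 1/(2ρ)` in the limit.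
`e : 𝓤`, `e ξ = eH r ξ` (continuous, bounded by `‖oneB r‖`). `𝓣 : 𝓤 →L 𝓤`, multiplication by
`Tk s r V (kx ξ)` (`exists_mulB`, norm `≤ 1/(2ρ)`). For `‖z‖ < ρ`, `1 - z•𝓣` is invertible and
`u z = Ring.inverse (1 - z•𝓣) e` satisfies `(u z) ξ = UX s r (zV) ξ`, by uniqueness of the
solution of `(1 - z T_ξ) u = eH`. `z ↦ u z` is differentiable on the ball
(`DifferentiableWithinAt.inverse` as in `UeqA.lean`, `Ffun_diff`).
`H₁ : 𝓗`, `H₁ ξ = PL s r ξ (mulL V (eH r ξ))`: continuous (`PL_cont`, `eH_cont`), bounded by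
`PL_sob` with `2-2s-σ ≤ 0`. `Q : 𝓤 →L 𝓗`, multiplication by
`PL s r ξ ∘L mulL V ∘L Tk s r V (kx ξ)`, bounded by `C ‖ξ‖^(2-2s) M ‖ξ‖^(1-2s) M ≤ C'`
(`PL_norm`, `Kx_norm`). Then `h z = z • H₁ + z² • Q (u z)`, because
`mulL (zV) U = z mulL V (e + z T U)`. -/

set_option autoImplicit false

open MeasureTheory Filter Topology Set
open scoped FourierTransform SchwartzMap InnerProductSpace ENNReal BoundedContinuousFunction

noncomputable section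

namespace FracScatC

open FracScat

private theorem hf_Tk_smul {s r M : ℝ} {V : E3 → ℂ} (hV : IsPot r M V) (z k : ℂ) :
    Tk s r (fun x => z * V x) k = z • Tk s r V k := by
  unfold Tk
  rw [mulL_const_mul z hV.BM, ContinuousLinearMap.comp_smul]

private theorem hf_bound {ρ : ℝ} (hρ : 0 < ρ) {t : ℝ} (ht0 : 0 ≤ t)
    (h : ∀ z : ℂ, ‖z‖ < ρ → ‖z‖ * t ≤ 1 / 2) : t ≤ 1 / (2 * ρ) := by
  by_contra hlt
  push Not at hlt
  have h1 : 1 < t * (2 * ρ) := by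
    rwa [div_lt_iff₀ (by positivity)] at hlt
  have ht : 0 < t := by
    rcases ht0.lt_or_eq with h' | h'
    · exact h'
    · rw [← h'] at h1
      norm_num at h1
  set a : ℝ := (ρ + 1 / (2 * t)) / 2 with ha
  have ha0 : 0 ≤ a := by positivity
  have h3 : 1 / (2 * t) < ρ := by
    rw [div_lt_iff₀ (by positivity)]
    linarith
  have h2 : ‖(a : ℂ)‖ = a := by
    rw [Complex.norm_real, Real.norm_of_nonneg ha0]
  have h4 := h (a : ℂ) (by rw [h2, ha]; linarith)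
  rw [h2, ha] at h4
  have h5 : (ρ + 1 / (2 * t)) / 2 * t = (ρ * t + 1 / 2) / 2 := by
    field_simp
  rw [h5] at h4
  nlinarith

private theorem hf_ne {N : ℝ} (hN : 1 ≤ N) (ξ : Om N) : (ξ : E3) ≠ 0 := by
  intro h
  have h1 := ξ.2
  rw [h, norm_zero] at h1
  linarith

private theorem hf_pi {N : ℝ} (hN : 1 ≤ N) (ξ : Om N) : 1 ≤ 2 * Real.pi * ‖(ξ : E3)‖ := by
  have h1 : 1 ≤ ‖(ξ : E3)‖ := hN.trans ξ.2
  have h2 : (3 : ℝ) < Real.pi := Real.pi_gt_three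
  nlinarith

private theorem hf_TC {s : ℝ} (h0 : 3 / 4 < s) (h2 : s < 2) {r : ℝ} (hr : 0 ≤ r) {V : E3 → ℂ}
    {N : ℝ} (hN : 1 ≤ N) : Continuous fun ξ : Om N => Tk s r V (kx (ξ : E3)) := by
  have h1 : Continuous fun ξ : Om N => Kop s r (kx (ξ : E3)) := by
    have h3 := Kx_cont h0 h2 hr
    exact h3.comp_continuous continuous_subtype_val fun ξ => hf_ne hN ξ
  exact h1.clm_comp continuous_const

private theorem hf_PC {s : ℝ} (h0 : 3 / 4 < s) (h2 : s < 2) {r : ℝ} (hr : 0 ≤ r)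
    {N : ℝ} (hN : 1 ≤ N) : Continuous fun ξ : Om N => PL s r (ξ : E3) :=
  (PL_cont h0 h2 hr).comp_continuous continuous_subtype_val fun ξ => hN.trans ξ.2

theorem Hf_family {s : ℝ} (h0 : 3 / 4 < s) (h2 : s < 2) {r : ℝ} (hr : 0 < r) {σ : ℝ}
    (hσ0 : 0 ≤ σ) (hσ1 : σ < 1) (hσ : 2 - 2 * s ≤ σ) {M A : ℝ} (hA : 0 ≤ A) {V : E3 → ℂ}
    (hV : IsPot r M V) (hS : SobBd σ A V) {ρ : ℝ} (hρ : 0 < ρ) {N : ℝ} (hN : 1 ≤ N)
    (hT : ∀ z : ℂ, ‖z‖ < ρ → ∀ ξ : E3, N ≤ ‖ξ‖ → ‖Tk s r (fun x => z * V x) (kx ξ)‖ ≤ 1 / 2) :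
    ∃ h : ℂ → (Om N →ᵇ L1), (∀ z : ℂ, ‖z‖ < ρ → ∀ ξ : Om N,
      h z ξ = Hf s r (fun x => z * V x) (ξ : E3)) ∧ DifferentiableOn ℂ h (Metric.ball 0 ρ) := by
  have hr0 : 0 ≤ r := hr.le
  have hM : 0 ≤ M := hV.nonneg
  have hTb : ∀ ξ : Om N, ‖Tk s r V (kx (ξ : E3))‖ ≤ 1 / (2 * ρ) := by
    intro ξ
    refine hf_bound hρ (norm_nonneg _) fun z hz => ?_
    have h1 := hT z hz (ξ : E3) ξ.2
    rwa [hf_Tk_smul hV, norm_smul] at h1
  obtain ⟨𝓣, h𝓣, h𝓣a⟩ := exists_mulB (fun ξ : Om N => Tk s r V (kx (ξ : E3)))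
    (hf_TC h0 h2 hr0 hN) (by positivity) hTb
  have heC : Continuous fun ξ : Om N => eH r (ξ : E3) :=
    (eH_cont r).comp continuous_subtype_val
  set e : Om N →ᵇ HS := BoundedContinuousFunction.ofNormedAddCommGroup
    (fun ξ : Om N => eH r (ξ : E3)) heC ‖oneB r‖ (fun ξ => norm_eH_le r _) with he
  have hea : ∀ ξ : Om N, e ξ = eH r (ξ : E3) := fun ξ => rfl
  have hunit : ∀ z : ℂ, ‖z‖ < ρ → IsUnit (1 - z • 𝓣) := by
    intro z hz
    refine isUnit_one_sub_of_norm_lt_one ?_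
    rw [norm_smul]
    calc ‖z‖ * ‖𝓣‖ ≤ ‖z‖ * (1 / (2 * ρ)) := mul_le_mul_of_nonneg_left h𝓣 (norm_nonneg _)
      _ ≤ ρ * (1 / (2 * ρ)) := mul_le_mul_of_nonneg_right hz.le (by positivity)
      _ = 1 / 2 := by field_simp
      _ < 1 := by norm_num
  set u : ℂ → (Om N →ᵇ HS) := fun z => (Ring.inverse (1 - z • 𝓣)) e with hu
  have hueq : ∀ z : ℂ, ‖z‖ < ρ → ∀ ξ : Om N,
      u z ξ - z • Tk s r V (kx (ξ : E3)) (u z ξ) = eH r (ξ : E3) := by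
    intro z hz ξ
    have h1 := Ring.mul_inverse_cancel _ (hunit z hz)
    have h3 : (1 - z • 𝓣) (u z) = e :=
      congrArg (fun A : (Om N →ᵇ HS) →L[ℂ] (Om N →ᵇ HS) => A e) h1
    have h4 : u z - z • 𝓣 (u z) = e := h3
    have h5 := congrArg (fun f : Om N →ᵇ HS => f ξ) h4
    have h6 : u z ξ - z • (𝓣 (u z) ξ) = eH r (ξ : E3) := h5
    rwa [h𝓣a] at h6
  have huU : ∀ z : ℂ, ‖z‖ < ρ → ∀ ξ : Om N, u z ξ = UX s r (fun x => z * V x) (ξ : E3) := by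
    intro z hz ξ
    have hun : IsUnit (1 - Tk s r (fun x => z * V x) (kx (ξ : E3))) :=
      isUnit_one_sub_of_norm_lt_one (lt_of_le_of_lt (hT z hz (ξ : E3) ξ.2) (by norm_num))
    have h1 := Ring.inverse_mul_cancel _ hun
    have h3 : (1 - Tk s r (fun x => z * V x) (kx (ξ : E3))) (u z ξ) = eH r (ξ : E3) := by
      rw [← hueq z hz ξ, hf_Tk_smul hV]
      rfl
    rw [UX, ← h3]
    have h4 := congrArg (fun A : HS →L[ℂ] HS => A (u z ξ)) h1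
    exact h4.symm
  have hudiff : DifferentiableOn ℂ u (Metric.ball 0 ρ) := by
    intro z hz
    have hz' : ‖z‖ < ρ := by rwa [mem_ball_zero_iff] at hz
    have h1 : DifferentiableWithinAt ℂ
        (fun z : ℂ => (1 : (Om N →ᵇ HS) →L[ℂ] (Om N →ᵇ HS)) - z • 𝓣) (Metric.ball 0 ρ) z :=
      (differentiableWithinAt_const _).sub (differentiableWithinAt_id.smul_const 𝓣)
    have h3 := h1.inverse (hunit z hz')
    exact h3.clm_apply (differentiableWithinAt_const _)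
  obtain ⟨C1, hC1, hP⟩ := PL_norm h0 h2 hr0
  obtain ⟨C2, hC2, hPs⟩ := PL_sob h0 h2 hr0 hσ0 hσ1
  obtain ⟨C3, hC3, hK⟩ := Kx_norm h0 h2 hr0
  have hPC := hf_PC (N := N) h0 h2 hr0 hN
  have hH1 : Continuous fun ξ : Om N => PL s r (ξ : E3) (mulL V (eH r (ξ : E3))) :=
    hPC.clm_apply ((mulL V).continuous.comp heC)
  have hpow : ∀ (ξ : Om N) (b : ℝ), b ≤ 0 → ‖(ξ : E3)‖ ^ b ≤ 1 := fun ξ b hb =>
    Real.rpow_le_one_of_one_le_of_nonpos (hN.trans ξ.2) hb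
  have hH1b : ∀ ξ : Om N, ‖PL s r (ξ : E3) (mulL V (eH r (ξ : E3)))‖ ≤ C2 * A := by
    intro ξ
    refine (hPs A M V hA hV hS (ξ : E3) (hf_pi hN ξ)).trans ?_
    have h1 := hpow ξ (2 - 2 * s - σ) (by linarith)
    calc C2 * ‖(ξ : E3)‖ ^ (2 - 2 * s - σ) * A ≤ C2 * 1 * A :=
          mul_le_mul_of_nonneg_right (mul_le_mul_of_nonneg_left h1 hC2) hA
      _ = C2 * A := by ring
  set H1 : Om N →ᵇ L1 := BoundedContinuousFunction.ofNormedAddCommGroup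
    (fun ξ : Om N => PL s r (ξ : E3) (mulL V (eH r (ξ : E3)))) hH1 (C2 * A) hH1b with hH1d
  have hQb : ∀ ξ : Om N, ‖PL s r (ξ : E3) ∘L (mulL V ∘L Tk s r V (kx (ξ : E3)))‖ ≤
      C1 * (M * (C3 * M)) := by
    intro ξ
    have hξ1 : 1 ≤ ‖(ξ : E3)‖ := hN.trans ξ.2
    have hξ0 : 0 < ‖(ξ : E3)‖ := by linarith
    have a1 : ‖PL s r (ξ : E3)‖ ≤ C1 * ‖(ξ : E3)‖ ^ (2 - 2 * s) :=
      ContinuousLinearMap.opNorm_le_bound _ (by positivity) (hP (ξ : E3) (hf_pi hN ξ))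
    have a2 : ‖mulL V‖ ≤ M := hV.norm_mulL hM
    have a3 : ‖Tk s r V (kx (ξ : E3))‖ ≤ C3 * ‖(ξ : E3)‖ ^ (1 - 2 * s) * M :=
      (ContinuousLinearMap.opNorm_comp_le _ _).trans
        (mul_le_mul (hK _ hξ1) a2 (norm_nonneg _) (by positivity))
    have a4 : ‖mulL V ∘L Tk s r V (kx (ξ : E3))‖ ≤ M * (C3 * ‖(ξ : E3)‖ ^ (1 - 2 * s) * M) :=
      (ContinuousLinearMap.opNorm_comp_le _ _).trans (mul_le_mul a2 a3 (norm_nonneg _) hM)
    refine (ContinuousLinearMap.opNorm_comp_le _ _).trans ?_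
    refine (mul_le_mul a1 a4 (norm_nonneg _) (by positivity)).trans ?_
    have a5 : C1 * ‖(ξ : E3)‖ ^ (2 - 2 * s) * (M * (C3 * ‖(ξ : E3)‖ ^ (1 - 2 * s) * M)) =
        C1 * (M * (C3 * M)) * (‖(ξ : E3)‖ ^ (2 - 2 * s) * ‖(ξ : E3)‖ ^ (1 - 2 * s)) := by ring
    rw [a5, ← Real.rpow_add hξ0]
    have a6 := hpow ξ (2 - 2 * s + (1 - 2 * s)) (by linarith)
    calc C1 * (M * (C3 * M)) * ‖(ξ : E3)‖ ^ (2 - 2 * s + (1 - 2 * s)) ≤
        C1 * (M * (C3 * M)) * 1 := mul_le_mul_of_nonneg_left a6 (by positivity)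
      _ = C1 * (M * (C3 * M)) := mul_one _
  obtain ⟨Q, -, hQa⟩ := exists_mulB
    (fun ξ : Om N => PL s r (ξ : E3) ∘L (mulL V ∘L Tk s r V (kx (ξ : E3))))
    (hPC.clm_comp (continuous_const.clm_comp (hf_TC h0 h2 hr0 hN))) (by positivity) hQb
  refine ⟨fun z => z • H1 + z ^ 2 • Q (u z), ?_, ?_⟩
  · intro z hz ξ
    have h1 : (z • H1 + z ^ 2 • Q (u z)) ξ = z • H1 ξ + z ^ 2 • (Q (u z) ξ) := rfl
    have h3 : H1 ξ = PL s r (ξ : E3) (mulL V (eH r (ξ : E3))) := rfl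
    have h4 : Q (u z) ξ = PL s r (ξ : E3) (mulL V (Tk s r V (kx (ξ : E3)) (u z ξ))) := by
      rw [hQa]
      rfl
    change (z • H1 + z ^ 2 • Q (u z)) ξ = _
    rw [h1, h3, h4, Hf, ← huU z hz ξ, mulL_const_mul z hV.BM]
    have h5 : (z • mulL V) (u z ξ) = z • mulL V (u z ξ) := rfl
    have h6 : u z ξ = eH r (ξ : E3) + z • Tk s r V (kx (ξ : E3)) (u z ξ) := by
      rw [← hueq z hz ξ]
      abel
    have h7 : mulL V (u z ξ) = mulL V (eH r (ξ : E3)) +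
        z • mulL V (Tk s r V (kx (ξ : E3)) (u z ξ)) := by
      have h8 := congrArg (fun f => mulL V f) h6
      have h9 : mulL V (eH r (ξ : E3) + z • Tk s r V (kx (ξ : E3)) (u z ξ)) =
          mulL V (eH r (ξ : E3)) + z • mulL V (Tk s r V (kx (ξ : E3)) (u z ξ)) := by
        rw [map_add, map_smul]
      exact h8.trans h9
    rw [h5, h7, smul_add, smul_smul, map_add, map_smul, map_smul, pow_two]
  · exact (differentiableOn_id.smul_const H1).add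
      ((differentiableOn_id.pow 2).smul (Q.differentiable.comp_differentiableOn hudiff))

end FracScatC

end
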