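import Pool.Agent.Lib.MP_6e2ba5_an.Cx.PWu
import Pool.Agent.Lib.MP_6e2ba5_an.Cx.OpR
import Pool.Agent.Lib.MP_6e2ba5_an.Conv

/-! # Injectivity of `1 - 𝒦`

`F η = (1 - psi N η) ∫ 𝓕χ(ζ) F(η-ζ) dζ` vanishes for `‖η‖ ≥ 2N+1` (there `psi = 1`), so `F` is
continuous with compact support; let `f ∈ HS` be its class, `f ∈ HB (2N+1)`, integrable, and let
`q = 𝓕 χ` (Schwartz, integrable). The integral is `cv q F η` up to the substitution
`ζ → η - ζ` (`cv q f x = ∫ f y * q (x-y) dy`), and `multL_conv` says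
`multL (𝓕 q) f = cv q f` a.e., where `𝓕 q = 𝓕 (𝓕 χ) = χ ∘ neg` (Fourier inversion). So
`‖f‖ ≤ ‖multL (χ ∘ neg) f‖ = ‖mulL (χ ∘ neg) (FT f)‖ ≤ ‖FT f‖ = ‖f‖`, hence
`∫ (1 - |χ(-x)|²) |FT f x|² dx = 0` and `FT f = 0` a.e. on `{χ(-x) = 0} ⊇ {‖x‖ ≥ r+1}`.
`pw_unique` gives `f = 0`, so `F = 0` a.e., and everywhere by continuity. -/

set_option autoImplicit false

open MeasureTheory Filter Topology Set
open scoped FourierTransform SchwartzMap InnerProductSpace ENNReal BoundedContinuousFunction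

noncomputable section

namespace FracScatC

open FracScat

private theorem InjK_psi {N : ℝ} {η : E3} (h : 2 * N + 1 ≤ ‖η‖) : psi N η = 1 := by
  unfold psi
  rw [max_eq_right (by linarith), min_eq_left (by linarith), Complex.ofReal_one]

private theorem InjK_one_sub (N : ℝ) (η : E3) : ‖(1 : ℂ) - psi N η‖ ≤ 1 := by
  unfold psi
  have h : (1 : ℂ) - ((min 1 (max 0 (‖η‖ - 2 * N)) : ℝ) : ℂ) =
      ((1 - min 1 (max 0 (‖η‖ - 2 * N)) : ℝ) : ℂ) := by push_cast; ring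
  rw [h, Complex.norm_real, Real.norm_eq_abs, abs_le]
  have h1 : min 1 (max 0 (‖η‖ - 2 * N)) ≤ 1 := min_le_left _ _
  have h2 : 0 ≤ min 1 (max 0 (‖η‖ - 2 * N)) := le_min zero_le_one (le_max_left _ _)
  constructor <;> linarith

private theorem InjK_norm (g : HS) {m : E3 → ℂ} (hm : BM m) (hm1 : ∀ x, ‖m x‖ ≤ 1) {R : ℝ}
    (hm0 : ∀ x, R ≤ ‖x‖ → m x = 0) (h : ‖g‖ ≤ ‖mulL m g‖) :
    ∀ᵐ x ∂(volume : Measure E3), R ≤ ‖x‖ → (g : E3 → ℂ) x = 0 := by
  set u : HS := mulL (indB R) g with hu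
  set v : HS := g - u with hv
  have hue := mulL_coe (indB_BM R) g
  have hve : (v : E3 → ℂ) =ᵐ[volume] fun x => g x - u x := by
    filter_upwards [Lp.coeFn_sub g u] with x hx
    rw [hv, hx, Pi.sub_apply]
  have hmu : mulL m g = mulL m u := by
    rw [hu, mulL_mulL hm (indB_BM R)]
    congr 2
    funext x
    rw [indB]
    split_ifs with hx
    · rw [mul_one]
    · rw [hm0 x (not_lt.1 hx), zero_mul]
  have h1 : ‖g‖ ≤ ‖u‖ := by
    have h2 := norm_mulL_le hm zero_le_one (Eventually.of_forall hm1)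
    calc ‖g‖ ≤ ‖mulL m g‖ := h
      _ = ‖mulL m u‖ := by rw [hmu]
      _ ≤ ‖mulL m‖ * ‖u‖ := (mulL m).le_opNorm u
      _ ≤ 1 * ‖u‖ := mul_le_mul_of_nonneg_right h2 (norm_nonneg _)
      _ = ‖u‖ := one_mul _
  have horth : ⟪u, v⟫_ℂ = 0 := by
    rw [L2.inner_def]
    have h3 : (fun x => ⟪(u : E3 → ℂ) x, (v : E3 → ℂ) x⟫_ℂ) =ᵐ[volume] fun _ => (0 : ℂ) := by
      filter_upwards [hue, hve] with x hx1 hx2
      rw [hx2, hu, hx1, indB]
      split_ifs with hx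
      · simp
      · simp
    rw [integral_congr_ae h3, integral_zero]
  have hpyth := norm_add_sq_eq_norm_sq_add_norm_sq_of_inner_eq_zero u v horth
  have huv : u + v = g := by rw [hv]; abel
  rw [huv] at hpyth
  have hv0 : ‖v‖ = 0 := by
    have h4 : 0 ≤ ‖v‖ := norm_nonneg v
    have h5 : 0 ≤ ‖g‖ := norm_nonneg g
    have h6 : 0 ≤ ‖u‖ := norm_nonneg u
    nlinarith
  have hvz : v = 0 := norm_eq_zero.1 hv0
  have hgu : g = u := by rw [← huv, hvz, add_zero]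
  filter_upwards [hue] with x hx hxR
  rw [hgu, hu, hx, indB, if_neg (not_lt.2 hxR), zero_mul]

theorem lowK_inj {N r : ℝ} (hN : 0 ≤ N) {χ : 𝓢(E3, ℂ)} (hχ1 : ∀ x, ‖χ x‖ ≤ 1)
    (hχ0 : ∀ x, r + 1 ≤ ‖x‖ → χ x = 0) {F : XB}
    (hF : ∀ η : E3, F η = (1 - psi N η) * ∫ ζ, (𝓕 (χ : E3 → ℂ)) ζ * F (η - ζ)) : F = 0 := by
  have _ := hN
  set q : E3 → ℂ := 𝓕 (χ : E3 → ℂ) with hq
  have hqS : q = ((𝓕 χ : 𝓢(E3, ℂ)) : E3 → ℂ) := by rw [hq, SchwartzMap.fourier_coe]
  have hqi : Integrable q := by rw [hqS]; exact (𝓕 χ : 𝓢(E3, ℂ)).integrable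
  have hqq : ∀ x, 𝓕 q x = χ (-x) := by
    intro x
    have h1 : 𝓕⁻ q (-x) = χ (-x) := by
      have h2 := χ.continuous.fourierInv_fourier_eq χ.integrable (by rw [← hq]; exact hqi)
      rw [← hq] at h2
      exact congrFun h2 (-x)
    have h3 : 𝓕⁻ q (-x) = 𝓕 q x := by
      rw [Real.fourierInv_eq_fourier_neg, neg_neg]
    rw [← h3, h1]
  have hF0 : ∀ η, 2 * N + 1 ≤ ‖η‖ → F η = 0 := by
    intro η hη
    rw [hF η, InjK_psi hη, sub_self, zero_mul]
  have hcs : HasCompactSupport (F : E3 → ℂ) := by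
    apply HasCompactSupport.intro (isCompact_closedBall (0 : E3) (2 * N + 1))
    intro x hx
    apply hF0
    rw [Metric.mem_closedBall, dist_zero_right] at hx
    linarith
  have hmem : MemLp (F : E3 → ℂ) 2 volume := F.continuous.memLp_of_hasCompactSupport hcs
  set f : HS := hmem.toLp _ with hf
  have hfF : (f : E3 → ℂ) =ᵐ[volume] F := hmem.coeFn_toLp
  have hfi : Integrable (f : E3 → ℂ) :=
    (F.continuous.integrable_of_hasCompactSupport hcs).congr hfF.symm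
  have hfB : f ∈ HB (2 * N + 1) := by
    apply mem_HB.2
    apply Lp.ext
    filter_upwards [mulL_coe (indB_BM (2 * N + 1)) f, hfF] with x h1 h2
    rw [h1, indB]
    split_ifs with hx
    · rw [one_mul]
    · rw [zero_mul, h2, hF0 x (not_lt.1 hx)]
  have hcv : ∀ η : E3, F η = (1 - psi N η) * cv q f η := by
    intro η
    rw [hF η]
    congr 1
    unfold cv
    have h1 : ∫ y, (f : E3 → ℂ) y * q (η - y) = ∫ y, (F : E3 → ℂ) y * q (η - y) := by
      apply integral_congr_ae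
      filter_upwards [hfF] with y hy
      rw [hy]
    rw [h1, ← integral_sub_left_eq_self (fun y => (F : E3 → ℂ) y * q (η - y)) volume η]
    apply integral_congr_ae
    filter_upwards with y
    simp only [sub_sub_cancel]
    ring
  have hBM : BM (𝓕 q) := BM_fourier hqi
  have hm1 : ∀ x, ‖𝓕 q x‖ ≤ 1 := fun x => by rw [hqq]; exact hχ1 _
  have hle : ‖FT f‖ ≤ ‖mulL (𝓕 q) (FT f)‖ := by
    rw [LinearIsometryEquiv.norm_map]
    have h1 : ‖mulL (𝓕 q) (FT f)‖ = ‖multL (𝓕 q) f‖ := by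
      rw [multL_apply, LinearIsometryEquiv.norm_map]
    rw [h1]
    apply Lp.norm_le_norm_of_ae_le
    filter_upwards [multL_conv hqi f hfi, hfF] with x h2 h3
    rw [h2, h3, hcv x, norm_mul]
    calc ‖1 - psi N x‖ * ‖cv q f x‖ ≤ 1 * ‖cv q f x‖ :=
          mul_le_mul_of_nonneg_right (InjK_one_sub N x) (norm_nonneg _)
      _ = ‖cv q f x‖ := one_mul _
  have hz := InjK_norm (FT f) hBM hm1 (R := r + 1) (fun x hx => by
    rw [hqq]; exact hχ0 _ (by rwa [norm_neg])) hle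
  have hf0 : f = 0 := pw_unique hfB (ρ' := r + 1) (by
    filter_upwards [hz] with x hx hx2 using hx hx2.le)
  have hFae : (F : E3 → ℂ) =ᵐ[volume] fun _ => (0 : ℂ) := by
    have h1 : ((0 : HS) : E3 → ℂ) =ᵐ[volume] fun _ => (0 : ℂ) := Lp.coeFn_zero _ _ _
    rw [hf0] at hfF
    exact hfF.symm.trans h1
  have h2 := (F.continuous.ae_eq_iff_eq volume continuous_const).1 hFae
  ext x
  exact congrFun h2 x

end FracScatC

end
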