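import Pool.Agent.Lib.MP_6e2ba5_an.Cx.FinalB
import Pool.Agent.Lib.MP_6e2ba5_an.Cx.HfFam
import Pool.Agent.Lib.MP_6e2ba5_an.Cx.CompK
import Pool.Agent.Lib.MP_6e2ba5_an.Cx.InjK
import Pool.Agent.Lib.MP_6e2ba5_an.Cx.Fred

/-! # Theorem C: generic pairs of potentials

Reduction to `0 ≤ σ' < 1`, `2-2s < σ'` as in `FinalB`. Let `ρ = T₀ + 1`, `T₀ = max T 0`,
`M' = ρ M + 1` and `A' = ρ A + 1` (or `(ρ M + 1)‖oneB r‖` for `s > 1`). Choose `N ≥ 1` such that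
`‖Tk s r V (kx ξ)‖ ≤ 1/2` (`exists_N`, `kx_mem_Reg`) and `‖Hf s r V ξ‖ ≤ 1/8` (`Hf_bound`) for all
`V` with `IsPot r M' V`, `SobBd σ' A' V`, `‖ξ‖ ≥ N`. `Hf_family` gives `h₁ z`, `h₂ z` for `V₁`,
`V₂`; `R z = 𝓛 (h₁ z) + 𝓛 (h₂ z) + 𝓑 (h₁ z) (h₂ z)`, differentiable, `‖R z‖ ≤ 1/2`, and `R 0 = 0`
(`Hf s r 0 = 0`). `𝒦` from `exists_lowK N χ`, `lowK_inj`; `fredholm` gives `S`.
For `t ∉ S`, `‖t‖ ≤ T`, with constant `c`, let `C` be the constant of `Hf_lip`, and `V₁', V₂'` in the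
`δ`-neighbourhood, `W = dH r (V₁'-V₂')`, `F = ftX W`, `𝒟(ξ) = A3 W u₁' u₂'` for `‖ξ‖ ≥ N`. For
`η = -2ξ`, `‖ξ‖ ≥ N`: by `A3_expand`, `conv_ftX`,
`(F + R t F - 𝒦 F)(η) = psi N η (𝒟(ξ) + lam ξ (H₁-H₁') F + lam ξ (H₂-H₂') F
  + bet H₁ H₂ F - bet H₁' H₂' F)`, where `H_j = h_j t ξ`, `H_j' = Hf s r V_j' ξ`, of norm at most
`sup‖𝒟‖ + C' δ ‖F‖`; for `‖η‖ ≤ 2N` the left side is `0`. So `(c - C'δ)‖F‖ ≤ sup‖𝒟‖`; take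
`C'δ ≤ c/2`. Then (i) and (ii) as in `FinalB`. -/

set_option autoImplicit false

open MeasureTheory Filter Topology Set
open scoped FourierTransform SchwartzMap InnerProductSpace ENNReal BoundedContinuousFunction

noncomputable section

namespace FracScatC

open FracScat

private lemma FC_core {s : ℝ} (h0 : 3 / 4 < s) (h2 : s < 2) {r M N : ℝ} (hr : 0 < r) (hN : 1 ≤ N)
    {V₁ V₂ : E3 → ℂ} (hV₁ : IsPot r M V₁) (hV₂ : IsPot r M V₂)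
    (hT₁ : ∀ ξ : E3, N ≤ ‖ξ‖ → ‖Tk s r V₁ (kx ξ)‖ ≤ 1 / 2)
    (hT₂ : ∀ ξ : E3, N ≤ ‖ξ‖ → ‖Tk s r V₂ (kx ξ)‖ ≤ 1 / 2)
    {W : HS} (hW : W ∈ HB r) {χ : 𝓢(E3, ℂ)} (hχ : ∀ x, ‖x‖ ≤ r → χ x = 1)
    {𝒦 Rt : XB →L[ℂ] XB}
    (hK : ∀ (F : XB) (η : E3), 𝒦 F η = (1 - psi N η) * ∫ ζ, (𝓕 (χ : E3 → ℂ)) ζ * F (η - ζ))
    {H₁ H₂ : E3 → L1}
    (hR1 : ∀ (F : XB) (ξ : E3), N ≤ ‖ξ‖ → Rt F (-(2 : ℝ) • ξ) = psi N (-(2 : ℝ) • ξ) *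
      (lam ξ (H₁ ξ) F + lam ξ (H₂ ξ) F + bet (H₁ ξ) (H₂ ξ) F))
    (hR2 : ∀ (F : XB) (η : E3), ‖η‖ ≤ 2 * N → Rt F η = 0)
    (hH₁ : ∀ ξ : E3, N ≤ ‖ξ‖ → ‖H₁ ξ‖ ≤ 1 / 8) (hH₂ : ∀ ξ : E3, N ≤ ‖ξ‖ → ‖H₂ ξ‖ ≤ 1 / 8)
    {b : ℝ} (hb0 : 0 ≤ b) (hb : b ≤ 1 / 2)
    (hd₁ : ∀ ξ : E3, N ≤ ‖ξ‖ → ‖Hf s r V₁ ξ - H₁ ξ‖ ≤ b)
    (hd₂ : ∀ ξ : E3, N ≤ ‖ξ‖ → ‖Hf s r V₂ ξ - H₂ ξ‖ ≤ b) {ε : ℝ}
    (hD : ∀ ξ : E3, N ≤ ‖ξ‖ → ‖A3 W (UX s r V₁ ξ) (UX s r V₂ ξ)‖ ≤ ε) :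
    ‖ftX W + Rt (ftX W) - 𝒦 (ftX W)‖ ≤ ε + 4 * b * ‖ftX W‖ := by
  have hF0 := norm_nonneg (ftX W)
  have hε : 0 ≤ ε := by
    have hξ0 : N ≤ ‖(EuclideanSpace.single (0 : Fin 3) N : E3)‖ := by
      rw [PiLp.norm_single, Real.norm_of_nonneg (by linarith)]
    exact (norm_nonneg _).trans (hD _ hξ0)
  rw [BoundedContinuousFunction.norm_le (by positivity)]
  intro η
  have hev : (ftX W + Rt (ftX W) - 𝒦 (ftX W)) η = ftX W η + Rt (ftX W) η - 𝒦 (ftX W) η := rfl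
  have hKη : 𝒦 (ftX W) η = (1 - psi N η) * ftX W η := by rw [hK, conv_ftX hχ hW]
  rw [hev, hKη]
  rcases le_or_gt (‖η‖) (2 * N) with hη | hη
  · rw [hR2 _ _ hη, psi_eq_zero hη]
    have : ftX W η + 0 - (1 - 0) * ftX W η = 0 := by ring
    rw [this, norm_zero]
    positivity
  · set ξ : E3 := -(1 / 2 : ℝ) • η with hξdef
    have hnξ : ‖ξ‖ = ‖η‖ / 2 := by
      rw [hξdef, norm_smul, norm_neg, Real.norm_of_nonneg (by norm_num : (0 : ℝ) ≤ 1 / 2)]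
      ring
    have hξN : N ≤ ‖ξ‖ := by rw [hnξ]; linarith
    have hη2 : -(2 : ℝ) • ξ = η := by
      rw [hξdef, smul_smul]
      norm_num
    have hx := A3_expand h0 h2 hr.le (by linarith [FB_kx hN hξN]) hW hV₁ hV₂ (hT₁ ξ hξN)
      (hT₂ ξ hξN)
    have hRη := hR1 (ftX W) ξ hξN
    rw [hη2] at hx hRη
    set F := ftX W with hF
    set G₁ := Hf s r V₁ ξ with hG₁
    set G₂ := Hf s r V₂ ξ with hG₂
    have l1 : lam ξ G₁ F = lam ξ (G₁ - H₁ ξ) F + lam ξ (H₁ ξ) F := by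
      rw [← lam_add_left, sub_add_cancel]
    have l2 : lam ξ G₂ F = lam ξ (G₂ - H₂ ξ) F + lam ξ (H₂ ξ) F := by
      rw [← lam_add_left, sub_add_cancel]
    have l3 : bet G₁ G₂ F = bet G₁ (G₂ - H₂ ξ) F + bet (G₁ - H₁ ξ) (H₂ ξ) F +
        bet (H₁ ξ) (H₂ ξ) F := by
      have e1 : bet G₁ G₂ F = bet G₁ (G₂ - H₂ ξ) F + bet G₁ (H₂ ξ) F := by
        rw [← bet_add_mid, sub_add_cancel]
      have e2 : bet G₁ (H₂ ξ) F = bet (G₁ - H₁ ξ) (H₂ ξ) F + bet (H₁ ξ) (H₂ ξ) F := by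
        rw [← bet_add_left, sub_add_cancel]
      rw [e1, e2]; ring
    have hval : F η + Rt F η - (1 - psi N η) * F η =
        psi N η * (A3 W (UX s r V₁ ξ) (UX s r V₂ ξ) - lam ξ (G₁ - H₁ ξ) F -
          lam ξ (G₂ - H₂ ξ) F - bet G₁ (G₂ - H₂ ξ) F - bet (G₁ - H₁ ξ) (H₂ ξ) F) := by
      rw [hRη, hx, l1, l2, l3]
      ring
    have hG1n : ‖G₁‖ ≤ 1 := by
      have : ‖G₁‖ ≤ ‖G₁ - H₁ ξ‖ + ‖H₁ ξ‖ := by
        have := norm_add_le (G₁ - H₁ ξ) (H₁ ξ)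
        rwa [sub_add_cancel] at this
      have h5 := hd₁ ξ hξN
      have h6 := hH₁ ξ hξN
      linarith
    have n1 : ‖lam ξ (G₁ - H₁ ξ) F‖ ≤ b * ‖F‖ :=
      (norm_lam_le _ _ _).trans (mul_le_mul_of_nonneg_right (hd₁ ξ hξN) hF0)
    have n2 : ‖lam ξ (G₂ - H₂ ξ) F‖ ≤ b * ‖F‖ :=
      (norm_lam_le _ _ _).trans (mul_le_mul_of_nonneg_right (hd₂ ξ hξN) hF0)
    have n3 : ‖bet G₁ (G₂ - H₂ ξ) F‖ ≤ b * ‖F‖ := by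
      refine (norm_bet_le _ _ _).trans (mul_le_mul_of_nonneg_right ?_ hF0)
      calc ‖G₁‖ * ‖G₂ - H₂ ξ‖ ≤ 1 * b := mul_le_mul hG1n (hd₂ ξ hξN) (norm_nonneg _) zero_le_one
        _ = b := one_mul b
    have n4 : ‖bet (G₁ - H₁ ξ) (H₂ ξ) F‖ ≤ b * ‖F‖ := by
      refine (norm_bet_le _ _ _).trans (mul_le_mul_of_nonneg_right ?_ hF0)
      calc ‖G₁ - H₁ ξ‖ * ‖H₂ ξ‖ ≤ b * (1 / 8) :=
            mul_le_mul (hd₁ ξ hξN) (hH₂ ξ hξN) (norm_nonneg _) hb0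
        _ ≤ b := by linarith
    rw [hval, norm_mul]
    have n5 : ‖A3 W (UX s r V₁ ξ) (UX s r V₂ ξ) - lam ξ (G₁ - H₁ ξ) F -
          lam ξ (G₂ - H₂ ξ) F - bet G₁ (G₂ - H₂ ξ) F - bet (G₁ - H₁ ξ) (H₂ ξ) F‖ ≤
          ε + b * ‖F‖ + b * ‖F‖ + b * ‖F‖ + b * ‖F‖ := by
      refine (norm_sub_le _ _).trans (add_le_add ?_ n4)
      refine (norm_sub_le _ _).trans (add_le_add ?_ n3)
      refine (norm_sub_le _ _).trans (add_le_add ?_ n2)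
      exact (norm_sub_le _ _).trans (add_le_add (hD ξ hξN) n1)
    calc ‖psi N η‖ * _ ≤ 1 * (ε + b * ‖F‖ + b * ‖F‖ + b * ‖F‖ + b * ‖F‖) :=
          mul_le_mul (norm_psi_le N η) n5 (norm_nonneg _) zero_le_one
      _ = ε + 4 * b * ‖F‖ := by ring

private lemma FC_zero {s r M : ℝ} {V : E3 → ℂ} (hV : IsPot r M V) (ξ : E3) :
    Hf s r (fun x => (0 : ℂ) * V x) ξ = 0 := by
  rw [Hf, mulL_const_mul 0 hV.BM, zero_smul, _root_.zero_apply, map_zero]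

theorem final_C {s σ r M A : ℝ} (h0 : 3 / 4 < s) (h2 : s < 2) (h1 : s ≠ 1)
    (hσ : 2 - 2 * s < σ) (hr : 0 < r) {V₁ V₂ : E3 → ℂ} (hV₁ : IsPot r M V₁) (hV₂ : IsPot r M V₂)
    (hS : s < 1 → SobBd σ A V₁ ∧ SobBd σ A V₂) (T : ℝ) :
    ∃ S : Set ℂ, S.Finite ∧ (0 : ℂ) ∉ S ∧ ∀ t : ℂ, ‖t‖ ≤ T → t ∉ S →
      ∃ δ K C : ℝ, 0 < δ ∧ 1 ≤ K ∧ ∀ V₁' V₂' : E3 → ℂ,
        IsPot r δ (fun x => V₁' x - t * V₁ x) → IsPot r δ (fun x => V₂' x - t * V₂ x) →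
        (s < 1 → SobBd σ δ (fun x => V₁' x - t * V₁ x) ∧ SobBd σ δ (fun x => V₂' x - t * V₂ x)) →
        (∀ a b : ℝ, K ≤ a → a < b →
          (∀ k ∈ Ioo a b, ∀ θ : E3, ‖θ‖ = 1 → SameBackScattering s k V₁' V₂' θ) →
          V₁' =ᵐ[volume] V₂') ∧
        ∀ ε : ℝ, (∀ k : ℝ, K ≤ k → ∀ θ : E3, ‖θ‖ = 1 → BackDist s k V₁' V₂' θ ε) →
          ∀ η : E3, ‖𝓕 V₁' η - 𝓕 V₂' η‖ ≤ C * ε := by
  obtain ⟨σ', κ, hσ0, hσ1, hσ2, hκ, hred⟩ := FB_red (r := r) h0 h1 hσ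
  have hM := hV₁.nonneg
  set ρ : ℝ := max T 0 + 1 with hρdef
  have hρ : 0 < ρ := by
    have := le_max_right T 0
    linarith
  have hTρ : T < ρ := by
    have := le_max_left T 0
    linarith
  set M' : ℝ := ρ * M + 1 with hM'
  set A' : ℝ := κ * (ρ * M + ρ * |A|) with hA'
  obtain ⟨N₀, hN₀, hT₀⟩ := exists_N h0 h2 hr M'
  have hT0 : ∀ V : E3 → ℂ, IsPot r M' V → ∀ ξ : E3, N₀ ≤ ‖ξ‖ → ‖Tk s r V (kx ξ)‖ ≤ 1 / 2 :=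
    fun V hV ξ hξ => hT₀ V hV _ (kx_mem_Reg hξ)
  obtain ⟨C₁, hC₁, hHf⟩ := Hf_bound h0 h2 hr hσ0 hσ1 M' A' hN₀ hT0
  obtain ⟨C₂, hC₂, hlip⟩ := Hf_lip h0 h2 hr hσ0 hσ1 hσ2.le M' hN₀ hT0
  obtain ⟨N₁, hN₁, hsm⟩ := FB_small (C := C₁) (b := min (σ' - (2 - 2 * s)) (4 * s - 3))
    (lt_min (by linarith) (by linarith)) (by norm_num : (0 : ℝ) < 1 / 8) hC₁
  set N : ℝ := max N₀ N₁ with hNdef
  have hN : 1 ≤ N := hN₀.trans (le_max_left _ _)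
  have hTN : ∀ V : E3 → ℂ, IsPot r M' V → ∀ ξ : E3, N ≤ ‖ξ‖ → ‖Tk s r V (kx ξ)‖ ≤ 1 / 2 :=
    fun V hV ξ hξ => hT0 V hV ξ ((le_max_left _ _).trans hξ)
  have hpot : ∀ (z : ℂ) (V : E3 → ℂ), ‖z‖ < ρ → IsPot r M V → IsPot r M' (fun x => z * V x) := by
    intro z V hz hV
    refine (hV.smul z).mono ?_
    nlinarith [mul_le_mul_of_nonneg_right hz.le hM]
  have hsob : ∀ (z : ℂ) (V : E3 → ℂ), ‖z‖ < ρ → IsPot r M V → (s < 1 → SobBd σ A V) →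
      SobBd σ' A' (fun x => z * V x) := by
    intro z V hz hV hSV
    refine (hred (‖z‖ * M) (‖z‖ * A) _ (hV.smul z) (fun h => (hSV h).smul z)).mono ?_ ?_
    · have := abs_nonneg (‖z‖ * A)
      have := mul_nonneg (norm_nonneg z) hM
      positivity
    · rw [hA', abs_mul, abs_norm]
      refine mul_le_mul_of_nonneg_left ?_ hκ
      exact add_le_add (mul_le_mul_of_nonneg_right hz.le hM)
        (mul_le_mul_of_nonneg_right hz.le (abs_nonneg _))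
  have hHN : ∀ (z : ℂ) (V : E3 → ℂ), ‖z‖ < ρ → IsPot r M V → (s < 1 → SobBd σ A V) →
      ∀ ξ : E3, N ≤ ‖ξ‖ → ‖Hf s r (fun x => z * V x) ξ‖ ≤ 1 / 8 :=
    fun z V hz hV hSV ξ hξ => (hHf _ (hpot z V hz hV) (hsob z V hz hV hSV) ξ
      ((le_max_left _ _).trans hξ)).trans (hsm _ ((le_max_right _ _).trans hξ))
  have hA0 : 0 ≤ κ * (M + |A|) := by
    have := abs_nonneg A
    positivity
  obtain ⟨f₁, hf₁, hfd₁⟩ := Hf_family h0 h2 hr hσ0 hσ1 hσ2.le hA0 hV₁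
    (hred M A V₁ hV₁ (fun h => (hS h).1)) hρ hN
    (fun z hz ξ hξ => hTN _ (hpot z V₁ hz hV₁) ξ hξ)
  obtain ⟨f₂, hf₂, hfd₂⟩ := Hf_family h0 h2 hr hσ0 hσ1 hσ2.le hA0 hV₂
    (hred M A V₂ hV₂ (fun h => (hS h).2)) hρ hN
    (fun z hz ξ hξ => hTN _ (hpot z V₂ hz hV₂) ξ hξ)
  obtain ⟨𝓛, h𝓛n, h𝓛1, h𝓛2⟩ := exists_opL (N := N) (by linarith)
  obtain ⟨𝓑, h𝓑b, h𝓑n, h𝓑1, h𝓑2⟩ := exists_opB (N := N) (by linarith)
  obtain ⟨χ, hχ1, hχn, hχ0⟩ := exists_chi hr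
  obtain ⟨𝒦, hK, hKfin⟩ := exists_lowK N χ
  obtain ⟨𝒦', hfin, hKK⟩ := hKfin (1 / 4) (by norm_num)
  set R : ℂ → XB →L[ℂ] XB := fun z => 𝓛 (f₁ z) + 𝓛 (f₂ z) + 𝓑 (f₁ z) (f₂ z) with hRdef
  have hfn₁ : ∀ z ∈ Metric.ball (0 : ℂ) ρ, ‖f₁ z‖ ≤ 1 / 8 := by
    intro z hz
    rw [mem_ball_zero_iff] at hz
    rw [BoundedContinuousFunction.norm_le (by norm_num)]
    intro ξ
    rw [hf₁ z hz ξ]
    exact hHN z V₁ hz hV₁ (fun h => (hS h).1) ξ ξ.2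
  have hfn₂ : ∀ z ∈ Metric.ball (0 : ℂ) ρ, ‖f₂ z‖ ≤ 1 / 8 := by
    intro z hz
    rw [mem_ball_zero_iff] at hz
    rw [BoundedContinuousFunction.norm_le (by norm_num)]
    intro ξ
    rw [hf₂ z hz ξ]
    exact hHN z V₂ hz hV₂ (fun h => (hS h).2) ξ ξ.2
  have hRd : DifferentiableOn ℂ R (Metric.ball 0 ρ) := by
    have hL : ∀ g : Om N →ᵇ L1, DifferentiableAt ℂ (fun f : Om N →ᵇ L1 => 𝓛 f) g :=
      fun g => 𝓛.differentiableAt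
    have d1 : DifferentiableOn ℂ (fun z => 𝓛 (f₁ z)) (Metric.ball 0 ρ) :=
      fun z hz => DifferentiableAt.comp_differentiableWithinAt (G := XB →L[ℂ] XB)
        (g := fun f : Om N →ᵇ L1 => 𝓛 f) z (hL (f₁ z)) (hfd₁ z hz)
    have d2 : DifferentiableOn ℂ (fun z => 𝓛 (f₂ z)) (Metric.ball 0 ρ) :=
      fun z hz => DifferentiableAt.comp_differentiableWithinAt (G := XB →L[ℂ] XB)
        (g := fun f : Om N →ᵇ L1 => 𝓛 f) z (hL (f₂ z)) (hfd₂ z hz)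
    have d3 : DifferentiableOn ℂ (fun z => 𝓑 (f₁ z) (f₂ z)) (Metric.ball 0 ρ) := by
      intro z hz
      have hp : DifferentiableWithinAt ℂ
          (fun z : ℂ => ((f₁ z, f₂ z) : (Om N →ᵇ L1) × (Om N →ᵇ L1))) (Metric.ball 0 ρ) z :=
        (hfd₁ z hz).prodMk (hfd₂ z hz)
      have hB : DifferentiableAt ℂ (fun p : (Om N →ᵇ L1) × (Om N →ᵇ L1) => 𝓑 p.1 p.2)
          (f₁ z, f₂ z) :=
        IsBoundedBilinearMap.differentiableAt (𝕜 := ℂ) (E := Om N →ᵇ L1) (F := Om N →ᵇ L1)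
          (G := XB →L[ℂ] XB) h𝓑b (f₁ z, f₂ z)
      exact DifferentiableAt.comp_differentiableWithinAt (G := XB →L[ℂ] XB)
        (g := fun p : (Om N →ᵇ L1) × (Om N →ᵇ L1) => 𝓑 p.1 p.2) z hB hp
    have d4 : DifferentiableOn ℂ (fun z => 𝓛 (f₁ z) + 𝓛 (f₂ z)) (Metric.ball 0 ρ) :=
      DifferentiableOn.add (F := XB →L[ℂ] XB) d1 d2
    exact DifferentiableOn.add (F := XB →L[ℂ] XB) d4 d3
  have h𝓛le : ∀ f : Om N →ᵇ L1, ‖𝓛 f‖ ≤ ‖f‖ := fun f =>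
    (𝓛.le_opNorm f).trans (by
      have := mul_le_mul_of_nonneg_right h𝓛n (norm_nonneg f)
      rwa [one_mul] at this)
  have hR2 : ∀ z ∈ Metric.ball (0 : ℂ) ρ, ‖R z‖ ≤ 1 / 2 := by
    intro z hz
    have a1 := (h𝓛le (f₁ z)).trans (hfn₁ z hz)
    have a2 := (h𝓛le (f₂ z)).trans (hfn₂ z hz)
    have a3 : ‖𝓑 (f₁ z) (f₂ z)‖ ≤ 1 / 8 * (1 / 8) :=
      (h𝓑n _ _).trans (mul_le_mul (hfn₁ z hz) (hfn₂ z hz) (norm_nonneg _) (by norm_num))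
    have a4 : ‖R z‖ ≤ ‖𝓛 (f₁ z)‖ + ‖𝓛 (f₂ z)‖ + ‖𝓑 (f₁ z) (f₂ z)‖ :=
      (norm_add_le _ _).trans (add_le_add (norm_add_le _ _) le_rfl)
    linarith
  have hz0 : (0 : ℂ) ∈ Metric.ball (0 : ℂ) ρ := Metric.mem_ball_self hρ
  have hf₁0 : f₁ 0 = 0 := by
    ext1 ξ
    rw [hf₁ 0 (by rw [norm_zero]; exact hρ) ξ, FC_zero hV₁]
    rfl
  have hf₂0 : f₂ 0 = 0 := by
    ext1 ξ
    rw [hf₂ 0 (by rw [norm_zero]; exact hρ) ξ, FC_zero hV₂]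
    rfl
  have hR0 : R 0 = 0 := by
    have hb0 : 𝓑 0 0 = 0 := by
      have h5 : ‖𝓑 0 0‖ ≤ 0 := by
        have := h𝓑n 0 0
        rwa [norm_zero, zero_mul] at this
      ext1 F
      have h6 : ‖𝓑 0 0 F‖ ≤ 0 := by
        refine ((𝓑 0 0).le_opNorm F).trans ?_
        have := mul_le_mul_of_nonneg_right h5 (norm_nonneg F)
        rwa [zero_mul] at this
      rw [norm_le_zero_iff.1 h6]
      rfl
    show 𝓛 (f₁ 0) + 𝓛 (f₂ 0) + 𝓑 (f₁ 0) (f₂ 0) = 0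
    rw [hf₁0, hf₂0, map_zero, hb0, add_zero, add_zero]
  have hinj : ∀ x : XB, x + R 0 x - 𝒦 x = 0 → x = 0 := by
    intro x hx
    rw [hR0, _root_.zero_apply, add_zero, sub_eq_zero] at hx
    refine lowK_inj (N := N) (r := r) (by linarith) hχn hχ0 (F := x) ?_
    intro η
    rw [← hK x η, ← hx]
  obtain ⟨S, hSfin, hS0, hSb⟩ := fredholm hρ R hRd hR2 𝒦 𝒦' hfin hKK hinj hTρ
  refine ⟨S, hSfin, hS0, fun t ht htS => ?_⟩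
  obtain ⟨c, hc, hcb⟩ := hSb t ht htS
  have htρ : ‖t‖ < ρ := lt_of_le_of_lt ht hTρ
  set C₃ : ℝ := C₂ * (1 + 2 * κ) with hC₃
  have hC₃0 : 0 ≤ C₃ := by positivity
  set δ : ℝ := min 1 (min c 1 / (8 * (C₃ + 1))) with hδdef
  have hmc : 0 < min c 1 := lt_min hc one_pos
  have hδ0 : 0 < δ := lt_min one_pos (by positivity)
  have hδ1 : δ ≤ 1 := min_le_left _ _
  have hδc : C₃ * δ ≤ min c 1 / 8 := by
    have h5 : δ ≤ min c 1 / (8 * (C₃ + 1)) := min_le_right _ _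
    calc C₃ * δ ≤ (C₃ + 1) * δ := by nlinarith
      _ ≤ (C₃ + 1) * (min c 1 / (8 * (C₃ + 1))) := mul_le_mul_of_nonneg_left h5 (by positivity)
      _ = min c 1 / 8 := by field_simp
  have hδ8 : C₃ * δ ≤ 1 / 8 := hδc.trans (by
    have := min_le_right c 1
    linarith)
  have hδc8 : C₃ * δ ≤ c / 8 := hδc.trans (by
    have := min_le_left c 1
    linarith)
  refine ⟨δ, N, 2 / c, hδ0, hN, ?_⟩
  intro V₁' V₂' hD₁ hD₂ hSD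
  have hp : ∀ V V' : E3 → ℂ, IsPot r M V → IsPot r δ (fun x => V' x - t * V x) →
      IsPot r M' V' := by
    intro V V' hV hD
    have hVt := hpot t V htρ hV
    refine ⟨?_, ?_, ?_⟩
    · have h5 := hD.measurable.add hVt.measurable
      have h6 : (fun x => V' x - t * V x + t * V x) = V' := by
        funext x; ring
      rw [← h6]
      exact h5
    · intro x
      have h5 : V' x = (V' x - t * V x) + t * V x := by ring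
      rw [h5]
      refine (norm_add_le _ _).trans ?_
      have h6 := hD.bounded x
      have h7 := (hV.smul t).bounded x
      have h8 : ‖t‖ * M ≤ ρ * M := mul_le_mul_of_nonneg_right htρ.le hM
      have h9 : ‖V' x - t * V x‖ ≤ δ := h6
      have h10 : ‖t * V x‖ ≤ ‖t‖ * M := h7
      rw [hM']
      linarith
    · intro x hx
      have h5 : V' x - t * V x = 0 := hD.vanish x hx
      rw [hV.vanish x hx, mul_zero, sub_zero] at h5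
      exact h5
  have hV₁' := hp V₁ V₁' hV₁ hD₁
  have hV₂' := hp V₂ V₂' hV₂ hD₂
  have hdiff : ∀ V V' : E3 → ℂ, IsPot r M V → IsPot r M' V' →
      IsPot r δ (fun x => V' x - t * V x) → (s < 1 → SobBd σ δ (fun x => V' x - t * V x)) →
      ∀ ξ : E3, N ≤ ‖ξ‖ → ‖Hf s r V' ξ - Hf s r (fun x => t * V x) ξ‖ ≤ C₃ * δ := by
    intro V V' hV hV' hD hSD' ξ hξ
    have h5 := hred δ δ _ hD hSD'
    have h6 : 0 ≤ κ * (δ + |δ|) := by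
      have := abs_nonneg δ
      positivity
    have h7 := hlip V' (fun x => t * V x) δ (κ * (δ + |δ|)) hV' (hpot t V htρ hV) h6 hD h5 ξ
      ((le_max_left _ _).trans hξ)
    refine h7.trans (le_of_eq ?_)
    rw [hC₃, abs_of_pos hδ0]
    ring
  have hd₁ := hdiff V₁ V₁' hV₁ hV₁' hD₁ (fun h => (hSD h).1)
  have hd₂ := hdiff V₂ V₂' hV₂ hV₂' hD₂ (fun h => (hSD h).2)
  have htball : t ∈ Metric.ball (0 : ℂ) ρ := mem_ball_zero_iff.2 htρ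
  have hcore : ∀ ε : ℝ, (∀ ξ : E3, N ≤ ‖ξ‖ →
      ‖A3 (dH r (fun x => V₁' x - V₂' x)) (UX s r V₁' ξ) (UX s r V₂' ξ)‖ ≤ ε) →
      ‖ftX (dH r (fun x => V₁' x - V₂' x))‖ ≤ 2 / c * ε := by
    intro ε hD
    have h5 := FC_core h0 h2 hr hN hV₁' hV₂' (hTN V₁' hV₁') (hTN V₂' hV₂')
      (dH_mem (hV₁'.sub hV₂')) hχ1 (𝒦 := 𝒦) (Rt := R t) hK
      (H₁ := fun ξ => Hf s r (fun x => t * V₁ x) ξ) (H₂ := fun ξ => Hf s r (fun x => t * V₂ x) ξ)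
      ?_ ?_ (hHN t V₁ htρ hV₁ (fun h => (hS h).1)) (hHN t V₂ htρ hV₂ (fun h => (hS h).2))
      (b := C₃ * δ) (by positivity) (by linarith) hd₁ hd₂ hD
    · have h6 := hcb (ftX (dH r (fun x => V₁' x - V₂' x)))
      have h7 : 4 * (C₃ * δ) * ‖ftX (dH r (fun x => V₁' x - V₂' x))‖ ≤
          c / 2 * ‖ftX (dH r (fun x => V₁' x - V₂' x))‖ :=
        mul_le_mul_of_nonneg_right (by linarith) (norm_nonneg _)
      rw [div_mul_eq_mul_div, le_div_iff₀ hc]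
      linarith
    · intro F ξ hξ
      have e1 : R t F = 𝓛 (f₁ t) F + 𝓛 (f₂ t) F + 𝓑 (f₁ t) (f₂ t) F := rfl
      rw [e1, BoundedContinuousFunction.coe_add, BoundedContinuousFunction.coe_add,
        Pi.add_apply, Pi.add_apply, h𝓛1 (f₁ t) F ⟨ξ, hξ⟩, h𝓛1 (f₂ t) F ⟨ξ, hξ⟩,
        h𝓑1 (f₁ t) (f₂ t) F ⟨ξ, hξ⟩, hf₁ t htρ ⟨ξ, hξ⟩, hf₂ t htρ ⟨ξ, hξ⟩]
      ring
    · intro F η hη
      have e1 : R t F = 𝓛 (f₁ t) F + 𝓛 (f₂ t) F + 𝓑 (f₁ t) (f₂ t) F := rfl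
      rw [e1, BoundedContinuousFunction.coe_add, BoundedContinuousFunction.coe_add,
        Pi.add_apply, Pi.add_apply, h𝓛2 _ _ _ hη, h𝓛2 _ _ _ hη, h𝓑2 _ _ _ _ hη]
      ring
  refine ⟨?_, ?_⟩
  · intro a b ha hab hdata
    have hR : ∀ V : E3 → ℂ, IsPot r M' V → ∀ k ∈ Reg N, ‖Tk s r V k‖ ≤ 1 / 2 :=
      fun V hV k hk => hT₀ V hV k ⟨hk.1, hk.2.1, (le_max_left _ _).trans hk.2.2⟩
    have h3 : ‖ftX (dH r (fun x => V₁' x - V₂' x))‖ ≤ 2 / c * 0 := by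
      refine hcore 0 ?_
      intro ξ hξ
      have hne := FB_ne hN hξ
      rw [ident h0 h2 hr.le hne hV₁' hV₂' (hTN V₁' hV₁' ξ hξ) (hTN V₂' hV₂' ξ hξ)]
      have hθ : ‖(‖ξ‖⁻¹ • ξ : E3)‖ = 1 := norm_smul_inv_norm (𝕜 := ℝ) hne
      have := data_real (by linarith) h2 hr hV₁' hV₂' hθ hN (hR V₁' hV₁') (hR V₂' hV₂') ha hab
        (fun k hk => hdata k hk _ hθ) (2 * Real.pi * ‖ξ‖) (FB_kx hN hξ)
      rw [kx, this, sub_self, norm_zero]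
    rw [mul_zero] at h3
    exact FB_eq hV₁' hV₂' h3
  · intro ε hdata η
    have h3 : ‖ftX (dH r (fun x => V₁' x - V₂' x))‖ ≤ 2 / c * ε := by
      refine hcore ε ?_
      intro ξ hξ
      have hne := FB_ne hN hξ
      have hθ : ‖(‖ξ‖⁻¹ • ξ : E3)‖ = 1 := norm_smul_inv_norm (𝕜 := ℝ) hne
      exact data_ident h0 h2 hr hne hV₁' hV₂' (hTN V₁' hV₁' ξ hξ) (hTN V₂' hV₂' ξ hξ)
        (hdata _ (FB_kx hN hξ) _ hθ)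
    rw [← FB_ft hV₁' hV₂']
    exact (BoundedContinuousFunction.norm_coe_le_norm _ η).trans h3

end FracScatC

end
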