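import Pool.Agent.Lib.MP_6e2ba5_an.Hx

/-! # Decay of `Hx` on the positive axis

Write `m = min (2s) 2`, `1 < m ≤ 2`. For `0 ≤ x ≤ 2`, `x ≠ 1`: `Hx_bound` gives a constant bound, and
`(1+x)^(-m) ≥ 3^(-m) ≥ 1/9`. For `x ≥ 2`: `x^(2s) ≥ 2`, so `|1/(x^(2s)-1)| ≤ 2 x^(-2s) ≤ 2 x^(-m)`, and
`|1/(s(x²-1))| ≤ (1/s)(4/3) x^(-2) ≤ (8/3) x^(-m)`; finally `x ≥ (2/3)(1+x)`. The complex power of a
nonnegative real is `Complex.ofReal_cpow`. -/

set_option autoImplicit false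

open MeasureTheory Filter Topology Set
open scoped FourierTransform SchwartzMap InnerProductSpace ENNReal BoundedContinuousFunction

noncomputable section

namespace FracScatC

open FracScat

theorem Hx_decay {s : ℝ} (h0 : 1 / 2 < s) (h2 : s < 2) :
    ∃ C : ℝ, 0 ≤ C ∧ ∀ x : ℝ, 0 ≤ x → x ≠ 1 →
      ‖Hx s (x : ℂ)‖ ≤ C * (1 + x) ^ (-(min (2 * s) 2)) := by
  have hs : 0 < s := by linarith
  obtain ⟨C₀, hC₀, hb⟩ := Hx_bound hs h2
  set m : ℝ := min (2 * s) 2 with hm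
  have hm2 : m ≤ 2 := min_le_right _ _
  have hms : m ≤ 2 * s := min_le_left _ _
  have hm1 : 1 < m := lt_min (by linarith) (by norm_num)
  refine ⟨9 * C₀ + 11, by linarith, fun x hx hx1 => ?_⟩
  have hpos : 0 < (1 + x) ^ (-m) := Real.rpow_pos_of_pos (by linarith) _
  rcases le_or_gt x 2 with hx2 | hx2
  · have hq : (x : ℂ) ∈ Q4 := ⟨by simpa using hx, by simp⟩
    have hne : (x : ℂ) ≠ 1 := by exact_mod_cast hx1
    have h1 := hb _ hq hne
    have h3 : (1 / 9 : ℝ) ≤ (1 + x) ^ (-m) := by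
      have h4 : (3 : ℝ) ^ (-m) ≤ (1 + x) ^ (-m) :=
        Real.rpow_le_rpow_of_nonpos (by linarith) (by linarith) (by linarith)
      have h5 : (3 : ℝ) ^ (-(2 : ℝ)) ≤ (3 : ℝ) ^ (-m) :=
        Real.rpow_le_rpow_of_exponent_le (by norm_num) (by linarith)
      have h6 : (3 : ℝ) ^ (-(2 : ℝ)) = 1 / 9 := by
        rw [Real.rpow_neg (by norm_num), Real.rpow_two]; norm_num
      rw [h6] at h5
      exact h5.trans h4
    have h7 : C₀ ≤ 9 * C₀ * (1 + x) ^ (-m) := by nlinarith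
    nlinarith
  · have hx0 : 0 < x := by linarith
    have hxm : 0 < x ^ (-m) := Real.rpow_pos_of_pos hx0 _
    -- first term
    have hp2 : 2 ≤ x ^ (2 * s) := by
      have h3 : x ^ (1 : ℝ) ≤ x ^ (2 * s) :=
        Real.rpow_le_rpow_of_exponent_le (by linarith) (by linarith)
      rw [Real.rpow_one] at h3
      linarith
    have t1 : (x ^ (2 * s) - 1)⁻¹ ≤ 2 * x ^ (-m) := by
      have h3 : x ^ (2 * s) / 2 ≤ x ^ (2 * s) - 1 := by linarith
      have h4 : (x ^ (2 * s) - 1)⁻¹ ≤ (x ^ (2 * s) / 2)⁻¹ :=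
        inv_anti₀ (by linarith) h3
      have h5 : (x ^ (2 * s) / 2)⁻¹ = 2 * x ^ (-(2 * s)) := by
        rw [inv_div, Real.rpow_neg hx0.le]
        rfl
      have h6 : x ^ (-(2 * s)) ≤ x ^ (-m) :=
        Real.rpow_le_rpow_of_exponent_le (by linarith) (by linarith)
      linarith
    have t2 : s⁻¹ * (x ^ 2 - 1)⁻¹ ≤ 8 / 3 * x ^ (-m) := by
      have h3 : 3 / 4 * x ^ 2 ≤ x ^ 2 - 1 := by nlinarith
      have h4 : (x ^ 2 - 1)⁻¹ ≤ (3 / 4 * x ^ 2)⁻¹ := inv_anti₀ (by positivity) h3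
      have h5 : (3 / 4 * x ^ 2)⁻¹ = 4 / 3 * x ^ (-(2 : ℝ)) := by
        rw [Real.rpow_neg hx0.le, Real.rpow_two, mul_inv]
        norm_num
      have h6 : x ^ (-(2 : ℝ)) ≤ x ^ (-m) :=
        Real.rpow_le_rpow_of_exponent_le (by linarith) (by linarith)
      have h7 : s⁻¹ ≤ 2 := by
        rw [inv_le_comm₀ hs (by norm_num)]
        linarith
      have h8 : 0 ≤ (x ^ 2 - 1)⁻¹ := by
        rw [inv_nonneg]; nlinarith
      calc s⁻¹ * (x ^ 2 - 1)⁻¹ ≤ 2 * (x ^ 2 - 1)⁻¹ := mul_le_mul_of_nonneg_right h7 h8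
        _ ≤ 2 * (4 / 3 * x ^ (-m)) := by linarith
        _ = 8 / 3 * x ^ (-m) := by ring
    have t3 : x ^ (-m) ≤ 9 / 4 * (1 + x) ^ (-m) := by
      have h3 : x ^ (-m) ≤ (2 / 3 * (1 + x)) ^ (-m) :=
        Real.rpow_le_rpow_of_nonpos (by linarith) (by linarith) (by linarith)
      have h4 : (2 / 3 * (1 + x)) ^ (-m) = (2 / 3 : ℝ) ^ (-m) * (1 + x) ^ (-m) :=
        Real.mul_rpow (by norm_num) (by linarith)
      have h5 : (2 / 3 : ℝ) ^ (-m) ≤ (2 / 3 : ℝ) ^ (-(2 : ℝ)) :=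
        Real.rpow_le_rpow_of_exponent_ge (by norm_num) (by norm_num) (by linarith)
      have h6 : (2 / 3 : ℝ) ^ (-(2 : ℝ)) = 9 / 4 := by
        rw [Real.rpow_neg (by norm_num), Real.rpow_two]; norm_num
      rw [h4] at h3
      have h7 := mul_le_mul_of_nonneg_right (h5.trans h6.le) hpos.le
      linarith
    have hnorm : ‖Hx s (x : ℂ)‖ ≤ (x ^ (2 * s) - 1)⁻¹ + s⁻¹ * (x ^ 2 - 1)⁻¹ := by
      unfold Hx
      refine (norm_sub_le _ _).trans (add_le_add (le_of_eq ?_) (le_of_eq ?_))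
      · rw [← Complex.ofReal_cpow hx0.le, ← Complex.ofReal_one, ← Complex.ofReal_sub,
          ← Complex.ofReal_div, Complex.norm_real, Real.norm_of_nonneg, one_div]
        rw [one_div, inv_nonneg]
        linarith
      · have h3 : 0 ≤ x ^ 2 - 1 := by nlinarith
        have h4 : (1 / (s : ℂ)) * (1 / ((x : ℂ) ^ 2 - 1)) =
            ((s⁻¹ * (x ^ 2 - 1)⁻¹ : ℝ) : ℂ) := by
          push_cast
          rw [one_div, one_div]
        rw [h4, Complex.norm_real, Real.norm_of_nonneg]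
        positivity
    have hsum : ‖Hx s (x : ℂ)‖ ≤ 14 / 3 * (9 / 4 * (1 + x) ^ (-m)) := by linarith
    nlinarith

end FracScatC

end
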