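import Pool.Agent.Lib.MP_6e2ba5_an.Kap

/-! # Decay of `kap` for real wave numbers

`kap k R a = (1/a) ∫_0^R e^(ikr) sin(ar) dr = (f(k+a) - f(k-a))/(2ia)`, `f(b) = ∫_0^R e^(ibr) dr`,
`|f(b)| ≤ min(R, 2/|b|) ≤ (R+2) · 2/(1+|b|)` (for `|b| ≤ 1` use `R`, for `|b| ≥ 1` use `2/|b|`).
Case `a ≥ k/3`: `|kap| ≤ (1/(2a)) (C/(1+k+a) + C/(1+|k-a|)) ≤ C'/(k+a) · 1/(1+|a-k|)`, as `a ≥ (k+a)/4`.
Case `a < k/3`: integrate by parts in `r` (differentiate the sine):
`∫_0^R e^(ikr) sin(ar) dr = e^(ikR) sin(aR)/(ik) - (a/(ik)) ∫_0^R e^(ikr) cos(ar) dr`, and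
`|∫_0^R e^(ikr) cos(ar) dr| ≤ (|f(k+a)|+|f(k-a)|)/2 ≤ C/k`. Hence
`|kap| ≤ |sin(aR)|/(ak) + C/k² ≤ C/(k(1+a)) + C/k²` (`|sin(aR)| ≤ min(1, aR)`), and
`(k+a)(1+a) ≤ (4/3)k (1+k/3) ≤ 2k²`, so both are `≤ C'/((k+a)(1+a))`.
The constant `C` may depend on `R` only. -/

set_option autoImplicit false

open MeasureTheory Filter Topology Set
open scoped FourierTransform SchwartzMap InnerProductSpace ENNReal BoundedContinuousFunction

noncomputable section

namespace FracScatC

open FracScat

/-- `∫_0^R e^(ibr) dr`. -/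
private def J (R b : ℝ) : ℂ := ∫ r in (0 : ℝ)..R, Complex.exp (Complex.I * b * r)

private lemma norm_expI (b r : ℝ) : ‖Complex.exp (Complex.I * b * r)‖ = 1 := by
  rw [Complex.norm_exp]
  simp

private lemma norm_J_le {R : ℝ} (hR : 0 ≤ R) (b : ℝ) : ‖J R b‖ ≤ (2 * R + 4) / (1 + |b|) := by
  have hb0 : 0 ≤ |b| := abs_nonneg b
  have h1b : 0 < 1 + |b| := by linarith
  rcases le_total |b| 1 with hb | hb
  · have h1 : ‖J R b‖ ≤ 1 * |R - 0| := by
      refine intervalIntegral.norm_integral_le_of_norm_le_const (fun r _ => ?_)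
      rw [norm_expI]
    rw [one_mul, sub_zero, abs_of_nonneg hR] at h1
    rw [le_div_iff₀ h1b]
    nlinarith
  · have hbne : b ≠ 0 := by
      intro h
      rw [h, abs_zero] at hb
      linarith
    have hIb : Complex.I * (b : ℂ) ≠ 0 :=
      mul_ne_zero Complex.I_ne_zero (by exact_mod_cast hbne)
    have h1 : J R b = (Complex.exp (Complex.I * b * R) - Complex.exp (Complex.I * b * (0 : ℝ))) /
        (Complex.I * b) := integral_exp_mul_complex hIb
    have h2 : ‖J R b‖ ≤ 2 / |b| := by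
      rw [h1, norm_div, norm_mul, Complex.norm_I, one_mul, Complex.norm_real, Real.norm_eq_abs]
      refine div_le_div_of_nonneg_right ?_ hb0
      refine (norm_sub_le _ _).trans ?_
      rw [norm_expI, norm_expI]
      norm_num
    refine h2.trans ?_
    rw [div_le_div_iff₀ (by linarith) h1b]
    nlinarith [mul_nonneg hR hb0]

private lemma int_expI (R b : ℝ) : IntervalIntegrable
    (fun r : ℝ => Complex.exp (Complex.I * b * r)) volume 0 R :=
  Continuous.intervalIntegrable (by fun_prop) _ _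

private lemma expI_mul_sin (k a r : ℝ) :
    Complex.exp (Complex.I * (k : ℂ) * r) * (Real.sin (a * r) : ℂ) =
      (1 / (2 * Complex.I)) * (Complex.exp (Complex.I * ((k + a : ℝ) : ℂ) * r) -
        Complex.exp (Complex.I * ((k - a : ℝ) : ℂ) * r)) := by
  have h1 : Complex.exp (Complex.I * ((k + a : ℝ) : ℂ) * r) =
      Complex.exp (Complex.I * (k : ℂ) * r) * Complex.exp (((a * r : ℝ) : ℂ) * Complex.I) := by
    rw [← Complex.exp_add]; congr 1; push_cast; ring
  have h2 : Complex.exp (Complex.I * ((k - a : ℝ) : ℂ) * r) =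
      Complex.exp (Complex.I * (k : ℂ) * r) * Complex.exp (-((a * r : ℝ) : ℂ) * Complex.I) := by
    rw [← Complex.exp_add]; congr 1; push_cast; ring
  have h3 : (Real.sin (a * r) : ℂ) = (Complex.exp (((a * r : ℝ) : ℂ) * Complex.I) -
      Complex.exp (-((a * r : ℝ) : ℂ) * Complex.I)) / (2 * Complex.I) := by
    rw [Complex.ofReal_sin, Complex.sin, div_eq_div_iff two_ne_zero
      (mul_ne_zero two_ne_zero Complex.I_ne_zero)]
    have := Complex.I_mul_I
    linear_combination (2 * (Complex.exp (-((a * r : ℝ) : ℂ) * Complex.I) -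
      Complex.exp (((a * r : ℝ) : ℂ) * Complex.I))) * this
  rw [h1, h2, h3]
  ring

private lemma expI_mul_cos (k a r : ℝ) :
    Complex.exp (Complex.I * (k : ℂ) * r) * (Real.cos (a * r) : ℂ) =
      (1 / 2) * (Complex.exp (Complex.I * ((k + a : ℝ) : ℂ) * r) +
        Complex.exp (Complex.I * ((k - a : ℝ) : ℂ) * r)) := by
  have h1 : Complex.exp (Complex.I * ((k + a : ℝ) : ℂ) * r) =
      Complex.exp (Complex.I * (k : ℂ) * r) * Complex.exp (((a * r : ℝ) : ℂ) * Complex.I) := by
    rw [← Complex.exp_add]; congr 1; push_cast; ring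
  have h2 : Complex.exp (Complex.I * ((k - a : ℝ) : ℂ) * r) =
      Complex.exp (Complex.I * (k : ℂ) * r) * Complex.exp (-((a * r : ℝ) : ℂ) * Complex.I) := by
    rw [← Complex.exp_add]; congr 1; push_cast; ring
  have h3 : (Real.cos (a * r) : ℂ) = (Complex.exp (((a * r : ℝ) : ℂ) * Complex.I) +
      Complex.exp (-((a * r : ℝ) : ℂ) * Complex.I)) / 2 := by
    rw [Complex.ofReal_cos, Complex.cos]
  rw [h1, h2, h3]
  ring

private lemma int_sin (R k a : ℝ) :
    (∫ r in (0 : ℝ)..R, Complex.exp (Complex.I * (k : ℂ) * r) * (Real.sin (a * r) : ℂ)) =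
      (1 / (2 * Complex.I)) * (J R (k + a) - J R (k - a)) := by
  unfold J
  rw [← intervalIntegral.integral_sub (int_expI R (k + a)) (int_expI R (k - a)),
    ← intervalIntegral.integral_const_mul]
  exact intervalIntegral.integral_congr fun r _ => expI_mul_sin k a r

private lemma int_cos (R k a : ℝ) :
    (∫ r in (0 : ℝ)..R, Complex.exp (Complex.I * (k : ℂ) * r) * (Real.cos (a * r) : ℂ)) =
      (1 / 2) * (J R (k + a) + J R (k - a)) := by
  unfold J
  rw [← intervalIntegral.integral_add (int_expI R (k + a)) (int_expI R (k - a)),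
    ← intervalIntegral.integral_const_mul]
  exact intervalIntegral.integral_congr fun r _ => expI_mul_cos k a r

private lemma by_parts (R k a : ℝ) :
    Complex.I * k * (∫ r in (0 : ℝ)..R, Complex.exp (Complex.I * (k : ℂ) * r) *
        (Real.sin (a * r) : ℂ)) =
      Complex.exp (Complex.I * (k : ℂ) * R) * (Real.sin (a * R) : ℂ) -
        a * ∫ r in (0 : ℝ)..R, Complex.exp (Complex.I * (k : ℂ) * r) * (Real.cos (a * r) : ℂ) := by
  have hd : ∀ r : ℝ, HasDerivAt
      (fun r : ℝ => Complex.exp (Complex.I * (k : ℂ) * r) * (Real.sin (a * r) : ℂ))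
      (Complex.I * k * (Complex.exp (Complex.I * (k : ℂ) * r) * (Real.sin (a * r) : ℂ)) +
        a * (Complex.exp (Complex.I * (k : ℂ) * r) * (Real.cos (a * r) : ℂ))) r := by
    intro r
    have h1 : HasDerivAt (fun r : ℝ => Complex.I * (k : ℂ) * (r : ℂ)) (Complex.I * k) r := by
      simpa using (Complex.ofRealCLM.hasDerivAt (x := r)).const_mul (Complex.I * (k : ℂ))
    have h2 : HasDerivAt (fun r : ℝ => Real.sin (a * r)) (a * Real.cos (a * r)) r := by
      have h3 : HasDerivAt (fun r : ℝ => a * r) a r := by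
        simpa using (hasDerivAt_id r).const_mul a
      have := h3.sin
      rwa [mul_comm] at this
    have h4 := h1.cexp.mul h2.ofReal_comp
    refine h4.congr_deriv ?_
    push_cast
    ring
  have hc1 : IntervalIntegrable (fun r : ℝ => Complex.I * k *
      (Complex.exp (Complex.I * (k : ℂ) * r) * (Real.sin (a * r) : ℂ))) volume 0 R :=
    Continuous.intervalIntegrable (by fun_prop) _ _
  have hc2 : IntervalIntegrable (fun r : ℝ => (a : ℂ) *
      (Complex.exp (Complex.I * (k : ℂ) * r) * (Real.cos (a * r) : ℂ))) volume 0 R :=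
    Continuous.intervalIntegrable (by fun_prop) _ _
  have h := intervalIntegral.integral_eq_sub_of_hasDerivAt (fun r _ => hd r) (hc1.add hc2)
  rw [intervalIntegral.integral_add hc1 hc2, intervalIntegral.integral_const_mul,
    intervalIntegral.integral_const_mul] at h
  have h0 : (Real.sin (a * 0) : ℂ) = 0 := by simp
  rw [h0, mul_zero, sub_zero] at h
  rw [← h]
  ring

theorem kap_decay {R : ℝ} (hR : 0 ≤ R) : ∃ C : ℝ, 0 ≤ C ∧ ∀ k : ℝ, 1 ≤ k → ∀ a : ℝ, 0 < a →
    ‖kap (k : ℂ) R a‖ ≤ C / (k + a) * (1 / (1 + |a - k|) + 1 / (1 + a)) := by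
  refine ⟨8 * R + 16, by linarith, fun k hk a ha => ?_⟩
  have hk0 : 0 < k := by linarith
  have hka : 0 < k + a := by linarith
  have h1a : 0 < 1 + a := by linarith
  set C1 : ℝ := 2 * R + 4 with hC1
  have hC1' : 0 < C1 := by linarith
  have habs : 0 ≤ |a - k| := abs_nonneg _
  have h1ak : 0 < 1 + |a - k| := by linarith
  have hJ1 : ‖J R (k + a)‖ ≤ C1 / (1 + |a - k|) := by
    refine (norm_J_le hR (k + a)).trans ?_
    refine div_le_div_of_nonneg_left hC1'.le h1ak ?_
    rw [abs_of_pos hka]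
    have : |a - k| ≤ a + k := by
      rw [abs_le]; constructor <;> linarith
    linarith
  have hJ2 : ‖J R (k - a)‖ ≤ C1 / (1 + |a - k|) := by
    have := norm_J_le hR (k - a)
    rwa [abs_sub_comm] at this
  have hnorm : ‖kap (k : ℂ) R a‖ = (1 / a) *
      ‖∫ r in (0 : ℝ)..R, Complex.exp (Complex.I * (k : ℂ) * r) * (Real.sin (a * r) : ℂ)‖ := by
    unfold kap
    rw [norm_mul, Complex.norm_real, Real.norm_eq_abs, abs_of_pos (by positivity)]
  rw [hnorm]
  have hterm1 : 0 ≤ (8 * R + 16) / (k + a) * (1 / (1 + |a - k|)) := by positivity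
  have hterm2 : 0 ≤ (8 * R + 16) / (k + a) * (1 / (1 + a)) := by positivity
  rw [mul_add]
  rcases le_or_gt (k / 3) a with hcase | hcase
  · have h1 : ‖∫ r in (0 : ℝ)..R, Complex.exp (Complex.I * (k : ℂ) * r) *
        (Real.sin (a * r) : ℂ)‖ ≤ C1 / (1 + |a - k|) := by
      rw [int_sin, norm_mul]
      have h2 : ‖(1 / (2 * Complex.I) : ℂ)‖ = 1 / 2 := by simp
      rw [h2]
      have h3 := norm_sub_le (J R (k + a)) (J R (k - a))
      linarith
    have h4 : 1 / a ≤ 4 / (k + a) := by
      rw [div_le_div_iff₀ ha hka]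
      linarith
    calc (1 / a) * ‖∫ r in (0 : ℝ)..R, Complex.exp (Complex.I * (k : ℂ) * r) *
        (Real.sin (a * r) : ℂ)‖ ≤ (4 / (k + a)) * (C1 / (1 + |a - k|)) :=
          mul_le_mul h4 h1 (norm_nonneg _) (by positivity)
      _ = (8 * R + 16) / (k + a) * (1 / (1 + |a - k|)) := by rw [hC1]; ring
      _ ≤ _ := le_add_of_nonneg_right hterm2
  · have hcos : ‖∫ r in (0 : ℝ)..R, Complex.exp (Complex.I * (k : ℂ) * r) *
        (Real.cos (a * r) : ℂ)‖ ≤ 3 / 2 * C1 / k := by
      rw [int_cos, norm_mul]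
      have h2 : ‖(1 / 2 : ℂ)‖ = 1 / 2 := by simp
      rw [h2]
      have h3 := norm_add_le (J R (k + a)) (J R (k - a))
      have h4 : C1 / (1 + |a - k|) ≤ 3 / 2 * C1 / k := by
        have h5 : |a - k| = k - a := by
          rw [abs_sub_comm, abs_of_pos (by linarith)]
        rw [h5, div_le_div_iff₀ (by linarith) hk0]
        nlinarith
      linarith
    have hsin : |Real.sin (a * R)| ≤ a * (2 * (R + 1) / (1 + a)) := by
      rw [mul_div_assoc', le_div_iff₀ h1a]
      rcases le_total a 1 with ha1 | ha1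
      · have h6 : |Real.sin (a * R)| ≤ a * R := by
          refine Real.abs_sin_le_abs.trans (le_of_eq ?_)
          exact abs_of_nonneg (mul_nonneg ha.le hR)
        have h7 : |Real.sin (a * R)| * (1 + a) ≤ a * R * (1 + a) :=
          mul_le_mul_of_nonneg_right h6 h1a.le
        have h8 : 0 ≤ a * R := mul_nonneg ha.le hR
        nlinarith
      · have h6 : |Real.sin (a * R)| ≤ 1 := Real.abs_sin_le_one _
        have h7 : |Real.sin (a * R)| * (1 + a) ≤ 1 * (1 + a) :=
          mul_le_mul_of_nonneg_right h6 h1a.le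
        have h8 : 0 ≤ a * R := mul_nonneg ha.le hR
        nlinarith
    have hint : ‖∫ r in (0 : ℝ)..R, Complex.exp (Complex.I * (k : ℂ) * r) *
        (Real.sin (a * r) : ℂ)‖ ≤ (1 / k) * (a * (2 * (R + 1) / (1 + a)) +
          a * (3 / 2 * C1 / k)) := by
      have h1 := congrArg norm (by_parts R k a)
      rw [norm_mul, norm_mul, Complex.norm_I, one_mul, Complex.norm_real, Real.norm_eq_abs,
        abs_of_pos hk0] at h1
      have h2 : k * ‖∫ r in (0 : ℝ)..R, Complex.exp (Complex.I * (k : ℂ) * r) *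
          (Real.sin (a * r) : ℂ)‖ ≤ a * (2 * (R + 1) / (1 + a)) + a * (3 / 2 * C1 / k) := by
        rw [h1]
        refine (norm_sub_le _ _).trans (add_le_add ?_ ?_)
        · rw [norm_mul, norm_expI, one_mul, Complex.norm_real, Real.norm_eq_abs]
          exact hsin
        · rw [norm_mul, Complex.norm_real, Real.norm_eq_abs, abs_of_pos ha]
          exact mul_le_mul_of_nonneg_left hcos ha.le
      rw [one_div, ← div_eq_inv_mul, le_div_iff₀ hk0]
      linarith
    have hfin : (1 / a) * ((1 / k) * (a * (2 * (R + 1) / (1 + a)) + a * (3 / 2 * C1 / k))) =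
        (1 / k) * (2 * (R + 1) / (1 + a)) + 3 / 2 * C1 * ((1 / k) * (1 / k)) := by
      field_simp
    have hk1 : 1 / k ≤ (4 / 3) / (k + a) := by
      rw [div_le_div_iff₀ hk0 hka]
      linarith
    have hk2 : 1 / k ≤ (4 / 3) / (1 + a) := by
      rw [div_le_div_iff₀ hk0 h1a]
      linarith
    have hki : 0 ≤ 1 / k := by positivity
    calc (1 / a) * ‖∫ r in (0 : ℝ)..R, Complex.exp (Complex.I * (k : ℂ) * r) *
        (Real.sin (a * r) : ℂ)‖ ≤ (1 / a) * ((1 / k) * (a * (2 * (R + 1) / (1 + a)) +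
          a * (3 / 2 * C1 / k))) := mul_le_mul_of_nonneg_left hint (by positivity)
      _ = (1 / k) * (2 * (R + 1) / (1 + a)) + 3 / 2 * C1 * ((1 / k) * (1 / k)) := hfin
      _ ≤ (4 / 3) / (k + a) * (2 * (R + 1) / (1 + a)) +
          3 / 2 * C1 * (((4 / 3) / (k + a)) * ((4 / 3) / (1 + a))) := by
          refine add_le_add (mul_le_mul_of_nonneg_right hk1 (by positivity))
            (mul_le_mul_of_nonneg_left (mul_le_mul hk1 hk2 hki (by positivity)) (by positivity))
      _ = ((8 / 3) * (R + 1) + (8 / 3) * C1) / (k + a) * (1 / (1 + a)) := by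
          field_simp
          ring
      _ ≤ (8 * R + 16) / (k + a) * (1 / (1 + a)) := by
          refine mul_le_mul_of_nonneg_right ?_ (by positivity)
          refine div_le_div_of_nonneg_right ?_ hka.le
          rw [hC1]
          linarith
      _ ≤ _ := le_add_of_nonneg_left hterm1

end FracScatC

end
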