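import Pool.Agent.Lib.MP_6e2ba5_an.GsBound
import Pool.Agent.Lib.MP_6e2ba5_an.Cx.HxD
import Pool.Agent.Lib.MP_6e2ba5_an.Cx.KapD

/-! # Decay of the symbol `gs` for real wave numbers

`gs s R k ζ = ck s k * kap k R a + hs s k a`, `a = 2π‖ζ‖`. `‖ck s k‖ = k^(2-2s)/s`
(`Complex.norm_cpow_real` or `Complex.ofReal_cpow`), `kap_decay`; `hs_eq_Hx` gives
`hs s k a = k^(-2s) Hx s (a/k)` for `k ∈ Quad`, and `Hx_decay` applies to the real number `a/k`, which is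
`≠ 1` a.e. (`ae_good`: for almost all `ζ`, `0 < a` and `(a : ℂ) ≠ k`). -/

set_option autoImplicit false

open MeasureTheory Filter Topology Set
open scoped FourierTransform SchwartzMap InnerProductSpace ENNReal BoundedContinuousFunction

noncomputable section

namespace FracScatC

open FracScat

private lemma GsD_norm_ck {s : ℝ} (h0 : 0 < s) {k : ℝ} (hk : 0 < k) :
    ‖ck s (k : ℂ)‖ = k ^ (2 - 2 * s) / s := by
  have hk' : (k : ℂ) ≠ 0 := by exact_mod_cast hk.ne'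
  unfold ck
  rw [norm_div, Complex.norm_real, Real.norm_of_nonneg h0.le, Complex.norm_cpow_of_ne_zero hk',
    Complex.ofReal_re, Complex.ofReal_im, mul_zero, Real.exp_zero, div_one, Complex.norm_real,
    Real.norm_of_nonneg hk.le]

theorem gs_decay {s : ℝ} (h0 : 1 / 2 < s) (h2 : s < 2) {R : ℝ} (hR : 0 ≤ R) :
    ∃ C : ℝ, 0 ≤ C ∧ ∀ k : ℝ, 1 ≤ k → ∀ᵐ ζ ∂(volume : Measure E3),
      ‖gs s R (k : ℂ) ζ‖ ≤ C * (k ^ (2 - 2 * s) / (k + 2 * Real.pi * ‖ζ‖) *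
        (1 / (1 + |2 * Real.pi * ‖ζ‖ - k|) + 1 / (1 + 2 * Real.pi * ‖ζ‖)) +
        k ^ (-(2 * s)) * (1 + 2 * Real.pi * ‖ζ‖ / k) ^ (-(min (2 * s) 2))) := by
  have hs0 : 0 < s := by linarith
  obtain ⟨C1, hC1, h1⟩ := kap_decay hR
  obtain ⟨C2, hC2, h3⟩ := Hx_decay h0 h2
  refine ⟨C1 / s + C2, by positivity, fun k hk => ?_⟩
  have hk0 : 0 < k := by linarith
  have hQ : (k : ℂ) ∈ Quad := by
    refine ⟨?_, ?_, ?_⟩
    · rw [Complex.ofReal_re]; exact hk0.le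
    · rw [Complex.ofReal_im]
    · exact_mod_cast hk0.ne'
  filter_upwards [ae_good (k : ℂ)] with ζ hζ
  obtain ⟨ha, hak⟩ := hζ
  set a : ℝ := 2 * Real.pi * ‖ζ‖ with hadef
  have hak' : a ≠ k := fun h => hak (by exact_mod_cast h)
  have hx0 : 0 ≤ a / k := by positivity
  have hx1 : a / k ≠ 1 := by
    intro h
    rw [div_eq_one_iff_eq hk0.ne'] at h
    exact hak' h
  have e1 : ‖ck s (k : ℂ) * kap (k : ℂ) R a‖ ≤ C1 / s * (k ^ (2 - 2 * s) / (k + a) *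
      (1 / (1 + |a - k|) + 1 / (1 + a))) := by
    rw [norm_mul, GsD_norm_ck hs0 hk0]
    have h4 := h1 k hk a ha
    have h5 : 0 ≤ k ^ (2 - 2 * s) / s := by positivity
    refine (mul_le_mul_of_nonneg_left h4 h5).trans (le_of_eq ?_)
    ring
  have e2 : ‖hs s (k : ℂ) a‖ ≤ C2 * (k ^ (-(2 * s)) * (1 + a / k) ^ (-(min (2 * s) 2))) := by
    rw [hs_eq_Hx hs0 h2 hQ ha.le, norm_mul, Complex.norm_cpow_of_ne_zero hQ.2.2,
      Complex.ofReal_re, Complex.ofReal_im, mul_zero, Real.exp_zero, div_one, Complex.norm_real,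
      Real.norm_of_nonneg hk0.le]
    have h4 := h3 (a / k) hx0 hx1
    have h5 : ((a : ℂ) / (k : ℂ)) = ((a / k : ℝ) : ℂ) := by push_cast; rfl
    rw [h5]
    have h6 : 0 ≤ k ^ (-(2 * s)) := by positivity
    refine (mul_le_mul_of_nonneg_left h4 h6).trans (le_of_eq ?_)
    ring
  have p1 : 0 ≤ k ^ (2 - 2 * s) / (k + a) * (1 / (1 + |a - k|) + 1 / (1 + a)) := by
    have := abs_nonneg (a - k)
    positivity
  have p2 : 0 ≤ k ^ (-(2 * s)) * (1 + a / k) ^ (-(min (2 * s) 2)) := by positivity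
  have p3 : 0 ≤ C1 / s := by positivity
  unfold gs
  refine (norm_add_le _ _).trans ((add_le_add e1 e2).trans ?_)
  have q1 := mul_nonneg p3 p2
  have q2 := mul_nonneg hC2 p1
  linarith

end FracScatC

end
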