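import Pool.Agent.Lib.MP_6e2ba5_an.Cx.GsW

/-! # The symbol in `L²`: membership, norm, continuity

`gs_memLp`, `norm_gsH_le`: case `σ = 0` of `gs_weight` (the weight is `1`; for a real `k ≥ 1` choose
`ξ` with `2π‖ξ‖ = k`, e.g. a multiple of a basis vector, so that `kx ξ = k`); measurability of
`gs` is in `gs_BM` (`(gs_BM ..).1`); the norm of `toLp` is `(∫⁻ ‖·‖ₑ²)^(1/2)`.
`gsH_cont`: fix `k₀ ≥ 1`, `ε > 0`. On `‖ζ‖ ≤ L` use `gs_cont` (sup norm continuity in `k`,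
`∀ᵐ ζ, ‖gs k ζ - gs k₀ ζ‖ ≤ ε'`), on `‖ζ‖ > L` use `gs_decay`: for `1 ≤ k ≤ 2k₀` and `‖ζ‖ ≥ k₀`,
`‖gs k ζ‖ ≤ C(k₀) (‖ζ‖^(-2) + ‖ζ‖^(-p))`, `p = min (2s) 2 > 3/2`, which is square integrable at
infinity. So `∫⁻ ‖gs k - gs k₀‖ₑ² ≤ ε'² vol(B_L) + 4 tail(L)`. -/

set_option autoImplicit false

open MeasureTheory Filter Topology Set
open scoped FourierTransform SchwartzMap InnerProductSpace ENNReal BoundedContinuousFunction

noncomputable section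

namespace FracScatC

open FracScat

private theorem GsMem_meas (s R : ℝ) (k : ℂ) : Measurable (gs s R k) := by
  have h1 : Measurable (fun ξ : E3 => 2 * Real.pi * ‖ξ‖) := measurable_norm.const_mul _
  have h2 : Measurable (fun ξ : E3 => kap k R (2 * Real.pi * ‖ξ‖)) :=
    (kap_measurable k R).comp h1
  have h3 : Measurable (fun ξ : E3 => hs s k (2 * Real.pi * ‖ξ‖)) :=
    (hs_measurable s k).comp h1
  exact (h2.const_mul _).add h3

private theorem GsMem_eLp (f : E3 → ℂ) :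
    eLpNorm f 2 (volume : Measure E3) ^ 2 = ∫⁻ ζ, ‖f ζ‖ₑ ^ 2 := by
  rw [eLpNorm_eq_lintegral_rpow_enorm_toReal (by norm_num) (by norm_num), ENNReal.toReal_ofNat]
  have h1 : ∀ ζ : E3, ‖f ζ‖ₑ ^ (2 : ℝ) = ‖f ζ‖ₑ ^ 2 := fun ζ => ENNReal.rpow_two _
  simp only [h1]
  rw [← ENNReal.rpow_two, ← ENNReal.rpow_mul]
  norm_num

private theorem GsMem_quad {k : ℝ} (hk : 1 ≤ k) : (k : ℂ) ∈ Quad := by
  refine ⟨?_, ?_, ?_⟩
  · rw [Complex.ofReal_re]; linarith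
  · rw [Complex.ofReal_im]
  · intro h
    rw [Complex.ofReal_eq_zero] at h
    linarith

private theorem GsMem_w0 {s : ℝ} (h0 : 3 / 4 < s) (h2 : s < 2) {R : ℝ} (hR : 0 ≤ R) :
    ∃ C : ℝ, 0 ≤ C ∧ ∀ ξ : E3, 1 ≤ 2 * Real.pi * ‖ξ‖ →
      eLpNorm (gs s R (kx ξ)) 2 (volume : Measure E3) ≤
        ENNReal.ofReal (C * ‖ξ‖ ^ (2 - 2 * s)) := by
  obtain ⟨C, hC, H⟩ := gs_weight h0 h2 hR le_rfl zero_lt_one
  refine ⟨C, hC, fun ξ hξ => ?_⟩
  have h3 := H ξ hξ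
  simp only [mul_zero, neg_zero, Real.rpow_zero, ENNReal.ofReal_one, mul_one, sub_zero] at h3
  rw [← GsMem_eLp, ENNReal.ofReal_pow (by positivity)] at h3
  exact (ENNReal.pow_le_pow_left_iff two_ne_zero).1 h3

private theorem GsMem_norm (W : HS) :
    ENNReal.ofReal ‖W‖ = eLpNorm (W : E3 → ℂ) 2 (volume : Measure E3) := by
  rw [Lp.norm_def, ENNReal.ofReal_toReal (Lp.eLpNorm_ne_top W)]

/-- a common bound of the symbols for `1 ≤ k ≤ K` -/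
private theorem GsMem_dom {s : ℝ} (h0 : 3 / 4 < s) (h2 : s < 2) {R : ℝ} (hR : 0 ≤ R) {K : ℝ}
    (hK : 1 ≤ K) : ∃ M : ℝ, 0 ≤ M ∧ ∀ k : ℝ, 1 ≤ k → k ≤ K → ∀ᵐ ζ ∂(volume : Measure E3),
      ‖gs s R (k : ℂ) ζ‖ ≤ M * (1 + ‖ζ‖) ^ (-(min (2 * s) 2)) := by
  obtain ⟨C, hC, H⟩ := gs_decay (s := s) (by linarith) h2 hR
  refine ⟨C * (K ^ 2 * (2 * (1 + K)) + K ^ 2), by positivity, fun k hk1 hkK => ?_⟩
  filter_upwards [H k hk1] with ζ hζ
  refine hζ.trans ?_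
  set p : ℝ := min (2 * s) 2 with hp
  have hp0 : 0 < p := lt_min (by linarith) two_pos
  have hp2 : p ≤ 2 := min_le_right _ _
  set a : ℝ := 2 * Real.pi * ‖ζ‖ with ha
  have hz : 0 ≤ ‖ζ‖ := norm_nonneg ζ
  have hpi := Real.pi_gt_three
  have ha0 : ‖ζ‖ ≤ a := by rw [ha]; nlinarith
  have ha1 : 0 ≤ a := hz.trans ha0
  have hk0 : 0 < k := by linarith
  have hK0 : 0 < K := by linarith
  have e1 : k ^ (2 - 2 * s) ≤ K ^ 2 := by
    calc k ^ (2 - 2 * s) ≤ k ^ (2 : ℝ) :=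
          Real.rpow_le_rpow_of_exponent_le hk1 (by linarith)
      _ = k ^ 2 := Real.rpow_two k
      _ ≤ K ^ 2 := pow_le_pow_left₀ hk0.le hkK 2
  have e2 : 1 / (1 + |a - k|) ≤ (1 + K) / (1 + a) := by
    rw [div_le_div_iff₀ (by positivity) (by positivity), one_mul]
    have h5 := le_abs_self (a - k)
    have h6 := abs_nonneg (a - k)
    nlinarith [mul_nonneg hK0.le h6]
  have e3 : 1 / (1 + a) ≤ (1 + K) / (1 + a) :=
    div_le_div_of_nonneg_right (by linarith) (by positivity)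
  have e4 : k ^ (2 - 2 * s) / (k + a) ≤ K ^ 2 / (1 + a) :=
    div_le_div₀ (by positivity) e1 (by positivity) (by linarith)
  have e5 : k ^ (2 - 2 * s) / (k + a) * (1 / (1 + |a - k|) + 1 / (1 + a)) ≤
      K ^ 2 / (1 + a) * ((1 + K) / (1 + a) + (1 + K) / (1 + a)) :=
    mul_le_mul e4 (add_le_add e2 e3) (by positivity) (by positivity)
  have e6 : K ^ 2 / (1 + a) * ((1 + K) / (1 + a) + (1 + K) / (1 + a)) =
      K ^ 2 * (2 * (1 + K)) * (1 + a) ^ (-(2 : ℝ)) := by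
    rw [Real.rpow_neg (by positivity), Real.rpow_two]
    field_simp
    ring
  have e7 : (1 + a) ^ (-(2 : ℝ)) ≤ (1 + a) ^ (-p) :=
    Real.rpow_le_rpow_of_exponent_le (by linarith) (by linarith)
  have e8 : (1 + a) ^ (-p) ≤ (1 + ‖ζ‖) ^ (-p) :=
    Real.rpow_le_rpow_of_nonpos (by positivity) (by linarith) (by linarith)
  have e9 : k ^ (-(2 * s)) ≤ 1 := Real.rpow_le_one_of_one_le_of_nonpos hk1 (by linarith)
  have e10 : (1 + a / k) ^ (-p) ≤ K ^ 2 * (1 + a) ^ (-p) := by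
    have h5 : (1 + a) / K ≤ 1 + a / k := by
      rw [add_div]
      refine add_le_add ?_ ?_
      · rw [div_le_one hK0]; exact hK
      · exact div_le_div_of_nonneg_left ha1 hk0 hkK
    calc (1 + a / k) ^ (-p) ≤ ((1 + a) / K) ^ (-p) :=
          Real.rpow_le_rpow_of_nonpos (by positivity) h5 (by linarith)
      _ = K ^ p * (1 + a) ^ (-p) := by
          rw [Real.div_rpow (by positivity) hK0.le, Real.rpow_neg hK0.le, div_inv_eq_mul, mul_comm]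
      _ ≤ K ^ 2 * (1 + a) ^ (-p) := by
          refine mul_le_mul_of_nonneg_right ?_ (by positivity)
          rw [← Real.rpow_two]
          exact Real.rpow_le_rpow_of_exponent_le hK hp2
  have e11 : k ^ (-(2 * s)) * (1 + a / k) ^ (-p) ≤ 1 * (K ^ 2 * (1 + a) ^ (-p)) :=
    mul_le_mul e9 e10 (by positivity) zero_le_one
  rw [mul_assoc]
  refine mul_le_mul_of_nonneg_left ?_ hC
  rw [e6] at e5
  calc k ^ (2 - 2 * s) / (k + a) * (1 / (1 + |a - k|) + 1 / (1 + a)) +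
        k ^ (-(2 * s)) * (1 + a / k) ^ (-p)
      ≤ K ^ 2 * (2 * (1 + K)) * (1 + a) ^ (-(2 : ℝ)) + 1 * (K ^ 2 * (1 + a) ^ (-p)) :=
        add_le_add e5 e11
    _ ≤ K ^ 2 * (2 * (1 + K)) * (1 + a) ^ (-p) + 1 * (K ^ 2 * (1 + a) ^ (-p)) := by
        gcongr
    _ = (K ^ 2 * (2 * (1 + K)) + K ^ 2) * (1 + a) ^ (-p) := by ring
    _ ≤ (K ^ 2 * (2 * (1 + K)) + K ^ 2) * (1 + ‖ζ‖) ^ (-p) :=
        mul_le_mul_of_nonneg_left e8 (by positivity)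

theorem gs_memLp {s : ℝ} (h0 : 3 / 4 < s) (h2 : s < 2) {R : ℝ} (hR : 0 ≤ R) {k : ℝ} (hk : 1 ≤ k) :
    MemLp (gs s R (k : ℂ)) 2 (volume : Measure E3) := by
  have hpi := Real.pi_pos
  obtain ⟨C, hC, H⟩ := GsMem_w0 h0 h2 hR
  set ξ : E3 := EuclideanSpace.single 0 (k / (2 * Real.pi)) with hξ
  have hn : 2 * Real.pi * ‖ξ‖ = k := by
    have h5 : ‖ξ‖ = ‖k / (2 * Real.pi)‖ := PiLp.norm_single 2 (fun _ : Fin 3 => ℝ) 0 _
    rw [h5, Real.norm_of_nonneg (by positivity)]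
    field_simp
  have h3 := H ξ (by rw [hn]; exact hk)
  rw [kx, hn] at h3
  exact ⟨(GsMem_meas s R k).aestronglyMeasurable, h3.trans_lt ENNReal.ofReal_lt_top⟩

theorem norm_gsH_le {s : ℝ} (h0 : 3 / 4 < s) (h2 : s < 2) {r : ℝ} (hr : 0 ≤ r) :
    ∃ C : ℝ, 0 ≤ C ∧ ∀ ξ : E3, 1 ≤ 2 * Real.pi * ‖ξ‖ →
      ‖gsH s r (2 * Real.pi * ‖ξ‖)‖ ≤ C * ‖ξ‖ ^ (2 - 2 * s) := by
  obtain ⟨C, hC, H⟩ := GsMem_w0 h0 h2 (R := 2 * r) (by positivity)
  refine ⟨C, hC, fun ξ hξ => ?_⟩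
  have h3 := H ξ hξ
  have hm := gs_memLp h0 h2 (R := 2 * r) (by positivity) hξ
  have h4 := GsMem_norm (gsH s r (2 * Real.pi * ‖ξ‖))
  rw [eLpNorm_congr_ae (gsH_coe hm)] at h4
  have h5 : ENNReal.ofReal ‖gsH s r (2 * Real.pi * ‖ξ‖)‖ ≤
      ENNReal.ofReal (C * ‖ξ‖ ^ (2 - 2 * s)) := by
    rw [h4]; exact h3
  exact (ENNReal.ofReal_le_ofReal_iff (by positivity)).1 h5

theorem gsH_cont {s : ℝ} (h0 : 3 / 4 < s) (h2 : s < 2) {r : ℝ} (hr : 0 ≤ r) :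
    ContinuousOn (gsH s r) (Ici 1) := by
  intro k₀ hk₀
  have hk₀' : (1 : ℝ) ≤ k₀ := hk₀
  have hR : (0 : ℝ) ≤ 2 * r := by positivity
  rw [Metric.continuousWithinAt_iff]
  intro ε hε
  set p : ℝ := min (2 * s) 2 with hp
  have hp32 : 3 / 2 < p := lt_min (by linarith) (by norm_num)
  obtain ⟨M, hM, HM⟩ := GsMem_dom h0 h2 hR (K := 2 * k₀) (by linarith)
  set G : E3 → ℝ≥0∞ := fun ζ => ENNReal.ofReal ((2 * M) ^ 2 * (1 + ‖ζ‖) ^ (-(2 * p))) with hG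
  have hGm : Measurable G := by
    rw [hG]
    fun_prop
  have hGfin : ∫⁻ ζ, G ζ ≠ ∞ := by
    have h3 : Integrable (fun ζ : E3 => (1 + ‖ζ‖) ^ (-(2 * p))) (volume : Measure E3) := by
      refine integrable_one_add_norm ?_
      rw [finrank_euclideanSpace, Fintype.card_fin]
      push_cast
      linarith
    exact (h3.const_mul ((2 * M) ^ 2)).lintegral_lt_top.ne
  have hlim : Tendsto (fun n : ℕ => ∫⁻ ζ, min (ENNReal.ofReal ((1 / ((n : ℝ) + 1)) ^ 2)) (G ζ))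
      atTop (𝓝 (∫⁻ _ζ : E3, (0 : ℝ≥0∞))) := by
    refine tendsto_lintegral_of_dominated_convergence G (fun n => measurable_const.min hGm)
      (fun n => Eventually.of_forall fun ζ => min_le_right _ _) hGfin
      (Eventually.of_forall fun ζ => ?_)
    have h3 : Tendsto (fun n : ℕ => ENNReal.ofReal ((1 / ((n : ℝ) + 1)) ^ 2)) atTop (𝓝 0) := by
      have h4 : Tendsto (fun n : ℕ => (1 / ((n : ℝ) + 1)) ^ 2) atTop (𝓝 (0 ^ 2)) :=
        tendsto_one_div_add_atTop_nhds_zero_nat.pow 2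
      have h5 := ENNReal.tendsto_ofReal h4
      simpa using h5
    exact tendsto_of_tendsto_of_tendsto_of_le_of_le tendsto_const_nhds h3
      (fun n => bot_le) (fun n => min_le_left _ _)
  rw [lintegral_zero] at hlim
  have hεpos : (0 : ℝ≥0∞) < ENNReal.ofReal ε ^ 2 := by
    have := ENNReal.ofReal_pos.2 hε
    positivity
  obtain ⟨n, hn⟩ := (hlim.eventually (gt_mem_nhds hεpos)).exists
  obtain ⟨δ, hδ, Hδ⟩ := gs_cont (s := s) (by linarith) h2 hR (GsMem_quad hk₀')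
    (ε := 1 / ((n : ℝ) + 1)) (by positivity)
  refine ⟨min δ k₀, lt_min hδ (by linarith), fun k hk hkd => ?_⟩
  have hk' : (1 : ℝ) ≤ k := hk
  rw [Real.dist_eq] at hkd
  have hkd1 : |k - k₀| < δ := hkd.trans_le (min_le_left _ _)
  have hkd2 : |k - k₀| < k₀ := hkd.trans_le (min_le_right _ _)
  have hkK : k ≤ 2 * k₀ := by
    have := le_abs_self (k - k₀)
    linarith
  have hm := gs_memLp h0 h2 hR hk'
  have hm₀ := gs_memLp h0 h2 hR hk₀'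
  have h3 := Hδ (k : ℂ) (GsMem_quad hk') (by
    rw [← Complex.ofReal_sub, Complex.norm_real, Real.norm_eq_abs]
    exact hkd1)
  have hle : ∫⁻ ζ, ‖gs s (2 * r) (k : ℂ) ζ - gs s (2 * r) (k₀ : ℂ) ζ‖ₑ ^ 2 ≤
      ∫⁻ ζ, min (ENNReal.ofReal ((1 / ((n : ℝ) + 1)) ^ 2)) (G ζ) := by
    refine lintegral_mono_ae ?_
    filter_upwards [h3, HM k hk' hkK, HM k₀ hk₀' (by linarith)] with ζ a b c
    rw [← ofReal_norm, ← ENNReal.ofReal_pow (norm_nonneg _)]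
    refine le_min (ENNReal.ofReal_le_ofReal (pow_le_pow_left₀ (norm_nonneg _) a 2))
      (ENNReal.ofReal_le_ofReal ?_)
    have h4 : ‖gs s (2 * r) (k : ℂ) ζ - gs s (2 * r) (k₀ : ℂ) ζ‖ ≤
        (2 * M) * (1 + ‖ζ‖) ^ (-p) := by
      refine (norm_sub_le _ _).trans ?_
      linarith
    refine (pow_le_pow_left₀ (norm_nonneg _) h4 2).trans (le_of_eq ?_)
    rw [mul_pow, ← Real.rpow_two ((1 + ‖ζ‖) ^ (-p)), ← Real.rpow_mul (by positivity)]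
    congr 2
    ring
  have h5 : ENNReal.ofReal ‖gsH s r k - gsH s r k₀‖ ^ 2 < ENNReal.ofReal ε ^ 2 := by
    rw [GsMem_norm, GsMem_eLp]
    refine lt_of_le_of_lt (le_of_eq ?_) (hle.trans_lt hn)
    refine lintegral_congr_ae ?_
    filter_upwards [Lp.coeFn_sub (gsH s r k) (gsH s r k₀), gsH_coe hm, gsH_coe hm₀] with ζ a b c
    rw [a, Pi.sub_apply, b, c]
  rw [dist_eq_norm]
  have h6 : ENNReal.ofReal ‖gsH s r k - gsH s r k₀‖ < ENNReal.ofReal ε :=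
    lt_of_not_ge fun h7 => absurd (pow_le_pow_left' h7 2) (not_le.2 h5)
  exact (ENNReal.ofReal_lt_ofReal_iff hε).1 h6

end FracScatC

end
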