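import Pool.Agent.Lib.MP_6e2ba5_an.Stmt

/-! # Two one-variable integrals

Both are elementary. Write `k = 2πκ ≥ 1`, `a = 2πρ`.
First: for `ρ ≤ 2κ` the factor `1/(κ+ρ)² ≤ 1/κ²`, `ρ ≤ 2κ`, `(x+y)² ≤ 2x²+2y²`, and
`∫_ℝ dρ/(1+2π|ρ-κ|)² ≤ 1`, `∫_0^∞ dρ/(1+2πρ)² ≤ 1`; so the first term is
`≤ κ · 2κ/κ² · 4 = 8`. For `ρ > 2κ`: `|a-k| ≥ a/2 = πρ`, so the bracket is `≤ 2/(1+πρ) ≤ 1/ρ`
and the integrand is `≤ ρ^(-2) · ρ^(-2) · ρ² = ρ^(-2)`, whose integral is `1/(2κ) ≤ π`.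
Second: for `ρ ≤ 2κ` the power is `≤ 1`: `κ ∫_0^(2κ) ρ dρ = 2κ³`; for `ρ > 2κ`:
`(1+ρ/κ)^(-2p) ≤ (ρ/κ)^(-2p)` and `∫_(2κ)^∞ ρ^(2-2p) dρ = (2κ)^(3-2p)/(2p-3)`. -/

set_option autoImplicit false

open MeasureTheory Filter Topology Set
open scoped FourierTransform SchwartzMap InnerProductSpace ENNReal BoundedContinuousFunction

noncomputable section

namespace FracScatC

open FracScat

private lemma oneD_tail {a c : ℝ} (ha : a < -1) (hc : 0 < c) :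
    ∫⁻ t in Ioi c, ENNReal.ofReal (t ^ a) = ENNReal.ofReal (-c ^ (a + 1) / (a + 1)) := by
  rw [← integral_Ioi_rpow_of_lt ha hc, ofReal_integral_eq_lintegral_ofReal]
  · exact integrableOn_Ioi_rpow_of_lt ha hc
  · filter_upwards [ae_restrict_mem measurableSet_Ioi] with t ht
    exact Real.rpow_nonneg (hc.trans ht).le _

private lemma oneD_cauchy (c : ℝ) :
    ∫⁻ x : ℝ, ENNReal.ofReal ((1 + (x - c) ^ 2)⁻¹) = ENNReal.ofReal Real.pi := by
  rw [lintegral_sub_right_eq_self (fun x : ℝ => ENNReal.ofReal ((1 + x ^ 2)⁻¹)) c,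
    ← integral_univ_inv_one_add_sq, ofReal_integral_eq_lintegral_ofReal]
  · exact integrable_inv_one_add_sq
  · filter_upwards with t
    positivity

private lemma oneD_A {t : ℝ} : (1 / (1 + 2 * Real.pi * |t|)) ^ 2 ≤ (1 + t ^ 2)⁻¹ := by
  rw [one_div, inv_pow]
  apply inv_anti₀ (by positivity)
  have h1 : |t| ≤ 2 * Real.pi * |t| := by
    have := Real.pi_gt_three
    nlinarith [abs_nonneg t]
  have h2 : t ^ 2 = |t| ^ 2 := (sq_abs t).symm
  rw [h2]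
  nlinarith [abs_nonneg t]

private lemma oneD_pt1 {κ ρ : ℝ} (hκ : 0 < κ) (h0 : 0 < ρ) (h1 : ρ ≤ 2 * κ) :
    (1 / (κ + ρ) * (1 / (1 + 2 * Real.pi * |ρ - κ|) + 1 / (1 + 2 * Real.pi * ρ))) ^ 2 * ρ ≤
      4 / κ * ((1 + (ρ - κ) ^ 2)⁻¹ + (1 + (ρ - 0) ^ 2)⁻¹) := by
  have hA := oneD_A (t := ρ - κ)
  have hB := oneD_A (t := ρ - 0)
  rw [abs_of_pos (by linarith : (0 : ℝ) < ρ - 0)] at hB
  set A := 1 / (1 + 2 * Real.pi * |ρ - κ|) with hAd
  have hB' : (1 / (1 + 2 * Real.pi * ρ)) ^ 2 ≤ (1 + (ρ - 0) ^ 2)⁻¹ := by simpa using hB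
  set B := 1 / (1 + 2 * Real.pi * ρ) with hBd
  have hK : (1 / (κ + ρ)) ^ 2 ≤ (1 / κ) ^ 2 := by
    apply pow_le_pow_left₀ (by positivity)
    exact one_div_le_one_div_of_le hκ (by linarith)
  have hAB : (A + B) ^ 2 ≤ 2 * A ^ 2 + 2 * B ^ 2 := by nlinarith [sq_nonneg (A - B)]
  calc (1 / (κ + ρ) * (A + B)) ^ 2 * ρ = (1 / (κ + ρ)) ^ 2 * (A + B) ^ 2 * ρ := by ring
    _ ≤ (1 / κ) ^ 2 * (2 * A ^ 2 + 2 * B ^ 2) * (2 * κ) := by gcongr
    _ = 4 / κ * (A ^ 2 + B ^ 2) := by field_simp; ring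
    _ ≤ 4 / κ * ((1 + (ρ - κ) ^ 2)⁻¹ + (1 + (ρ - 0) ^ 2)⁻¹) := by gcongr

private lemma oneD_pt2 {κ ρ : ℝ} (hκ : 0 < κ) (h1 : 2 * κ < ρ) :
    (1 / (κ + ρ) * (1 / (1 + 2 * Real.pi * |ρ - κ|) + 1 / (1 + 2 * Real.pi * ρ))) ^ 2 * ρ ^ 2 ≤
      4 * ρ ^ (-2 : ℝ) := by
  have h0 : 0 < ρ := by linarith
  have hp := Real.pi_gt_three
  have hA : 1 / (1 + 2 * Real.pi * |ρ - κ|) ≤ 1 / ρ := by
    apply one_div_le_one_div_of_le h0
    rw [abs_of_pos (by linarith)]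
    nlinarith
  have hB : 1 / (1 + 2 * Real.pi * ρ) ≤ 1 / ρ := by
    apply one_div_le_one_div_of_le h0
    nlinarith
  have hK : 1 / (κ + ρ) ≤ 1 / ρ := one_div_le_one_div_of_le h0 (by linarith)
  have hr : ρ ^ (-2 : ℝ) = (ρ ^ 2)⁻¹ := by
    rw [Real.rpow_neg h0.le, Real.rpow_two]
  rw [hr]
  calc (1 / (κ + ρ) * (1 / (1 + 2 * Real.pi * |ρ - κ|) + 1 / (1 + 2 * Real.pi * ρ))) ^ 2 * ρ ^ 2
      ≤ (1 / ρ * (1 / ρ + 1 / ρ)) ^ 2 * ρ ^ 2 := by gcongr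
    _ = 4 * (ρ ^ 2)⁻¹ := by field_simp; ring

theorem oneD_a : ∃ C : ℝ, 0 ≤ C ∧ ∀ κ : ℝ, 1 ≤ 2 * Real.pi * κ →
    ENNReal.ofReal κ * (∫⁻ ρ in Ioc 0 (2 * κ), ENNReal.ofReal
      ((1 / (κ + ρ) * (1 / (1 + 2 * Real.pi * |ρ - κ|) + 1 / (1 + 2 * Real.pi * ρ))) ^ 2) *
        ENNReal.ofReal ρ) +
      (∫⁻ ρ in Ioi (2 * κ), ENNReal.ofReal
      ((1 / (κ + ρ) * (1 / (1 + 2 * Real.pi * |ρ - κ|) + 1 / (1 + 2 * Real.pi * ρ))) ^ 2) *
        ENNReal.ofReal (ρ ^ 2)) ≤ ENNReal.ofReal C := by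
  have hp := Real.pi_pos
  refine ⟨12 * Real.pi, by positivity, fun κ hκ => ?_⟩
  have hκ0 : 0 < κ := by
    by_contra h
    rw [not_lt] at h
    nlinarith
  have hm1 : Measurable fun x : ℝ => ENNReal.ofReal ((1 + (x - κ) ^ 2)⁻¹) := by fun_prop
  have hm2 : Measurable fun x : ℝ => ENNReal.ofReal ((1 + (x - 0) ^ 2)⁻¹) := by fun_prop
  have h1 : ENNReal.ofReal κ * (∫⁻ ρ in Ioc 0 (2 * κ), ENNReal.ofReal
      ((1 / (κ + ρ) * (1 / (1 + 2 * Real.pi * |ρ - κ|) + 1 / (1 + 2 * Real.pi * ρ))) ^ 2) *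
        ENNReal.ofReal ρ) ≤ ENNReal.ofReal (8 * Real.pi) := by
    calc ENNReal.ofReal κ * (∫⁻ ρ in Ioc 0 (2 * κ), ENNReal.ofReal
          ((1 / (κ + ρ) * (1 / (1 + 2 * Real.pi * |ρ - κ|) + 1 / (1 + 2 * Real.pi * ρ))) ^ 2) *
          ENNReal.ofReal ρ)
        ≤ ENNReal.ofReal κ * (∫⁻ ρ in Ioc 0 (2 * κ), ENNReal.ofReal (4 / κ) *
          (ENNReal.ofReal ((1 + (ρ - κ) ^ 2)⁻¹) + ENNReal.ofReal ((1 + (ρ - 0) ^ 2)⁻¹))) := by
          refine mul_le_mul_right ?_ _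
          refine setLIntegral_mono' measurableSet_Ioc fun ρ hρ => ?_
          rw [← ENNReal.ofReal_mul (by positivity), ← ENNReal.ofReal_add (by positivity)
            (by positivity), ← ENNReal.ofReal_mul (by positivity)]
          exact ENNReal.ofReal_le_ofReal (oneD_pt1 hκ0 hρ.1 hρ.2)
      _ ≤ ENNReal.ofReal κ * (∫⁻ ρ, ENNReal.ofReal (4 / κ) *
          (ENNReal.ofReal ((1 + (ρ - κ) ^ 2)⁻¹) + ENNReal.ofReal ((1 + (ρ - 0) ^ 2)⁻¹))) := by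
          refine mul_le_mul_right ?_ _
          exact setLIntegral_le_lintegral _ _
      _ = ENNReal.ofReal κ * (ENNReal.ofReal (4 / κ) *
          (ENNReal.ofReal Real.pi + ENNReal.ofReal Real.pi)) := by
          rw [lintegral_const_mul' _ _ ENNReal.ofReal_ne_top, lintegral_add_left hm1, oneD_cauchy,
            oneD_cauchy]
      _ = ENNReal.ofReal (8 * Real.pi) := by
          rw [← ENNReal.ofReal_add hp.le hp.le, ← ENNReal.ofReal_mul (by positivity),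
            ← ENNReal.ofReal_mul hκ0.le]
          congr 1
          field_simp
          ring
  have h2 : (∫⁻ ρ in Ioi (2 * κ), ENNReal.ofReal
      ((1 / (κ + ρ) * (1 / (1 + 2 * Real.pi * |ρ - κ|) + 1 / (1 + 2 * Real.pi * ρ))) ^ 2) *
        ENNReal.ofReal (ρ ^ 2)) ≤ ENNReal.ofReal (4 * Real.pi) := by
    calc (∫⁻ ρ in Ioi (2 * κ), ENNReal.ofReal
          ((1 / (κ + ρ) * (1 / (1 + 2 * Real.pi * |ρ - κ|) + 1 / (1 + 2 * Real.pi * ρ))) ^ 2) *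
          ENNReal.ofReal (ρ ^ 2))
        ≤ ∫⁻ ρ in Ioi (2 * κ), ENNReal.ofReal 4 * ENNReal.ofReal (ρ ^ (-2 : ℝ)) := by
          refine setLIntegral_mono' measurableSet_Ioi fun ρ hρ => ?_
          rw [← ENNReal.ofReal_mul (by positivity), ← ENNReal.ofReal_mul (by norm_num)]
          exact ENNReal.ofReal_le_ofReal (oneD_pt2 hκ0 hρ)
      _ = ENNReal.ofReal 4 * ENNReal.ofReal (-(2 * κ) ^ ((-2 : ℝ) + 1) / ((-2 : ℝ) + 1)) := by
          rw [lintegral_const_mul' _ _ ENNReal.ofReal_ne_top,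
            oneD_tail (by norm_num) (by positivity)]
      _ ≤ ENNReal.ofReal (4 * Real.pi) := by
          rw [← ENNReal.ofReal_mul (by norm_num)]
          apply ENNReal.ofReal_le_ofReal
          have e : ((-2 : ℝ) + 1) = -1 := by norm_num
          rw [e, Real.rpow_neg_one]
          have h3 : (2 * κ)⁻¹ ≤ Real.pi := by
            rw [inv_le_comm₀ (by positivity) hp]
            rw [inv_le_iff_one_le_mul₀ hp]
            linarith
          have h4 : -(2 * κ)⁻¹ / (-1) = (2 * κ)⁻¹ := by ring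
          rw [h4]
          linarith
  calc _ ≤ ENNReal.ofReal (8 * Real.pi) + ENNReal.ofReal (4 * Real.pi) := add_le_add h1 h2
    _ = ENNReal.ofReal (12 * Real.pi) := by
      rw [← ENNReal.ofReal_add (by positivity) (by positivity)]
      congr 1
      ring

theorem oneD_b {p : ℝ} (hp : 3 / 2 < p) : ∃ C : ℝ, 0 ≤ C ∧ ∀ κ : ℝ, 0 < κ →
    ENNReal.ofReal κ * (∫⁻ ρ in Ioc 0 (2 * κ), ENNReal.ofReal (((1 + ρ / κ) ^ (-p)) ^ 2) *
        ENNReal.ofReal ρ) +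
      (∫⁻ ρ in Ioi (2 * κ), ENNReal.ofReal (((1 + ρ / κ) ^ (-p)) ^ 2) *
        ENNReal.ofReal (ρ ^ 2)) ≤ ENNReal.ofReal (C * κ ^ (3 : ℝ)) := by
  have hp' : 0 < 2 * p - 3 := by linarith
  refine ⟨4 + 1 / (2 * p - 3), by positivity, fun κ hκ => ?_⟩
  have hk3 : κ ^ (3 : ℝ) = κ ^ 3 := by
    rw [show (3 : ℝ) = ((3 : ℕ) : ℝ) by norm_num, Real.rpow_natCast]
  rw [hk3]
  have h1 : ENNReal.ofReal κ * (∫⁻ ρ in Ioc 0 (2 * κ), ENNReal.ofReal (((1 + ρ / κ) ^ (-p)) ^ 2) *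
        ENNReal.ofReal ρ) ≤ ENNReal.ofReal (4 * κ ^ 3) := by
    calc ENNReal.ofReal κ * (∫⁻ ρ in Ioc 0 (2 * κ), ENNReal.ofReal (((1 + ρ / κ) ^ (-p)) ^ 2) *
          ENNReal.ofReal ρ)
        ≤ ENNReal.ofReal κ * (∫⁻ _ρ in Ioc 0 (2 * κ), ENNReal.ofReal (2 * κ)) := by
          refine mul_le_mul_right ?_ _
          refine setLIntegral_mono' measurableSet_Ioc fun ρ hρ => ?_
          rw [← ENNReal.ofReal_mul (by positivity)]
          apply ENNReal.ofReal_le_ofReal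
          have h0 : 0 ≤ ρ / κ := div_nonneg hρ.1.le hκ.le
          have h2 : (1 + ρ / κ) ^ (-p) ≤ 1 :=
            Real.rpow_le_one_of_one_le_of_nonpos (by linarith) (by linarith)
          have h3 : ((1 + ρ / κ) ^ (-p)) ^ 2 ≤ 1 :=
            pow_le_one₀ (Real.rpow_nonneg (by linarith) _) h2
          calc ((1 + ρ / κ) ^ (-p)) ^ 2 * ρ ≤ 1 * ρ := mul_le_mul_of_nonneg_right h3 hρ.1.le
            _ ≤ 2 * κ := by linarith [hρ.2]
      _ = ENNReal.ofReal (4 * κ ^ 3) := by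
          rw [setLIntegral_const, Real.volume_Ioc, ← ENNReal.ofReal_mul (by positivity),
            ← ENNReal.ofReal_mul hκ.le]
          congr 1
          ring
  have h2 : (∫⁻ ρ in Ioi (2 * κ), ENNReal.ofReal (((1 + ρ / κ) ^ (-p)) ^ 2) *
        ENNReal.ofReal (ρ ^ 2)) ≤ ENNReal.ofReal (1 / (2 * p - 3) * κ ^ 3) := by
    calc (∫⁻ ρ in Ioi (2 * κ), ENNReal.ofReal (((1 + ρ / κ) ^ (-p)) ^ 2) *
          ENNReal.ofReal (ρ ^ 2))
        ≤ ∫⁻ ρ in Ioi (2 * κ), ENNReal.ofReal (κ ^ (2 * p)) *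
          ENNReal.ofReal (ρ ^ (2 - 2 * p)) := by
          refine setLIntegral_mono' measurableSet_Ioi fun ρ hρ => ?_
          rw [mem_Ioi] at hρ
          have h0 : 0 < ρ := by linarith
          rw [← ENNReal.ofReal_mul (by positivity), ← ENNReal.ofReal_mul (by positivity)]
          apply ENNReal.ofReal_le_ofReal
          have h3 : (1 + ρ / κ) ^ (-p) ≤ (ρ / κ) ^ (-p) :=
            Real.rpow_le_rpow_of_nonpos (div_pos h0 hκ) (by linarith) (by linarith)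
          have h4 : ((ρ / κ) ^ (-p)) ^ 2 * ρ ^ 2 = κ ^ (2 * p) * ρ ^ (2 - 2 * p) := by
            have e1 : ((ρ / κ) ^ (-p)) ^ 2 = (ρ / κ) ^ (-(2 * p)) := by
              rw [← Real.rpow_natCast, ← Real.rpow_mul (div_pos h0 hκ).le]
              congr 1
              push_cast
              ring
            rw [e1, Real.rpow_neg (div_pos h0 hκ).le, Real.div_rpow h0.le hκ.le, inv_div,
              Real.rpow_sub h0, Real.rpow_two]
            ring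
          calc ((1 + ρ / κ) ^ (-p)) ^ 2 * ρ ^ 2 ≤ ((ρ / κ) ^ (-p)) ^ 2 * ρ ^ 2 := by
                apply mul_le_mul_of_nonneg_right _ (by positivity)
                exact pow_le_pow_left₀ (Real.rpow_nonneg (by positivity) _) h3 2
            _ = _ := h4
      _ = ENNReal.ofReal (κ ^ (2 * p)) *
          ENNReal.ofReal (-(2 * κ) ^ ((2 - 2 * p) + 1) / ((2 - 2 * p) + 1)) := by
          rw [lintegral_const_mul' _ _ ENNReal.ofReal_ne_top,
            oneD_tail (by linarith) (by positivity)]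
      _ ≤ ENNReal.ofReal (1 / (2 * p - 3) * κ ^ 3) := by
          rw [← ENNReal.ofReal_mul (by positivity)]
          apply ENNReal.ofReal_le_ofReal
          have e : (2 - 2 * p) + 1 = 3 - 2 * p := by ring
          have e2 : -(2 * κ) ^ (3 - 2 * p) / (3 - 2 * p) = (2 * κ) ^ (3 - 2 * p) / (2 * p - 3) := by
            rw [neg_div, ← div_neg]
            congr 1
            ring
          have e3 : (2 * κ) ^ (3 - 2 * p) = 2 ^ (3 - 2 * p) * κ ^ (3 - 2 * p) :=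
            Real.mul_rpow (by norm_num) hκ.le
          have e4 : κ ^ (2 * p) * κ ^ (3 - 2 * p) = κ ^ 3 := by
            rw [← Real.rpow_add hκ, ← hk3]
            congr 1
            ring
          have e5 : (2 : ℝ) ^ (3 - 2 * p) ≤ 1 :=
            Real.rpow_le_one_of_one_le_of_nonpos (by norm_num) (by linarith)
          rw [e, e2, e3]
          calc κ ^ (2 * p) * (2 ^ (3 - 2 * p) * κ ^ (3 - 2 * p) / (2 * p - 3))
              = 2 ^ (3 - 2 * p) * (1 / (2 * p - 3) * (κ ^ (2 * p) * κ ^ (3 - 2 * p))) := by ring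
            _ ≤ 1 * (1 / (2 * p - 3) * (κ ^ (2 * p) * κ ^ (3 - 2 * p))) := by
                apply mul_le_mul_of_nonneg_right e5
                positivity
            _ = 1 / (2 * p - 3) * κ ^ 3 := by rw [e4, one_mul]
  calc _ ≤ ENNReal.ofReal (4 * κ ^ 3) + ENNReal.ofReal (1 / (2 * p - 3) * κ ^ 3) :=
        add_le_add h1 h2
    _ = ENNReal.ofReal ((4 + 1 / (2 * p - 3)) * κ ^ 3) := by
      rw [← ENNReal.ofReal_add (by positivity) (by positivity)]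
      congr 1
      ring

end FracScatC

end
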