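import Pool.Agent.Lib.MP_6e2ba5_an.Cx.GsD
import Pool.Agent.Lib.MP_6e2ba5_an.Cx.Bip
import Pool.Agent.Lib.MP_6e2ba5_an.Cx.OneD
import Pool.Agent.Lib.MP_6e2ba5_an.Cx.WDefs

/-! # The weighted `L²` norm of the symbol

Assembly of `gs_decay`, `bipolar`, `oneD_a`, `oneD_b`. With `κ = ‖ξ‖`, `k = 2πκ`, `a = 2πρ`, `ρ = ‖ζ‖`,
`p = min (2s) 2 > 3/2`:
`‖gs‖ₑ² ≤ 2C² (k^(4-4s) (1/(k+a) · (1/(1+|a-k|) + 1/(1+a)))² + k^(-4s) ((1+ρ/κ)^(-p))²)` a.e., where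
`1/(k+a) = 1/(2π(κ+ρ)) ≤ 1/(κ+ρ)`, `|a-k| = 2π|ρ-κ|`. Apply `bipolar` to the two radial functions
`F₁(ρ) = ofReal ((1/(κ+ρ) · (...))²)` and `F₂(ρ) = ofReal (((1+ρ/κ)^(-p))²)`:
total `≤ C' κ^(-2σ) (κ^(4-4s) · C + κ^(-4s) · C κ³)`, and `κ^(3-4s) ≤ (2π) κ^(4-4s)` as `κ ≥ 1/(2π)`.
The square of the right side is `C² κ^(4-4s-2σ)`. (`kx ξ = ((2π‖ξ‖ : ℝ) : ℂ)` by definition.) -/

set_option autoImplicit false

open MeasureTheory Filter Topology Set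
open scoped FourierTransform SchwartzMap InnerProductSpace ENNReal BoundedContinuousFunction

noncomputable section

namespace FracScatC

open FracScat

private theorem GsW_abs {κ ρ : ℝ} : |2 * Real.pi * ρ - 2 * Real.pi * κ| = 2 * Real.pi * |ρ - κ| := by
  rw [← mul_sub, abs_mul, abs_of_pos (by positivity)]

private theorem GsW_final {C0 Cb Ca Cd s σ κ : ℝ} (hC0 : 0 ≤ C0) (hCb : 0 ≤ Cb)
    (hCd : 0 ≤ Cd) (hκ : 0 < κ) (hk : 1 ≤ 2 * Real.pi * κ) :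
    2 * C0 ^ 2 * ((2 * Real.pi * κ) ^ (2 - 2 * s) / (2 * Real.pi)) ^ 2 *
        (Cb * κ ^ (-(2 * σ)) * Ca) +
      2 * C0 ^ 2 * ((2 * Real.pi * κ) ^ (-(2 * s))) ^ 2 *
        (Cb * κ ^ (-(2 * σ)) * (Cd * κ ^ (3 : ℝ))) ≤
    (2 * C0 ^ 2 * (((2 * Real.pi) ^ (2 - 2 * s) / (2 * Real.pi)) ^ 2 * (Cb * Ca) +
      ((2 * Real.pi) ^ (-(2 * s))) ^ 2 * (Cb * Cd) * (2 * Real.pi))) *
      (κ ^ (2 - 2 * s - σ)) ^ 2 := by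
  have hq : (0 : ℝ) < 2 * Real.pi := by positivity
  rw [Real.mul_rpow hq.le hκ.le, Real.mul_rpow hq.le hκ.le]
  have e1 : (κ ^ (2 - 2 * s)) ^ 2 * κ ^ (-(2 * σ)) = (κ ^ (2 - 2 * s - σ)) ^ 2 := by
    rw [← Real.rpow_natCast, ← Real.rpow_natCast, ← Real.rpow_mul hκ.le, ← Real.rpow_mul hκ.le,
      ← Real.rpow_add hκ]
    congr 1
    push_cast
    ring
  have e2 : (κ ^ (-(2 * s))) ^ 2 * κ ^ (-(2 * σ)) * κ ^ (3 : ℝ) * κ =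
      (κ ^ (2 - 2 * s - σ)) ^ 2 := by
    rw [← Real.rpow_natCast, ← Real.rpow_natCast, ← Real.rpow_mul hκ.le, ← Real.rpow_mul hκ.le,
      ← Real.rpow_add hκ, ← Real.rpow_add hκ]
    nth_rw 2 [← Real.rpow_one κ]
    rw [← Real.rpow_add hκ]
    congr 1
    push_cast
    ring
  set X := (κ ^ (2 - 2 * s - σ)) ^ 2 with hX
  have hX0 : 0 ≤ X := by positivity
  set Y := (κ ^ (-(2 * s))) ^ 2 * κ ^ (-(2 * σ)) * κ ^ (3 : ℝ) with hY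
  have hY0 : 0 ≤ Y := by positivity
  have hYX : Y ≤ X * (2 * Real.pi) := by
    have h1 : Y * 1 ≤ Y * (2 * Real.pi * κ) := mul_le_mul_of_nonneg_left hk hY0
    calc Y = Y * 1 := by ring
      _ ≤ Y * (2 * Real.pi * κ) := h1
      _ = (Y * κ) * (2 * Real.pi) := by ring
      _ = X * (2 * Real.pi) := by rw [e2]
  have h2 : 2 * C0 ^ 2 * ((2 * Real.pi) ^ (-(2 * s))) ^ 2 * (Cb * Cd) * Y ≤
      2 * C0 ^ 2 * ((2 * Real.pi) ^ (-(2 * s))) ^ 2 * (Cb * Cd) * (X * (2 * Real.pi)) := by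
    refine mul_le_mul_of_nonneg_left hYX ?_
    have : 0 ≤ Cb * Cd := mul_nonneg hCb hCd
    positivity
  calc 2 * C0 ^ 2 * ((2 * Real.pi) ^ (2 - 2 * s) * κ ^ (2 - 2 * s) / (2 * Real.pi)) ^ 2 *
        (Cb * κ ^ (-(2 * σ)) * Ca) +
      2 * C0 ^ 2 * ((2 * Real.pi) ^ (-(2 * s)) * κ ^ (-(2 * s))) ^ 2 *
        (Cb * κ ^ (-(2 * σ)) * (Cd * κ ^ (3 : ℝ)))
      = 2 * C0 ^ 2 * ((2 * Real.pi) ^ (2 - 2 * s) / (2 * Real.pi)) ^ 2 * (Cb * Ca) *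
          ((κ ^ (2 - 2 * s)) ^ 2 * κ ^ (-(2 * σ))) +
        2 * C0 ^ 2 * ((2 * Real.pi) ^ (-(2 * s))) ^ 2 * (Cb * Cd) * Y := by
        rw [hY]; ring
    _ ≤ 2 * C0 ^ 2 * ((2 * Real.pi) ^ (2 - 2 * s) / (2 * Real.pi)) ^ 2 * (Cb * Ca) * X +
        2 * C0 ^ 2 * ((2 * Real.pi) ^ (-(2 * s))) ^ 2 * (Cb * Cd) * (X * (2 * Real.pi)) := by
        rw [e1]
        linarith
    _ = _ := by ring

theorem gs_weight {s : ℝ} (h0 : 3 / 4 < s) (h2 : s < 2) {R : ℝ} (hR : 0 ≤ R) {σ : ℝ}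
    (hσ0 : 0 ≤ σ) (hσ1 : σ < 1) :
    ∃ C : ℝ, 0 ≤ C ∧ ∀ ξ : E3, 1 ≤ 2 * Real.pi * ‖ξ‖ →
      ∫⁻ ζ, ‖gs s R (kx ξ) ζ‖ₑ ^ 2 * ENNReal.ofReal ((1 + ‖ζ - ξ‖) ^ (-(2 * σ))) ≤
        ENNReal.ofReal ((C * ‖ξ‖ ^ (2 - 2 * s - σ)) ^ 2) := by
  obtain ⟨C0, hC0, hgs⟩ := gs_decay (s := s) (by linarith) h2 hR
  obtain ⟨Cb, hCb, hbip⟩ := bipolar hσ0 hσ1
  obtain ⟨Ca, hCa, hoa⟩ := oneD_a
  have hp : 3 / 2 < min (2 * s) 2 := lt_min (by linarith) (by norm_num)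
  obtain ⟨Cd, hCd, hod⟩ := oneD_b hp
  have hq : (0 : ℝ) < 2 * Real.pi := by positivity
  set K : ℝ := 2 * C0 ^ 2 * (((2 * Real.pi) ^ (2 - 2 * s) / (2 * Real.pi)) ^ 2 * (Cb * Ca) +
      ((2 * Real.pi) ^ (-(2 * s))) ^ 2 * (Cb * Cd) * (2 * Real.pi)) with hKdef
  have hK : 0 ≤ K := by
    have h3 : 0 ≤ Cb * Ca := mul_nonneg hCb hCa
    have h4 : 0 ≤ Cb * Cd := mul_nonneg hCb hCd
    positivity
  refine ⟨Real.sqrt K, Real.sqrt_nonneg _, fun ξ hξ => ?_⟩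
  have hκ : 0 < ‖ξ‖ := by
    by_contra h
    have h5 : ‖ξ‖ = 0 := le_antisymm (not_lt.1 h) (norm_nonneg _)
    rw [h5, mul_zero] at hξ
    linarith
  have hξ0 : ξ ≠ 0 := norm_pos_iff.1 hκ
  set κ := ‖ξ‖ with hκdef
  set a : ℝ → ℝ := fun ρ =>
    1 / (κ + ρ) * (1 / (1 + 2 * Real.pi * |ρ - κ|) + 1 / (1 + 2 * Real.pi * ρ)) with ha
  set b : ℝ → ℝ := fun ρ => (1 + ρ / κ) ^ (-(min (2 * s) 2)) with hb
  have hma : Measurable a := by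
    rw [ha]
    fun_prop
  have hmb : Measurable b := by
    rw [hb]
    fun_prop
  set c1 : ℝ := 2 * C0 ^ 2 * ((2 * Real.pi * κ) ^ (2 - 2 * s) / (2 * Real.pi)) ^ 2 with hc1
  set c2 : ℝ := 2 * C0 ^ 2 * ((2 * Real.pi * κ) ^ (-(2 * s))) ^ 2 with hc2
  have hc1' : 0 ≤ c1 := by positivity
  have hc2' : 0 ≤ c2 := by positivity
  have hpt : ∀ᵐ ζ ∂(volume : Measure E3), ‖gs s R (kx ξ) ζ‖ₑ ^ 2 ≤
      ENNReal.ofReal c1 * ENNReal.ofReal (a ‖ζ‖ ^ 2) +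
        ENNReal.ofReal c2 * ENNReal.ofReal (b ‖ζ‖ ^ 2) := by
    filter_upwards [hgs (2 * Real.pi * κ) hξ] with ζ hζ
    have e0 : 0 ≤ ‖ζ‖ := norm_nonneg _
    have e1 : (2 * Real.pi * κ) ^ (2 - 2 * s) / (2 * Real.pi * κ + 2 * Real.pi * ‖ζ‖) *
        (1 / (1 + |2 * Real.pi * ‖ζ‖ - 2 * Real.pi * κ|) + 1 / (1 + 2 * Real.pi * ‖ζ‖)) =
        (2 * Real.pi * κ) ^ (2 - 2 * s) / (2 * Real.pi) * a ‖ζ‖ := by
      rw [GsW_abs, ha]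
      have h6 : κ + ‖ζ‖ ≠ 0 := by positivity
      have h7 : 2 * Real.pi * κ + 2 * Real.pi * ‖ζ‖ = (2 * Real.pi) * (κ + ‖ζ‖) := by ring
      rw [h7]
      rw [div_mul_eq_div_div, ← mul_assoc, div_mul_div_comm, mul_one, div_div]
    have e2 : 2 * Real.pi * ‖ζ‖ / (2 * Real.pi * κ) = ‖ζ‖ / κ :=
      mul_div_mul_left _ _ hq.ne'
    rw [e1, e2] at hζ
    have e3 : ‖gs s R (kx ξ) ζ‖ ^ 2 ≤ c1 * a ‖ζ‖ ^ 2 + c2 * b ‖ζ‖ ^ 2 := by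
      have h8 : ‖gs s R (kx ξ) ζ‖ ≤ C0 * ((2 * Real.pi * κ) ^ (2 - 2 * s) / (2 * Real.pi) *
          a ‖ζ‖ + (2 * Real.pi * κ) ^ (-(2 * s)) * b ‖ζ‖) := hζ
      have h9 : ‖gs s R (kx ξ) ζ‖ ^ 2 ≤ (C0 * ((2 * Real.pi * κ) ^ (2 - 2 * s) / (2 * Real.pi) *
          a ‖ζ‖ + (2 * Real.pi * κ) ^ (-(2 * s)) * b ‖ζ‖)) ^ 2 :=
        pow_le_pow_left₀ (norm_nonneg _) h8 2
      refine h9.trans ?_
      rw [hc1, hc2]
      nlinarith [sq_nonneg (C0 * ((2 * Real.pi * κ) ^ (2 - 2 * s) / (2 * Real.pi) *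
          a ‖ζ‖ - (2 * Real.pi * κ) ^ (-(2 * s)) * b ‖ζ‖))]
    have e4 : ‖gs s R (kx ξ) ζ‖ₑ ^ 2 = ENNReal.ofReal (‖gs s R (kx ξ) ζ‖ ^ 2) := by
      rw [ENNReal.ofReal_pow (norm_nonneg _), ofReal_norm_eq_enorm]
    rw [e4, ← ENNReal.ofReal_mul hc1', ← ENNReal.ofReal_mul hc2',
      ← ENNReal.ofReal_add (by positivity) (by positivity)]
    exact ENNReal.ofReal_le_ofReal e3
  set w : E3 → ℝ≥0∞ := fun ζ => ENNReal.ofReal ((1 + ‖ζ - ξ‖) ^ (-(2 * σ))) with hw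
  have hmw : Measurable w := by
    rw [hw]
    fun_prop
  have hmA : Measurable fun ζ : E3 => ENNReal.ofReal (a ‖ζ‖ ^ 2) * w ζ := by
    refine Measurable.mul ?_ hmw
    exact (((hma.comp measurable_norm).pow_const 2)).ennreal_ofReal
  have hmB : Measurable fun ζ : E3 => ENNReal.ofReal (b ‖ζ‖ ^ 2) * w ζ := by
    refine Measurable.mul ?_ hmw
    exact (((hmb.comp measurable_norm).pow_const 2)).ennreal_ofReal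
  have hA : ∫⁻ ζ : E3, ENNReal.ofReal (a ‖ζ‖ ^ 2) * w ζ ≤
      ENNReal.ofReal (Cb * κ ^ (-(2 * σ))) * ENNReal.ofReal Ca := by
    refine (hbip ξ hξ0 (fun ρ => ENNReal.ofReal (a ρ ^ 2)) (hma.pow_const 2).ennreal_ofReal).trans ?_
    exact mul_le_mul_right (hoa κ hξ) _
  have hB : ∫⁻ ζ : E3, ENNReal.ofReal (b ‖ζ‖ ^ 2) * w ζ ≤
      ENNReal.ofReal (Cb * κ ^ (-(2 * σ))) * ENNReal.ofReal (Cd * κ ^ (3 : ℝ)) := by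
    refine (hbip ξ hξ0 (fun ρ => ENNReal.ofReal (b ρ ^ 2)) (hmb.pow_const 2).ennreal_ofReal).trans ?_
    exact mul_le_mul_right (hod κ hκ) _
  calc ∫⁻ ζ, ‖gs s R (kx ξ) ζ‖ₑ ^ 2 * w ζ
      ≤ ∫⁻ ζ, (ENNReal.ofReal c1 * (ENNReal.ofReal (a ‖ζ‖ ^ 2) * w ζ) +
          ENNReal.ofReal c2 * (ENNReal.ofReal (b ‖ζ‖ ^ 2) * w ζ)) := by
        refine lintegral_mono_ae ?_
        filter_upwards [hpt] with ζ hζ
        refine (mul_le_mul_left hζ (w ζ)).trans (le_of_eq ?_)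
        ring
    _ = ENNReal.ofReal c1 * (∫⁻ ζ : E3, ENNReal.ofReal (a ‖ζ‖ ^ 2) * w ζ) +
          ENNReal.ofReal c2 * (∫⁻ ζ : E3, ENNReal.ofReal (b ‖ζ‖ ^ 2) * w ζ) := by
        rw [lintegral_add_left (hmA.const_mul _), lintegral_const_mul _ hmA,
          lintegral_const_mul _ hmB]
    _ ≤ ENNReal.ofReal c1 * (ENNReal.ofReal (Cb * κ ^ (-(2 * σ))) * ENNReal.ofReal Ca) +
          ENNReal.ofReal c2 *
            (ENNReal.ofReal (Cb * κ ^ (-(2 * σ))) * ENNReal.ofReal (Cd * κ ^ (3 : ℝ))) := by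
        exact add_le_add (mul_le_mul_right hA _) (mul_le_mul_right hB _)
    _ = ENNReal.ofReal (c1 * (Cb * κ ^ (-(2 * σ)) * Ca) +
          c2 * (Cb * κ ^ (-(2 * σ)) * (Cd * κ ^ (3 : ℝ)))) := by
        have h10 : 0 ≤ Cb * κ ^ (-(2 * σ)) := by positivity
        have h11 : 0 ≤ Cd * κ ^ (3 : ℝ) := by positivity
        rw [← ENNReal.ofReal_mul h10, ← ENNReal.ofReal_mul h10, ← ENNReal.ofReal_mul hc1',
          ← ENNReal.ofReal_mul hc2', ← ENNReal.ofReal_add (by positivity) (by positivity)]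
    _ ≤ ENNReal.ofReal ((Real.sqrt K * κ ^ (2 - 2 * s - σ)) ^ 2) := by
        refine ENNReal.ofReal_le_ofReal ?_
        rw [mul_pow, Real.sq_sqrt hK]
        exact GsW_final hC0 hCb hCd hκ hξ

end FracScatC

end
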