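import Pool.Agent.Lib.MP_6e2ba5_an.Cx.GsMem
import Pool.Agent.Lib.MP_6e2ba5_an.Cx.Modul

/-! # The key estimate in the Wiener norm

`PL s r ξ f = gsH · FT f`. `PL_norm`: `norm_PL_le` and `norm_gsH_le`.
`PL_sob`: `f = mulL D (eH r ξ) = mulL (efun ξ) (dH r D)` (`mulL_eH`), so
`FT f ζ = 𝓕 D (ζ-ξ)` a.e. (`FT_efun`, `FT_eq_ftX`, `ftX_dH`), and the `L¹` norm is
`∫⁻ ‖gs ζ‖ₑ ‖𝓕 D (ζ-ξ)‖ₑ dζ
  = ∫⁻ (‖gs ζ‖ₑ (1+‖ζ-ξ‖)^(-σ)) ((1+‖ζ-ξ‖)^σ ‖𝓕 D (ζ-ξ)‖ₑ) dζ`;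
Cauchy-Schwarz (`ENNReal.lintegral_mul_le_Lp_mul_Lq` with exponents 2, 2), `gs_weight`, and
`SobBd` after translating the variable (`lintegral_sub_right_eq_self`). -/

set_option autoImplicit false

open MeasureTheory Filter Topology Set
open scoped FourierTransform SchwartzMap InnerProductSpace ENNReal BoundedContinuousFunction

noncomputable section

namespace FracScatC

open FracScat

private theorem fourier_congr {f g : E3 → ℂ} (h : f =ᵐ[volume] g) (ζ : E3) : 𝓕 f ζ = 𝓕 g ζ := by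
  rw [Real.fourier_eq', Real.fourier_eq']
  apply integral_congr_ae
  filter_upwards [h] with x hx
  rw [hx]

/-- Weighted Cauchy-Schwarz inequality. -/
private theorem weighted_cs {σ : ℝ} {a b : E3 → ℝ≥0∞} (ha : AEMeasurable a volume)
    (hb : AEMeasurable b volume) (ξ : E3) :
    ∫⁻ ζ, a ζ * b (ζ - ξ) ≤
      (∫⁻ ζ, a ζ ^ 2 * ENNReal.ofReal ((1 + ‖ζ - ξ‖) ^ (-(2 * σ)))) ^ (1 / 2 : ℝ) *
      (∫⁻ η, ENNReal.ofReal ((1 + ‖η‖) ^ (2 * σ)) * b η ^ 2) ^ (1 / 2 : ℝ) := by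
  have hpos : ∀ ζ : E3, (0 : ℝ) < 1 + ‖ζ‖ := fun ζ => by
    have := norm_nonneg ζ
    linarith
  have hwm : ∀ τ : ℝ, Measurable fun ζ : E3 => ENNReal.ofReal ((1 + ‖ζ - ξ‖) ^ τ) := by
    intro τ
    have : Measurable fun ζ : E3 => (1 + ‖ζ - ξ‖) := by fun_prop
    exact (this.pow_const τ).ennreal_ofReal
  have hmp : MeasurePreserving (fun ζ : E3 => ζ - ξ) volume volume :=
    measurePreserving_sub_right volume ξ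
  have hb' : AEMeasurable (fun ζ => b (ζ - ξ)) (volume : Measure E3) :=
    hb.comp_quasiMeasurePreserving hmp.quasiMeasurePreserving
  have hcs := ENNReal.lintegral_mul_le_Lp_mul_Lq (volume : Measure E3)
    (p := 2) (q := 2) Real.HolderConjugate.two_two
    (f := fun ζ => a ζ * ENNReal.ofReal ((1 + ‖ζ - ξ‖) ^ (-σ)))
    (g := fun ζ => ENNReal.ofReal ((1 + ‖ζ - ξ‖) ^ σ) * b (ζ - ξ))
    (ha.mul (hwm _).aemeasurable) ((hwm _).aemeasurable.mul hb')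
  have e1 : ∀ ζ : E3, ((fun ζ => a ζ * ENNReal.ofReal ((1 + ‖ζ - ξ‖) ^ (-σ))) *
      (fun ζ => ENNReal.ofReal ((1 + ‖ζ - ξ‖) ^ σ) * b (ζ - ξ))) ζ = a ζ * b (ζ - ξ) := by
    intro ζ
    simp only [Pi.mul_apply]
    have h1 : ENNReal.ofReal ((1 + ‖ζ - ξ‖) ^ (-σ)) * ENNReal.ofReal ((1 + ‖ζ - ξ‖) ^ σ) = 1 := by
      rw [← ENNReal.ofReal_mul (Real.rpow_nonneg (hpos _).le _), ← Real.rpow_add (hpos _),
        neg_add_cancel, Real.rpow_zero, ENNReal.ofReal_one]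
    calc a ζ * ENNReal.ofReal ((1 + ‖ζ - ξ‖) ^ (-σ)) *
          (ENNReal.ofReal ((1 + ‖ζ - ξ‖) ^ σ) * b (ζ - ξ))
        = a ζ * (ENNReal.ofReal ((1 + ‖ζ - ξ‖) ^ (-σ)) * ENNReal.ofReal ((1 + ‖ζ - ξ‖) ^ σ)) *
          b (ζ - ξ) := by ring
      _ = a ζ * b (ζ - ξ) := by rw [h1, mul_one]
  have e2 : ∀ ζ : E3, (a ζ * ENNReal.ofReal ((1 + ‖ζ - ξ‖) ^ (-σ))) ^ (2 : ℝ) =
      a ζ ^ 2 * ENNReal.ofReal ((1 + ‖ζ - ξ‖) ^ (-(2 * σ))) := by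
    intro ζ
    rw [ENNReal.rpow_ofNat, mul_pow, ← ENNReal.ofReal_pow (Real.rpow_nonneg (hpos _).le _),
      ← Real.rpow_natCast, ← Real.rpow_mul (hpos _).le]
    congr 3
    push_cast
    ring
  have e3 : ∀ ζ : E3, (ENNReal.ofReal ((1 + ‖ζ - ξ‖) ^ σ) * b (ζ - ξ)) ^ (2 : ℝ) =
      (fun η : E3 => ENNReal.ofReal ((1 + ‖η‖) ^ (2 * σ)) * b η ^ 2) (ζ - ξ) := by
    intro ζ
    simp only
    rw [ENNReal.rpow_ofNat, mul_pow, ← ENNReal.ofReal_pow (Real.rpow_nonneg (hpos _).le _),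
      ← Real.rpow_natCast, ← Real.rpow_mul (hpos _).le]
    congr 3
    push_cast
    ring
  simp only [e1, e2, e3] at hcs
  have e4 : ∫⁻ ζ : E3, ENNReal.ofReal ((1 + ‖ζ - ξ‖) ^ (2 * σ)) * b (ζ - ξ) ^ 2 =
      ∫⁻ η : E3, ENNReal.ofReal ((1 + ‖η‖) ^ (2 * σ)) * b η ^ 2 :=
    lintegral_sub_right_eq_self
      (fun η : E3 => ENNReal.ofReal ((1 + ‖η‖) ^ (2 * σ)) * b η ^ 2) ξ
  rwa [e4] at hcs

theorem PL_norm {s : ℝ} (h0 : 3 / 4 < s) (h2 : s < 2) {r : ℝ} (hr : 0 ≤ r) :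
    ∃ C : ℝ, 0 ≤ C ∧ ∀ ξ : E3, 1 ≤ 2 * Real.pi * ‖ξ‖ → ∀ f : HS,
      ‖PL s r ξ f‖ ≤ C * ‖ξ‖ ^ (2 - 2 * s) * ‖f‖ := by
  obtain ⟨C, hC0, hC⟩ := norm_gsH_le h0 h2 hr
  refine ⟨C, hC0, fun ξ hξ f => ?_⟩
  exact (norm_PL_le s r ξ f).trans (mul_le_mul_of_nonneg_right (hC ξ hξ) (norm_nonneg _))

theorem PL_sob {s : ℝ} (h0 : 3 / 4 < s) (h2 : s < 2) {r : ℝ} (hr : 0 ≤ r) {σ : ℝ}
    (hσ0 : 0 ≤ σ) (hσ1 : σ < 1) :
    ∃ C : ℝ, 0 ≤ C ∧ ∀ (A M : ℝ) (D : E3 → ℂ), 0 ≤ A → IsPot r M D → SobBd σ A D →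
      ∀ ξ : E3, 1 ≤ 2 * Real.pi * ‖ξ‖ →
        ‖PL s r ξ (mulL D (eH r ξ))‖ ≤ C * ‖ξ‖ ^ (2 - 2 * s - σ) * A := by
  obtain ⟨C, hC0, hC⟩ := gs_weight h0 h2 (R := 2 * r) (by positivity) hσ0 hσ1
  refine ⟨C, hC0, fun A M D hA hD hS ξ hξ => ?_⟩
  have hM : MemLp (gs s (2 * r) (kx ξ)) 2 (volume : Measure E3) :=
    gs_memLp h0 h2 (by positivity) hξ
  have hint : Integrable (dH r D : E3 → ℂ) := HB_integrable (dH_mem hD)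
  have hcont : Continuous (𝓕 D) := by
    have h1 : Continuous (𝓕 (dH r D : E3 → ℂ)) :=
      VectorFourier.fourierIntegral_continuous Real.continuous_fourierChar continuous_inner hint
    have h2 : 𝓕 D = 𝓕 (dH r D : E3 → ℂ) := by
      funext η
      exact (fourier_congr (dH_coe hD) η).symm
    rw [h2]
    exact h1
  have hFT0 : (FT (dH r D) : E3 → ℂ) =ᵐ[volume] fun ζ => 𝓕 D ζ := by
    filter_upwards [FT_eq_ftX hint] with ζ a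
    rw [a, ftX_dH hD]
  have hmp : MeasurePreserving (fun ζ : E3 => ζ - ξ) volume volume :=
    measurePreserving_sub_right volume ξ
  have hFT1 : ∀ᵐ ζ ∂(volume : Measure E3), (FT (dH r D) : E3 → ℂ) (ζ - ξ) = 𝓕 D (ζ - ξ) :=
    hmp.quasiMeasurePreserving.ae hFT0
  have hg : (gsH s r (2 * Real.pi * ‖ξ‖) : E3 → ℂ) =ᵐ[volume] gs s (2 * r) (kx ξ) :=
    gsH_coe hM
  have hP : (PL s r ξ (mulL D (eH r ξ)) : E3 → ℂ) =ᵐ[volume]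
      fun ζ => gs s (2 * r) (kx ξ) ζ * 𝓕 D (ζ - ξ) := by
    rw [PL_apply, mulL_eH hD ξ]
    filter_upwards [prodL_coe (gsH s r (2 * Real.pi * ‖ξ‖)) (FT (mulL (efun ξ) (dH r D))),
      FT_efun ξ hint, hFT1, hg] with ζ a b c d
    rw [a, b, c, d]
  have hκ : (0 : ℝ) ≤ ‖ξ‖ ^ (2 - 2 * s - σ) := Real.rpow_nonneg (norm_nonneg _) _
  have hsq : ∀ x : ℝ, 0 ≤ x → (ENNReal.ofReal (x ^ 2)) ^ (1 / 2 : ℝ) = ENNReal.ofReal x := by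
    intro x hx
    rw [ENNReal.ofReal_rpow_of_nonneg (by positivity) (by norm_num), ← Real.sqrt_eq_rpow,
      Real.sqrt_sq hx]
  have hmain : ∫⁻ ζ, ‖gs s (2 * r) (kx ξ) ζ‖ₑ * ‖𝓕 D (ζ - ξ)‖ₑ ≤
      ENNReal.ofReal (C * ‖ξ‖ ^ (2 - 2 * s - σ) * A) := by
    have h1 := weighted_cs (σ := σ) (a := fun ζ => ‖gs s (2 * r) (kx ξ) ζ‖ₑ)
      (b := fun η => ‖𝓕 D η‖ₑ) hM.aestronglyMeasurable.enorm
      hcont.aestronglyMeasurable.enorm ξ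
    refine h1.trans ?_
    have h3 : (∫⁻ ζ, ‖gs s (2 * r) (kx ξ) ζ‖ₑ ^ 2 *
        ENNReal.ofReal ((1 + ‖ζ - ξ‖) ^ (-(2 * σ)))) ^ (1 / 2 : ℝ) ≤
        ENNReal.ofReal (C * ‖ξ‖ ^ (2 - 2 * s - σ)) := by
      rw [← hsq _ (mul_nonneg hC0 hκ)]
      exact ENNReal.rpow_le_rpow (hC ξ hξ) (by norm_num)
    have h4 : (∫⁻ η, ENNReal.ofReal ((1 + ‖η‖) ^ (2 * σ)) * ‖𝓕 D η‖ₑ ^ 2) ^ (1 / 2 : ℝ) ≤
        ENNReal.ofReal A := by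
      rw [← hsq _ hA]
      exact ENNReal.rpow_le_rpow hS (by norm_num)
    rw [ENNReal.ofReal_mul (mul_nonneg hC0 hκ)]
    exact mul_le_mul' h3 h4
  rw [Lp.norm_def, eLpNorm_one_eq_lintegral_enorm]
  refine ENNReal.toReal_le_of_le_ofReal (by positivity) ?_
  have h5 : ∫⁻ ζ, ‖(PL s r ξ (mulL D (eH r ξ)) : E3 → ℂ) ζ‖ₑ =
      ∫⁻ ζ, ‖gs s (2 * r) (kx ξ) ζ‖ₑ * ‖𝓕 D (ζ - ξ)‖ₑ := by
    apply lintegral_congr_ae
    filter_upwards [hP] with ζ a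
    rw [a, enorm_mul]
  rw [h5]
  exact hmain

end FracScatC

end
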