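import Pool.Agent.Lib.MP_6e2ba5_an.Cx.GsMem
import Pool.Agent.Lib.MP_6e2ba5_an.KopA

/-! # The cut off resolvent as an inverse Fourier integral

`Kop s r k g = mulL indB (multL gs (mulL indB g)) = mulL indB (multL gs g)`. Let
`h = multL gs g = FT.symm (mulL gs (FT g))`. The function `mulL gs (FT g)` is a.e. `gs · FT g`, the
product of two `L²` functions, so integrable; `FTsymm_coe_of_integrable`: `h = 𝓕⁻ (gs · FT g)` a.e.,
`𝓕⁻ P x = ∫ exp(2πi ζ·x) P ζ dζ` (`Real.fourierInv_eq'` or similar), and `P = PL s r ξ g` a.e.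
(`prodL_coe`, `gsH_coe`; `kx ξ` is `((2π‖ξ‖ : ℝ) : ℂ)`). `gs_BM` needs `kx ξ ∈ Quad`
(`kx_mem_Quad`). `Kop_Bd`: take norms, `‖efun‖ = 1`, `‖indB‖ ≤ 1`, and `L1` norm = integral of
the norm (`L1.norm_eq_integral_norm`). -/

set_option autoImplicit false

open MeasureTheory Filter Topology Set
open scoped FourierTransform SchwartzMap InnerProductSpace ENNReal BoundedContinuousFunction

noncomputable section

namespace FracScatC

open FracScat

private theorem KopRep_norm_indB (r : ℝ) (x : E3) : ‖indB r x‖ ≤ 1 := by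
  unfold indB
  split_ifs <;> simp

private theorem KopRep_move {r : ℝ} (u v : HS) :
    ∫ x, (mulL (indB r) u : E3 → ℂ) x * (v : E3 → ℂ) x =
      ∫ x, (u : E3 → ℂ) x * (mulL (indB r) v : E3 → ℂ) x := by
  apply integral_congr_ae
  filter_upwards [mulL_coe (indB_BM r) u, mulL_coe (indB_BM r) v] with x a b
  rw [a, b]
  ring

private theorem KopRep_gs_neg (s R : ℝ) (k : ℂ) (ξ : E3) : gs s R k (-ξ) = gs s R k ξ := by
  unfold gs
  rw [norm_neg]

private theorem KopRep_mult {m : E3 → ℂ} (hm : BM m) (he : ∀ ξ, m (-ξ) = m ξ) (u v : HS) :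
    ∫ x, (multL m u : E3 → ℂ) x * (v : E3 → ℂ) x =
      ∫ x, (u : E3 → ℂ) x * (multL m v : E3 → ℂ) x := by
  rw [parseval (multL m u) v, parseval u (multL m v)]
  apply integral_congr_ae
  have hmp : MeasurePreserving (fun x : E3 => -x) volume volume :=
    Measure.measurePreserving_neg volume
  have h2 := hmp.quasiMeasurePreserving.ae (FT_multL_coe hm v)
  filter_upwards [FT_multL_coe hm u, h2] with x a b
  rw [a, b, he]
  ring

theorem Kop_rep {s : ℝ} (h0 : 3 / 4 < s) (h2 : s < 2) {r : ℝ} (hr : 0 ≤ r) {ξ : E3}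
    (hξ : 1 ≤ 2 * Real.pi * ‖ξ‖) {g : HS} (hg : mulL (indB r) g = g) :
    (Kop s r (kx ξ) g : E3 → ℂ) =ᵐ[volume] fun x =>
      indB r x * ∫ ζ, efun ζ x * (PL s r ξ g : E3 → ℂ) ζ := by
  have hξ0 : ξ ≠ 0 := by
    rintro rfl
    rw [norm_zero, mul_zero] at hξ
    linarith
  have hr2 : (0 : ℝ) ≤ 2 * r := by linarith
  have hk1 : MemLp (gs s (2 * r) (kx ξ)) 2 (volume : Measure E3) := gs_memLp h0 h2 hr2 hξ
  have hBM : BM (gs s (2 * r) (kx ξ)) := gs_BM (by linarith) h2 hr2 (kx_mem_Quad hξ0)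
  have hmul : (mulL (gs s (2 * r) (kx ξ)) (FT g) : E3 → ℂ) =ᵐ[volume]
      (PL s r ξ g : E3 → ℂ) := by
    filter_upwards [mulL_coe hBM (FT g), prodL_coe (gsH s r (2 * Real.pi * ‖ξ‖)) (FT g),
      gsH_coe hk1] with x a b c
    rw [a, PL_apply, b, c]
    rfl
  have hint : Integrable (mulL (gs s (2 * r) (kx ξ)) (FT g) : E3 → ℂ) :=
    (L1.integrable_coeFn (PL s r ξ g)).congr hmul.symm
  have h1 := FTsymm_coe_of_integrable _ hint
  have h3 : Kop s r (kx ξ) g =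
      mulL (indB r) (FT.symm (mulL (gs s (2 * r) (kx ξ)) (FT g))) := by
    show mulL (indB r) (multL (gs s (2 * r) (kx ξ)) (mulL (indB r) g)) = _
    rw [hg, multL_apply]
  rw [h3]
  filter_upwards [mulL_coe (indB_BM r) (FT.symm (mulL (gs s (2 * r) (kx ξ)) (FT g))), h1]
    with x a b
  rw [a, b, Real.fourierInv_eq']
  congr 1
  apply integral_congr_ae
  filter_upwards [hmul] with ζ c
  rw [smul_eq_mul, c, efun]

theorem Kop_Bd {s : ℝ} (h0 : 3 / 4 < s) (h2 : s < 2) {r : ℝ} (hr : 0 ≤ r) {ξ : E3}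
    (hξ : 1 ≤ 2 * Real.pi * ‖ξ‖) {g : HS} (hg : mulL (indB r) g = g) :
    Bd ‖PL s r ξ g‖ (Kop s r (kx ξ) g) := by
  filter_upwards [Kop_rep h0 h2 hr hξ hg] with x a
  rw [a, norm_mul, L1.norm_eq_integral_norm]
  have e : ∫ ζ, ‖efun ζ x * (PL s r ξ g : E3 → ℂ) ζ‖ = ∫ ζ, ‖(PL s r ξ g : E3 → ℂ) ζ‖ := by
    congr 1
    funext ζ
    rw [norm_mul, norm_efun, one_mul]
  calc ‖indB r x‖ * ‖∫ ζ, efun ζ x * (PL s r ξ g : E3 → ℂ) ζ‖
      ≤ 1 * ∫ ζ, ‖efun ζ x * (PL s r ξ g : E3 → ℂ) ζ‖ :=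
        mul_le_mul (KopRep_norm_indB r x) (norm_integral_le_integral_norm _) (norm_nonneg _)
          zero_le_one
    _ = ∫ ζ, ‖(PL s r ξ g : E3 → ℂ) ζ‖ := by rw [one_mul, e]

/-- The cut off resolvent is symmetric for the bilinear pairing (the symbol is even). -/
theorem Kop_symm {s : ℝ} (h0 : 0 < s) (h2 : s < 2) {r : ℝ} (hr : 0 ≤ r) {k : ℂ} (hk : k ∈ Quad)
    (f g : HS) :
    ∫ x, (Kop s r k f : E3 → ℂ) x * (g : E3 → ℂ) x =
      ∫ x, (f : E3 → ℂ) x * (Kop s r k g : E3 → ℂ) x := by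
  have hr2 : (0 : ℝ) ≤ 2 * r := by linarith
  have hBM : BM (gs s (2 * r) k) := gs_BM h0 h2 hr2 hk
  show ∫ x, (mulL (indB r) (multL (gs s (2 * r) k) (mulL (indB r) f)) : E3 → ℂ) x *
      (g : E3 → ℂ) x = ∫ x, (f : E3 → ℂ) x *
        (mulL (indB r) (multL (gs s (2 * r) k) (mulL (indB r) g)) : E3 → ℂ) x
  rw [KopRep_move, KopRep_mult hBM (KopRep_gs_neg s (2 * r) k), KopRep_move]

end FracScatC

end
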