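import Pool.Agent.Lib.MP_6e2ba5_an.Cx.Modul
import Pool.Agent.Lib.MP_6e2ba5_an.UeqA

/-! # A function with compact support whose Fourier transform has compact support is zero

`f ∈ HB ρ` is integrable, `𝓕 f` is continuous and equals `FT f` a.e., so `𝓕 f η = 0` for all
`‖η‖ > ρ'` (the set is open and `𝓕 f` is continuous). For a unit vector `θ` let
`g(z) = ∫ (ev ρ θ z)(x) f x dx`; it is entire, because `ev_diff` and the pairing with `f` is a bounded
linear functional. For real `z`, `g(z) = ∫ exp(i z θ·x) f x dx = 𝓕 f (-(z/(2π)) θ)`, zero for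
`z > 2πρ'`. By the identity theorem (`AnalyticOnNhd.eqOn_zero_of_preconnected_of_frequently_eq_zero`)
`g = 0`, so `𝓕 f = 0` on the line through `θ`, for all `θ`; `𝓕 f = 0`, `ftX f = 0`,
`eq_zero_of_ftX`. -/

set_option autoImplicit false

open MeasureTheory Filter Topology Set
open scoped FourierTransform SchwartzMap InnerProductSpace ENNReal BoundedContinuousFunction

noncomputable section

namespace FracScatC

open FracScat

/-- The pairing with `f` as a bounded linear functional. -/
private def pairL (f : HS) : HS →L[ℂ] ℂ :=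
  LinearMap.mkContinuous
    { toFun := fun g : HS => ∫ x, (g : E3 → ℂ) x * (f : E3 → ℂ) x
      map_add' := fun g g' => by
        rw [← integral_add (integrable_mul g f) (integrable_mul g' f)]
        apply integral_congr_ae
        filter_upwards [Lp.coeFn_add g g'] with x hx
        rw [hx, Pi.add_apply]
        ring
      map_smul' := fun c g => by
        rw [RingHom.id_apply, smul_eq_mul, ← integral_const_mul]
        apply integral_congr_ae
        filter_upwards [Lp.coeFn_smul c g] with x hx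
        rw [hx, Pi.smul_apply, smul_eq_mul]
        ring }
    ‖f‖ (fun g => (norm_integral_mul_le g f).trans (le_of_eq (mul_comm ‖g‖ ‖f‖)))

private theorem pairL_apply (f g : HS) : pairL f g = ∫ x, (g : E3 → ℂ) x * (f : E3 → ℂ) x := rfl

/-- The pairing with a plane wave is the Fourier transform. -/
private theorem pairL_ev {ρ : ℝ} {f : HS} (hf : f ∈ HB ρ) (θ : E3) (t : ℝ) :
    pairL f (ev ρ θ ((t : ℝ) : ℂ)) = 𝓕 (f : E3 → ℂ) (-(t / (2 * Real.pi)) • θ) := by
  rw [pairL_apply, Real.fourier_eq']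
  apply integral_congr_ae
  have hfe : (mulL (indB ρ) f : E3 → ℂ) =ᵐ[volume] (f : E3 → ℂ) := by rw [mem_HB.1 hf]
  filter_upwards [ev_coe ρ θ ((t : ℝ) : ℂ), mulL_coe (indB_BM ρ) f, hfe] with x a b c
  have hpi : (Real.pi : ℝ) ≠ 0 := Real.pi_ne_zero
  have e : Complex.exp (((-2 * Real.pi * ⟪x, -(t / (2 * Real.pi)) • θ⟫_ℝ : ℝ) : ℂ) * Complex.I) =
      planeWave ((t : ℝ) : ℂ) θ x := by
    unfold planeWave
    congr 1
    rw [real_inner_smul_right, real_inner_comm x θ]
    have : (-2 * Real.pi * (-(t / (2 * Real.pi)) * ⟪x, θ⟫_ℝ) : ℝ) = t * ⟪x, θ⟫_ℝ := by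
      field_simp
    rw [this]
    push_cast
    ring
  rw [e, smul_eq_mul, a]
  rw [b] at c
  calc indB ρ x * planeWave ((t : ℝ) : ℂ) θ x * (f : E3 → ℂ) x
      = planeWave ((t : ℝ) : ℂ) θ x * (indB ρ x * (f : E3 → ℂ) x) := by ring
    _ = _ := by rw [c]

theorem pw_unique {ρ ρ' : ℝ} {f : HS} (hf : f ∈ HB ρ)
    (h : ∀ᵐ η ∂(volume : Measure E3), ρ' < ‖η‖ → (FT f : E3 → ℂ) η = 0) : f = 0 := by
  have hint : Integrable (f : E3 → ℂ) := HB_integrable hf
  -- `𝓕 f` vanishes outside the ball
  have hout : ∀ η : E3, ρ' < ‖η‖ → 𝓕 (f : E3 → ℂ) η = 0 := by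
    have hU : IsOpen {η : E3 | ρ' < ‖η‖} := isOpen_lt continuous_const continuous_norm
    have h1 : (fun η => ftX f η) =ᵐ[volume.restrict {η : E3 | ρ' < ‖η‖}] fun _ => (0 : ℂ) := by
      rw [Filter.EventuallyEq, ae_restrict_iff' hU.measurableSet]
      filter_upwards [h, FT_eq_ftX hint] with η a b hη
      rw [← b]
      exact a hη
    have h2 := Measure.eqOn_open_of_ae_eq h1 hU (ftX f).continuous.continuousOn
      continuousOn_const
    intro η hη
    rw [← ftX_apply hint]
    exact h2 hη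
  -- lines
  have hline : ∀ θ : E3, θ ≠ 0 → ∀ t : ℝ, 𝓕 (f : E3 → ℂ) (-(t / (2 * Real.pi)) • θ) = 0 := by
    intro θ hθ t
    have hn : 0 < ‖θ‖ := norm_pos_iff.2 hθ
    have hpi := Real.pi_pos
    have hdiff : Differentiable ℂ fun z : ℂ => pairL f (ev ρ θ z) :=
      (pairL f).differentiable.comp (ev_diff ρ θ)
    have han : AnalyticOnNhd ℂ (fun z : ℂ => pairL f (ev ρ θ z)) univ :=
      hdiff.differentiableOn.analyticOnNhd isOpen_univ
    set T : ℝ := 2 * Real.pi * (|ρ'| + 1) / ‖θ‖ with hT
    have hTz : ∀ u : ℝ, T ≤ u → pairL f (ev ρ θ ((u : ℝ) : ℂ)) = 0 := by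
      intro u hu
      rw [pairL_ev hf]
      apply hout
      rw [norm_smul, norm_neg, Real.norm_eq_abs]
      have h0 : 0 ≤ u := le_trans (by positivity) hu
      rw [abs_of_nonneg (by positivity)]
      have h3 : T * ‖θ‖ ≤ u * ‖θ‖ := mul_le_mul_of_nonneg_right hu hn.le
      have h4 : T * ‖θ‖ = 2 * Real.pi * (|ρ'| + 1) := by
        rw [hT]; field_simp
      have h5 : |ρ'| + 1 ≤ u / (2 * Real.pi) * ‖θ‖ := by
        rw [div_mul_eq_mul_div, le_div_iff₀ (by positivity)]
        linarith
      linarith [le_abs_self ρ']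
    have htend : Tendsto (fun n : ℕ => ((T + 1 / ((n : ℝ) + 1) : ℝ) : ℂ)) atTop
        (𝓝[≠] ((T : ℝ) : ℂ)) := by
      refine tendsto_nhdsWithin_iff.2 ⟨?_, Eventually.of_forall fun n => ?_⟩
      · have h1 : Tendsto (fun n : ℕ => T + 1 / ((n : ℝ) + 1)) atTop (𝓝 (T + 0)) :=
          (tendsto_one_div_add_atTop_nhds_zero_nat (𝕜 := ℝ)).const_add T
        rw [add_zero] at h1
        exact (Complex.continuous_ofReal.tendsto T).comp h1
      · intro hh
        have h1 : T + 1 / ((n : ℝ) + 1) = T := Complex.ofReal_injective hh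
        have h2 : 0 < 1 / ((n : ℝ) + 1) := by positivity
        linarith
    have hfreq : ∃ᶠ z in 𝓝[≠] ((T : ℝ) : ℂ), pairL f (ev ρ θ z) = 0 :=
      htend.frequently (Eventually.frequently (Eventually.of_forall fun n =>
        hTz _ (by
          have : 0 < 1 / ((n : ℝ) + 1) := by positivity
          linarith)))
    have h0 := han.eqOn_zero_of_preconnected_of_frequently_eq_zero isPreconnected_univ
      (mem_univ _) hfreq
    rw [← pairL_ev hf]
    exact h0 (mem_univ _)
  have hall : ∀ η : E3, 𝓕 (f : E3 → ℂ) η = 0 := by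
    intro η
    by_cases hη : η = 0
    · have h1 := hline (EuclideanSpace.single 0 1) (by
        intro hh
        have := congrArg norm hh
        simp at this) 0
      rw [hη]
      simpa using h1
    · have h1 := hline (-η) (neg_ne_zero.2 hη) (2 * Real.pi)
      rw [div_self (by positivity)] at h1
      simpa using h1
  apply eq_zero_of_ftX hf
  ext η
  rw [ftX_apply hint, hall η]
  rfl

end FracScatC

end
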