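import Pool.Agent.Lib.MP_6e2ba5_an.Cx.GsMem
import Pool.Agent.Lib.MP_6e2ba5_an.Cx.UBnd

/-! # Continuity in `ξ`

`eH_cont`: `eH r ξ = mulL (efun ξ) (oneB r)`, `‖eH r ξ - eH r ξ'‖² = ∫_{‖x‖<r} |efun ξ x - efun ξ' x|²`
and `|efun ξ x - efun ξ' x| ≤ 2π‖ξ-ξ'‖ ‖x‖` (Lipschitz: `‖mulL ..‖` bound on the ball: write
`eH r ξ - eH r ξ' = mulL (fun x => (efun ξ x - efun ξ' x) * indB r x) (oneB r)`).
`Kx_cont`: `Kop_cont` on `Quad` composed with the continuous map `kx`, `kx_mem_Quad`.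
`UX_cont`: `Ring.inverse` is continuous at units (`NormedRing.inverse_continuousAt`, as in
`UeqA.lean`). `PL_cont`: `PL s r ξ = prodL (gsH (2π‖ξ‖)) ∘L FT`, `gsH_cont`.
`Hf_cont`: composition. -/

set_option autoImplicit false

open MeasureTheory Filter Topology Set
open scoped FourierTransform SchwartzMap InnerProductSpace ENNReal BoundedContinuousFunction

noncomputable section

namespace FracScatC

open FracScat

private theorem UCont_efun (ξ ξ' x : E3) : ‖efun ξ x - efun ξ' x‖ ≤ 2 * Real.pi * ‖ξ - ξ'‖ * ‖x‖ := by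
  have e1 : efun ξ x - efun ξ' x = efun ξ' x *
      (Complex.exp (Complex.I * ((2 * Real.pi * ⟪ξ - ξ', x⟫_ℝ : ℝ) : ℂ)) - 1) := by
    rw [mul_sub, mul_one]
    unfold efun
    rw [← Complex.exp_add, inner_sub_left]
    congr 2
    push_cast
    ring
  rw [e1, norm_mul, norm_efun, one_mul]
  refine Real.norm_exp_I_mul_ofReal_sub_one_le.trans ?_
  have hpi : (0 : ℝ) < 2 * Real.pi := by positivity
  rw [norm_mul, Real.norm_eq_abs, abs_of_pos hpi, mul_assoc (2 * Real.pi) ‖ξ - ξ'‖ ‖x‖]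
  refine mul_le_mul_of_nonneg_left ?_ hpi.le
  rw [Real.norm_eq_abs]
  exact abs_real_inner_le_norm _ _

private theorem UCont_kx : Continuous kx := by
  unfold kx
  fun_prop

theorem eH_cont (r : ℝ) : Continuous (eH r) := by
  have hL : LipschitzWith (Real.toNNReal (2 * Real.pi * |r| * ‖oneB r‖)) (eH r) := by
    refine LipschitzWith.of_dist_le_mul fun ξ ξ' => ?_
    rw [Real.coe_toNNReal _ (by positivity), dist_eq_norm, dist_eq_norm]
    have h : ‖eH r ξ - eH r ξ'‖ ≤ (2 * Real.pi * ‖ξ - ξ'‖ * |r|) * ‖oneB r‖ := by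
      refine Lp.norm_le_mul_norm_of_ae_le_mul ?_
      filter_upwards [Lp.coeFn_sub (eH r ξ) (eH r ξ'), eH_coe r ξ, eH_coe r ξ', oneB_coe r]
        with x a1 a2 a3 a4
      rw [a1, Pi.sub_apply, a2, a3, a4, ← sub_mul, norm_mul]
      unfold indB
      split_ifs with hx
      · refine mul_le_mul_of_nonneg_right ((UCont_efun ξ ξ' x).trans ?_) (norm_nonneg _)
        exact mul_le_mul_of_nonneg_left (hx.le.trans (le_abs_self r)) (by positivity)
      · simp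
    refine h.trans (le_of_eq ?_)
    ring
  exact hL.continuous

theorem Kx_cont {s : ℝ} (h0 : 3 / 4 < s) (h2 : s < 2) {r : ℝ} (hr : 0 ≤ r) :
    ContinuousOn (fun ξ : E3 => Kop s r (kx ξ)) {ξ | ξ ≠ 0} := by
  exact (Kop_cont (s := s) (by linarith) h2 hr).comp UCont_kx.continuousOn
    fun ξ hξ => kx_mem_Quad hξ

theorem UX_cont {s : ℝ} (h0 : 3 / 4 < s) (h2 : s < 2) {r : ℝ} (hr : 0 ≤ r) {V : E3 → ℂ} {N : ℝ}
    (hN : 1 ≤ N) (hT : ∀ ξ : E3, N ≤ ‖ξ‖ → ‖Tk s r V (kx ξ)‖ ≤ 1 / 2) :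
    ContinuousOn (UX s r V) {ξ | N ≤ ‖ξ‖} := by
  have hK : ContinuousOn (fun ξ : E3 => Kop s r (kx ξ)) {ξ | N ≤ ‖ξ‖} := by
    refine (Kx_cont h0 h2 hr).mono fun ξ hξ => ?_
    intro h
    have hξ' : N ≤ ‖ξ‖ := hξ
    rw [h, norm_zero] at hξ'
    linarith
  have hinv : ContinuousOn (fun ξ : E3 => Ring.inverse (1 - Kop s r (kx ξ) ∘L mulL V))
      {ξ | N ≤ ‖ξ‖} := by
    intro ξ hξ
    have hu : IsUnit (1 - Tk s r V (kx ξ)) :=
      isUnit_one_sub_of_norm_lt_one (lt_of_le_of_lt (hT ξ hξ) (by norm_num))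
    obtain ⟨u, hu⟩ := hu
    have h1 : ContinuousWithinAt (fun ξ : E3 => 1 - Kop s r (kx ξ) ∘L mulL V) {ξ | N ≤ ‖ξ‖} ξ :=
      continuousWithinAt_const.sub ((hK ξ hξ).clm_comp continuousWithinAt_const)
    have h3 := NormedRing.inverse_continuousAt u
    rw [hu] at h3
    exact ContinuousAt.comp_continuousWithinAt (g := Ring.inverse) h3 h1
  exact hinv.clm_apply (eH_cont r).continuousOn

theorem PL_cont {s : ℝ} (h0 : 3 / 4 < s) (h2 : s < 2) {r : ℝ} (hr : 0 ≤ r) :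
    ContinuousOn (PL s r) {ξ | 1 ≤ ‖ξ‖} := by
  have h1 : ContinuousOn (fun ξ : E3 => gsH s r (2 * Real.pi * ‖ξ‖)) {ξ | 1 ≤ ‖ξ‖} := by
    refine (gsH_cont h0 h2 hr).comp (by fun_prop) fun ξ hξ => ?_
    have hξ' : 1 ≤ ‖ξ‖ := hξ
    have hpi := Real.two_le_pi
    show 1 ≤ 2 * Real.pi * ‖ξ‖
    nlinarith
  exact (prodL.continuous.comp_continuousOn h1).clm_comp continuousOn_const

end FracScatC

end
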