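import Pool.Agent.Lib.MP_6e2ba5_an.Cx.Main

/-! # Back-scattering as a function of `ξ`: definitions

`efun ξ x = exp(2πi ξ·x)`, which is the plane wave with `k = 2π‖ξ‖`, `θ = ξ/‖ξ‖` for `ξ ≠ 0`;
`UX s r V ξ` is the total field on the ball; `A3 W f g = ∫ W f g`. -/

set_option autoImplicit false

open MeasureTheory Filter Topology Set
open scoped FourierTransform SchwartzMap InnerProductSpace ENNReal

noncomputable section

namespace FracScatC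

open FracScat

/-- `exp(2πi ξ·x)`. -/
def efun (ξ x : E3) : ℂ := Complex.exp (((2 * Real.pi * ⟪ξ, x⟫_ℝ : ℝ) : ℂ) * Complex.I)

/-- The wave number `2π‖ξ‖`. -/
def kx (ξ : E3) : ℂ := ((2 * Real.pi * ‖ξ‖ : ℝ) : ℂ)

theorem norm_efun (ξ x : E3) : ‖efun ξ x‖ = 1 := Complex.norm_exp_ofReal_mul_I _

theorem efun_cont (ξ : E3) : Continuous (efun ξ) := by
  unfold efun
  fun_prop

theorem efun_BM (ξ : E3) : BM (efun ξ) :=
  ⟨(efun_cont ξ).aestronglyMeasurable, 1, Eventually.of_forall fun x => (norm_efun ξ x).le⟩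

theorem indB_memLp (r : ℝ) : MemLp (indB r) 2 (volume : Measure E3) := by
  have h := ev_memLp r 0 0
  refine h.ae_eq (Eventually.of_forall fun x => ?_)
  simp [planeWave]

/-- The indicator function of the ball as an element of `L²`. -/
def oneB (r : ℝ) : HS := (indB_memLp r).toLp _

theorem oneB_coe (r : ℝ) : (oneB r : E3 → ℂ) =ᵐ[volume] indB r := (indB_memLp r).coeFn_toLp

/-- The cut off wave `1_B exp(2πi ξ·x)`. -/
def eH (r : ℝ) (ξ : E3) : HS := mulL (efun ξ) (oneB r)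

theorem eH_coe (r : ℝ) (ξ : E3) : (eH r ξ : E3 → ℂ) =ᵐ[volume] fun x => efun ξ x * indB r x := by
  filter_upwards [mulL_coe (efun_BM ξ) (oneB r), oneB_coe r] with x a b
  rw [eH, a, b]

/-- The total field on the ball. -/
def UX (s r : ℝ) (V : E3 → ℂ) (ξ : E3) : HS :=
  (Ring.inverse (1 - Tk s r V (kx ξ))) (eH r ξ)

/-- `∫ W f g`. -/
def A3 (W f g : HS) : ℂ :=
  ∫ x, (W : E3 → ℂ) x * ((f : E3 → ℂ) x * (g : E3 → ℂ) x)

/-- `f` is essentially bounded by `C`. -/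
def Bd (C : ℝ) (f : HS) : Prop := ∀ᵐ x ∂(volume : Measure E3), ‖(f : E3 → ℂ) x‖ ≤ C

theorem kx_mem_Quad {ξ : E3} (hξ : ξ ≠ 0) : kx ξ ∈ Quad := by
  have hpi := Real.pi_pos
  have hn : 0 < ‖ξ‖ := norm_pos_iff.mpr hξ
  refine ⟨?_, ?_, ?_⟩
  · rw [kx, Complex.ofReal_re]
    positivity
  · rw [kx, Complex.ofReal_im]
  · rw [kx]
    exact Complex.ofReal_ne_zero.mpr (by positivity)

/-- The plane wave in the two notations. -/
theorem planeWave_eq {ξ : E3} (hξ : ξ ≠ 0) (x : E3) :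
    planeWave (kx ξ) (‖ξ‖⁻¹ • ξ) x = efun ξ x := by
  have hn : ‖ξ‖ ≠ 0 := norm_ne_zero_iff.mpr hξ
  unfold planeWave efun kx
  congr 1
  rw [real_inner_smul_left]
  have : Complex.I * ((2 * Real.pi * ‖ξ‖ : ℝ) : ℂ) * ((‖ξ‖⁻¹ * ⟪ξ, x⟫_ℝ : ℝ) : ℂ) =
      ((2 * Real.pi * ‖ξ‖ * (‖ξ‖⁻¹ * ⟪ξ, x⟫_ℝ) : ℝ) : ℂ) * Complex.I := by
    push_cast
    ring
  rw [this]
  congr 2
  field_simp

theorem eH_eq_ev (r : ℝ) {ξ : E3} (hξ : ξ ≠ 0) : eH r ξ = ev r (‖ξ‖⁻¹ • ξ) (kx ξ) := by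
  apply Lp.ext
  filter_upwards [eH_coe r ξ, ev_coe r (‖ξ‖⁻¹ • ξ) (kx ξ)] with x a b
  rw [a, b, planeWave_eq hξ, mul_comm]

theorem UX_eq_uk (s r : ℝ) (V : E3 → ℂ) {ξ : E3} (hξ : ξ ≠ 0) :
    UX s r V ξ = uk s r V (‖ξ‖⁻¹ • ξ) (kx ξ) := by
  rw [UX, uk, eH_eq_ev r hξ]

theorem UX_fix {s r : ℝ} {V : E3 → ℂ} {ξ : E3} (hT : ‖Tk s r V (kx ξ)‖ ≤ 1 / 2) :
    UX s r V ξ = eH r ξ + Kop s r (kx ξ) (mulL V (UX s r V ξ)) := by
  have hu : IsUnit (1 - Tk s r V (kx ξ)) :=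
    isUnit_one_sub_of_norm_lt_one (lt_of_le_of_lt hT (by norm_num))
  have h1 := Ring.mul_inverse_cancel _ hu
  have h2 : (1 - Tk s r V (kx ξ)) (UX s r V ξ) = eH r ξ := by
    have h3 := congrArg (fun A : HS →L[ℂ] HS => A (eH r ξ)) h1
    exact h3
  have h4 : UX s r V ξ - Kop s r (kx ξ) (mulL V (UX s r V ξ)) = eH r ξ := h2
  rw [← h4]
  abel

theorem norm_eH_le (r : ℝ) (ξ : E3) : ‖eH r ξ‖ ≤ ‖oneB r‖ := by
  refine ((mulL (efun ξ)).le_opNorm _).trans ?_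
  have := norm_mulL_le (efun_BM ξ) zero_le_one (Eventually.of_forall fun x => (norm_efun ξ x).le)
  calc ‖mulL (efun ξ)‖ * ‖oneB r‖ ≤ 1 * ‖oneB r‖ :=
        mul_le_mul_of_nonneg_right this (norm_nonneg _)
    _ = ‖oneB r‖ := one_mul _

theorem eH_Bd (r : ℝ) (ξ : E3) : Bd 1 (eH r ξ) := by
  filter_upwards [eH_coe r ξ] with x a
  rw [a, norm_mul, norm_efun, one_mul, indB]
  split_ifs <;> simp

theorem norm_UX_le {s r : ℝ} {V : E3 → ℂ} {ξ : E3} (hT : ‖Tk s r V (kx ξ)‖ ≤ 1 / 2) :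
    ‖UX s r V ξ‖ ≤ 2 * ‖oneB r‖ := by
  have h1 := UX_fix hT
  have h2 : ‖Kop s r (kx ξ) (mulL V (UX s r V ξ))‖ ≤ 1 / 2 * ‖UX s r V ξ‖ :=
    ((Tk s r V (kx ξ)).le_opNorm _).trans (mul_le_mul_of_nonneg_right hT (norm_nonneg _))
  have h3 : ‖UX s r V ξ‖ ≤ ‖eH r ξ‖ + ‖Kop s r (kx ξ) (mulL V (UX s r V ξ))‖ := by
    have := norm_add_le (eH r ξ) (Kop s r (kx ξ) (mulL V (UX s r V ξ)))
    rwa [← h1] at this
  have h4 := norm_eH_le r ξ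
  linarith

end FracScatC

end
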